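import Pool.Agent.H36.LN.P3b

/-!
# LN-P4: `C²` regularity of the potential of a `C¹` density

For `f` in `C_c¹`: `pot f` is the convolution `‖·‖⁻¹ ⋆ f` (`MeasureTheory.convolution`; `‖·‖⁻¹` is locally integrable), so
`HasCompactSupport.hasFDerivAt_convolution_right` gives `∂_i pot f = pot (∂_i f)`; by P3 it equals `gpot f · i`. Hence
`gpot f y i = pot (pd i f) y` (`gpot_eq_pot`). P3 applied to `pd i f` (continuous with compact support, hence `BCS`) gives
`HasFDerivAt (fun y => gpot f y i) (innerSL ℝ (gpot (pd i f) y)) y` with continuous `gpot (pd i f)`, from which `ContDiff ℝ 2 (pot f)`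
(`contDiff_succ_iff_fderiv`; `fderiv (pot f) y = innerSL ℝ (gpot f y)`, components `gpot f y i` are `C¹`).
(Or: `pot f y = ∫ ‖z‖⁻¹ f(y-z) dz` and differentiate under the integral.)
-/

open MeasureTheory Set Metric

namespace Pool.Agent.H36.LN

theorem CC1.bcs {f : E3 → ℝ} (hf : CC1 f) : BCS f := by
  refine ⟨hf.c1.continuous.measurable, ?_, ?_⟩
  · obtain ⟨C, hC⟩ := hf.cs.exists_bound_of_continuous hf.c1.continuous
    exact ⟨C, fun x => by simpa [Real.norm_eq_abs] using hC x⟩
  · obtain ⟨R, hR⟩ := hf.cs.isCompact.isBounded.subset_closedBall 0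
    refine ⟨R, fun x hx => ?_⟩
    by_contra h
    have h1 : x ∈ tsupport f := subset_tsupport f h
    have h2 := hR h1
    rw [mem_closedBall_zero_iff] at h2
    linarith

theorem CC1.pd_cont {f : E3 → ℝ} (hf : CC1 f) (i : Fin 3) : Continuous (pd i f) := by
  have h := hf.c1.continuous_fderiv (by norm_num)
  exact h.clm_apply continuous_const

theorem CC1.pd_cs {f : E3 → ℝ} (hf : CC1 f) (i : Fin 3) : HasCompactSupport (pd i f) :=
  hf.cs.fderiv_apply ℝ (ee i)

theorem bcs_of_cont {f : E3 → ℝ} (hc : Continuous f) (hs : HasCompactSupport f) : BCS f := by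
  refine ⟨hc.measurable, ?_, ?_⟩
  · obtain ⟨C, hC⟩ := hs.exists_bound_of_continuous hc
    exact ⟨C, fun x => by simpa [Real.norm_eq_abs] using hC x⟩
  · obtain ⟨R, hR⟩ := hs.isCompact.isBounded.subset_closedBall 0
    refine ⟨R, fun x hx => ?_⟩
    by_contra h
    have h1 : x ∈ tsupport f := subset_tsupport f h
    have h2 := hR h1
    rw [mem_closedBall_zero_iff] at h2
    linarith

theorem CC1.pd_bcs {f : E3 → ℝ} (hf : CC1 f) (i : Fin 3) : BCS (pd i f) :=
  bcs_of_cont (hf.pd_cont i) (hf.pd_cs i)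

theorem locint_kern : LocallyIntegrable (fun z : E3 => ‖z‖⁻¹) := by
  rw [locallyIntegrable_iff]
  intro k hk
  obtain ⟨R, hR⟩ := hk.isBounded.subset_closedBall 0
  have h := kern_int R 1 (by norm_num) 0
  simp only [zero_sub, norm_neg, pow_one] at h
  exact h.mono_set hR

theorem pot_eq_conv (f : E3 → ℝ) :
    pot f = convolution (fun z : E3 => ‖z‖⁻¹) f (ContinuousLinearMap.mul ℝ ℝ) volume := by
  funext y
  unfold pot convolution
  simp only [ContinuousLinearMap.mul_apply']
  rw [← integral_sub_left_eq_self (fun z : E3 => ‖z‖⁻¹ * f (y - z)) volume y]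
  simp

theorem inner_ee (v : E3) (i : Fin 3) : innerSL ℝ v (ee i) = v i := by
  simp [ee, innerSL_apply_apply, EuclideanSpace.inner_single_right]

theorem gpot_eq_pot {f : E3 → ℝ} (hf : CC1 f) (i : Fin 3) (y : E3) :
    gpot f y i = pot (pd i f) y := by
  have h1 := hasFDerivAt_pot hf.bcs y
  have h2 := hf.cs.hasFDerivAt_convolution_right (ContinuousLinearMap.mul ℝ ℝ) locint_kern hf.c1 y
  rw [← pot_eq_conv] at h2
  have h3 := h1.unique h2
  have h4 := congrArg (fun L : E3 →L[ℝ] ℝ => L (ee i)) h3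
  simp only [inner_ee] at h4
  rw [h4, pot_eq_conv]
  have hex : ConvolutionExistsAt (fun z : E3 => ‖z‖⁻¹) (fderiv ℝ f) y
      (ContinuousLinearMap.precompR E3 (ContinuousLinearMap.mul ℝ ℝ)) volume :=
    (hf.cs.fderiv ℝ).convolutionExists_right _ locint_kern
      (hf.c1.continuous_fderiv (by norm_num)) y
  unfold convolution
  rw [ContinuousLinearMap.integral_apply hex]
  rfl

theorem fderiv_pot {f : E3 → ℝ} (hf : BCS f) (y : E3) :
    fderiv ℝ (pot f) y = innerSL ℝ (gpot f y) := (hasFDerivAt_pot hf y).fderiv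

theorem contDiff_two_pot {f : E3 → ℝ} (hf : CC1 f) : ContDiff ℝ 2 (pot f) := by
  have h : ContDiff ℝ (1 + 1) (pot f) := by
    rw [contDiff_succ_iff_fderiv]
    refine ⟨(contDiff_pot hf.bcs).differentiable (by norm_num), by simp, ?_⟩
    have hg : ContDiff ℝ 1 (gpot f) := by
      rw [contDiff_euclidean]
      intro i
      have : (fun x => (gpot f x).ofLp i) = pot (pd i f) := by
        funext x
        exact gpot_eq_pot hf i x
      rw [this]
      exact contDiff_pot (hf.pd_bcs i)
    have he : fderiv ℝ (pot f) = fun y => innerSL ℝ (gpot f y) := by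
      funext y
      exact fderiv_pot hf.bcs y
    rw [he]
    exact (innerSL ℝ).contDiff.comp hg
  have e : (1 + 1 : WithTop ℕ∞) = 2 := by norm_num
  rwa [e] at h

theorem line_gpot {f : E3 → ℝ} (hf : CC1 f) (i j : Fin 3) (y : E3) :
    HasLineDerivAt ℝ (fun y => gpot f y i) (gpot (pd i f) y j) y (ee j) := by
  have : (fun y => gpot f y i) = pot (pd i f) := by
    funext x
    exact gpot_eq_pot hf i x
  rw [this]
  exact line_pot (hf.pd_bcs i) j y

end Pool.Agent.H36.LN
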