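import Pool.Agent.H36.LN.Defs

/-!
# LN-S0: one-variable facts about `β`

`β` is `C²`, nondecreasing, `0` on `(-∞,0]`, `1` on `[ε,∞)`. `deriv β` is `C¹`, nonnegative, supported in `[0,ε]`, so bounded and Lipschitz. One constant `L` for all.
`beta_exists`: `β s = Real.smoothTransition (s/ε)`.
-/

open MeasureTheory Set

namespace Pool.Agent.H36.LN

theorem Beta.mem {ε : ℝ} {β : ℝ → ℝ} (h : Beta ε β) (s : ℝ) : 0 ≤ β s ∧ β s ≤ 1 := by
  constructor
  · rcases le_total s 0 with hs | hs
    · rw [h.zero s hs]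
    · rw [← h.zero 0 le_rfl]; exact h.mono hs
  · rcases le_total s ε with hs | hs
    · rw [← h.one ε le_rfl]; exact h.mono hs
    · rw [h.one s hs]

theorem Beta.deriv_c1 {ε : ℝ} {β : ℝ → ℝ} (h : Beta ε β) : ContDiff ℝ 1 (deriv β) := by
  have h2 : ContDiff ℝ (1 + 1) β := by
    have := h.c2
    norm_num
    exact this
  exact (contDiff_succ_iff_deriv.1 h2).2.2

theorem Beta.deriv_zero {ε : ℝ} {β : ℝ → ℝ} (h : Beta ε β) {s : ℝ} (hs : s ≤ 0 ∨ ε ≤ s) :
    deriv β s = 0 := by
  rcases hs with hs | hs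
  · have h1 : IsLocalMin β s := Filter.Eventually.of_forall fun t => by
      rw [h.zero s hs]; exact (h.mem t).1
    exact h1.deriv_eq_zero
  · have h1 : IsLocalMax β s := Filter.Eventually.of_forall fun t => by
      rw [h.one s hs]; exact (h.mem t).2
    exact h1.deriv_eq_zero

/-- a continuous function vanishing outside `[0,ε]` is bounded -/
theorem s0_bdd {ε : ℝ} {g : ℝ → ℝ} (hg : Continuous g) (h0 : ∀ s, s ≤ 0 ∨ ε ≤ s → g s = 0) :
    ∃ C : ℝ, 0 ≤ C ∧ ∀ s, |g s| ≤ C := by
  obtain ⟨C, hC⟩ := (isCompact_Icc (a := (0 : ℝ)) (b := ε)).exists_bound_of_continuousOn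
    hg.continuousOn
  refine ⟨max C 0, le_max_right _ _, fun s => ?_⟩
  by_cases hs : s ≤ 0 ∨ ε ≤ s
  · rw [h0 s hs, abs_zero]; exact le_max_right _ _
  · push Not at hs
    exact (hC s ⟨hs.1.le, hs.2.le⟩).trans (le_max_left _ _)

/-- mean value inequality on the line -/
theorem s0_mv {f : ℝ → ℝ} (hf : Differentiable ℝ f) {C s t : ℝ}
    (hC : ∀ u ∈ uIcc s t, |deriv f u| ≤ C) : |f t - f s| ≤ C * |t - s| :=
  (convex_uIcc s t).norm_image_sub_le_of_norm_deriv_le (fun u _ => hf u) hC
    left_mem_uIcc right_mem_uIcc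

/-- all the bounds with one constant -/
theorem Beta.bounds {ε : ℝ} {β : ℝ → ℝ} (h : Beta ε β) : ∃ L : ℝ, 0 < L ∧
    (∀ s t, |β s - β t| ≤ L * |s - t|) ∧ (∀ s, 0 ≤ deriv β s ∧ deriv β s ≤ L) ∧
    (∀ s t, |β t - β s - deriv β s * (t - s)| ≤ L * (t - s) ^ 2) ∧
    (∀ s, 0 ≤ s → β s ≤ L * s) := by
  have hβ : Differentiable ℝ β := h.c2.differentiable (by norm_num)
  have hd := h.deriv_c1
  have hdd : Differentiable ℝ (deriv β) := hd.differentiable (by norm_num)
  obtain ⟨C1, hC1, h1⟩ := s0_bdd (ε := ε) hd.continuous fun s hs => h.deriv_zero hs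
  have hc2 : Continuous (deriv (deriv β)) := hd.continuous_deriv (by norm_num)
  have hmin : ∀ s, 0 ≤ deriv β s := fun s => h.mono.deriv_nonneg
  obtain ⟨C2, hC2, h2⟩ := s0_bdd (ε := ε) hc2 fun s hs => by
    have : IsLocalMin (deriv β) s := Filter.Eventually.of_forall fun t => by
      rw [h.deriv_zero hs]; exact hmin t
    exact this.deriv_eq_zero
  have hlip : ∀ s t, |β s - β t| ≤ (C1 + C2 + 1) * |s - t| := fun s t =>
    (s0_mv hβ (C := C1 + C2 + 1) fun u _ => by linarith [h1 u])
  refine ⟨C1 + C2 + 1, by positivity, hlip, fun s => ⟨hmin s, ?_⟩, fun s t => ?_, fun s hs => ?_⟩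
  · linarith [le_abs_self (deriv β s), h1 s]
  · have hg : ∀ u, HasDerivAt (fun u => β u - deriv β s * u) (deriv β u - deriv β s) u := fun u => by
      have h0 := (hβ u).hasDerivAt.sub ((hasDerivAt_id u).const_mul (deriv β s))
      rw [mul_one] at h0
      exact h0
    have h3 := s0_mv (f := fun u => β u - deriv β s * u) (fun u => (hg u).differentiableAt)
      (C := (C1 + C2 + 1) * |t - s|) (s := s) (t := t) fun u hu => by
        rw [(hg u).deriv]
        have h4 : |deriv β u - deriv β s| ≤ (C1 + C2 + 1) * |u - s| :=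
          s0_mv hdd fun w _ => by linarith [h2 w]
        have h5 : |u - s| ≤ |t - s| := by
          have := abs_sub_left_of_mem_uIcc hu
          rwa [abs_sub_comm] at this ⊢
        exact h4.trans (mul_le_mul_of_nonneg_left h5 (by positivity))
    have h6 : β t - deriv β s * t - (β s - deriv β s * s) = β t - β s - deriv β s * (t - s) := by
      ring
    rw [h6] at h3
    refine h3.trans (le_of_eq ?_)
    rw [mul_assoc, ← pow_two, sq_abs]
  · have h7 := hlip s 0
    rw [h.zero 0 le_rfl, sub_zero, sub_zero, abs_of_nonneg hs] at h7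
    exact (le_abs_self _).trans h7

theorem beta_exists {ε : ℝ} (hε : 0 < ε) : ∃ β, Beta ε β := by
  refine ⟨fun s => Real.smoothTransition (s / ε), hε, ?_, ?_, ?_, ?_⟩
  · exact (Real.smoothTransition.contDiff (n := 2)).comp (contDiff_id.div_const ε)
  · exact Real.smoothTransition.monotone.comp fun a b hab => div_le_div_of_nonneg_right hab hε.le
  · intro s hs
    exact Real.smoothTransition.zero_of_nonpos (div_nonpos_of_nonpos_of_nonneg hs hε.le)
  · intro s hs
    exact Real.smoothTransition.one_of_one_le ((one_le_div hε).2 hs)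

end Pool.Agent.H36.LN
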