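import Pool.Agent.H36.LN.P2b
import Pool.Agent.H36.LN.S0

/-!
# LN-S2: Lipschitz dependence on the source (and uniqueness)

`δm = m₁ - m₀`, `δψ = ψ₁ - ψ₀ = (S₁ - S₀) - pot(ρ δm)` (`pot_sub`). Since `β` is nondecreasing and `L`-Lipschitz, `δm² ≤ L δm δψ` on `{ρ ≠ 0}`. Multiply by `ρ`
and integrate: `(1/L)∫ρδm² ≤ K∫ρ|δm| - ∫ρδm pot(ρδm) ≤ K∫ρ|δm| ≤ K √(∫ρ) √(∫ρδm²)` (`en_nonneg`, `L2.int_one`), so `√(∫ρδm²) ≤ L K √(∫ρ)`. Then
`|pot(ρδm)| ≤ C₀ L K √(∫ρ)` everywhere (`l2_pot`), `|δψ| ≤ (1 + C₀ L√(∫ρ)) K` and `|δm| ≤ L|δψ|` on `{ρ ≠ 0}`.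
-/

open MeasureTheory Set

namespace Pool.Agent.H36.LN

/-- a nondecreasing `L`-Lipschitz function of one variable -/
theorem S2_beta {β : ℝ → ℝ} (hm : Monotone β) {L : ℝ} (hL : ∀ s t, |β s - β t| ≤ L * |s - t|)
    (a b : ℝ) : (β a - β b) ^ 2 ≤ L * ((β a - β b) * (a - b)) := by
  have h1 : 0 ≤ (β a - β b) * (a - b) := by
    rcases le_total a b with h | h
    · exact mul_nonneg_of_nonpos_of_nonpos (sub_nonpos.2 (hm h)) (sub_nonpos.2 h)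
    · exact mul_nonneg (sub_nonneg.2 (hm h)) (sub_nonneg.2 h)
  have h2 : |β a - β b| * |β a - β b| ≤ |β a - β b| * (L * |a - b|) :=
    mul_le_mul_of_nonneg_left (hL a b) (abs_nonneg _)
  have h3 : |β a - β b| * |a - b| = (β a - β b) * (a - b) := by
    rw [← abs_mul, abs_of_nonneg h1]
  calc (β a - β b) ^ 2 = |β a - β b| * |β a - β b| := by rw [abs_mul_abs_self]; ring
    _ ≤ |β a - β b| * (L * |a - b|) := h2
    _ = L * (|β a - β b| * |a - b|) := by ring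
    _ = _ := by rw [h3]

theorem lip_lemma {ρ : E3 → ℝ} (hρ : Wt ρ) {β : ℝ → ℝ} (hm : Monotone β) {L : ℝ} (hL0 : 0 < L)
    (hL : ∀ s t, |β s - β t| ≤ L * |s - t|) :
    ∃ C : ℝ, 0 < C ∧ ∀ (K : ℝ) (S₀ S₁ m₀ m₁ : E3 → ℝ), 0 ≤ K → L2 ρ m₀ → L2 ρ m₁ →
      (∀ y, ρ y ≠ 0 → m₀ y = β (S₀ y - pot (fun z => ρ z * m₀ z) y)) →
      (∀ y, ρ y ≠ 0 → m₁ y = β (S₁ y - pot (fun z => ρ z * m₁ z) y)) →
      (∀ y, ρ y ≠ 0 → |S₁ y - S₀ y| ≤ K) →
      (∀ y, ρ y ≠ 0 → |m₁ y - m₀ y| ≤ C * K) ∧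
      (∀ y, |pot (fun z => ρ z * m₁ z) y - pot (fun z => ρ z * m₀ z) y| ≤ C * K) := by
  obtain ⟨C₀, hC₀, hpot⟩ := l2_pot hρ
  set R : ℝ := Real.sqrt (∫ z, ρ z) with hR
  have hR0 : 0 ≤ R := Real.sqrt_nonneg _
  refine ⟨L * (1 + C₀ * L * R) + C₀ * L * R, by positivity, ?_⟩
  intro K S₀ S₁ m₀ m₁ hK h₀ h₁ e₀ e₁ hS
  have hD : L2 ρ (fun z => m₁ z - m₀ z) := L2.sub hρ h₁ h₀
  have hP : ∀ y, pot (fun z => ρ z * (m₁ z - m₀ z)) y =
      pot (fun z => ρ z * m₁ z) y - pot (fun z => ρ z * m₀ z) y := fun y => pot_sub hρ h₁ h₀ y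
  set P : E3 → ℝ := pot (fun z => ρ z * (m₁ z - m₀ z)) with hPdef
  have hPL2 : L2 ρ P := l2_pot_l2 hρ hD
  set I : ℝ := ∫ z, ρ z * (m₁ z - m₀ z) ^ 2 with hI
  have hen : 0 ≤ ∫ z, ρ z * ((m₁ z - m₀ z) * P z) := en_nonneg hρ hD
  have hone := L2.int_one hρ hD
  have habsint : Integrable (fun z => ρ z * |m₁ z - m₀ z|) := by
    have h := hone.1.abs
    refine h.congr (Filter.Eventually.of_forall fun z => ?_)
    show |ρ z * (m₁ z - m₀ z)| = ρ z * |m₁ z - m₀ z|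
    rw [abs_mul, abs_of_nonneg (hρ.nonneg z)]
  have hmulint : Integrable (fun z => ρ z * ((m₁ z - m₀ z) * P z)) := L2.int_mul hρ hD hPL2
  have key : I ≤ L * K * (∫ z, ρ z * |m₁ z - m₀ z|) - L * ∫ z, ρ z * ((m₁ z - m₀ z) * P z) := by
    rw [← integral_const_mul, ← integral_const_mul,
      ← integral_sub (habsint.const_mul _) (hmulint.const_mul _)]
    refine integral_mono hD.int ((habsint.const_mul _).sub (hmulint.const_mul _)) fun z => ?_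
    show ρ z * (m₁ z - m₀ z) ^ 2 ≤
      L * K * (ρ z * |m₁ z - m₀ z|) - L * (ρ z * ((m₁ z - m₀ z) * P z))
    by_cases hz : ρ z = 0
    · simp [hz]
    · have hb := S2_beta hm hL (S₁ z - pot (fun z => ρ z * m₁ z) z)
        (S₀ z - pot (fun z => ρ z * m₀ z) z)
      rw [← e₁ z hz, ← e₀ z hz] at hb
      have e2 : (S₁ z - pot (fun z => ρ z * m₁ z) z) - (S₀ z - pot (fun z => ρ z * m₀ z) z) =
          (S₁ z - S₀ z) - P z := by
        rw [hP z]; ring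
      rw [e2] at hb
      have h3 : (m₁ z - m₀ z) * (S₁ z - S₀ z) ≤ |m₁ z - m₀ z| * K := by
        calc (m₁ z - m₀ z) * (S₁ z - S₀ z) ≤ |(m₁ z - m₀ z) * (S₁ z - S₀ z)| := le_abs_self _
          _ = |m₁ z - m₀ z| * |S₁ z - S₀ z| := abs_mul _ _
          _ ≤ |m₁ z - m₀ z| * K := mul_le_mul_of_nonneg_left (hS z hz) (abs_nonneg _)
      have h4 : (m₁ z - m₀ z) ^ 2 ≤ L * (|m₁ z - m₀ z| * K) - L * ((m₁ z - m₀ z) * P z) := by
        have := mul_le_mul_of_nonneg_left h3 hL0.le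
        nlinarith
      have h5 := mul_le_mul_of_nonneg_left h4 (hρ.nonneg z)
      calc _ ≤ _ := h5
        _ = _ := by ring
  have hI0 : 0 ≤ I := integral_nonneg fun z => mul_nonneg (hρ.nonneg z) (sq_nonneg _)
  have hsq : Real.sqrt I ≤ L * K * R := by
    have h6 : I ≤ L * K * (R * Real.sqrt I) := by
      have h7 : L * K * (∫ z, ρ z * |m₁ z - m₀ z|) ≤ L * K * (R * Real.sqrt I) :=
        mul_le_mul_of_nonneg_left hone.2 (by positivity)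
      have h8 : 0 ≤ L * ∫ z, ρ z * ((m₁ z - m₀ z) * P z) := mul_nonneg hL0.le hen
      linarith
    by_contra hcon
    rw [not_le] at hcon
    have h9 : 0 < Real.sqrt I := lt_of_le_of_lt (by positivity) hcon
    have h10 : Real.sqrt I * Real.sqrt I = I := Real.mul_self_sqrt hI0
    have h11 : L * K * R * Real.sqrt I < Real.sqrt I * Real.sqrt I :=
      mul_lt_mul_of_pos_right hcon h9
    nlinarith
  have hPb : ∀ y, |P y| ≤ C₀ * (L * K * R) := fun y =>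
    ((hpot _ hD y).2).trans (mul_le_mul_of_nonneg_left hsq hC₀.le)
  refine ⟨fun y hy => ?_, fun y => ?_⟩
  · have h1 : |m₁ y - m₀ y| ≤ L * |(S₁ y - pot (fun z => ρ z * m₁ z) y) -
        (S₀ y - pot (fun z => ρ z * m₀ z) y)| := by
      have := hL (S₁ y - pot (fun z => ρ z * m₁ z) y) (S₀ y - pot (fun z => ρ z * m₀ z) y)
      rwa [← e₁ y hy, ← e₀ y hy] at this
    have e2 : (S₁ y - pot (fun z => ρ z * m₁ z) y) - (S₀ y - pot (fun z => ρ z * m₀ z) y) =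
        (S₁ y - S₀ y) - P y := by
      rw [hP y]; ring
    rw [e2] at h1
    have h2 : |(S₁ y - S₀ y) - P y| ≤ K + C₀ * (L * K * R) :=
      (abs_sub _ _).trans (add_le_add (hS y hy) (hPb y))
    calc |m₁ y - m₀ y| ≤ L * |(S₁ y - S₀ y) - P y| := h1
      _ ≤ L * (K + C₀ * (L * K * R)) := mul_le_mul_of_nonneg_left h2 hL0.le
      _ ≤ (L * (1 + C₀ * L * R) + C₀ * L * R) * K := by
        have : 0 ≤ C₀ * L * R * K := by positivity
        nlinarith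
  · rw [← hP y]
    calc |P y| ≤ C₀ * (L * K * R) := hPb y
      _ ≤ (L * (1 + C₀ * L * R) + C₀ * L * R) * K := by
        have : 0 ≤ L * (1 + C₀ * L * R) * K := by positivity
        nlinarith

end Pool.Agent.H36.LN
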