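import Pool.Agent.H36.LN.S1
import Pool.Agent.H36.LN.S2

/-!
# LN-S7: the linear problem `q + pot(v q) = s`

* `lin_exists`: `fix_exists` with `β = id`.
* `IsLin.unique`: `lip_lemma`-type argument, or directly: `δ = q - q'`, `∫vδ² = -∫vδ pot(vδ) ≤ 0`, so `vδ = 0` a.e., so `pot(vδ) = 0` and `δ = 0` everywhere.
  Only for the same source on `{v ≠ 0}`: `IsLin.congr`: if `s = s'` on `{v ≠ 0}` then `v q = v q'` everywhere.
* `IsLin.symm`: `∫ v q s' = ∫ v q (q' + pot(v q'))`, symmetric in `q, q'` (`en_symm`, `L2.int_mul`, `en_int`).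
* `IsLin.energy`: `∫ v q s = ∫ v q² + ∫ v q pot(vq) ≥ ∫vq²` (`en_nonneg`), and `∫vqs ≤ ½∫vq² + ½∫vs²`.
-/

open MeasureTheory Set

namespace Pool.Agent.H36.LN

variable {v s s' q q' : E3 → ℝ}

theorem lin_exists (hv : Wt v) (hs : L2 v s) : ∃ q, IsLin v s q := by
  obtain ⟨m, hm, h⟩ := fix_exists hv (β := id) monotone_id (L := 1) LipschitzWith.id hs
  exact ⟨m, hm, h⟩

theorem lin_spec (hv : Wt v) (hs : L2 v s) : IsLin v s (lin v s) := by
  unfold lin
  rw [dif_pos (lin_exists hv hs)]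
  exact (lin_exists hv hs).choose_spec

theorem IsLin.congr (hv : Wt v) (h : IsLin v s q) (h' : IsLin v s' q')
    (hs : ∀ z, v z ≠ 0 → s z = s' z) (z : E3) : v z * q z = v z * q' z := by
  have hd : L2 v (fun z => q z - q' z) := L2.sub hv h.l2 h'.l2
  have e1 : ∀ y, v y ≠ 0 → q y - q' y = - pot (fun z => v z * (q z - q' z)) y := by
    intro y hy
    rw [pot_sub hv h.l2 h'.l2, h.eq y, h'.eq y, hs y hy]
    ring
  have e2 : ∀ y, v y * (q y - q' y) ^ 2 =
      - (v y * ((q y - q' y) * pot (fun z => v z * (q z - q' z)) y)) := by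
    intro y
    by_cases hy : v y = 0
    · rw [hy]
      ring
    · have := e1 y hy
      calc v y * (q y - q' y) ^ 2 = v y * ((q y - q' y) * (q y - q' y)) := by ring
        _ = v y * ((q y - q' y) * (- pot (fun z => v z * (q z - q' z)) y)) := by
            rw [← this]
        _ = _ := by ring
  have h0 : 0 ≤ ∫ z, v z * ((q z - q' z) * pot (fun w => v w * (q w - q' w)) z) :=
    en_nonneg hv hd
  have h1 : ∫ z, v z * (q z - q' z) ^ 2 = 0 := by
    have h2 : ∫ z, v z * (q z - q' z) ^ 2 =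
        - ∫ z, v z * ((q z - q' z) * pot (fun w => v w * (q w - q' w)) z) := by
      rw [← integral_neg]
      exact integral_congr_ae (Filter.Eventually.of_forall e2)
    have h3 : 0 ≤ ∫ z, v z * (q z - q' z) ^ 2 :=
      integral_nonneg fun z => mul_nonneg (hv.nonneg z) (sq_nonneg _)
    linarith
  have h2 : (fun z => v z * (q z - q' z) ^ 2) =ᵐ[volume] 0 :=
    (integral_eq_zero_iff_of_nonneg (fun z => mul_nonneg (hv.nonneg z) (sq_nonneg _)) hd.int).1 h1
  have h3 : (fun z => v z * (q z - q' z)) =ᵐ[volume] fun _ => 0 := by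
    filter_upwards [h2] with z hz
    have hz' : v z * (q z - q' z) ^ 2 = 0 := hz
    rcases mul_eq_zero.1 hz' with h | h
    · rw [h, zero_mul]
    · rw [pow_eq_zero_iff two_ne_zero] at h
      rw [h, mul_zero]
  have h4 : ∀ y, pot (fun z => v z * (q z - q' z)) y = 0 := by
    intro y
    unfold pot
    have : (fun z => ‖y - z‖⁻¹ * (v z * (q z - q' z))) =ᵐ[volume] fun _ => 0 := by
      filter_upwards [h3] with z hz
      rw [hz, mul_zero]
    rw [integral_congr_ae this, integral_zero]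
  by_cases hz : v z = 0
  · rw [hz, zero_mul, zero_mul]
  · have := e1 z hz
    rw [h4, neg_zero] at this
    rw [sub_eq_zero.1 this]

theorem S7_exp (hv : Wt v) (h : IsLin v s q) {p : E3 → ℝ} (hp : L2 v p) :
    ∫ z, v z * p z * s z = (∫ z, v z * (p z * q z)) +
      ∫ z, v z * (p z * pot (fun w => v w * q w) z) := by
  rw [← integral_add (L2.int_mul hv hp h.l2) (en_int hv hp h.l2)]
  refine integral_congr_ae (Filter.Eventually.of_forall fun z => ?_)
  have e := h.eq z
  show v z * p z * s z = v z * (p z * q z) + v z * (p z * pot (fun w => v w * q w) z)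
  have : s z = q z + pot (fun w => v w * q w) z := by linarith
  rw [this]
  ring

theorem IsLin.symm (hv : Wt v) (hs : L2 v s) (hs' : L2 v s') (h : IsLin v s q) (h' : IsLin v s' q') :
    ∫ z, v z * q z * s' z = ∫ z, v z * q' z * s z := by
  rw [S7_exp hv h' h.l2, S7_exp hv h h'.l2, en_symm hv h.l2 h'.l2]
  congr 1
  refine integral_congr_ae (Filter.Eventually.of_forall fun z => ?_)
  show v z * (q z * q' z) = v z * (q' z * q z)
  ring

theorem IsLin.energy (hv : Wt v) (hs : L2 v s) (h : IsLin v s q) :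
    (∫ z, v z * q z ^ 2) ≤ (∫ z, v z * q z * s z) ∧
    (∫ z, v z * q z * s z) ≤ ∫ z, v z * s z ^ 2 := by
  have e1 : ∫ z, v z * (q z * q z) = ∫ z, v z * q z ^ 2 := by
    refine integral_congr_ae (Filter.Eventually.of_forall fun z => ?_)
    show v z * (q z * q z) = v z * q z ^ 2
    ring
  have h1 : (∫ z, v z * q z ^ 2) ≤ (∫ z, v z * q z * s z) := by
    rw [S7_exp hv h h.l2, e1]
    have := en_nonneg hv h.l2
    linarith
  refine ⟨h1, ?_⟩
  have h2 : (∫ z, v z * q z * s z) ≤
      ∫ z, ((1 / 2) * (v z * q z ^ 2) + (1 / 2) * (v z * s z ^ 2)) := by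
    refine integral_mono ?_ ((h.l2.int.const_mul _).add (hs.int.const_mul _)) fun z => ?_
    · have e2 : (fun z => v z * q z * s z) = fun z => v z * (q z * s z) := by
        funext z
        ring
      rw [e2]
      exact L2.int_mul hv h.l2 hs
    · show v z * q z * s z ≤ (1 / 2) * (v z * q z ^ 2) + (1 / 2) * (v z * s z ^ 2)
      nlinarith [mul_nonneg (hv.nonneg z) (sq_nonneg (q z - s z))]
  rw [integral_add (h.l2.int.const_mul _) (hs.int.const_mul _), integral_const_mul,
    integral_const_mul] at h2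
  linarith

/-- `q` is bounded on the support of `v` when `s` is -/
theorem IsLin.bcs (hv : Wt v) (h : IsLin v s q) {C : ℝ} (hC : ∀ z, v z ≠ 0 → |s z| ≤ C) :
    BCS (fun z => v z * q z) := by
  obtain ⟨C₀, hC₀, hp⟩ := l2_pot hv
  obtain ⟨B, hB⟩ := hv.bcs.bdd
  obtain ⟨R, hR⟩ := hv.bcs.supp
  have hqm := h.l2.meas
  have hvm := hv.bcs.meas
  have hB0 : 0 ≤ B := (abs_nonneg _).trans (hB 0)
  refine ⟨by fun_prop, ⟨B * (|C| + C₀ * Real.sqrt (∫ z, v z * q z ^ 2)), fun z => ?_⟩,
    ⟨R, fun z hz => by rw [hR z hz, zero_mul]⟩⟩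
  have hK : 0 ≤ |C| + C₀ * Real.sqrt (∫ z, v z * q z ^ 2) := by positivity
  rw [abs_mul]
  by_cases hz : v z = 0
  · rw [hz, abs_zero, zero_mul]
    exact mul_nonneg hB0 hK
  · refine mul_le_mul (hB z) ?_ (abs_nonneg _) hB0
    rw [h.eq z]
    refine (abs_sub _ _).trans (add_le_add ((hC z hz).trans (le_abs_self C)) (hp q h.l2 z).2)

end Pool.Agent.H36.LN
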