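import Pool.Agent.H36.LN.S5b
import Pool.Agent.H36.LN.S7
import Pool.Agent.H36.LN.P4

/-!
# LN-D1: regularity of `μ = ρ β(ψ)` and `v = ρ β'(ψ)`

* `psi_c1`: `ψ(y) = M‖y-x‖⁻¹ - pot μ(y)`, `pot μ` is `C¹` (`contDiff_pot`, `mu_bcs`), `‖y-x‖⁻¹` is smooth for `y ≠ x`.
* With `S` from `pot_sup` and `r₁ = M/(ε+S)`: for `‖y-x‖ ≤ r₁`: `μ = ρ` (`mm_near`) and `v = 0` (`psi_near` and `Beta.deriv_zero`; at `y = x` the Lean value of `ψ` is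
  `- pot μ(x) ≤ 0`, so again `deriv β = 0`): near `x` both are `C¹` as `ρ` is; away from `x` they are `ρ·β(ψ)`, `ρ·β'(ψ)` with `β`, `deriv β` of class `C¹` (`mm_eq`, `Beta.deriv_c1`).
  Support inside the support of `ρ`.
* `s0_bd`, `s1_bd`: on `{v ≠ 0}`: `‖y-x‖ ≥ r₁`, `|s0| ≤ r₁⁻¹`, `|s1| ≤ r₁⁻²`.
* `q0_lin`, `q1_lin`: `lin_spec` with `L2.of_bdd`; `vq0_bcs`, `vq1_bcs`: `IsLin.bcs`.
-/

open MeasureTheory Set Filter Topology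

namespace Pool.Agent.H36.LN

variable {ρ : E3 → ℝ} {ε : ℝ} {β : ℝ → ℝ}

private theorem d1_near {S : ℝ} (x : E3) {M : ℝ} (hM : 0 < M) (ε : ℝ) :
    ∀ᶠ z in 𝓝 x, ‖z - x‖ * (ε + S) ≤ M := by
  have h1 : Continuous (fun z : E3 => ‖z - x‖ * (ε + S)) := by fun_prop
  have h2 : (fun z : E3 => ‖z - x‖ * (ε + S)) x < M := by
    simp only [sub_self, norm_zero, zero_mul]
    exact hM
  exact (h1.continuousAt.eventually_lt continuousAt_const h2).mono fun z hz => hz.le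

theorem Nice.wt (hρ : Nice ρ) : Wt ρ :=
  ⟨bcs_of_cont hρ.c2.continuous hρ.cs, hρ.nonneg⟩

private theorem d1_psi (hρ : Wt ρ) (hβ : Beta ε β) (x : E3) {M : ℝ} (hM : 0 < M) {y : E3}
    (hy : y ≠ x) : ContDiffAt ℝ 1 (psi ρ β x M) y := by
  have h0 : y - x ≠ 0 := sub_ne_zero.2 hy
  have h1 : ContDiffAt ℝ 1 (fun z : E3 => ‖z - x‖) y :=
    ContDiffAt.norm ℝ (by fun_prop) h0
  have h2 : ContDiffAt ℝ 1 (fun z : E3 => ‖z - x‖⁻¹) y := h1.inv (norm_ne_zero_iff.2 h0)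
  exact (contDiffAt_const.mul h2).sub (contDiff_pot (mu_bcs hρ hβ x hM)).contDiffAt

theorem psi_c1 (hρ : Wt ρ) (hβ : Beta ε β) (x : E3) {M : ℝ} (hM : 0 < M) :
    ContDiffOn ℝ 1 (psi ρ β x M) {x}ᶜ :=
  fun _ hy => (d1_psi hρ hβ x hM hy).contDiffWithinAt

private theorem d1_c1 (hρ : Nice ρ) : ContDiff ℝ 1 ρ := hρ.c2.of_le (by norm_num)

theorem mu_cc1 (hρ : Nice ρ) (hβ : Beta ε β) (x : E3) {M : ℝ} (hM : 0 < M) :
    CC1 (mu ρ β x M) := by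
  obtain ⟨S, hS0, hS⟩ := pot_sup hρ.wt
  refine ⟨contDiff_iff_contDiffAt.2 fun y => ?_, ?_⟩
  · by_cases hy : y = x
    · subst hy
      have h : mu ρ β y M =ᶠ[𝓝 y] ρ := by
        filter_upwards [d1_near (S := S) y hM ε] with z hz
        simp only [mu, mm_near hρ.wt hβ hS y hM hz, mul_one]
      exact (d1_c1 hρ).contDiffAt.congr_of_eventuallyEq h
    · have h : mu ρ β x M =ᶠ[𝓝 y] fun z => ρ z * β (psi ρ β x M z) := by
        filter_upwards [isOpen_ne.mem_nhds hy] with z hz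
        simp only [mu, mm_eq hρ.wt hβ x hM hz]
      refine ContDiffAt.congr_of_eventuallyEq ?_ h
      have h1 : ContDiffAt ℝ 1 β (psi ρ β x M y) := (hβ.c2.of_le (by norm_num)).contDiffAt
      exact (d1_c1 hρ).contDiffAt.mul (h1.comp y (d1_psi hρ.wt hβ x hM hy))
  · exact hρ.cs.mul_right

theorem vv_near (hρ : Nice ρ) (hβ : Beta ε β) {S : ℝ} (hS : ∀ y, pot ρ y ≤ S) (x : E3) {M : ℝ}
    (hM : 0 < M) {y : E3} (h : ‖y - x‖ * (ε + S) ≤ M) : vv ρ β x M y = 0 := by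
  have h0 : deriv β (psi ρ β x M y) = 0 := by
    by_cases hy : y = x
    · subst hy
      refine hβ.deriv_zero (Or.inl ?_)
      have h1 := (pot_mu_mem hρ.wt hβ y hM y).1
      simp only [psi, sub_self, norm_zero, inv_zero, mul_zero]
      linarith
    · exact hβ.deriv_zero (Or.inr (psi_near hρ.wt hβ hS x hM hy h))
  simp only [vv, h0, mul_zero]

theorem vv_cc1 (hρ : Nice ρ) (hβ : Beta ε β) (x : E3) {M : ℝ} (hM : 0 < M) :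
    CC1 (vv ρ β x M) := by
  obtain ⟨S, hS0, hS⟩ := pot_sup hρ.wt
  refine ⟨contDiff_iff_contDiffAt.2 fun y => ?_, ?_⟩
  · by_cases hy : y = x
    · subst hy
      have h : vv ρ β y M =ᶠ[𝓝 y] fun _ => (0 : ℝ) := by
        filter_upwards [d1_near (S := S) y hM ε] with z hz
        exact vv_near hρ hβ hS y hM hz
      exact contDiffAt_const.congr_of_eventuallyEq h
    · have h1 : ContDiffAt ℝ 1 (deriv β) (psi ρ β x M y) := hβ.deriv_c1.contDiffAt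
      exact (d1_c1 hρ).contDiffAt.mul (h1.comp y (d1_psi hρ.wt hβ x hM hy))
  · exact hρ.cs.mul_right

theorem vv_nonneg (hρ : Nice ρ) (hβ : Beta ε β) (x : E3) (M : ℝ) (y : E3) :
    0 ≤ vv ρ β x M y := by
  obtain ⟨L, -, -, h, -⟩ := hβ.bounds
  exact mul_nonneg (hρ.nonneg y) (h _).1

theorem vv_le {L : ℝ} (hL : ∀ s, 0 ≤ deriv β s ∧ deriv β s ≤ L) (hρ : Nice ρ) (x : E3) (M : ℝ)
    (y : E3) : vv ρ β x M y ≤ L * ρ y := by
  rw [mul_comm]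
  exact mul_le_mul_of_nonneg_left (hL _).2 (hρ.nonneg y)

theorem vv_wt (hρ : Nice ρ) (hβ : Beta ε β) (x : E3) {M : ℝ} (hM : 0 < M) :
    Wt (vv ρ β x M) :=
  ⟨(vv_cc1 hρ hβ x hM).bcs, vv_nonneg hρ hβ x M⟩

private theorem d1_far (hρ : Nice ρ) (hβ : Beta ε β) {S : ℝ} (hS : ∀ y, pot ρ y ≤ S) (x : E3)
    {M : ℝ} (hM : 0 < M) {y : E3} (h : vv ρ β x M y ≠ 0) :
    0 < ‖y - x‖ ∧ ‖y - x‖⁻¹ ≤ (ε + S) / M := by
  have h1 : M < ‖y - x‖ * (ε + S) := by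
    by_contra h2
    exact h (vv_near hρ hβ hS x hM (not_lt.1 h2))
  have h2 : 0 < ‖y - x‖ := by
    refine lt_of_le_of_ne (norm_nonneg _) fun h3 => ?_
    rw [← h3, zero_mul] at h1
    exact absurd h1 (not_lt.2 hM.le)
  refine ⟨h2, ?_⟩
  rw [le_div_iff₀ hM, inv_mul_le_iff₀ h2]
  exact h1.le

theorem s0_bd (hρ : Nice ρ) (hβ : Beta ε β) {S : ℝ} (hS : ∀ y, pot ρ y ≤ S) (x : E3) {M : ℝ}
    (hM : 0 < M) {y : E3} (h : vv ρ β x M y ≠ 0) : |s0 x y| ≤ (ε + S) / M := by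
  have h1 := d1_far hρ hβ hS x hM h
  rw [s0, abs_of_nonneg (inv_nonneg.2 (norm_nonneg _))]
  exact h1.2

theorem s1_bd (hρ : Nice ρ) (hβ : Beta ε β) {S : ℝ} (hS : ∀ y, pot ρ y ≤ S) (x : E3) {M : ℝ}
    (hM : 0 < M) (i : Fin 3) {y : E3} (h : vv ρ β x M y ≠ 0) :
    |s1 x i y| ≤ ((ε + S) / M) * ‖y - x‖⁻¹ ∧ |s1 x i y| ≤ ((ε + S) / M) ^ 2 := by
  obtain ⟨h0, h1⟩ := d1_far hρ hβ hS x hM h
  have h2 : |(y - x) i| ≤ ‖y - x‖ := by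
    have h3 := EuclideanSpace.norm_sq_eq (y - x)
    have h4 : (y - x) i ^ 2 ≤ ‖y - x‖ ^ 2 := by
      rw [h3]
      have h5 := Finset.single_le_sum (f := fun j => ‖(y - x) j‖ ^ 2) (fun j _ => sq_nonneg _)
        (Finset.mem_univ i)
      simpa only [Real.norm_eq_abs, sq_abs] using h5
    exact abs_le_of_sq_le_sq h4 (norm_nonneg _)
  have hi : 0 ≤ ‖y - x‖⁻¹ := inv_nonneg.2 (norm_nonneg _)
  have h3 : |s1 x i y| ≤ ‖y - x‖⁻¹ * ‖y - x‖⁻¹ := by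
    rw [s1, abs_mul, abs_of_nonneg (pow_nonneg hi 3)]
    calc ‖y - x‖⁻¹ ^ 3 * |(y - x) i| ≤ ‖y - x‖⁻¹ ^ 3 * ‖y - x‖ :=
          mul_le_mul_of_nonneg_left h2 (pow_nonneg hi 3)
      _ = ‖y - x‖⁻¹ * ‖y - x‖⁻¹ := by
          field_simp
  refine ⟨h3.trans (mul_le_mul_of_nonneg_right h1 hi), h3.trans ?_⟩
  rw [sq]
  exact mul_le_mul h1 h1 hi (hi.trans h1)

private theorem d1_s0 (x : E3) : Measurable (s0 x) :=
  (measurable_id.sub_const x).norm.inv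

private theorem d1_s1 (x : E3) (i : Fin 3) : Measurable (s1 x i) := by
  have h1 : Measurable (fun y : E3 => (y - x) i) :=
    (by fun_prop : Continuous (fun y : E3 => (y - x) i)).measurable
  exact ((measurable_id.sub_const x).norm.inv.pow_const 3).mul h1

theorem s0_l2 (hρ : Nice ρ) (hβ : Beta ε β) (x : E3) {M : ℝ} (hM : 0 < M) :
    L2 (vv ρ β x M) (s0 x) := by
  obtain ⟨S, hS0, hS⟩ := pot_sup hρ.wt
  exact L2.of_bdd (vv_wt hρ hβ x hM) (d1_s0 x) fun z hz => s0_bd hρ hβ hS x hM hz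

theorem s1_l2 (hρ : Nice ρ) (hβ : Beta ε β) (x : E3) {M : ℝ} (hM : 0 < M) (i : Fin 3) :
    L2 (vv ρ β x M) (s1 x i) := by
  obtain ⟨S, hS0, hS⟩ := pot_sup hρ.wt
  exact L2.of_bdd (vv_wt hρ hβ x hM) (d1_s1 x i) fun z hz => (s1_bd hρ hβ hS x hM i hz).2

theorem q0_lin (hρ : Nice ρ) (hβ : Beta ε β) (x : E3) {M : ℝ} (hM : 0 < M) :
    IsLin (vv ρ β x M) (s0 x) (q0 ρ β x M) :=
  lin_spec (vv_wt hρ hβ x hM) (s0_l2 hρ hβ x hM)

theorem q1_lin (hρ : Nice ρ) (hβ : Beta ε β) (x : E3) {M : ℝ} (hM : 0 < M) (i : Fin 3) :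
    IsLin (vv ρ β x M) (s1 x i) (q1 ρ β x M i) :=
  lin_spec (vv_wt hρ hβ x hM) (s1_l2 hρ hβ x hM i)

theorem vq0_bcs (hρ : Nice ρ) (hβ : Beta ε β) (x : E3) {M : ℝ} (hM : 0 < M) :
    BCS (fun z => vv ρ β x M z * q0 ρ β x M z) := by
  obtain ⟨S, hS0, hS⟩ := pot_sup hρ.wt
  exact IsLin.bcs (vv_wt hρ hβ x hM) (q0_lin hρ hβ x hM) fun z hz => s0_bd hρ hβ hS x hM hz

theorem vq1_bcs (hρ : Nice ρ) (hβ : Beta ε β) (x : E3) {M : ℝ} (hM : 0 < M) (i : Fin 3) :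
    BCS (fun z => vv ρ β x M z * q1 ρ β x M i z) := by
  obtain ⟨S, hS0, hS⟩ := pot_sup hρ.wt
  exact IsLin.bcs (vv_wt hρ hβ x hM) (q1_lin hρ hβ x hM i)
    fun z hz => (s1_bd hρ hβ hS x hM i hz).2

end Pool.Agent.H36.LN
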