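import Pool.Agent.H36.LN.S2

/-!
# LN-S3: differentiable dependence on the source

Notation: `ψ_j = S_j - pot(ρ m_j)`, `w(z) = ρ(z) β'(ψ₀(z))`, `g = S' - pot(w g)` (`IsLin w S' g`). By `lip_lemma` with `K|t|`: `|ψ₁-ψ₀| ≤ C K|t|` on `{ρ ≠ 0}`.
Let `r = β(ψ₁) - β(ψ₀) - β'(ψ₀)(ψ₁-ψ₀)`, `|r| ≤ L(ψ₁-ψ₀)² ≤ C K² t²` on `{ρ≠0}` (`Beta.bounds`). `δ = ψ₁ - ψ₀ - t g` satisfies on `{ρ ≠ 0}`
`δ = (S₁-S₀-tS') - pot(ρ(m₁-m₀)) + t pot(w g) = (S₁ - S₀ - tS') - pot(ρ r) - pot(w δ)`, as `ρ(m₁-m₀) = w(ψ₁-ψ₀) + ρ r = w (δ + t g) + ρ r`.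
So `δ + pot(wδ) = e`, `|e| ≤ C(K + K²)t²` on `{ρ≠0}`. `δ ∈ L²(w)` (`ψ₁ - ψ₀` bounded on `{ρ≠0}`, measurable; `g ∈ L²(w)`), so
`∫wδ² ≤ ∫wδ² + ∫wδ pot(wδ) = ∫w δ e ≤ ½∫wδ² + ½∫w e²`, hence `∫wδ² ≤ ∫w e² ≤ C (K+K²)²t⁴`, and by `l2_pot` (use it with the weight `ρ`, as `w = ρ·β'(ψ₀)`, to have a constant
depending only on `ρ, β`) `|pot(wδ)| ≤ C(K+K²)t²`, so `|δ| ≤ C (K+K²) t²` on `{ρ ≠ 0}`. Finally `m₁ - m₀ - tβ'(ψ₀)g = β'(ψ₀)δ + r`.
(`S_j` and `S'` are assumed measurable; the constant `C` depends only on `ρ` and `β`.)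
-/

open MeasureTheory Set

namespace Pool.Agent.H36.LN

/-- `√(∫ v q²) ≤ √(∫ v) E` if `|q| ≤ E` on `{v ≠ 0}` -/
theorem s3_sqrt {v q : E3 → ℝ} (hv : Wt v) (hq : Measurable q) {E : ℝ} (hE : 0 ≤ E)
    (h : ∀ z, v z ≠ 0 → |q z| ≤ E) :
    Real.sqrt (∫ z, v z * q z ^ 2) ≤ Real.sqrt (∫ z, v z) * E := by
  have h1 : ∫ z, v z * q z ^ 2 ≤ (∫ z, v z) * E ^ 2 := by
    rw [← integral_mul_const]
    refine integral_mono (L2.of_bdd hv hq h).int (hv.bcs.int.mul_const _) fun z => ?_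
    show v z * q z ^ 2 ≤ v z * E ^ 2
    by_cases hz : v z = 0
    · simp [hz]
    · refine mul_le_mul_of_nonneg_left ?_ (hv.nonneg z)
      rw [← sq_abs (q z)]
      exact pow_le_pow_left₀ (abs_nonneg _) (h z hz) 2
  have h2 := Real.sqrt_le_sqrt h1
  rwa [Real.sqrt_mul (integral_nonneg hv.nonneg), Real.sqrt_sq hE] at h2

theorem diff_lemma {ρ : E3 → ℝ} (hρ : Wt ρ) {ε : ℝ} {β : ℝ → ℝ} (hβ : Beta ε β) :
    ∃ C : ℝ, 0 < C ∧ ∀ (K t : ℝ) (S₀ S₁ S' m₀ m₁ g : E3 → ℝ), 0 ≤ K →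
      Measurable S₀ → Measurable S₁ → Measurable S' → Measurable m₀ → Measurable m₁ →
      (∀ y, m₀ y = β (S₀ y - pot (fun z => ρ z * m₀ z) y)) →
      (∀ y, m₁ y = β (S₁ y - pot (fun z => ρ z * m₁ z) y)) →
      (∀ y, ρ y ≠ 0 → |S₁ y - S₀ y| ≤ K * |t|) →
      (∀ y, ρ y ≠ 0 → |S₁ y - S₀ y - t * S' y| ≤ K * t ^ 2) →
      IsLin (fun z => ρ z * deriv β (S₀ z - pot (fun z => ρ z * m₀ z) z)) S' g →
      ∀ y, |ρ y * m₁ y - ρ y * m₀ y
          - t * (ρ y * deriv β (S₀ y - pot (fun z => ρ z * m₀ z) y) * g y)| ≤ C * (K + K ^ 2) * t ^ 2 * ρ y := by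
  obtain ⟨L, hL0, hLip, hd, hT, -⟩ := hβ.bounds
  obtain ⟨C1, hC1, hlip⟩ := lip_lemma hρ hβ.mono hL0 hLip
  obtain ⟨C2, hC2, hpot⟩ := l2_pot hρ
  set I : ℝ := Real.sqrt (∫ z, ρ z) with hI
  have hI0 : 0 ≤ I := Real.sqrt_nonneg _
  set C3 : ℝ := 1 + C2 * I * (L * (1 + C1) ^ 2) with hC3
  have hC3p : 0 < C3 := by positivity
  refine ⟨L * ((1 + C2 * L * I) * C3) + L * (1 + C1) ^ 2 + 1, by positivity, ?_⟩
  intro K t S₀ S₁ S' m₀ m₁ g hK hS0 hS1 hS' hm0 hm1 he0 he1 hSl hSd hg y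
  have hL2m0 : L2 ρ m₀ := L2.of_bdd hρ hm0 (C := 1) fun z _ => by
    rw [he0 z, abs_of_nonneg (hβ.mem _).1]; exact (hβ.mem _).2
  have hL2m1 : L2 ρ m₁ := L2.of_bdd hρ hm1 (C := 1) fun z _ => by
    rw [he1 z, abs_of_nonneg (hβ.mem _).1]; exact (hβ.mem _).2
  set P0 : E3 → ℝ := pot (fun z => ρ z * m₀ z) with hP0
  set P1 : E3 → ℝ := pot (fun z => ρ z * m₁ z) with hP1
  have hP0m : Measurable P0 := l2_meas hρ hL2m0
  have hP1m : Measurable P1 := l2_meas hρ hL2m1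
  have hKt : 0 ≤ K * |t| := mul_nonneg hK (abs_nonneg _)
  obtain ⟨-, hPl⟩ := hlip (K * |t|) S₀ S₁ m₀ m₁ hKt hL2m0 hL2m1 (fun z _ => he0 z)
    (fun z _ => he1 z) hSl
  set ψ0 : E3 → ℝ := fun z => S₀ z - P0 z with hψ0
  set ψ1 : E3 → ℝ := fun z => S₁ z - P1 z with hψ1
  have hψ0m : Measurable ψ0 := hS0.sub hP0m
  have hψ1m : Measurable ψ1 := hS1.sub hP1m
  have hψd : ∀ z, ρ z ≠ 0 → |ψ1 z - ψ0 z| ≤ (1 + C1) * (K * |t|) := by
    intro z hz
    have h1 := hSl z hz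
    have h2 := hPl z
    have h3 : ψ1 z - ψ0 z = (S₁ z - S₀ z) - (P1 z - P0 z) := by
      simp only [hψ0, hψ1]; ring
    rw [h3]
    calc |(S₁ z - S₀ z) - (P1 z - P0 z)| ≤ |S₁ z - S₀ z| + |P1 z - P0 z| := abs_sub _ _
      _ ≤ K * |t| + C1 * (K * |t|) := add_le_add h1 h2
      _ = _ := by ring
  -- the linearised weight
  have hdc : Continuous (deriv β) := hβ.deriv_c1.continuous
  have hdm : Measurable fun z => deriv β (ψ0 z) := hdc.measurable.comp hψ0m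
  set w : E3 → ℝ := fun z => ρ z * deriv β (ψ0 z) with hw
  have hρm := hρ.bcs.meas
  have hwW : Wt w := by
    refine ⟨⟨hρm.mul hdm, ?_, ?_⟩, fun z => mul_nonneg (hρ.nonneg z) (hd _).1⟩
    · obtain ⟨B, hB⟩ := hρ.bcs.bdd
      refine ⟨B * L, fun z => ?_⟩
      rw [hw]
      simp only
      rw [abs_mul, abs_of_nonneg (hd _).1]
      exact mul_le_mul (hB z) (hd _).2 (hd _).1 ((abs_nonneg _).trans (hB z))
    · obtain ⟨R, hR⟩ := hρ.bcs.supp
      exact ⟨R, fun z hz => by simp [hw, hR z hz]⟩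
  have hwρ : ∀ z, w z ≠ 0 → ρ z ≠ 0 := by
    intro z hz h
    exact hz (by simp [hw, h])
  have hgl : L2 w g := hg.l2
  have hge : ∀ y, g y = S' y - pot (fun z => w z * g z) y := hg.eq
  -- the remainder
  set r : E3 → ℝ := fun z => β (ψ1 z) - β (ψ0 z) - deriv β (ψ0 z) * (ψ1 z - ψ0 z) with hr
  have hβm : Measurable β := hβ.mono.measurable
  have hrm : Measurable r := by
    have h1 : Measurable fun z => β (ψ1 z) := hβm.comp hψ1m
    have h2 : Measurable fun z => β (ψ0 z) := hβm.comp hψ0m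
    exact (h1.sub h2).sub (hdm.mul (hψ1m.sub hψ0m))
  have hrb : ∀ z, ρ z ≠ 0 → |r z| ≤ L * (1 + C1) ^ 2 * (K ^ 2 * t ^ 2) := by
    intro z hz
    have h1 := hT (ψ0 z) (ψ1 z)
    have h2 := hψd z hz
    have h3 : (ψ1 z - ψ0 z) ^ 2 ≤ ((1 + C1) * (K * |t|)) ^ 2 := by
      rw [← sq_abs (ψ1 z - ψ0 z)]
      exact pow_le_pow_left₀ (abs_nonneg _) h2 2
    calc |r z| ≤ L * (ψ1 z - ψ0 z) ^ 2 := h1
      _ ≤ L * ((1 + C1) * (K * |t|)) ^ 2 := mul_le_mul_of_nonneg_left h3 hL0.le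
      _ = L * (1 + C1) ^ 2 * (K ^ 2 * |t| ^ 2) := by ring
      _ = _ := by rw [sq_abs]
  have hrE : 0 ≤ L * (1 + C1) ^ 2 * (K ^ 2 * t ^ 2) := by positivity
  have hrL : L2 ρ r := L2.of_bdd hρ hrm hrb
  -- δ
  set δ : E3 → ℝ := fun z => ψ1 z - ψ0 z - t * g z with hδ
  have hψL : L2 w (fun z => ψ1 z - ψ0 z) :=
    L2.of_bdd hwW (hψ1m.sub hψ0m) fun z hz => hψd z (hwρ z hz)
  have hδL : L2 w δ := L2.sub hwW hψL (hgl.smul t)
  -- the decomposition of ρ (m₁ - m₀)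
  have hdec : ∀ z, ρ z * (m₁ z - m₀ z) = w z * δ z + t * (w z * g z) + ρ z * r z := by
    intro z
    have h0 : m₀ z = β (ψ0 z) := he0 z
    have h1 : m₁ z = β (ψ1 z) := he1 z
    rw [h0, h1]
    simp only [hw, hδ, hr]
    ring
  obtain ⟨C4, -, hpw⟩ := l2_pot hwW
  have hpe : ∀ y, P1 y - P0 y = pot (fun z => w z * δ z) y + t * pot (fun z => w z * g z) y +
      pot (fun z => ρ z * r z) y := by
    intro y
    rw [hP1, hP0, ← pot_sub hρ hL2m1 hL2m0 y, ← pot_smul]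
    unfold pot
    have i1 := (hpw δ hδL y).1
    have i2 := (hpw g hgl y).1
    have i3 := (hpot r hrL y).1
    have i2' : Integrable (fun z => ‖y - z‖⁻¹ * (t * (w z * g z))) := by
      refine (i2.const_mul t).congr (Filter.Eventually.of_forall fun z => ?_)
      show t * (‖y - z‖⁻¹ * (w z * g z)) = ‖y - z‖⁻¹ * (t * (w z * g z))
      ring
    have i12 : Integrable (fun z => ‖y - z‖⁻¹ * (w z * δ z) + ‖y - z‖⁻¹ * (t * (w z * g z))) :=
      i1.add i2'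
    rw [← integral_add i1 i2', ← integral_add i12 i3]
    refine integral_congr_ae (Filter.Eventually.of_forall fun z => ?_)
    show ‖y - z‖⁻¹ * (ρ z * (m₁ z - m₀ z)) = ‖y - z‖⁻¹ * (w z * δ z) +
      ‖y - z‖⁻¹ * (t * (w z * g z)) + ‖y - z‖⁻¹ * (ρ z * r z)
    rw [hdec z]
    ring
  -- the equation for δ
  set e : E3 → ℝ := fun z => δ z + pot (fun z => w z * δ z) z with he
  have hem : Measurable e := hδL.meas.add (l2_meas hwW hδL)
  have hee : ∀ z, e z = (S₁ z - S₀ z - t * S' z) - pot (fun z => ρ z * r z) z := by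
    intro z
    have h1 := hpe z
    have h2 := hge z
    simp only [he, hδ]
    have h3 : ψ1 z - ψ0 z = (S₁ z - S₀ z) - (P1 z - P0 z) := by
      simp only [hψ0, hψ1]; ring
    have h4 : t * g z = t * S' z - t * pot (fun z => w z * g z) z := by rw [h2]; ring
    rw [h3, h4, h1]
    ring
  set E : ℝ := C3 * ((K + K ^ 2) * t ^ 2) with hE
  have hE0 : 0 ≤ E := by positivity
  have heb : ∀ z, ρ z ≠ 0 → |e z| ≤ E := by
    intro z hz
    rw [hee z]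
    have h1 := hSd z hz
    have h2 := (hpot r hrL z).2
    have h3 := s3_sqrt hρ hrm hrE hrb
    have h4 : |pot (fun z => ρ z * r z) z| ≤ C2 * (I * (L * (1 + C1) ^ 2 * (K ^ 2 * t ^ 2))) :=
      h2.trans (mul_le_mul_of_nonneg_left h3 hC2.le)
    have h5 := abs_sub (S₁ z - S₀ z - t * S' z) (pot (fun z => ρ z * r z) z)
    have h6 : 0 ≤ K ^ 2 * t ^ 2 := by positivity
    have h7 : 0 ≤ K * t ^ 2 := by positivity
    have h8 : 0 ≤ C2 * I * (L * (1 + C1) ^ 2) := by positivity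
    have h9 : E = K * t ^ 2 + K ^ 2 * t ^ 2 + C2 * I * (L * (1 + C1) ^ 2) * (K * t ^ 2) +
        C2 * I * (L * (1 + C1) ^ 2) * (K ^ 2 * t ^ 2) := by
      rw [hE, hC3]; ring
    rw [h9]
    have h10 : 0 ≤ C2 * I * (L * (1 + C1) ^ 2) * (K * t ^ 2) := mul_nonneg h8 h7
    have h11 : C2 * (I * (L * (1 + C1) ^ 2 * (K ^ 2 * t ^ 2))) =
        C2 * I * (L * (1 + C1) ^ 2) * (K ^ 2 * t ^ 2) := by ring
    linarith
  have heL : L2 w e := L2.of_bdd hwW hem fun z hz => heb z (hwρ z hz)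
  -- energy estimate
  set X : ℝ := Real.sqrt (∫ z, w z * δ z ^ 2) with hX
  set Y : ℝ := Real.sqrt (∫ z, w z * e z ^ 2) with hY
  have hX0 : 0 ≤ X := Real.sqrt_nonneg _
  have hXY : X ≤ Y := by
    have h1 : ∫ z, w z * (δ z * e z) = (∫ z, w z * δ z ^ 2) +
        ∫ z, w z * (δ z * pot (fun w' => w w' * δ w') z) := by
      rw [← integral_add hδL.int (L2.int_mul hwW hδL (l2_pot_l2 hwW hδL))]
      refine integral_congr_ae (Filter.Eventually.of_forall fun z => ?_)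
      show w z * (δ z * e z) = w z * δ z ^ 2 + w z * (δ z * pot (fun w' => w w' * δ w') z)
      simp only [he]
      ring
    have h2 := en_nonneg hwW hδL
    have h3 := (le_abs_self _).trans (L2.cs hwW hδL heL)
    have h4 : X ^ 2 = ∫ z, w z * δ z ^ 2 :=
      Real.sq_sqrt (integral_nonneg fun z => mul_nonneg (hwW.nonneg z) (sq_nonneg _))
    have h5 : X ^ 2 ≤ X * Y := by
      rw [h4]
      linarith
    rcases hX0.eq_or_lt with h6 | h6
    · rw [← h6]; exact Real.sqrt_nonneg _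
    · nlinarith
  have hYb : Y ≤ Real.sqrt L * I * E := by
    have h1 := s3_sqrt hwW hem hE0 fun z hz => heb z (hwρ z hz)
    have h2 : Real.sqrt (∫ z, w z) ≤ Real.sqrt L * I := by
      rw [hI, ← Real.sqrt_mul hL0.le]
      refine Real.sqrt_le_sqrt ?_
      rw [← integral_const_mul]
      refine integral_mono hwW.bcs.int (hρ.bcs.int.const_mul L) fun z => ?_
      show ρ z * deriv β (ψ0 z) ≤ L * ρ z
      rw [mul_comm L]
      exact mul_le_mul_of_nonneg_left (hd _).2 (hρ.nonneg z)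
    exact h1.trans (mul_le_mul_of_nonneg_right h2 hE0)
  -- the potential of w δ
  have hpb : |pot (fun z => w z * δ z) y| ≤ C2 * L * I * E := by
    set q : E3 → ℝ := fun z => deriv β (ψ0 z) * δ z with hq
    have hqm : Measurable q := hdm.mul hδL.meas
    have hq2 : ∀ z, ρ z * q z ^ 2 ≤ L * (w z * δ z ^ 2) := by
      intro z
      have h1 : ρ z * q z ^ 2 = deriv β (ψ0 z) * (w z * δ z ^ 2) := by
        simp only [hq, hw]; ring
      rw [h1]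
      exact mul_le_mul_of_nonneg_right (hd _).2 (mul_nonneg (hwW.nonneg z) (sq_nonneg _))
    have hqL : L2 ρ q := by
      refine ⟨hqm, Integrable.mono' (hδL.int.const_mul L) ?_ (Filter.Eventually.of_forall fun z => ?_)⟩
      · exact (hρm.mul (hqm.pow_const 2)).aestronglyMeasurable
      · rw [Real.norm_eq_abs, abs_of_nonneg (mul_nonneg (hρ.nonneg z) (sq_nonneg _))]
        exact hq2 z
    have h1 := (hpot q hqL y).2
    have h2 : (fun z => w z * δ z) = fun z => ρ z * q z := by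
      funext z; simp only [hq, hw]; ring
    rw [h2]
    have h3 : Real.sqrt (∫ z, ρ z * q z ^ 2) ≤ Real.sqrt L * X := by
      rw [hX, ← Real.sqrt_mul hL0.le]
      refine Real.sqrt_le_sqrt ?_
      rw [← integral_const_mul]
      exact integral_mono hqL.int (hδL.int.const_mul L) hq2
    have h4 : Real.sqrt L * X ≤ Real.sqrt L * (Real.sqrt L * I * E) :=
      mul_le_mul_of_nonneg_left (hXY.trans hYb) (Real.sqrt_nonneg _)
    have h5 : Real.sqrt L * (Real.sqrt L * I * E) = L * I * E := by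
      have := Real.mul_self_sqrt hL0.le
      calc Real.sqrt L * (Real.sqrt L * I * E) = (Real.sqrt L * Real.sqrt L) * I * E := by ring
        _ = L * I * E := by rw [this]
    calc |pot (fun z => ρ z * q z) y| ≤ C2 * Real.sqrt (∫ z, ρ z * q z ^ 2) := h1
      _ ≤ C2 * (L * I * E) := mul_le_mul_of_nonneg_left (h3.trans (h4.trans h5.le)) hC2.le
      _ = _ := by ring
  by_cases hy : ρ y = 0
  · simp [hy]
  have hδb : |δ y| ≤ (1 + C2 * L * I) * E := by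
    have h1 : δ y = e y - pot (fun z => w z * δ z) y := by simp only [he]; ring
    rw [h1]
    have h2 := abs_sub (e y) (pot (fun z => w z * δ z) y)
    have h3 := heb y hy
    linarith
  have hfin : ρ y * m₁ y - ρ y * m₀ y - t * (ρ y * deriv β (S₀ y - P0 y) * g y) =
      ρ y * (deriv β (ψ0 y) * δ y + r y) := by
    have h1 := hdec y
    have h2 : ρ y * m₁ y - ρ y * m₀ y = ρ y * (m₁ y - m₀ y) := by ring
    rw [h2, h1]
    simp only [hw, hψ0]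
    ring
  rw [hfin, abs_mul, abs_of_nonneg (hρ.nonneg y), mul_comm _ (ρ y)]
  refine mul_le_mul_of_nonneg_left ?_ (hρ.nonneg y)
  have h1 : |deriv β (ψ0 y) * δ y| ≤ L * ((1 + C2 * L * I) * E) := by
    rw [abs_mul, abs_of_nonneg (hd _).1]
    exact mul_le_mul (hd _).2 hδb (abs_nonneg _) hL0.le
  have h2 := hrb y hy
  have h3 := abs_add_le (deriv β (ψ0 y) * δ y) (r y)
  have h4 : 0 ≤ L * (1 + C1) ^ 2 * (K * t ^ 2) := by positivity
  have h5 : 0 ≤ (K + K ^ 2) * t ^ 2 := by positivity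
  have h6 : (L * ((1 + C2 * L * I) * C3) + L * (1 + C1) ^ 2 + 1) * (K + K ^ 2) * t ^ 2 =
      L * ((1 + C2 * L * I) * E) + L * (1 + C1) ^ 2 * (K ^ 2 * t ^ 2) +
        L * (1 + C1) ^ 2 * (K * t ^ 2) + (K + K ^ 2) * t ^ 2 := by
    rw [hE]; ring
  rw [h6]
  linarith

end Pool.Agent.H36.LN
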