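import Pool.Agent.H36.LN.D1
import Pool.Agent.H36.LN.S3

/-!
# LN-D2: first order expansions of `μ(x,M)` in `M` and in `x`

Fix `x`, `M > 0`; `S` from `pot_sup`, `r₀ = (M/2)/(ε+S)`, `|t| ≤ M/2`. All the solutions `mm ρ β x (M+t)`, `mm ρ β (x+t e_i) M` satisfy the truncated equation for all `y`
(`IsSol.trunc` with this `r₀`) with sources `S_t(y) = (M+t) NN r₀ (y-x)`, resp. `S_t(y) = M NN r₀ (y-x-t e_i)`.
Apply `diff_lemma` with `S₀ = M NN r₀(·-x)`, `S' = NN r₀ (·-x)`, resp. `S' = -M pd i (NN r₀)(·-x)`; `NN_bounds` gives `K` (independent of `t`).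
The weight in `diff_lemma` is `z ↦ ρ z β'(M NN r₀(z-x) - pot μ(z))`, which equals `vv ρ β x M z` for all `z`: the same for `‖z-x‖ ≥ r₀`; for `‖z-x‖ < r₀` both vanish (`vv_near`;
`M NN r₀(z-x) - pot μ ≥ M/r₀ - S ≥ ε`, `Beta.deriv_zero`).
`g`: `lin (vv) S'` (`lin_spec`); on `{vv ≠ 0}` one has `‖z-x‖ ≥ M/(ε+S) ≥ r₀`, so `S' = s0 x`, resp. `S' = M s1 x i` (`NN_eq`, `NN_pd`), and by `IsLin.congr`
`vv g = vv q0`, resp. `vv g = M vv q1 i` (`M • q1` solves the problem with source `M s1`; `pot_smul`).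
-/

open MeasureTheory Set

namespace Pool.Agent.H36.LN

variable {ρ : E3 → ℝ} {ε : ℝ} {β : ℝ → ℝ}

/-- the linearised weight in terms of the truncated source -/
theorem d2_vv (hρ : Nice ρ) (hβ : Beta ε β) {S : ℝ} (hS : ∀ y, pot ρ y ≤ S) (x : E3)
    {M : ℝ} (hM : 0 < M) {r₀ : ℝ} (h0 : 0 < r₀) (hr : r₀ * (ε + S) ≤ M) (z : E3) :
    ρ z * deriv β (M * NN r₀ (z - x) - pot (fun z => ρ z * mm ρ β x M z) z) = vv ρ β x M z := by
  have hES : 0 ≤ ε + S := by
    have h1 := (pot_mu_mem hρ.wt hβ x hM x).1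
    have h2 := (pot_mu_mem hρ.wt hβ x hM x).2
    have h3 := hS x
    have h4 := hβ.eps
    linarith
  rcases le_or_gt r₀ ‖z - x‖ with h | h
  · rw [NN_eq h0 h]
    rfl
  · have hn : ‖z - x‖ * (ε + S) ≤ M :=
      le_trans (mul_le_mul_of_nonneg_right h.le hES) hr
    rw [vv_near hρ hβ hS x hM hn]
    have h1 : ε + S ≤ M * NN r₀ (z - x) := S5_inv h0 hr hM.le (NN_ge h0 h.le)
    have h2 : pot (fun z => ρ z * mm ρ β x M z) z ≤ S := ((pot_mu_mem hρ.wt hβ x hM z).2).trans (hS z)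
    rw [hβ.deriv_zero (Or.inr (by linarith)), mul_zero]

theorem d2_far (hρ : Nice ρ) (hβ : Beta ε β) {S : ℝ} (hS : ∀ y, pot ρ y ≤ S) (x : E3)
    {M : ℝ} (hM : 0 < M) {r₀ : ℝ} (hr : r₀ * (ε + S) ≤ M) {z : E3}
    (hz : vv ρ β x M z ≠ 0) : r₀ ≤ ‖z - x‖ := by
  by_contra h
  rw [not_le] at h
  have hES : 0 ≤ ε + S := by
    have h1 := (pot_mu_mem hρ.wt hβ x hM x).1
    have h2 := (pot_mu_mem hρ.wt hβ x hM x).2
    have h3 := hS x
    have h4 := hβ.eps
    linarith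
  exact hz (vv_near hρ hβ hS x hM (le_trans (mul_le_mul_of_nonneg_right h.le hES) hr))

theorem d2_meas {r₀ : ℝ} (h0 : 0 < r₀) (x : E3) : Measurable fun y => NN r₀ (y - x) :=
  ((NN_c2 h0).continuous.comp (continuous_id.sub continuous_const)).measurable

theorem d2_pdmeas {r₀ : ℝ} (h0 : 0 < r₀) (x : E3) (i : Fin 3) :
    Measurable fun y => pd i (NN r₀) (y - x) := by
  have h1 : Continuous (pd i (NN r₀)) := by
    unfold pd
    exact ((NN_c2 h0).continuous_fderiv two_ne_zero).clm_apply continuous_const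
  exact (h1.comp (continuous_id.sub continuous_const)).measurable

theorem exp_M (hρ : Nice ρ) (hβ : Beta ε β) (x : E3) {M : ℝ} (hM : 0 < M) :
    ∃ C t₀ : ℝ, 0 < t₀ ∧ t₀ < M ∧ ∀ t : ℝ, |t| ≤ t₀ → ∀ z,
      |mu ρ β x (M + t) z - mu ρ β x M z - t * (vv ρ β x M z * q0 ρ β x M z)| ≤ C * t ^ 2 * ρ z := by
  obtain ⟨S, hS0, hS⟩ := pot_sup hρ.wt
  obtain ⟨C, hC0, hC⟩ := diff_lemma hρ.wt hβ
  have hε := hβ.eps
  have hES : 0 < ε + S := by linarith
  set r₀ : ℝ := (M / 2) / (ε + S) with hr₀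
  have h0 : 0 < r₀ := by positivity
  have hr : r₀ * (ε + S) = M / 2 := by rw [hr₀]; field_simp
  obtain ⟨K, hK0, hK1, -, -, -⟩ := NN_bounds h0
  have hvw := vv_wt hρ hβ x hM
  have hlin : IsLin (vv ρ β x M) (fun y => NN r₀ (y - x))
      (lin (vv ρ β x M) (fun y => NN r₀ (y - x))) :=
    lin_spec hvw (L2.of_bdd hvw (d2_meas h0 x) fun z _ => hK1 (z - x))
  have hgq : ∀ z, vv ρ β x M z * lin (vv ρ β x M) (fun y => NN r₀ (y - x)) z =
      vv ρ β x M z * q0 ρ β x M z := by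
    intro z
    refine IsLin.congr hvw hlin (q0_lin hρ hβ x hM) (fun z hz => ?_) z
    exact NN_eq h0 (d2_far hρ hβ hS x hM (by linarith) hz)
  have hw : (fun z => ρ z * deriv β (M * NN r₀ (z - x) - pot (fun z => ρ z * mm ρ β x M z) z)) =
      vv ρ β x M := by
    funext z
    exact d2_vv hρ hβ hS x hM h0 (by linarith) z
  refine ⟨C * (K + K ^ 2), M / 2, by positivity, by linarith, fun t ht z => ?_⟩
  have hMt : 0 < M + t := by
    have := (abs_le.1 ht).1
    linarith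
  have hMt2 : M / 2 ≤ M + t := by
    have := (abs_le.1 ht).1
    linarith
  have hs0 := mm_sol hρ.wt hβ x hM
  have hs1 := mm_sol hρ.wt hβ x hMt
  have key := hC K t (fun y => M * NN r₀ (y - x)) (fun y => (M + t) * NN r₀ (y - x))
    (fun y => NN r₀ (y - x)) (mm ρ β x M) (mm ρ β x (M + t))
    (lin (vv ρ β x M) (fun y => NN r₀ (y - x))) hK0.le
    ((d2_meas h0 x).const_mul M) ((d2_meas h0 x).const_mul (M + t)) (d2_meas h0 x)
    hs0.meas hs1.meas
    (fun y => hs0.trunc hρ.wt hβ hS h0 (by linarith) y)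
    (fun y => hs1.trunc hρ.wt hβ hS h0 (by linarith) y)
    (fun y _ => by
      have e : (M + t) * NN r₀ (y - x) - M * NN r₀ (y - x) = NN r₀ (y - x) * t := by ring
      simp only [e, abs_mul]
      exact mul_le_mul_of_nonneg_right (hK1 _) (abs_nonneg _))
    (fun y _ => by
      have e : (M + t) * NN r₀ (y - x) - M * NN r₀ (y - x) - t * NN r₀ (y - x) = 0 := by ring
      simp only [e, abs_zero]
      positivity)
    (by rw [hw]; exact hlin) z
  have e2 : ρ z * deriv β (M * NN r₀ (z - x) - pot (fun z => ρ z * mm ρ β x M z) z) *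
      lin (vv ρ β x M) (fun y => NN r₀ (y - x)) z = vv ρ β x M z * q0 ρ β x M z := by
    rw [← hgq z, ← congrFun hw z]
  simp only [e2] at key
  exact key

theorem exp_x (hρ : Nice ρ) (hβ : Beta ε β) (x : E3) {M : ℝ} (hM : 0 < M) (i : Fin 3) :
    ∃ C t₀ : ℝ, 0 < t₀ ∧ ∀ t : ℝ, |t| ≤ t₀ → ∀ z,
      |mu ρ β (x + t • ee i) M z - mu ρ β x M z
        - t * (M * (vv ρ β x M z * q1 ρ β x M i z))| ≤ C * t ^ 2 * ρ z := by
  obtain ⟨S, hS0, hS⟩ := pot_sup hρ.wt
  obtain ⟨C, hC0, hC⟩ := diff_lemma hρ.wt hβ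
  have hε := hβ.eps
  have hES : 0 < ε + S := by linarith
  set r₀ : ℝ := (M / 2) / (ε + S) with hr₀
  have h0 : 0 < r₀ := by positivity
  have hr : r₀ * (ε + S) = M / 2 := by rw [hr₀]; field_simp
  obtain ⟨K, hK0, hK1, hK2, hK3, hK4⟩ := NN_bounds h0
  have hvw := vv_wt hρ hβ x hM
  set S' : E3 → ℝ := fun y => -(M * pd i (NN r₀) (y - x)) with hS'
  have hS'm : Measurable S' := ((d2_pdmeas h0 x i).const_mul M).neg
  have hlin : IsLin (vv ρ β x M) S' (lin (vv ρ β x M) S') := by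
    refine lin_spec hvw (L2.of_bdd hvw hS'm (C := M * K) fun z _ => ?_)
    rw [hS']
    simp only
    rw [abs_neg, abs_mul, abs_of_pos hM]
    exact mul_le_mul_of_nonneg_left (hK2 _ i) hM.le
  have hq1 := q1_lin hρ hβ x hM i
  have hMq : IsLin (vv ρ β x M) (fun z => M * s1 x i z) (fun z => M * q1 ρ β x M i z) := by
    refine ⟨hq1.l2.smul M, fun y => ?_⟩
    have e : (fun z => vv ρ β x M z * (M * q1 ρ β x M i z)) =
        fun z => M * (vv ρ β x M z * q1 ρ β x M i z) := by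
      funext z
      ring
    rw [e, pot_smul, hq1.eq y]
    ring
  have hgq : ∀ z, vv ρ β x M z * lin (vv ρ β x M) S' z =
      vv ρ β x M z * (M * q1 ρ β x M i z) := by
    intro z
    refine IsLin.congr hvw hlin hMq (fun z hz => ?_) z
    have h1 := NN_pd h0 (d2_far hρ hβ hS x hM (by linarith) hz) i
    rw [hS']
    simp only [s1]
    rw [h1]
    ring
  have hw : (fun z => ρ z * deriv β (M * NN r₀ (z - x) - pot (fun z => ρ z * mm ρ β x M z) z)) =
      vv ρ β x M := by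
    funext z
    exact d2_vv hρ hβ hS x hM h0 (by linarith) z
  refine ⟨C * (M * K + (M * K) ^ 2), 1, one_pos, fun t _ z => ?_⟩
  have hs0 := mm_sol hρ.wt hβ x hM
  have hs1 := mm_sol hρ.wt hβ (x + t • ee i) hM
  have hsub : ∀ y, y - (x + t • ee i) = (y - x) + (-t) • ee i := by
    intro y
    rw [neg_smul]
    abel
  have key := hC (M * K) t (fun y => M * NN r₀ (y - x)) (fun y => M * NN r₀ (y - (x + t • ee i)))
    S' (mm ρ β x M) (mm ρ β (x + t • ee i) M)
    (lin (vv ρ β x M) S') (by positivity)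
    ((d2_meas h0 x).const_mul M) ((d2_meas h0 (x + t • ee i)).const_mul M) hS'm
    hs0.meas hs1.meas
    (fun y => hs0.trunc hρ.wt hβ hS h0 (by linarith) y)
    (fun y => hs1.trunc hρ.wt hβ hS h0 (by linarith) y)
    (fun y _ => by
      have e : M * NN r₀ (y - (x + t • ee i)) - M * NN r₀ (y - x) =
          M * (NN r₀ ((y - x) + (-t) • ee i) - NN r₀ (y - x)) := by rw [hsub]; ring
      simp only [e, abs_mul, abs_of_pos hM, mul_assoc]
      refine mul_le_mul_of_nonneg_left ?_ hM.le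
      have h3 := hK3 (y - x) ((-t) • ee i)
      rwa [norm_smul, S4_norm_ee, mul_one, Real.norm_eq_abs, abs_neg] at h3)
    (fun y _ => by
      have e : M * NN r₀ (y - (x + t • ee i)) - M * NN r₀ (y - x) - t * S' y =
          M * (NN r₀ ((y - x) + (-t) • ee i) - NN r₀ (y - x) - (-t) * pd i (NN r₀) (y - x)) := by
        rw [hsub, hS']; ring
      simp only [e, abs_mul, abs_of_pos hM, mul_assoc]
      refine mul_le_mul_of_nonneg_left ?_ hM.le
      have h3 := hK4 (y - x) i (-t)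
      rwa [neg_sq] at h3)
    (by rw [hw]; exact hlin) z
  have e2 : ρ z * deriv β (M * NN r₀ (z - x) - pot (fun z => ρ z * mm ρ β x M z) z) *
      lin (vv ρ β x M) S' z = M * (vv ρ β x M z * q1 ρ β x M i z) := by
    have h1 := congrFun hw z
    rw [h1, hgq z]
    ring
  simp only [e2] at key
  exact key

end Pool.Agent.H36.LN
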