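import Pool.Agent.H36.LN.S5b

/-!
# LN-D3: joint continuity of `V` and `G` in `(x, M)`

* `mu_lip`: `lip_lemma` for the truncated equations with common `r₀ = δ/(ε+S)`: `|M NN r₀(y-x) - M' NN r₀(y-x')| ≤ C(|M-M'| + ‖x-x'‖)` by `NN_bounds`.
* `contV`: `V(x,M) - V(x',M') = pot(μ-μ')(x) + pot μ'(x) - pot μ'(x')`, `|pot(μ-μ')(x)| ≤ C(|M-M'|+‖x-x'‖) sup pot ρ` (`bcs_sub`, `pot_mono`) and `pot μ'` is continuous.
* `contG`: same with `gpot` (`bcs_gsub`; `‖gpot(μ-μ')(x)‖ ≤ C(|M-M'|+‖x-x'‖) B` by `pot_bound`, as `|μ-μ'| ≤ C(..)ρ`; `continuous_gpot`).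
-/

open MeasureTheory Set

namespace Pool.Agent.H36.LN

variable {ρ : E3 → ℝ} {ε : ℝ} {β : ℝ → ℝ}

private theorem D3_l2 (hρ : Wt ρ) (hβ : Beta ε β) (x : E3) {M : ℝ} (hM : 0 < M) :
    L2 ρ (mm ρ β x M) :=
  L2.of_bdd hρ (mm_sol hρ hβ x hM).meas (C := 1) fun z _ => by
    rw [abs_of_nonneg (mm_mem hρ hβ x hM z).1]
    exact (mm_mem hρ hβ x hM z).2

theorem mu_lip (hρ : Wt ρ) (hβ : Beta ε β) {δ A : ℝ} (hδ : 0 < δ) :
    ∃ C : ℝ, 0 < C ∧ ∀ x x' M M', δ ≤ M → M ≤ A → δ ≤ M' → M' ≤ A → ∀ z,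
      |mu ρ β x M z - mu ρ β x' M' z| ≤ C * (|M - M'| + ‖x - x'‖) * ρ z := by
  obtain ⟨S, hS0, hS⟩ := pot_sup hρ
  obtain ⟨L, hL0, hL, _⟩ := hβ.bounds
  obtain ⟨C₁, hC₁, hlip⟩ := lip_lemma hρ hβ.mono hL0 hL
  have hε := hβ.eps
  have hr0 : 0 < δ / (ε + S) := by positivity
  have hr : δ / (ε + S) * (ε + S) = δ := div_mul_cancel₀ δ (by positivity)
  obtain ⟨C₂, hC₂, hN1, _, hN2, _⟩ := NN_bounds hr0
  set r₀ : ℝ := δ / (ε + S) with hr₀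
  refine ⟨C₁ * (C₂ * (1 + |A|)), by positivity, ?_⟩
  intro x x' M M' h1 h2 h3 h4 z
  have hM : 0 < M := by linarith
  have hM' : 0 < M' := by linarith
  have hK : ∀ y, ρ y ≠ 0 → |M * NN r₀ (y - x) - M' * NN r₀ (y - x')| ≤
      C₂ * (1 + |A|) * (|M - M'| + ‖x - x'‖) := by
    intro y _
    have e1 : M * NN r₀ (y - x) - M' * NN r₀ (y - x') =
        (M - M') * NN r₀ (y - x) + M' * (NN r₀ (y - x) - NN r₀ (y - x')) := by ring
    have e2 : |NN r₀ (y - x) - NN r₀ (y - x')| ≤ C₂ * ‖x - x'‖ := by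
      have h5 := hN2 (y - x') (x' - x)
      have e3 : y - x' + (x' - x) = y - x := by abel
      rw [e3, norm_sub_rev x' x] at h5
      exact h5
    have hA : M' ≤ |A| := h4.trans (le_abs_self A)
    have hA0 : 0 ≤ |A| := abs_nonneg A
    calc |M * NN r₀ (y - x) - M' * NN r₀ (y - x')|
        ≤ |(M - M') * NN r₀ (y - x)| + |M' * (NN r₀ (y - x) - NN r₀ (y - x'))| := by
          rw [e1]
          exact abs_add_le _ _
      _ = |M - M'| * |NN r₀ (y - x)| + M' * |NN r₀ (y - x) - NN r₀ (y - x')| := by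
          rw [abs_mul, abs_mul, abs_of_pos hM']
      _ ≤ |M - M'| * C₂ + |A| * (C₂ * ‖x - x'‖) := by
          refine add_le_add (mul_le_mul_of_nonneg_left (hN1 _) (abs_nonneg _)) ?_
          exact mul_le_mul hA e2 (abs_nonneg _) hA0
      _ ≤ C₂ * (1 + |A|) * (|M - M'| + ‖x - x'‖) := by
          have h5 : 0 ≤ C₂ * |A| * |M - M'| := by positivity
          have h6 : 0 ≤ C₂ * ‖x - x'‖ := by positivity
          nlinarith
  have hres := (hlip (C₂ * (1 + |A|) * (|M - M'| + ‖x - x'‖)) (fun y => M' * NN r₀ (y - x'))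
    (fun y => M * NN r₀ (y - x)) (mm ρ β x' M') (mm ρ β x M) (by positivity)
    (D3_l2 hρ hβ x' hM') (D3_l2 hρ hβ x hM)
    (fun y _ => (mm_sol hρ hβ x' hM').trunc hρ hβ hS hr0 (by linarith) y)
    (fun y _ => (mm_sol hρ hβ x hM).trunc hρ hβ hS hr0 (by linarith) y) hK).1
  have e4 : mu ρ β x M z - mu ρ β x' M' z = ρ z * (mm ρ β x M z - mm ρ β x' M' z) := by
    unfold mu
    ring
  rw [e4, abs_mul, abs_of_nonneg (hρ.nonneg z), mul_comm (ρ z)]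
  by_cases hz : ρ z = 0
  · rw [hz, mul_zero, mul_zero]
  · refine mul_le_mul_of_nonneg_right ((hres z hz).trans (le_of_eq ?_)) (hρ.nonneg z)
    ring

private theorem D3_diff (hρ : Wt ρ) (hβ : Beta ε β) (δ A : ℝ) (hδ : 0 < δ) :
    ∃ C : ℝ, 0 < C ∧ ∀ x x' M M', δ ≤ M → M ≤ A → δ ≤ M' → M' ≤ A → ∀ y,
      ‖pot (mu ρ β x M) y - pot (mu ρ β x' M') y‖ ≤ C * (|M - M'| + ‖x - x'‖) ∧
      ‖gpot (mu ρ β x M) y - gpot (mu ρ β x' M') y‖ ≤ C * (|M - M'| + ‖x - x'‖) := by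
  obtain ⟨R, hR⟩ := hρ.bcs.supp
  obtain ⟨B, hB⟩ := hρ.bcs.bdd
  obtain ⟨C₁, hC₁, hb⟩ := pot_bound R
  obtain ⟨C₂, hC₂, hl⟩ := mu_lip (A := A) hρ hβ hδ
  have hB0 : 0 ≤ B := (abs_nonneg _).trans (hB 0)
  refine ⟨C₁ * C₂ * B + 1, by positivity, ?_⟩
  intro x x' M M' h1 h2 h3 h4 y
  have hM : 0 < M := by linarith
  have hM' : 0 < M' := by linarith
  have hm := mu_bcs hρ hβ x hM
  have hm' := mu_bcs hρ hβ x' hM'
  have hd := hm.sub hm'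
  have hD0 : 0 ≤ |M - M'| + ‖x - x'‖ := by positivity
  have h5 := hb _ (C₂ * (|M - M'| + ‖x - x'‖) * B) hd.meas
    (fun z => (hl x x' M M' h1 h2 h3 h4 z).trans
      (mul_le_mul_of_nonneg_left ((le_abs_self _).trans (hB z)) (by positivity)))
    (fun z hz => by
      show ρ z * mm ρ β x M z - ρ z * mm ρ β x' M' z = 0
      rw [hR z hz, zero_mul, zero_mul, sub_zero]) y
  rw [bcs_sub hm hm', bcs_gsub hm hm'] at h5
  have h6 : (1 + ‖y‖)⁻¹ ≤ 1 := inv_le_one_of_one_le₀ (by linarith [norm_nonneg y])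
  have h7 : (1 + ‖y‖)⁻¹ ^ 2 ≤ 1 := pow_le_one₀ (by positivity) h6
  have h8 : 0 ≤ C₁ * (C₂ * (|M - M'| + ‖x - x'‖) * B) := by positivity
  have h9 : C₁ * (C₂ * (|M - M'| + ‖x - x'‖) * B) ≤
      (C₁ * C₂ * B + 1) * (|M - M'| + ‖x - x'‖) := by nlinarith
  constructor
  · rw [Real.norm_eq_abs]
    calc _ ≤ _ := h5.1
      _ ≤ C₁ * (C₂ * (|M - M'| + ‖x - x'‖) * B) * 1 := mul_le_mul_of_nonneg_left h6 h8
      _ ≤ _ := by rw [mul_one]; exact h9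
  · calc _ ≤ _ := h5.2
      _ ≤ C₁ * (C₂ * (|M - M'| + ‖x - x'‖) * B) * 1 := mul_le_mul_of_nonneg_left h7 h8
      _ ≤ _ := by rw [mul_one]; exact h9

private theorem D3_cont {G : Type*} [NormedAddCommGroup G] (Φ : E3 → ℝ → E3 → G)
    (h1 : ∀ δ A : ℝ, 0 < δ → ∃ C : ℝ, 0 < C ∧ ∀ x x' M M', δ ≤ M → M ≤ A → δ ≤ M' → M' ≤ A →
      ∀ y, ‖Φ x M y - Φ x' M' y‖ ≤ C * (|M - M'| + ‖x - x'‖))
    (h2 : ∀ x M, 0 < M → Continuous (Φ x M)) :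
    ContinuousOn (fun p : E3 × ℝ => Φ p.1 p.2 p.1) {p | 0 < p.2} := by
  rintro ⟨x₀, M₀⟩ hp
  have hM₀ : 0 < M₀ := hp
  apply ContinuousAt.continuousWithinAt
  obtain ⟨C, hC, hb⟩ := h1 (M₀ / 2) (2 * M₀) (by linarith)
  have hc : Filter.Tendsto (fun p : E3 × ℝ => Φ x₀ M₀ p.1) (nhds (x₀, M₀))
      (nhds (Φ x₀ M₀ x₀)) := ((h2 x₀ M₀ hM₀).comp continuous_fst).tendsto' _ _ rfl
  have hz : Filter.Tendsto (fun p : E3 × ℝ => Φ p.1 p.2 p.1 - Φ x₀ M₀ p.1) (nhds (x₀, M₀))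
      (nhds 0) := by
    refine squeeze_zero_norm' (a := fun p : E3 × ℝ => C * (|p.2 - M₀| + ‖p.1 - x₀‖)) ?_ ?_
    · have h3 : ∀ᶠ p : E3 × ℝ in nhds (x₀, M₀), p.2 ∈ Icc (M₀ / 2) (2 * M₀) :=
        continuous_snd.continuousAt.eventually
          (Icc_mem_nhds (by show M₀ / 2 < M₀; linarith) (by show M₀ < 2 * M₀; linarith))
      filter_upwards [h3] with p hp
      exact hb p.1 x₀ p.2 M₀ hp.1 hp.2 (by linarith) (by linarith) p.1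
    · have h4 : Continuous (fun p : E3 × ℝ => C * (|p.2 - M₀| + ‖p.1 - x₀‖)) := by fun_prop
      exact h4.tendsto' _ _ (by simp)
  have h5 := hz.add hc
  simp only [sub_add_cancel, zero_add] at h5
  exact h5

theorem contV (hρ : Wt ρ) (hβ : Beta ε β) :
    ContinuousOn (fun p : E3 × ℝ => VV ρ β p.1 p.2) {p | 0 < p.2} := by
  refine D3_cont (fun x M y => pot (mu ρ β x M) y) (fun δ A hδ => ?_)
    (fun x M hM => continuous_pot (mu_bcs hρ hβ x hM))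
  obtain ⟨C, hC, h⟩ := D3_diff hρ hβ δ A hδ
  exact ⟨C, hC, fun x x' M M' h1 h2 h3 h4 y => (h x x' M M' h1 h2 h3 h4 y).1⟩

theorem contG (hρ : Wt ρ) (hβ : Beta ε β) :
    ContinuousOn (fun p : E3 × ℝ => GG ρ β p.1 p.2) {p | 0 < p.2} := by
  refine D3_cont (fun x M y => gpot (mu ρ β x M) y) (fun δ A hδ => ?_)
    (fun x M hM => continuous_gpot (mu_bcs hρ hβ x hM))
  obtain ⟨C, hC, h⟩ := D3_diff hρ hβ δ A hδ
  exact ⟨C, hC, fun x x' M M' h1 h2 h3 h4 y => (h x x' M M' h1 h2 h3 h4 y).2⟩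

end Pool.Agent.H36.LN
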