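import Pool.Agent.H36.LN.P4

/-!
# LN-D4: derivatives of `pot (f_t)` at a fixed and at a moving point (general lemmas)

`f_t` are `BCS`, `ρ ≥ 0`, `g` are `BCS`, `|f_t - f_0 - t g| ≤ C t² ρ` for `|t| ≤ t₀`.
Write `f_t = f_0 + t g + r_t`, `|r_t| ≤ C t² ρ`, so `|pot r_t| ≤ C t² sup(pot ρ) ≤ C' t²` and `‖gpot r_t‖ ≤ C' t²` everywhere (`pot_bound`).
Fixed point: `pot f_t x = pot f_0 x + t pot g x + pot r_t x`.
Moving point `x_t = x + t e_i`: `pot f_t x_t = pot f_0 x_t + t pot g x_t + pot r_t x_t`; `pot f_0` has line derivative `gpot f_0 x i` (`line_pot`), and `pot g` is continuous, so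
`t pot g x_t` has derivative `pot g x` at `t = 0`. Same for `gpot · i` with `line_gpot` for `CC1` `f_0`, and `continuous_gpot` for `g`.
-/

open MeasureTheory Set

namespace Pool.Agent.H36.LN

/-- the hypothesis -/
structure Exp1 (f : ℝ → E3 → ℝ) (g ρ : E3 → ℝ) : Prop where
  bf : ∃ t₀ : ℝ, 0 < t₀ ∧ ∀ t, |t| ≤ t₀ → BCS (f t)
  bg : BCS g
  br : BCS ρ
  nn : ∀ x, 0 ≤ ρ x
  ex : ∃ C t₀ : ℝ, 0 < t₀ ∧ ∀ t, |t| ≤ t₀ → ∀ z, |f t z - f 0 z - t * g z| ≤ C * t ^ 2 * ρ z

variable {f : ℝ → E3 → ℝ} {g ρ : E3 → ℝ}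

private theorem D4_core (h : Exp1 f g ρ) : ∃ K t₀ : ℝ, 0 < t₀ ∧ ∀ t, |t| ≤ t₀ → ∀ y,
    |pot (f t) y - pot (f 0) y - t * pot g y| ≤ K * t ^ 2 ∧
      ‖gpot (f t) y - gpot (f 0) y - t • gpot g y‖ ≤ K * t ^ 2 := by
  obtain ⟨t₁, ht₁, hb⟩ := h.bf
  obtain ⟨C, t₂, ht₂, he⟩ := h.ex
  obtain ⟨R, hR⟩ := h.br.supp
  obtain ⟨B, hB⟩ := h.br.bdd
  obtain ⟨D, hD, hp⟩ := pot_bound R
  refine ⟨D * (|C| * |B|), min t₁ t₂, lt_min ht₁ ht₂, fun t ht y => ?_⟩
  have hbt := hb t (ht.trans (min_le_left _ _))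
  have hb0 := hb 0 (by rw [abs_zero]; exact ht₁.le)
  have het := he t (ht.trans (min_le_right _ _))
  have hgt : BCS (fun z => t * g z) := h.bg.smul t
  have hs1 : BCS (fun z => f t z - f 0 z) := hbt.sub hb0
  have hr : BCS (fun z => f t z - f 0 z - t * g z) := hs1.sub hgt
  have hle : ∀ z, |f t z - f 0 z - t * g z| ≤ (|C| * |B|) * t ^ 2 := fun z => by
    refine (het z).trans ?_
    calc C * t ^ 2 * ρ z ≤ |C * t ^ 2 * ρ z| := le_abs_self _
      _ = |C| * t ^ 2 * |ρ z| := by rw [abs_mul, abs_mul, abs_of_nonneg (sq_nonneg t)]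
      _ ≤ |C| * t ^ 2 * |B| :=
          mul_le_mul_of_nonneg_left ((hB z).trans (le_abs_self B)) (by positivity)
      _ = (|C| * |B|) * t ^ 2 := by ring
  have hz : ∀ z, R < ‖z‖ → f t z - f 0 z - t * g z = 0 := fun z hz => by
    have h1 := het z
    rw [hR z hz, mul_zero] at h1
    exact abs_eq_zero.1 (le_antisymm h1 (abs_nonneg _))
  obtain ⟨h1, h2⟩ := hp (fun z => f t z - f 0 z - t * g z) ((|C| * |B|) * t ^ 2) hr.meas hle hz y
  have hB0 : 0 ≤ D * ((|C| * |B|) * t ^ 2) := by positivity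
  have hn : (1 + ‖y‖)⁻¹ ≤ 1 := inv_le_one_of_one_le₀ (by linarith [norm_nonneg y])
  have hn0 : 0 ≤ (1 + ‖y‖)⁻¹ := inv_nonneg.2 (by linarith [norm_nonneg y])
  constructor
  · have e : pot (fun z => f t z - f 0 z - t * g z) y = pot (f t) y - pot (f 0) y - t * pot g y := by
      rw [bcs_sub hs1 hgt, bcs_sub hbt hb0, pot_smul]
    rw [← e]
    refine h1.trans ((mul_le_of_le_one_right hB0 hn).trans (le_of_eq ?_))
    ring
  · have e : gpot (fun z => f t z - f 0 z - t * g z) y =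
        gpot (f t) y - gpot (f 0) y - t • gpot g y := by
      rw [bcs_gsub hs1 hgt, bcs_gsub hbt hb0, bcs_gsmul]
    rw [← e]
    refine h2.trans ((mul_le_of_le_one_right hB0 (pow_le_one₀ hn0 hn)).trans (le_of_eq ?_))
    ring

private theorem D4_rem {F : ℝ → ℝ} {K t₀ : ℝ} (ht₀ : 0 < t₀) (h : ∀ t, |t| ≤ t₀ → |F t| ≤ K * t ^ 2) :
    HasDerivAt F 0 0 := by
  have h0 : F 0 = 0 := by
    have := h 0 (by rw [abs_zero]; exact ht₀.le)
    rw [zero_pow two_ne_zero, mul_zero] at this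
    exact abs_eq_zero.1 (le_antisymm this (abs_nonneg _))
  rw [hasDerivAt_iff_isLittleO_nhds_zero]
  have hO : (fun t : ℝ => F (0 + t) - F 0 - t • (0 : ℝ)) =O[nhds 0] (fun t : ℝ => t ^ 2) := by
    refine Asymptotics.IsBigO.of_bound K ?_
    have hm : {t : ℝ | |t| ≤ t₀} ∈ nhds (0 : ℝ) := by
      have := Metric.closedBall_mem_nhds (0 : ℝ) ht₀
      refine Filter.mem_of_superset this (fun t ht => ?_)
      simpa [Real.norm_eq_abs] using ht
    filter_upwards [hm] with t ht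
    simpa [h0, Real.norm_eq_abs] using h t ht
  refine hO.trans_isLittleO ?_
  exact Asymptotics.isLittleO_pow_id one_lt_two

private theorem D4_mul {c : ℝ → ℝ} (hc : ContinuousAt c 0) :
    HasDerivAt (fun t => t * c t) (c 0) 0 := by
  rw [hasDerivAt_iff_tendsto_slope_zero]
  have h1 : Filter.Tendsto c (nhdsWithin 0 {0}ᶜ) (nhds (c 0)) := hc.mono_left nhdsWithin_le_nhds
  refine h1.congr' ?_
  filter_upwards [self_mem_nhdsWithin] with t ht
  have ht' : t ≠ 0 := ht
  simp [ht']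

private theorem D4_line (x : E3) (i : Fin 3) : Continuous (fun t : ℝ => x + t • ee i) := by
  fun_prop

theorem Exp1.fixed (h : Exp1 f g ρ) (x : E3) :
    HasDerivAt (fun t => pot (f t) x) (pot g x) 0 := by
  obtain ⟨K, t₀, ht₀, hK⟩ := D4_core h
  have h1 := D4_rem (F := fun t => pot (f t) x - pot (f 0) x - t * pot g x) ht₀
    (fun t ht => (hK t ht x).1)
  have h2 : HasDerivAt (fun t : ℝ => t * pot g x) (pot g x) 0 := by
    simpa using (hasDerivAt_id (0 : ℝ)).mul_const (pot g x)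
  have h3 := (h1.add h2).add_const (pot (f 0) x)
  rw [zero_add] at h3
  refine h3.congr_of_eventuallyEq (Filter.Eventually.of_forall fun t => ?_)
  simp

theorem Exp1.gfixed (h : Exp1 f g ρ) (x : E3) (i : Fin 3) :
    HasDerivAt (fun t => gpot (f t) x i) (gpot g x i) 0 := by
  obtain ⟨K, t₀, ht₀, hK⟩ := D4_core h
  have h1 := D4_rem (F := fun t => gpot (f t) x i - gpot (f 0) x i - t * gpot g x i) ht₀
    (fun t ht => by
      refine le_trans ?_ (hK t ht x).2
      have := PiLp.norm_apply_le (gpot (f t) x - gpot (f 0) x - t • gpot g x) i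
      simpa [Real.norm_eq_abs] using this)
  have h2 : HasDerivAt (fun t : ℝ => t * gpot g x i) (gpot g x i) 0 := by
    simpa using (hasDerivAt_id (0 : ℝ)).mul_const (gpot g x i)
  have h3 := (h1.add h2).add_const (gpot (f 0) x i)
  rw [zero_add] at h3
  refine h3.congr_of_eventuallyEq (Filter.Eventually.of_forall fun t => ?_)
  simp

theorem Exp1.moving (h : Exp1 f g ρ) (x : E3) (i : Fin 3) :
    HasDerivAt (fun t : ℝ => pot (f t) (x + t • ee i)) (gpot (f 0) x i + pot g x) 0 := by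
  obtain ⟨K, t₀, ht₀, hK⟩ := D4_core h
  obtain ⟨t₁, ht₁, hb⟩ := h.bf
  have hb0 := hb 0 (by rw [abs_zero]; exact ht₁.le)
  have h1 := D4_rem (F := fun t => pot (f t) (x + t • ee i) - pot (f 0) (x + t • ee i) -
    t * pot g (x + t • ee i)) ht₀ (fun t ht => (hK t ht (x + t • ee i)).1)
  have h2 : HasDerivAt (fun t : ℝ => t * pot g (x + t • ee i)) (pot g x) 0 := by
    have := D4_mul (c := fun t : ℝ => pot g (x + t • ee i))
      (((continuous_pot h.bg).comp (D4_line x i)).continuousAt)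
    simpa using this
  have h4 : HasDerivAt (fun t : ℝ => pot (f 0) (x + t • ee i)) (gpot (f 0) x i) 0 :=
    line_pot hb0 i x
  have h3 := (h1.add h2).add h4
  have e : (0 : ℝ) + pot g x + gpot (f 0) x i = gpot (f 0) x i + pot g x := by ring
  rw [e] at h3
  refine h3.congr_of_eventuallyEq (Filter.Eventually.of_forall fun t => ?_)
  simp

theorem Exp1.gmoving (h : Exp1 f g ρ) (h0 : CC1 (f 0)) (x : E3) (i : Fin 3) :
    HasDerivAt (fun t : ℝ => gpot (f t) (x + t • ee i) i) (gpot (pd i (f 0)) x i + gpot g x i) 0 := by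
  obtain ⟨K, t₀, ht₀, hK⟩ := D4_core h
  have h1 := D4_rem (F := fun t => gpot (f t) (x + t • ee i) i - gpot (f 0) (x + t • ee i) i -
    t * gpot g (x + t • ee i) i) ht₀ (fun t ht => by
      refine le_trans ?_ (hK t ht (x + t • ee i)).2
      have := PiLp.norm_apply_le (gpot (f t) (x + t • ee i) - gpot (f 0) (x + t • ee i) -
        t • gpot g (x + t • ee i)) i
      simpa [Real.norm_eq_abs] using this)
  have h2 : HasDerivAt (fun t : ℝ => t * gpot g (x + t • ee i) i) (gpot g x i) 0 := by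
    have hc : Continuous (fun t : ℝ => gpot g (x + t • ee i) i) :=
      ((EuclideanSpace.proj i : E3 →L[ℝ] ℝ).continuous).comp
        ((continuous_gpot h.bg).comp (D4_line x i))
    have := D4_mul (c := fun t : ℝ => gpot g (x + t • ee i) i) hc.continuousAt
    simpa using this
  have h4 : HasDerivAt (fun t : ℝ => gpot (f 0) (x + t • ee i) i) (gpot (pd i (f 0)) x i) 0 :=
    line_gpot h0 i i x
  have h3 := (h1.add h2).add h4
  have e : (0 : ℝ) + gpot g x i + gpot (pd i (f 0)) x i = gpot (pd i (f 0)) x i + gpot g x i := by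
    ring
  rw [e] at h3
  refine h3.congr_of_eventuallyEq (Filter.Eventually.of_forall fun t => ?_)
  simp

end Pool.Agent.H36.LN
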