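import Pool.Agent.H36.LN.D2
import Pool.Agent.H36.LN.D4

/-!
# LN-D5: the derivatives of `V` and `M G` in `M` and `x`

`Exp1` for `f_t = mu ρ β x (M+t)`, `g = vv q0` (`exp_M`, `mu_bcs` for `M + t > 0`, `vq0_bcs`) and for `f_t = mu ρ β (x+t e_i) M`, `g = M • (vv q1 i)` (`exp_x`, `vq1_bcs`).
* `dVM`: `pot(vv q0) x = ∫ ‖x-z‖⁻¹ (vv q0) = TT`.
* `dGM`: `(d/dM)(M G_i) = G_i + M gpot(vv q0) x i`, and `gpot (vv q0) x i = ∫ vv q0 s1 x i` (`gpot_apply`): this is `DV`.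
* `dVx`: `gpot μ x i + pot(M vv q1) x = G_i + M ∫ vv q1 s0 = G_i + M ∫ vv q0 s1` by `IsLin.symm`.
* `dGx`: `gpot (pd i μ) x i + M gpot(vv q1) x i = DG` (`gpot_apply`, `mu_cc1`, `bcs_gsmul`).
`HasLineDerivAt ℝ F F' x v` is by definition `HasDerivAt (fun t => F (x + t • v)) F' 0`.
-/

open MeasureTheory Set

namespace Pool.Agent.H36.LN

variable {ρ : E3 → ℝ} {ε : ℝ} {β : ℝ → ℝ}

private theorem D5_eM (hρ : Nice ρ) (hβ : Beta ε β) (x : E3) {M : ℝ} (hM : 0 < M) :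
    Exp1 (fun t => mu ρ β x (M + t)) (fun z => vv ρ β x M z * q0 ρ β x M z) ρ where
  bf := by
    refine ⟨M / 2, half_pos hM, fun t ht => mu_bcs hρ.wt hβ x ?_⟩
    have := (abs_le.1 ht).1
    linarith
  bg := vq0_bcs hρ hβ x hM
  br := hρ.wt.bcs
  nn := hρ.nonneg
  ex := by
    obtain ⟨C, t₀, h0, _, h⟩ := exp_M hρ hβ x hM
    refine ⟨C, t₀, h0, fun t ht z => ?_⟩
    simpa only [add_zero] using h t ht z

private theorem D5_ex (hρ : Nice ρ) (hβ : Beta ε β) (x : E3) {M : ℝ} (hM : 0 < M) (i : Fin 3) :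
    Exp1 (fun t => mu ρ β (x + t • ee i) M) (fun z => M * (vv ρ β x M z * q1 ρ β x M i z)) ρ where
  bf := ⟨1, one_pos, fun t _ => mu_bcs hρ.wt hβ _ hM⟩
  bg := (vq1_bcs hρ hβ x hM i).smul M
  br := hρ.wt.bcs
  nn := hρ.nonneg
  ex := by
    obtain ⟨C, t₀, h0, h⟩ := exp_x hρ hβ x hM i
    refine ⟨C, t₀, h0, fun t ht z => ?_⟩
    simpa only [zero_smul, add_zero] using h t ht z

private theorem D5_shift {F : ℝ → ℝ} {F' M : ℝ} (h : HasDerivAt (fun t => F (M + t)) F' 0) :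
    HasDerivAt F F' M := by
  have h1 : HasDerivAt (fun t => F (M + t)) F' (M - M) := by
    rw [sub_self]
    exact h
  have h2 := h1.comp_sub_const M M
  have e : (fun s : ℝ => F (M + (s - M))) = F := by
    funext s
    rw [add_sub_cancel]
  rwa [e] at h2

private theorem D5_pot (g : E3 → ℝ) (x : E3) : pot g x = ∫ z, g z * s0 x z := by
  unfold pot s0
  refine integral_congr_ae (Filter.Eventually.of_forall fun z => ?_)
  show ‖x - z‖⁻¹ * g z = g z * ‖z - x‖⁻¹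
  rw [norm_sub_rev, mul_comm]

theorem dVM (hρ : Nice ρ) (hβ : Beta ε β) (x : E3) {M : ℝ} (hM : 0 < M) :
    HasDerivAt (VV ρ β x) (TT ρ β x M) M := by
  have h := (D5_eM hρ hβ x hM).fixed x
  rw [D5_pot] at h
  exact D5_shift (F := VV ρ β x) h

theorem dGM (hρ : Nice ρ) (hβ : Beta ε β) (x : E3) {M : ℝ} (hM : 0 < M) (i : Fin 3) :
    HasDerivAt (fun t => t * GG ρ β x t i) (DV ρ β i x M) M := by
  have h := (D5_eM hρ hβ x hM).gfixed x i
  rw [gpot_apply (vq0_bcs hρ hβ x hM)] at h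
  have h2 := D5_shift (F := fun t => GG ρ β x t i) h
  have h3 := (hasDerivAt_id' M).mul h2
  have e : DV ρ β i x M = 1 * GG ρ β x M i +
      M * ∫ z, vv ρ β x M z * q0 ρ β x M z * s1 x i z := by
    unfold DV
    rw [one_mul]
  rw [e]
  exact h3

theorem dVx (hρ : Nice ρ) (hβ : Beta ε β) (x : E3) {M : ℝ} (hM : 0 < M) (i : Fin 3) :
    HasLineDerivAt ℝ (fun y => VV ρ β y M) (DV ρ β i x M) x (ee i) := by
  have h := (D5_ex hρ hβ x hM i).moving x i
  have e : gpot ((fun t : ℝ => mu ρ β (x + t • ee i) M) 0) x i +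
      pot (fun z => M * (vv ρ β x M z * q1 ρ β x M i z)) x = DV ρ β i x M := by
    have e0 : (fun t : ℝ => mu ρ β (x + t • ee i) M) 0 = mu ρ β x M := by
      simp only [zero_smul, add_zero]
    have e1 := IsLin.symm (vv_wt hρ hβ x hM) (s1_l2 hρ hβ x hM i) (s0_l2 hρ hβ x hM)
      (q1_lin hρ hβ x hM i) (q0_lin hρ hβ x hM)
    rw [e0, pot_smul, D5_pot, e1]
    rfl
  rw [e] at h
  exact h

theorem dGx (hρ : Nice ρ) (hβ : Beta ε β) (x : E3) {M : ℝ} (hM : 0 < M) (i : Fin 3) :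
    HasLineDerivAt ℝ (fun y => GG ρ β y M i) (DG ρ β i x M) x (ee i) := by
  have e0 : (fun t : ℝ => mu ρ β (x + t • ee i) M) 0 = mu ρ β x M := by
    simp only [zero_smul, add_zero]
  have h0 : CC1 ((fun t : ℝ => mu ρ β (x + t • ee i) M) 0) := by
    rw [e0]
    exact mu_cc1 hρ hβ x hM
  have h := (D5_ex hρ hβ x hM i).gmoving h0 x i
  have e : gpot (pd i ((fun t : ℝ => mu ρ β (x + t • ee i) M) 0)) x i +
      gpot (fun z => M * (vv ρ β x M z * q1 ρ β x M i z)) x i = DG ρ β i x M := by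
    rw [e0, bcs_gsmul]
    have e2 : (M • gpot (fun z => vv ρ β x M z * q1 ρ β x M i z) x) i =
        M * gpot (fun z => vv ρ β x M z * q1 ρ β x M i z) x i := rfl
    rw [e2, gpot_apply (vq1_bcs hρ hβ x hM i)]
    rfl
  rw [e] at h
  exact h

end Pool.Agent.H36.LN
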