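import Pool.Agent.H36.LN.D1

/-!
# LN-D6: bounds

`L` from `Beta.bounds`, `S` from `pot_sup`, all constants independent of `x` and (where stated) of `M`.
* `bV`: `V = ∫ ‖x-y‖⁻¹ ρ m ≤ ∫ ‖x-y‖⁻¹ ρ L M‖x-y‖⁻¹ ≤ C M (1+‖x‖)⁻²` (`mm_le` for `y ≠ x`, `kern_bound` with `k = 2`).
* `bG`: `mu ≤ ρ`, `pot_bound`.
* `bT`: `IsLin.energy`: `0 ≤ ∫v q₀² ≤ T ≤ ∫ v s0² ≤ L ∫ρ‖y-x‖⁻² ≤ C(1+‖x‖)⁻²` (`vv_le`, `kern_bound`).
* `bDV`: `DV = G_i + M∫v q₀ s1`, `|∫v q₀ s1| ≤ √(∫vq₀²) √(∫v s1²)` (`L2.cs`), `∫vq₀² ≤ C(1+‖x‖)⁻²`, `∫ v s1² ≤ ((ε+S)/M)² ∫ v ‖y-x‖⁻² ≤ ((ε+S)/M)² C (1+‖x‖)⁻²` (`s1_bd`).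
* `bDG`: second term: `0 ≤ ∫ v q_i s1_i ≤ ∫ v s1²` as before. First term: `|pd i μ| ≤ C_δ` everywhere with support in the support of `ρ` (`tsupport`), so `pot_bound` gives
  `‖gpot (pd i μ) x‖ ≤ C_δ(1+‖x‖)⁻²`. Bound of `pd i μ` (`pd_mu_bd`): for `‖y-x‖ < M/(ε+S)` `μ = ρ` near `y` (`mm_near`) and `|pd i ρ|` is bounded; otherwise `y ≠ x`,
  `μ = ρ β(ψ)` near `y`, `pd i μ = β(ψ) pd i ρ + ρ β'(ψ) pd i ψ`, `|pd i ψ| ≤ M‖y-x‖⁻² + |gpot μ y i| ≤ (ε+S)²/M + C`.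
* `smallG`: `‖G(x,M)‖ ≤ ∫ ρ m ‖x-y‖⁻²` and `m ≤ L M‖y-x‖⁻¹ → 0` as `M → 0`, dominated by `ρ‖x-y‖⁻²` (`kern_int`, `k = 2`): dominated convergence
  (`tendsto_integral_filter_of_dominated_convergence`).
-/

open MeasureTheory Set Filter Topology

namespace Pool.Agent.H36.LN

variable {ρ : E3 → ℝ} {ε : ℝ} {β : ℝ → ℝ}

theorem bV (hρ : Nice ρ) (hβ : Beta ε β) : ∃ C : ℝ, ∀ x M, 0 < M → M ≤ 1 →
    0 ≤ VV ρ β x M ∧ VV ρ β x M ≤ C * M * (1 + ‖x‖)⁻¹ ^ 2 := by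
  have hw := hρ.wt
  obtain ⟨L, hL, -, -, -, hLs⟩ := hβ.bounds
  obtain ⟨B, hB⟩ := hw.bcs.bdd
  obtain ⟨R, hR⟩ := hw.bcs.supp
  obtain ⟨C, hC, hk⟩ := kern_bound R
  have hB0 : 0 ≤ B := (abs_nonneg _).trans (hB 0)
  refine ⟨L * B * C, fun x M hM _ => ⟨(pot_mu_mem hw hβ x hM x).1, ?_⟩⟩
  have h1 := norm_int_le (F := fun z => ‖x - z‖⁻¹ * mu ρ β x M z) (R := R) (B := L * M * B)
    (k := 2) le_rfl x (by positivity) (fun z => by
      by_cases hz : z = x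
      · subst hz
        simp
      · have h2 := mm_le hLs hL.le hw hβ x hM hz
        have h3 := (mm_mem hw hβ x hM z).1
        have h4 := hw.nonneg z
        have h5 : ρ z ≤ B := (le_abs_self _).trans (hB z)
        have h6 := (mu_mem hw hβ x hM z).1
        rw [Real.norm_of_nonneg (by positivity)]
        have h7 : mu ρ β x M z ≤ B * (L * (M * ‖z - x‖⁻¹)) := by
          unfold mu
          exact mul_le_mul h5 h2 h3 hB0
        rw [norm_sub_rev z x] at h7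
        calc ‖x - z‖⁻¹ * mu ρ β x M z ≤ ‖x - z‖⁻¹ * (B * (L * (M * ‖x - z‖⁻¹))) :=
              mul_le_mul_of_nonneg_left h7 (by positivity)
          _ = L * M * B * ‖x - z‖⁻¹ ^ 2 := by ring)
    (fun z hz => by
      have : mu ρ β x M z = 0 := by
        unfold mu
        rw [hR z hz, zero_mul]
      rw [this, mul_zero])
  have h2 := hk 2 le_rfl x
  calc VV ρ β x M ≤ ‖VV ρ β x M‖ := le_abs_self _
    _ ≤ L * M * B * ∫ z in Metric.closedBall (0 : E3) R, ‖x - z‖⁻¹ ^ 2 := h1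
    _ ≤ L * M * B * (C * (1 + ‖x‖)⁻¹ ^ 2) := mul_le_mul_of_nonneg_left h2 (by positivity)
    _ = L * B * C * M * (1 + ‖x‖)⁻¹ ^ 2 := by ring

theorem bG (hρ : Nice ρ) (hβ : Beta ε β) : ∃ C : ℝ, ∀ x M, 0 < M → M ≤ 1 →
    ‖GG ρ β x M‖ ≤ C * (1 + ‖x‖)⁻¹ ^ 2 := by
  have hw := hρ.wt
  obtain ⟨B, hB⟩ := hw.bcs.bdd
  obtain ⟨R, hR⟩ := hw.bcs.supp
  obtain ⟨C, hC, hk⟩ := pot_bound R
  refine ⟨C * B, fun x M hM _ => ?_⟩
  refine (hk (mu ρ β x M) B (mu_bcs hw hβ x hM).meas (fun z => ?_) (fun z hz => ?_) x).2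
  · have h1 := mu_mem hw hβ x hM z
    rw [abs_of_nonneg h1.1]
    exact h1.2.trans ((le_abs_self _).trans (hB z))
  · unfold mu
    rw [hR z hz, zero_mul]

theorem smallG (hρ : Nice ρ) (hβ : Beta ε β) (x : E3) :
    Tendsto (fun M => ‖GG ρ β x M‖) (𝓝[>] 0) (𝓝 0) := by
  have hw := hρ.wt
  obtain ⟨L, hL, -, -, -, hLs⟩ := hβ.bounds
  have hpos : ∀ᶠ M : ℝ in 𝓝[>] 0, 0 < M := eventually_mem_nhdsWithin
  have key : Tendsto (fun M => ∫ z, mu ρ β x M z • kv (x - z)) (𝓝[>] 0)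
      (𝓝 (∫ _ : E3, (0 : E3))) := by
    refine tendsto_integral_filter_of_dominated_convergence
      (fun z => ‖x - z‖⁻¹ ^ 2 * ρ z) ?_ ?_ (hw.bcs.int_kern 2 le_rfl x) ?_
    · filter_upwards [hpos] with M hM
      exact ((mu_bcs hw hβ x hM).int_kv x).aestronglyMeasurable
    · filter_upwards [hpos] with M hM
      refine Filter.Eventually.of_forall fun z => ?_
      have h1 := mu_mem hw hβ x hM z
      rw [norm_smul, norm_kv, Real.norm_of_nonneg h1.1, mul_comm]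
      exact mul_le_mul_of_nonneg_left h1.2 (by positivity)
    · refine Filter.Eventually.of_forall fun z => ?_
      by_cases hz : z = x
      · subst hz
        have : kv (z - z) = 0 := by
          unfold kv
          rw [sub_self, smul_zero]
        simp only [this, smul_zero]
        exact tendsto_const_nhds
      · rw [tendsto_zero_iff_norm_tendsto_zero]
        have hlim : Tendsto (fun M : ℝ => ρ z * (L * (M * ‖z - x‖⁻¹)) * ‖x - z‖⁻¹ ^ 2)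
            (𝓝[>] 0) (𝓝 0) := by
          have hc : Continuous (fun M : ℝ => ρ z * (L * (M * ‖z - x‖⁻¹)) * ‖x - z‖⁻¹ ^ 2) := by
            fun_prop
          have h1 := (hc.tendsto 0).mono_left (nhdsWithin_le_nhds (s := Ioi 0))
          simpa using h1
        refine tendsto_of_tendsto_of_tendsto_of_le_of_le' tendsto_const_nhds hlim
          (Filter.Eventually.of_forall fun M => norm_nonneg _) ?_
        filter_upwards [hpos] with M hM
        have h1 := mu_mem hw hβ x hM z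
        rw [norm_smul, norm_kv, Real.norm_of_nonneg h1.1]
        refine mul_le_mul_of_nonneg_right ?_ (by positivity)
        unfold mu
        exact mul_le_mul_of_nonneg_left (mm_le hLs hL.le hw hβ x hM hz) (hw.nonneg z)
  rw [integral_zero] at key
  have h2 := key.norm
  rw [norm_zero] at h2
  exact h2

end Pool.Agent.H36.LN
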