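import Pool.Agent.H36.LN.D6

/-!
# LN-D6b: bounds for `T`, `DV`, `DG`

`L` from `Beta.bounds`, `S` from `pot_sup`.
* `T`: `IsLin.energy`: `0 ≤ ∫v q₀² ≤ T ≤ ∫ v s0² ≤ L ∫ρ‖y-x‖⁻² ≤ C(1+‖x‖)⁻²` (`vv_le`, `kern_bound`).
* `DV = G_i + M∫v q₀ s1`, `|∫v q₀ s1| ≤ √(∫vq₀²) √(∫v s1²)` (`L2.cs`), `∫vq₀² ≤ C(1+‖x‖)⁻²`, `∫ v s1² ≤ ((ε+S)/M)² ∫ v ‖y-x‖⁻² ≤ ((ε+S)/M)² C (1+‖x‖)⁻²` (`s1_bd`).
* `DG`: second term: `0 ≤ ∫ v q_i s1_i ≤ ∫ v s1²` as before. First term: `|pd i μ| ≤ C_δ` everywhere with support in the support of `ρ` (`tsupport`), so `pot_bound` gives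
  `‖gpot (pd i μ) x‖ ≤ C_δ(1+‖x‖)⁻²`. Bound of `pd i μ` (`pd_mu_bd`): for `‖y-x‖ < M/(ε+S)` `μ = ρ` near `y` (`mm_near`) and `|pd i ρ|` is bounded; otherwise `y ≠ x`,
  `μ = ρ β(ψ)` near `y`, `pd i μ = β(ψ) pd i ρ + ρ β'(ψ) pd i ψ`, `|pd i ψ| ≤ M‖y-x‖⁻² + |gpot μ y i| ≤ (ε+S)²/M + C`.
-/

open MeasureTheory Set Filter Topology

namespace Pool.Agent.H36.LN

variable {ρ : E3 → ℝ} {ε : ℝ} {β : ℝ → ℝ}

/-- `∫ ρ ‖z-x‖⁻² ≤ C (1+‖x‖)⁻²` -/
theorem D6b_ker (hρ : Wt ρ) : ∃ C : ℝ, 0 ≤ C ∧ ∀ x : E3,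
    Integrable (fun z => ρ z * ‖z - x‖⁻¹ ^ 2) ∧
    ∫ z, ρ z * ‖z - x‖⁻¹ ^ 2 ≤ C * (1 + ‖x‖)⁻¹ ^ 2 := by
  obtain ⟨B, hB⟩ := hρ.bcs.bdd
  obtain ⟨R, hR⟩ := hρ.bcs.supp
  obtain ⟨C, hC, hk⟩ := kern_bound R
  have hB0 : 0 ≤ B := (abs_nonneg _).trans (hB 0)
  refine ⟨B * C, by positivity, fun x => ?_⟩
  have e : (fun z => ρ z * ‖z - x‖⁻¹ ^ 2) = fun z => ‖x - z‖⁻¹ ^ 2 * ρ z := by
    funext z
    rw [norm_sub_rev z x, mul_comm]
  rw [e]
  have hi := hρ.bcs.int_kern 2 le_rfl x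
  refine ⟨hi, ?_⟩
  have h1 : ∫ z, ‖x - z‖⁻¹ ^ 2 * ρ z = ∫ z in Metric.closedBall (0 : E3) R, ‖x - z‖⁻¹ ^ 2 * ρ z := by
    rw [setIntegral_eq_integral_of_forall_compl_eq_zero]
    intro z hz
    rw [hR z (by simpa using hz), mul_zero]
  have h2 : ∫ z in Metric.closedBall (0 : E3) R, ‖x - z‖⁻¹ ^ 2 * ρ z ≤
      ∫ z in Metric.closedBall (0 : E3) R, B * ‖x - z‖⁻¹ ^ 2 := by
    refine setIntegral_mono hi.integrableOn ((kern_int R 2 le_rfl x).const_mul B) fun z => ?_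
    show ‖x - z‖⁻¹ ^ 2 * ρ z ≤ B * ‖x - z‖⁻¹ ^ 2
    rw [mul_comm B]
    exact mul_le_mul_of_nonneg_left ((le_abs_self _).trans (hB z)) (by positivity)
  rw [h1]
  refine h2.trans ?_
  rw [integral_const_mul, mul_assoc]
  exact mul_le_mul_of_nonneg_left (hk 2 le_rfl x) hB0

/-- the energy of the source `s0` -/
theorem D6b_s0 (hρ : Nice ρ) (hβ : Beta ε β) : ∃ C : ℝ, 0 ≤ C ∧ ∀ x M, 0 < M →
    ∫ z, vv ρ β x M z * s0 x z ^ 2 ≤ C * (1 + ‖x‖)⁻¹ ^ 2 := by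
  obtain ⟨C, hC, hk⟩ := D6b_ker hρ.wt
  obtain ⟨L, hL0, -, hL, -, -⟩ := hβ.bounds
  refine ⟨L * C, by positivity, fun x M hM => ?_⟩
  have h1 : ∫ z, vv ρ β x M z * s0 x z ^ 2 ≤ ∫ z, L * (ρ z * ‖z - x‖⁻¹ ^ 2) := by
    refine integral_mono (s0_l2 hρ hβ x hM).int ((hk x).1.const_mul L) fun z => ?_
    show vv ρ β x M z * (‖z - x‖⁻¹) ^ 2 ≤ L * (ρ z * ‖z - x‖⁻¹ ^ 2)
    rw [← mul_assoc]
    exact mul_le_mul_of_nonneg_right (vv_le hL hρ x M z) (by positivity)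
  refine h1.trans ?_
  rw [integral_const_mul, mul_assoc]
  exact mul_le_mul_of_nonneg_left (hk x).2 hL0.le

/-- the energy of the source `s1` -/
theorem D6b_s1 (hρ : Nice ρ) (hβ : Beta ε β) {δ : ℝ} (hδ : 0 < δ) : ∃ C : ℝ, 0 ≤ C ∧
    ∀ x M (i : Fin 3), δ ≤ M →
    ∫ z, vv ρ β x M z * s1 x i z ^ 2 ≤ C * (1 + ‖x‖)⁻¹ ^ 2 := by
  obtain ⟨C, hC, hk⟩ := D6b_ker hρ.wt
  obtain ⟨L, hL0, -, hL, -, -⟩ := hβ.bounds
  obtain ⟨S, hS0, hS⟩ := pot_sup hρ.wt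
  have hε := hβ.eps
  refine ⟨((ε + S) / δ) ^ 2 * (L * C), by positivity, fun x M i hM => ?_⟩
  have hM0 : 0 < M := hδ.trans_le hM
  have h1 : ∫ z, vv ρ β x M z * s1 x i z ^ 2 ≤
      ∫ z, ((ε + S) / δ) ^ 2 * (L * (ρ z * ‖z - x‖⁻¹ ^ 2)) := by
    refine integral_mono (s1_l2 hρ hβ x hM0 i).int (((hk x).1.const_mul L).const_mul _) fun z => ?_
    show vv ρ β x M z * (s1 x i z) ^ 2 ≤ ((ε + S) / δ) ^ 2 * (L * (ρ z * ‖z - x‖⁻¹ ^ 2))
    have hr : 0 ≤ ((ε + S) / δ) ^ 2 * (L * (ρ z * ‖z - x‖⁻¹ ^ 2)) := by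
      have := hρ.nonneg z
      positivity
    by_cases hv : vv ρ β x M z = 0
    · rw [hv, zero_mul]
      exact hr
    · have h2 := (s1_bd hρ hβ hS x hM0 i hv).1
      have h3 : |s1 x i z| ≤ ((ε + S) / δ) * ‖z - x‖⁻¹ := by
        refine h2.trans (mul_le_mul_of_nonneg_right ?_ (by positivity))
        exact div_le_div_of_nonneg_left (by positivity) hδ hM
      have h4 : (s1 x i z) ^ 2 ≤ (((ε + S) / δ) * ‖z - x‖⁻¹) ^ 2 := by
        rw [← sq_abs (s1 x i z)]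
        exact pow_le_pow_left₀ (abs_nonneg _) h3 2
      calc vv ρ β x M z * (s1 x i z) ^ 2
          ≤ (L * ρ z) * (((ε + S) / δ) * ‖z - x‖⁻¹) ^ 2 := by
            refine mul_le_mul (vv_le hL hρ x M z) h4 (sq_nonneg _) ?_
            exact mul_nonneg hL0.le (hρ.nonneg z)
        _ = _ := by ring
  refine h1.trans ?_
  rw [integral_const_mul, integral_const_mul, mul_assoc, mul_assoc]
  refine mul_le_mul_of_nonneg_left ?_ (by positivity)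
  exact mul_le_mul_of_nonneg_left (hk x).2 hL0.le

theorem D6b_ee (i : Fin 3) : ‖ee i‖ = 1 := by
  unfold ee
  simp

theorem D6b_apply (A : E3 →L[ℝ] ℝ) (i : Fin 3) : |A (ee i)| ≤ ‖A‖ := by
  have h := A.le_opNorm (ee i)
  rw [D6b_ee, mul_one] at h
  exact h

theorem D6b_coord (v : E3) (i : Fin 3) : |v i| ≤ ‖v‖ := by
  have h := PiLp.norm_apply_le v i
  rwa [Real.norm_eq_abs] at h

/-- derivative of `1/‖z-x‖` -/
theorem D6b_inv {x y : E3} (h : y ≠ x) : ∃ A : E3 →L[ℝ] ℝ,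
    HasFDerivAt (fun z : E3 => ‖z - x‖⁻¹) A y ∧ ‖A‖ ≤ ‖y - x‖⁻¹ ^ 2 := by
  have h0 : y - x ≠ 0 := sub_ne_zero.2 h
  have hn : ‖y - x‖ ≠ 0 := norm_ne_zero_iff.2 h0
  have hd : DifferentiableAt ℝ (fun z : E3 => ‖z - x‖) y :=
    (contDiffAt_norm ℝ h0 (n := 1)).differentiableAt (by norm_num) |>.comp y
      ((differentiableAt_id).sub_const x)
  have hl : LipschitzWith 1 (fun z : E3 => ‖z - x‖) := by
    refine LipschitzWith.of_dist_le_mul fun a b => ?_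
    rw [NNReal.coe_one, one_mul, Real.dist_eq, dist_eq_norm]
    have := abs_norm_sub_norm_le (a - x) (b - x)
    rwa [sub_sub_sub_cancel_right] at this
  refine ⟨(-(‖y - x‖ ^ 2)⁻¹) • fderiv ℝ (fun z : E3 => ‖z - x‖) y, ?_, ?_⟩
  · exact (hasDerivAt_inv hn).comp_hasFDerivAt y hd.hasFDerivAt
  · rw [norm_smul, norm_neg, norm_inv, norm_pow, norm_norm, ← inv_pow]
    have := norm_fderiv_le_of_lipschitz ℝ hl (x₀ := y)
    rw [NNReal.coe_one] at this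
    calc ‖y - x‖⁻¹ ^ 2 * ‖fderiv ℝ (fun z : E3 => ‖z - x‖) y‖ ≤ ‖y - x‖⁻¹ ^ 2 * 1 :=
        mul_le_mul_of_nonneg_left this (by positivity)
      _ = _ := mul_one _

/-- a uniform bound for the derivative of `ρ` -/
theorem D6b_rho (hρ : Nice ρ) : ∃ D : ℝ, 0 ≤ D ∧ ∀ y, ‖fderiv ℝ ρ y‖ ≤ D := by
  have hc : Continuous (fderiv ℝ ρ) := hρ.c2.continuous_fderiv (by norm_num)
  have hs : HasCompactSupport (fderiv ℝ ρ) := hρ.cs.fderiv ℝ
  obtain ⟨D, hD⟩ := hs.exists_bound_of_continuous hc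
  exact ⟨D, (norm_nonneg _).trans (hD 0), hD⟩

theorem pd_mu_bd (hρ : Nice ρ) (hβ : Beta ε β) {δ : ℝ} (hδ : 0 < δ) : ∃ C : ℝ, ∀ x M i y, δ ≤ M → M ≤ 1 →
    |pd i (mu ρ β x M) y| ≤ C := by
  obtain ⟨B, hB⟩ := hρ.wt.bcs.bdd
  obtain ⟨R, hR⟩ := hρ.wt.bcs.supp
  have hB0 : 0 ≤ B := (abs_nonneg _).trans (hB 0)
  obtain ⟨C, hC, hpb⟩ := pot_bound R
  obtain ⟨L, hL0, -, hL, -, -⟩ := hβ.bounds
  obtain ⟨S, hS0, hS⟩ := pot_sup hρ.wt
  obtain ⟨D, hD0, hD⟩ := D6b_rho hρ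
  have hε := hβ.eps
  have hεS : 0 < ε + S := by positivity
  refine ⟨D + B * (L * ((ε + S) ^ 2 / δ + C * B)), fun x M i y hM _ => ?_⟩
  have hM0 : 0 < M := hδ.trans_le hM
  by_cases hy : ‖y - x‖ * (ε + S) < M
  · have hev : mu ρ β x M =ᶠ[𝓝 y] ρ := by
      have ho : {z : E3 | ‖z - x‖ * (ε + S) < M} ∈ 𝓝 y := by
        refine IsOpen.mem_nhds ?_ hy
        exact isOpen_lt ((continuous_id.sub continuous_const).norm.mul continuous_const)
          continuous_const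
      filter_upwards [ho] with z hz
      show ρ z * mm ρ β x M z = ρ z
      rw [mm_near hρ.wt hβ hS x hM0 (le_of_lt hz), mul_one]
    unfold pd
    rw [hev.fderiv_eq]
    have h1 : |fderiv ℝ ρ y (ee i)| ≤ D := (D6b_apply _ i).trans (hD y)
    have h2 : 0 ≤ B * (L * ((ε + S) ^ 2 / δ + C * B)) := by positivity
    linarith
  · push Not at hy
    have hyx : y ≠ x := by
      intro h
      rw [h, sub_self, norm_zero, zero_mul] at hy
      linarith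
    have hn : 0 < ‖y - x‖ := norm_pos_iff.2 (sub_ne_zero.2 hyx)
    have hinv : ‖y - x‖⁻¹ ≤ (ε + S) / M := by
      rw [inv_le_comm₀ hn (by positivity), inv_div, div_le_iff₀ hεS]
      exact hy
    have hev : mu ρ β x M =ᶠ[𝓝 y] fun z => ρ z * β (psi ρ β x M z) := by
      filter_upwards [isOpen_ne.mem_nhds hyx] with z hz
      show ρ z * mm ρ β x M z = ρ z * β (psi ρ β x M z)
      rw [mm_eq hρ.wt hβ x hM0 hz]
    obtain ⟨A, hA, hAn⟩ := D6b_inv hyx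
    have hbcs := mu_bcs hρ.wt hβ x hM0
    have hpot := hasFDerivAt_pot hbcs y
    have hψ : HasFDerivAt (psi ρ β x M) (M • A - innerSL ℝ (gpot (mu ρ β x M) y)) y :=
      (hA.const_mul M).sub hpot
    have hψn : ‖M • A - innerSL ℝ (gpot (mu ρ β x M) y)‖ ≤ (ε + S) ^ 2 / δ + C * B := by
      refine (norm_sub_le _ _).trans (add_le_add ?_ ?_)
      · rw [norm_smul, Real.norm_eq_abs, abs_of_pos hM0]
        calc M * ‖A‖ ≤ M * ((ε + S) / M) ^ 2 := by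
              refine mul_le_mul_of_nonneg_left (hAn.trans ?_) hM0.le
              exact pow_le_pow_left₀ (by positivity) hinv 2
          _ = (ε + S) ^ 2 / M := by
              field_simp
          _ ≤ (ε + S) ^ 2 / δ := div_le_div_of_nonneg_left (by positivity) hδ hM
      · rw [innerSL_apply_norm]
        have hmb : ∀ z, |mu ρ β x M z| ≤ B := fun z => by
          have h1 := mu_mem hρ.wt hβ x hM0 z
          rw [abs_of_nonneg h1.1]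
          exact h1.2.trans ((le_abs_self _).trans (hB z))
        have hms : ∀ z, R < ‖z‖ → mu ρ β x M z = 0 := fun z hz => by
          have h1 := mu_mem hρ.wt hβ x hM0 z
          rw [hR z hz] at h1
          exact le_antisymm h1.2 h1.1
        refine (hpb _ B hbcs.meas hmb hms y).2.trans ?_
        have h2 : (1 + ‖y‖)⁻¹ ^ 2 ≤ 1 := by
          refine pow_le_one₀ (by positivity) ?_
          exact inv_le_one_of_one_le₀ (by linarith [norm_nonneg y])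
        calc C * B * (1 + ‖y‖)⁻¹ ^ 2 ≤ C * B * 1 := mul_le_mul_of_nonneg_left h2 (by positivity)
          _ = C * B := mul_one _
    have hβd : HasDerivAt β (deriv β (psi ρ β x M y)) (psi ρ β x M y) :=
      (hβ.c2.differentiable (by norm_num) _).hasDerivAt
    have hρd : HasFDerivAt ρ (fderiv ℝ ρ y) y := (hρ.c2.differentiable (by norm_num) y).hasFDerivAt
    have hprod := hρd.mul (hβd.comp_hasFDerivAt y hψ)
    unfold pd
    rw [hev.fderiv_eq]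
    have hfd := hprod.fderiv
    have e0 : fderiv ℝ (fun z => ρ z * β (psi ρ β x M z)) y (ee i) =
        ρ y * (deriv β (psi ρ β x M y) * ((M • A - innerSL ℝ (gpot (mu ρ β x M) y)) (ee i))) +
        β (psi ρ β x M y) * fderiv ℝ ρ y (ee i) := by
      have : (fun z => ρ z * β (psi ρ β x M z)) = ρ * (β ∘ psi ρ β x M) := rfl
      rw [this, hfd]
      simp only [ContinuousLinearMap.add_apply, ContinuousLinearMap.smul_apply, smul_eq_mul,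
        Function.comp_apply]
    rw [e0]
    have hb1 := hβ.mem (psi ρ β x M y)
    have hb2 := hL (psi ρ β x M y)
    have hρ0 := hρ.nonneg y
    have hρB : ρ y ≤ B := (le_abs_self _).trans (hB y)
    set W := (M • A - innerSL ℝ (gpot (mu ρ β x M) y)) (ee i) with hW
    have hWn : |W| ≤ (ε + S) ^ 2 / δ + C * B := (D6b_apply _ i).trans hψn
    have hF : |fderiv ℝ ρ y (ee i)| ≤ D := (D6b_apply _ i).trans (hD y)
    refine (abs_add_le _ _).trans ?_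
    rw [abs_mul, abs_mul, abs_mul, abs_of_nonneg hρ0, abs_of_nonneg hb2.1, abs_of_nonneg hb1.1]
    have t1 : ρ y * (deriv β (psi ρ β x M y) * |W|) ≤ B * (L * ((ε + S) ^ 2 / δ + C * B)) := by
      refine mul_le_mul hρB ?_ (mul_nonneg hb2.1 (abs_nonneg _)) hB0
      exact mul_le_mul hb2.2 hWn (abs_nonneg _) hL0.le
    have t2 : β (psi ρ β x M y) * |fderiv ℝ ρ y (ee i)| ≤ D := by
      calc β (psi ρ β x M y) * |fderiv ℝ ρ y (ee i)| ≤ 1 * |fderiv ℝ ρ y (ee i)| :=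
            mul_le_mul_of_nonneg_right hb1.2 (abs_nonneg _)
        _ ≤ D := by rw [one_mul]; exact hF
    linarith

theorem D6b_pd_meas {f : E3 → ℝ} (hf : CC1 f) (i : Fin 3) : Measurable (pd i f) := by
  unfold pd
  exact ((hf.c1.continuous_fderiv one_ne_zero).clm_apply continuous_const).measurable

theorem D6b_pd_supp {f : E3 → ℝ} {R : ℝ} (h : ∀ z, R < ‖z‖ → f z = 0) (i : Fin 3) (z : E3)
    (hz : R < ‖z‖) : pd i f z = 0 := by
  have hev : f =ᶠ[𝓝 z] fun _ => 0 := by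
    filter_upwards [(isOpen_lt continuous_const continuous_norm).mem_nhds hz] with w hw
    exact h w hw
  unfold pd
  rw [hev.fderiv_eq]
  simp

theorem bD (hρ : Nice ρ) (hβ : Beta ε β) (δ : ℝ) (hδ : 0 < δ) : ∃ C : ℝ, ∀ x M i, δ ≤ M → M ≤ 1 →
    |TT ρ β x M| ≤ C * (1 + ‖x‖)⁻¹ ^ 2 ∧ |DV ρ β i x M| ≤ C * (1 + ‖x‖)⁻¹ ^ 2 ∧
    |DG ρ β i x M| ≤ C * (1 + ‖x‖)⁻¹ ^ 2 := by
  obtain ⟨C0, hC0, h0⟩ := D6b_s0 hρ hβ
  obtain ⟨C1, hC1, h1⟩ := D6b_s1 hρ hβ hδ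
  obtain ⟨CG', hG'⟩ := bG hρ hβ
  obtain ⟨CP', hP'⟩ := pd_mu_bd hρ hβ hδ
  obtain ⟨B, hB⟩ := hρ.wt.bcs.bdd
  obtain ⟨R, hR⟩ := hρ.wt.bcs.supp
  obtain ⟨C, hC, hpb⟩ := pot_bound R
  set CG := |CG'| with hCG
  set CP := |CP'| with hCP
  have hCG0 : 0 ≤ CG := abs_nonneg _
  have hCP0 : 0 ≤ CP := abs_nonneg _
  refine ⟨C0 + C1 + CG + C * CP, fun x M i hM hM1 => ?_⟩
  have hM0 : 0 < M := hδ.trans_le hM
  have hv := vv_wt hρ hβ x hM0
  set w := (1 + ‖x‖)⁻¹ ^ 2 with hw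
  have hw0 : 0 ≤ w := by positivity
  have hG : ‖GG ρ β x M‖ ≤ CG * w :=
    (hG' x M hM0 hM1).trans (mul_le_mul_of_nonneg_right (le_abs_self _) hw0)
  have l0 := q0_lin hρ hβ x hM0
  have l1 := q1_lin hρ hβ x hM0 i
  have e0 := l0.energy hv (s0_l2 hρ hβ x hM0)
  have e1 := l1.energy hv (s1_l2 hρ hβ x hM0 i)
  have z0 : 0 ≤ ∫ z, vv ρ β x M z * q0 ρ β x M z ^ 2 :=
    integral_nonneg fun z => mul_nonneg (hv.nonneg z) (sq_nonneg _)
  have z1 : 0 ≤ ∫ z, vv ρ β x M z * q1 ρ β x M i z ^ 2 :=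
    integral_nonneg fun z => mul_nonneg (hv.nonneg z) (sq_nonneg _)
  have b0 := h0 x M hM0
  have b1 := h1 x M i hM
  have p0 : 0 ≤ C0 * w := by positivity
  have p1 : 0 ≤ C1 * w := by positivity
  have p2 : 0 ≤ CG * w := by positivity
  have p3 : 0 ≤ C * CP * w := by positivity
  have expand : (C0 + C1 + CG + C * CP) * w = C0 * w + C1 * w + CG * w + C * CP * w := by ring
  rw [expand]
  refine ⟨?_, ?_, ?_⟩
  · have : TT ρ β x M = ∫ z, vv ρ β x M z * q0 ρ β x M z * s0 x z := rfl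
    rw [this, abs_of_nonneg (z0.trans e0.1)]
    linarith [e0.2]
  · have hcs := L2.cs hv l0.l2 (s1_l2 hρ hβ x hM0 i)
    have hassoc : ∫ z, vv ρ β x M z * (q0 ρ β x M z * s1 x i z) =
        ∫ z, vv ρ β x M z * q0 ρ β x M z * s1 x i z :=
      integral_congr_ae (Filter.Eventually.of_forall fun z => (mul_assoc _ _ _).symm)
    rw [hassoc] at hcs
    have hs1 : 0 ≤ ∫ z, vv ρ β x M z * s1 x i z ^ 2 :=
      integral_nonneg fun z => mul_nonneg (hv.nonneg z) (sq_nonneg _)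
    have hle : Real.sqrt (∫ z, vv ρ β x M z * q0 ρ β x M z ^ 2) *
        Real.sqrt (∫ z, vv ρ β x M z * s1 x i z ^ 2) ≤ C0 * w + C1 * w := by
      have s1' := Real.sq_sqrt z0
      have s2' := Real.sq_sqrt hs1
      nlinarith [sq_nonneg (Real.sqrt (∫ z, vv ρ β x M z * q0 ρ β x M z ^ 2) -
        Real.sqrt (∫ z, vv ρ β x M z * s1 x i z ^ 2)), e0.1, e0.2, b0, b1]
    have hDV : DV ρ β i x M = GG ρ β x M i +
        M * ∫ z, vv ρ β x M z * q0 ρ β x M z * s1 x i z := rfl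
    rw [hDV]
    refine (abs_add_le _ _).trans ?_
    rw [abs_mul, abs_of_pos hM0]
    have t1 : |GG ρ β x M i| ≤ CG * w := (D6b_coord _ i).trans hG
    have t2 : M * |∫ z, vv ρ β x M z * q0 ρ β x M z * s1 x i z| ≤ C0 * w + C1 * w := by
      calc M * |∫ z, vv ρ β x M z * q0 ρ β x M z * s1 x i z|
          ≤ 1 * |∫ z, vv ρ β x M z * q0 ρ β x M z * s1 x i z| :=
            mul_le_mul_of_nonneg_right hM1 (abs_nonneg _)
        _ ≤ C0 * w + C1 * w := by rw [one_mul]; exact hcs.trans hle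
    linarith
  · have hDG : DG ρ β i x M = gpot (pd i (mu ρ β x M)) x i +
        M * ∫ z, vv ρ β x M z * q1 ρ β x M i z * s1 x i z := rfl
    rw [hDG]
    refine (abs_add_le _ _).trans ?_
    rw [abs_mul, abs_of_pos hM0, abs_of_nonneg (z1.trans e1.1)]
    have hcc := mu_cc1 hρ hβ x hM0
    have hms : ∀ z, R < ‖z‖ → mu ρ β x M z = 0 := fun z hz => by
      have h1 := mu_mem hρ.wt hβ x hM0 z
      rw [hR z hz] at h1
      exact le_antisymm h1.2 h1.1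
    have t1 : |gpot (pd i (mu ρ β x M)) x i| ≤ C * CP * w :=
      (D6b_coord _ i).trans (hpb _ CP (D6b_pd_meas hcc i)
        (fun z => (hP' x M i z hM hM1).trans (le_abs_self _)) (D6b_pd_supp hms i) x).2
    have t2 : M * ∫ z, vv ρ β x M z * q1 ρ β x M i z * s1 x i z ≤ C1 * w := by
      calc M * ∫ z, vv ρ β x M z * q1 ρ β x M i z * s1 x i z
          ≤ 1 * ∫ z, vv ρ β x M z * q1 ρ β x M i z * s1 x i z :=
            mul_le_mul_of_nonneg_right hM1 (z1.trans e1.1)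
        _ ≤ C1 * w := by rw [one_mul]; exact e1.2.trans b1
    linarith

end Pool.Agent.H36.LN
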