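import Pool.Agent.H36.LN.G2

/-!
# LN-G3: the limit `δ → 0`, Young's inequality, conclusion

Let `c = (9π/2)^{1/3}` (`cc`), `V₀(x,M) = c ρ(x)^{1/3} M^{2/3}`, so `V₀³ = (9π/2) ρ M²`.
`young`: for `V ≥ 0`, `V₀ ≥ 0`: `V⁴ - 4V₀³V + 3V₀⁴ = (V-V₀)²(V²+2VV₀+3V₀²) ≥ 0`.
(a) with `κ = 1/(18π)`: `κ M₁⁻²(V⁴ - 4V₀³V + 3V₀⁴) ≥ 0` reads `ρ V(M₁) ≤ κ M₁⁻² V(M₁)⁴ + (3/4) c M₁^{2/3} ρ^{4/3}`.
(b) `(2/9) M⁻³ (V⁴ - 4V₀³V + 3V₀⁴) ≥ 0` reads `(2/9) M⁻³V⁴ - 4π ρ M⁻¹ V ≥ -3π c ρ^{4/3} M^{-1/3}`; integrate over `(δ, M₁)`, `∫_δ^{M₁} M^{-1/3} ≤ (3/2) M₁^{2/3}`: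
`(2/9)∫M⁻³V⁴ - 4πρ∫M⁻¹V ≥ -(9π/2) c ρ^{4/3} M₁^{2/3}`, and `κ (9π/2) = 1/4`.
So pointwise `ρ V(M₁) ≤ c M₁^{2/3} ρ^{4/3} + κ [ M₁⁻²V(M₁)⁴ + (2/9)∫_δ^{M₁}M⁻³V⁴ - 4πρ∫_δ^{M₁}M⁻¹V ]`; integrate over `x` and use `ineq_delta`:
`∫ρV(·,M₁) ≤ c M₁^{2/3}∫ρ^{4/3} + κ [∫δ⁻²V(δ)⁴ + ½∫‖G(δ)‖²]` for every `δ ∈ (0,M₁]`. As `δ → 0`:
`δ⁻²V(δ)⁴ ≤ C⁴ δ² (1+‖x‖)^{-8}`, and `∫‖G(δ)‖² → 0` by dominated convergence (`bG`, `smallG`, `int_decay 4`). This is `final_M`.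
`final`: integrate over `M₁ ∈ (0,1)`: `∫_0^1 M^{2/3} = 3/5`, `c · 3/5 = (9/10) kk` as `(9π/2)^{1/3} = (3/2)(4π/3)^{1/3}`; Fubini for `ρ(x) V(x,M)` on `ℝ³×(0,1)`.
-/

open MeasureTheory Set Filter Topology intervalIntegral

namespace Pool.Agent.H36.LN

variable {ρ : E3 → ℝ} {V : E3 → ℝ → ℝ} {G : E3 → ℝ → E3} {T : E3 → ℝ → ℝ}
  {DV DG : Fin 3 → E3 → ℝ → ℝ}

noncomputable def cc : ℝ := (9 * Real.pi / 2) ^ (1 / 3 : ℝ)

theorem cc_kk : cc * (3 / 5) = 9 / 10 * kk := by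
  have h1 : (9 * Real.pi / 2 : ℝ) = (3 / 2) ^ 3 * (4 * Real.pi / 3) := by ring
  have h2 : cc = 3 / 2 * kk := by
    unfold cc kk
    rw [h1, Real.mul_rpow (by positivity) (by positivity)]
    congr 1
    rw [← Real.rpow_natCast, ← Real.rpow_mul (by norm_num)]
    norm_num
  rw [h2]; ring

theorem G3_young (v w : ℝ) : 0 ≤ v ^ 4 - 4 * w ^ 3 * v + 3 * w ^ 4 := by
  have : v ^ 4 - 4 * w ^ 3 * v + 3 * w ^ 4 = (v - w) ^ 2 * ((v + w) ^ 2 + 2 * w ^ 2) := by ring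
  rw [this]; positivity

theorem G3_cc_pos : 0 < cc := by
  unfold cc
  positivity

theorem G3_young2 {r M : ℝ} (hr : 0 ≤ r) (hM : 0 < M) (v : ℝ) :
    0 ≤ v ^ 4 - 18 * Real.pi * r * M ^ 2 * v
      + 27 * Real.pi / 2 * (cc * r ^ (4 / 3 : ℝ) * M ^ (2 / 3 : ℝ)) * M ^ 2 := by
  have h1 := G3_young v (cc * r ^ (1 / 3 : ℝ) * M ^ (2 / 3 : ℝ))
  have hc : cc ^ 3 = 9 * Real.pi / 2 := by
    unfold cc
    rw [← Real.rpow_natCast, ← Real.rpow_mul (by positivity)]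
    norm_num
  have hr3 : (r ^ (1 / 3 : ℝ)) ^ 3 = r := by
    rw [← Real.rpow_natCast, ← Real.rpow_mul hr]
    norm_num
  have hM3 : (M ^ (2 / 3 : ℝ)) ^ 3 = M ^ 2 := by
    rw [← Real.rpow_natCast, ← Real.rpow_mul hM.le]
    norm_num
  have hr4 : r ^ (4 / 3 : ℝ) = r ^ (1 / 3 : ℝ) * r := by
    have : (4 / 3 : ℝ) = 1 / 3 + 1 := by norm_num
    rw [this, Real.rpow_add_one' hr (by norm_num)]
  have h2 : (cc * r ^ (1 / 3 : ℝ) * M ^ (2 / 3 : ℝ)) ^ 3 = 9 * Real.pi / 2 * r * M ^ 2 := by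
    rw [mul_pow, mul_pow, hc, hr3, hM3]
  have h3 : (cc * r ^ (1 / 3 : ℝ) * M ^ (2 / 3 : ℝ)) ^ 4
      = (9 * Real.pi / 2 * r * M ^ 2) * (cc * r ^ (1 / 3 : ℝ) * M ^ (2 / 3 : ℝ)) := by
    rw [← h2]; ring
  rw [h3, h2] at h1
  rw [hr4]
  linarith

theorem G3_a {r M : ℝ} (hr : 0 ≤ r) (hM : 0 < M) (v : ℝ) :
    r * v ≤ 1 / (18 * Real.pi) * (M⁻¹ ^ 2 * v ^ 4)
      + 3 / 4 * (cc * M ^ (2 / 3 : ℝ) * r ^ (4 / 3 : ℝ)) := by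
  have h := G3_young2 hr hM v
  have hpi := Real.pi_pos
  have h2 : 0 ≤ (18 * Real.pi)⁻¹ * M⁻¹ ^ 2 * (v ^ 4 - 18 * Real.pi * r * M ^ 2 * v
      + 27 * Real.pi / 2 * (cc * r ^ (4 / 3 : ℝ) * M ^ (2 / 3 : ℝ)) * M ^ 2) :=
    mul_nonneg (by positivity) h
  have h3 : (18 * Real.pi)⁻¹ * M⁻¹ ^ 2 * (v ^ 4 - 18 * Real.pi * r * M ^ 2 * v
      + 27 * Real.pi / 2 * (cc * r ^ (4 / 3 : ℝ) * M ^ (2 / 3 : ℝ)) * M ^ 2)
      = 1 / (18 * Real.pi) * (M⁻¹ ^ 2 * v ^ 4)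
      + 3 / 4 * (cc * M ^ (2 / 3 : ℝ) * r ^ (4 / 3 : ℝ)) - r * v := by
    generalize M ^ (2 / 3 : ℝ) = X
    generalize r ^ (4 / 3 : ℝ) = Y
    field_simp
    ring
  rw [h3] at h2
  linarith

theorem G3_b {r M : ℝ} (hr : 0 ≤ r) (hM : 0 < M) (v : ℝ) :
    4 * Real.pi * r * (M⁻¹ * v) ≤ 2 / 9 * (M⁻¹ ^ 3 * v ^ 4)
      + 3 * Real.pi * (cc * r ^ (4 / 3 : ℝ)) * M ^ (-(1 / 3) : ℝ) := by
  have h := G3_young2 hr hM v
  have hpi := Real.pi_pos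
  have hX : M ^ (2 / 3 : ℝ) = M ^ (-(1 / 3) : ℝ) * M := by
    have : (2 / 3 : ℝ) = -(1 / 3) + 1 := by norm_num
    rw [this, Real.rpow_add_one hM.ne']
  rw [hX] at h
  have h2 : 0 ≤ 2 / 9 * M⁻¹ ^ 3 * (v ^ 4 - 18 * Real.pi * r * M ^ 2 * v
      + 27 * Real.pi / 2 * (cc * r ^ (4 / 3 : ℝ) * (M ^ (-(1 / 3) : ℝ) * M)) * M ^ 2) :=
    mul_nonneg (by positivity) h
  have h3 : 2 / 9 * M⁻¹ ^ 3 * (v ^ 4 - 18 * Real.pi * r * M ^ 2 * v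
      + 27 * Real.pi / 2 * (cc * r ^ (4 / 3 : ℝ) * (M ^ (-(1 / 3) : ℝ) * M)) * M ^ 2)
      = 2 / 9 * (M⁻¹ ^ 3 * v ^ 4)
      + 3 * Real.pi * (cc * r ^ (4 / 3 : ℝ)) * M ^ (-(1 / 3) : ℝ) - 4 * Real.pi * r * (M⁻¹ * v) := by
    generalize M ^ (-(1 / 3) : ℝ) = X
    generalize r ^ (4 / 3 : ℝ) = Y
    field_simp
    ring
  rw [h3] at h2
  linarith

theorem G3_contV (h : GData ρ V G T DV DG) {M : ℝ} (hM : 0 < M) : Continuous fun x => V x M :=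
  h.contV.comp_continuous (f := fun x : E3 => (x, M)) (by fun_prop) (fun _ => hM)

theorem G3_contG (h : GData ρ V G T DV DG) {M : ℝ} (hM : 0 < M) : Continuous fun x => G x M :=
  h.contG.comp_continuous (f := fun x : E3 => (x, M)) (by fun_prop) (fun _ => hM)

theorem G3_contVM (h : GData ρ V G T DV DG) (x : E3) : ContinuousOn (V x) (Ioi 0) := by
  have h1 : ContinuousOn (fun M : ℝ => (x, M)) (Ioi 0) := by fun_prop
  exact h.contV.comp h1 (fun M hM => hM)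

/-- the pointwise inequality -/
theorem G3_point (h : GData ρ V G T DV DG) (x : E3) {δ M₁ : ℝ} (hδ : 0 < δ) (hM : δ ≤ M₁) :
    ρ x * V x M₁ ≤ cc * M₁ ^ (2 / 3 : ℝ) * ρ x ^ (4 / 3 : ℝ)
      + 1 / (18 * Real.pi) * (M₁⁻¹ ^ 2 * V x M₁ ^ 4
        + 2 / 9 * (∫ M in δ..M₁, M⁻¹ ^ 3 * V x M ^ 4)
        - 4 * Real.pi * (ρ x * ∫ M in δ..M₁, M⁻¹ * V x M)) := by
  have hr := h.rho_nn x
  have hM0 : 0 < M₁ := hδ.trans_le hM
  have hpi := Real.pi_pos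
  have h1 := G3_a hr hM0 (V x M₁)
  have hsub : uIcc δ M₁ ⊆ Ioi (0 : ℝ) := by
    rw [uIcc_of_le hM]
    intro t ht
    exact hδ.trans_le ht.1
  have hc : ContinuousOn (V x) (uIcc δ M₁) := (G3_contVM h x).mono hsub
  have hinv : ContinuousOn (fun M : ℝ => M⁻¹) (uIcc δ M₁) :=
    continuousOn_inv₀.mono fun t ht => (hsub ht).ne'
  have hrp : ContinuousOn (fun M : ℝ => M ^ (-(1 / 3) : ℝ)) (uIcc δ M₁) := by
    intro t ht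
    exact (Real.continuousAt_rpow_const t _ (Or.inl (hsub ht).ne')).continuousWithinAt
  have i1 : IntervalIntegrable (fun M => M⁻¹ * V x M) volume δ M₁ :=
    (hinv.mul hc).intervalIntegrable
  have i2 : IntervalIntegrable (fun M => M⁻¹ ^ 3 * V x M ^ 4) volume δ M₁ :=
    ((hinv.pow 3).mul (hc.pow 4)).intervalIntegrable
  have i3 : IntervalIntegrable (fun M : ℝ => M ^ (-(1 / 3) : ℝ)) volume δ M₁ :=
    hrp.intervalIntegrable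
  have h2 : ∫ M in δ..M₁, 4 * Real.pi * ρ x * (M⁻¹ * V x M)
      ≤ ∫ M in δ..M₁, (2 / 9 * (M⁻¹ ^ 3 * V x M ^ 4)
        + 3 * Real.pi * (cc * ρ x ^ (4 / 3 : ℝ)) * M ^ (-(1 / 3) : ℝ)) := by
    refine intervalIntegral.integral_mono_on hM (i1.const_mul _)
      ((i2.const_mul _).add (i3.const_mul _)) ?_
    intro M hM'
    exact G3_b hr (hδ.trans_le hM'.1) (V x M)
  rw [intervalIntegral.integral_const_mul, intervalIntegral.integral_add (i2.const_mul _)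
    (i3.const_mul _), intervalIntegral.integral_const_mul, intervalIntegral.integral_const_mul,
    integral_rpow (Or.inl (by norm_num))] at h2
  have hδ2 : 0 ≤ δ ^ (-(1 / 3) + 1 : ℝ) := Real.rpow_nonneg hδ.le _
  have hee : (-(1 / 3) + 1 : ℝ) = 2 / 3 := by norm_num
  rw [hee] at hδ2 h2
  have hY : 0 ≤ ρ x ^ (4 / 3 : ℝ) := Real.rpow_nonneg hr _
  have hcc := G3_cc_pos
  have h4 : 3 * Real.pi * (cc * ρ x ^ (4 / 3 : ℝ)) * ((M₁ ^ (2 / 3 : ℝ) - δ ^ (2 / 3 : ℝ)) / (2 / 3))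
      ≤ 9 * Real.pi / 2 * (cc * M₁ ^ (2 / 3 : ℝ) * ρ x ^ (4 / 3 : ℝ)) := by
    have h5 : 0 ≤ 9 * Real.pi / 2 * (cc * ρ x ^ (4 / 3 : ℝ)) * δ ^ (2 / 3 : ℝ) := by positivity
    have h6 : 3 * Real.pi * (cc * ρ x ^ (4 / 3 : ℝ)) * ((M₁ ^ (2 / 3 : ℝ) - δ ^ (2 / 3 : ℝ)) / (2 / 3))
      = 9 * Real.pi / 2 * (cc * M₁ ^ (2 / 3 : ℝ) * ρ x ^ (4 / 3 : ℝ))
        - 9 * Real.pi / 2 * (cc * ρ x ^ (4 / 3 : ℝ)) * δ ^ (2 / 3 : ℝ) := by ring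
    linarith
  have h7 : 4 * Real.pi * (ρ x * ∫ M in δ..M₁, M⁻¹ * V x M)
      - 2 / 9 * (∫ M in δ..M₁, M⁻¹ ^ 3 * V x M ^ 4)
      ≤ 9 * Real.pi / 2 * (cc * M₁ ^ (2 / 3 : ℝ) * ρ x ^ (4 / 3 : ℝ)) := by
    have h8 : 4 * Real.pi * (ρ x * ∫ M in δ..M₁, M⁻¹ * V x M)
      = 4 * Real.pi * ρ x * ∫ M in δ..M₁, M⁻¹ * V x M := by ring
    linarith
  have h9 : 1 / (18 * Real.pi) * (4 * Real.pi * (ρ x * ∫ M in δ..M₁, M⁻¹ * V x M)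
      - 2 / 9 * (∫ M in δ..M₁, M⁻¹ ^ 3 * V x M ^ 4))
      ≤ 1 / (18 * Real.pi) * (9 * Real.pi / 2 * (cc * M₁ ^ (2 / 3 : ℝ) * ρ x ^ (4 / 3 : ℝ))) :=
    mul_le_mul_of_nonneg_left h7 (by positivity)
  have h10 : 1 / (18 * Real.pi) * (9 * Real.pi / 2 * (cc * M₁ ^ (2 / 3 : ℝ) * ρ x ^ (4 / 3 : ℝ)))
      = 1 / 4 * (cc * M₁ ^ (2 / 3 : ℝ) * ρ x ^ (4 / 3 : ℝ)) := by
    field_simp
    ring
  rw [h10] at h9
  linarith

theorem G3_V4 (h : GData ρ V G T DV DG) : ∃ C : ℝ, 0 ≤ C ∧ ∀ x M, 0 < M → M ≤ 1 →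
    0 ≤ V x M ∧ V x M ≤ C * M * (1 + ‖x‖)⁻¹ ^ 2 ∧ V x M ^ 4 ≤ C * M ^ 4 * (1 + ‖x‖)⁻¹ ^ 8 := by
  obtain ⟨C, hC⟩ := h.bV
  have hC0 : 0 ≤ C := by
    obtain ⟨h1, h2⟩ := hC 0 1 one_pos le_rfl
    simp at h2
    linarith
  refine ⟨C + C ^ 4, by positivity, fun x M h0 h1 => ?_⟩
  obtain ⟨h2, h3⟩ := hC x M h0 h1
  have hx : 0 ≤ (1 + ‖x‖)⁻¹ := by positivity
  refine ⟨h2, h3.trans ?_, (pow_le_pow_left₀ h2 h3 4).trans ?_⟩
  · have : 0 ≤ C ^ 4 * M * (1 + ‖x‖)⁻¹ ^ 2 := by positivity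
    linarith
  · have : 0 ≤ C * M ^ 4 * (1 + ‖x‖)⁻¹ ^ 8 := by positivity
    have h4 : (C * M * (1 + ‖x‖)⁻¹ ^ 2) ^ 4 = C ^ 4 * M ^ 4 * (1 + ‖x‖)⁻¹ ^ 8 := by ring
    rw [h4]
    linarith

theorem G3_intV4 (h : GData ρ V G T DV DG) {M : ℝ} (hM : 0 < M) (hM1 : M ≤ 1) :
    Integrable (fun x => V x M ^ 4) := by
  obtain ⟨C, hC0, hC⟩ := G3_V4 h
  refine Integrable.mono' ((int_decay 8 (by norm_num)).const_mul (C * M ^ 4))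
    ((G3_contV h hM).pow 4).aestronglyMeasurable (Filter.Eventually.of_forall fun x => ?_)
  obtain ⟨h1, h2, h3⟩ := hC x M hM hM1
  rw [Real.norm_eq_abs, abs_of_nonneg (by positivity)]
  exact h3

theorem G3_max {f : E3 → ℝ → ℝ} (hf : ContinuousOn (fun p : E3 × ℝ => f p.1 p.2) {p | 0 < p.2})
    {δ M₁ : ℝ} (hδ : 0 < δ) (hM : δ ≤ M₁) : Continuous fun x => ∫ M in δ..M₁, f x M := by
  have h1 : Continuous fun p : E3 × ℝ => f p.1 (max p.2 δ) :=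
    hf.comp_continuous (f := fun p : E3 × ℝ => (p.1, max p.2 δ)) (by fun_prop)
      (fun p => lt_of_lt_of_le hδ (le_max_right _ _))
  have h2 : (fun x => ∫ M in δ..M₁, f x M) = fun x => ∫ M in δ..M₁, f x (max M δ) := by
    funext x
    refine intervalIntegral.integral_congr ?_
    intro M hM'
    rw [uIcc_of_le hM] at hM'
    simp only [max_eq_left hM'.1]
  rw [h2]
  exact intervalIntegral.continuous_parametric_intervalIntegral_of_continuous' h1 _ _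

theorem G3_cs (h : GData ρ V G T DV DG) {f : E3 → ℝ} (hf : Continuous f) :
    Integrable (fun x => ρ x * f x) :=
  (h.rho_c.mul hf).integrable_of_hasCompactSupport h.rho_cs.mul_right

theorem G3_rho (h : GData ρ V G T DV DG) : Integrable (fun x => ρ x ^ (4 / 3 : ℝ)) := by
  have h1 : Continuous fun x => ρ x ^ (1 / 3 : ℝ) :=
    h.rho_c.rpow_const fun x => Or.inr (by norm_num)
  refine (G3_cs h h1).congr (Filter.Eventually.of_forall fun x => ?_)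
  have : (4 / 3 : ℝ) = 1 / 3 + 1 := by norm_num
  show ρ x * ρ x ^ (1 / 3 : ℝ) = ρ x ^ (4 / 3 : ℝ)
  rw [this, Real.rpow_add_one' (h.rho_nn x) (by norm_num), mul_comm]

theorem G3_intF (h : GData ρ V G T DV DG) {δ M₁ : ℝ} (hδ : 0 < δ) (hM : δ ≤ M₁)
    (hM1 : M₁ ≤ 1) : Integrable (fun x => ∫ M in δ..M₁, M⁻¹ ^ 3 * V x M ^ 4) := by
  obtain ⟨C, hC0, hC⟩ := G3_V4 h
  have hc : Continuous fun x => ∫ M in δ..M₁, M⁻¹ ^ 3 * V x M ^ 4 := by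
    refine G3_max (f := fun x M => M⁻¹ ^ 3 * V x M ^ 4) ?_ hδ hM
    refine ContinuousOn.mul (ContinuousOn.pow (ContinuousOn.inv₀ (by fun_prop) ?_) 3)
      (h.contV.pow 4)
    intro p hp
    have : 0 < p.2 := hp
    exact this.ne'
  refine Integrable.mono' ((int_decay 8 (by norm_num)).const_mul (δ⁻¹ ^ 3 * C * |M₁ - δ|))
    hc.aestronglyMeasurable (Filter.Eventually.of_forall fun x => ?_)
  have h1 : ∀ M ∈ Set.uIoc δ M₁, ‖M⁻¹ ^ 3 * V x M ^ 4‖ ≤ δ⁻¹ ^ 3 * C * (1 + ‖x‖)⁻¹ ^ 8 := by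
    intro M hM'
    rw [uIoc_of_le hM] at hM'
    have hM0 : 0 < M := hδ.trans hM'.1
    obtain ⟨a1, a2, a3⟩ := hC x M hM0 (hM'.2.trans hM1)
    have hMle : M ≤ 1 := hM'.2.trans hM1
    rw [Real.norm_eq_abs, abs_of_nonneg (by positivity)]
    have h2 : M⁻¹ ^ 3 ≤ δ⁻¹ ^ 3 :=
      pow_le_pow_left₀ (by positivity) (inv_anti₀ hδ hM'.1.le) 3
    have h3 : V x M ^ 4 ≤ C * (1 + ‖x‖)⁻¹ ^ 8 := by
      refine a3.trans ?_
      have h4 : M ^ 4 ≤ 1 := pow_le_one₀ hM0.le hMle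
      have h5 : C * M ^ 4 ≤ C := by nlinarith
      exact mul_le_mul_of_nonneg_right h5 (by positivity)
    calc M⁻¹ ^ 3 * V x M ^ 4 ≤ δ⁻¹ ^ 3 * (C * (1 + ‖x‖)⁻¹ ^ 8) :=
          mul_le_mul h2 h3 (by positivity) (by positivity)
      _ = δ⁻¹ ^ 3 * C * (1 + ‖x‖)⁻¹ ^ 8 := by ring
  refine (intervalIntegral.norm_integral_le_of_norm_le_const h1).trans (le_of_eq ?_)
  ring

theorem G3_step (h : GData ρ V G T DV DG) {δ M₁ : ℝ} (hδ : 0 < δ) (hM : δ ≤ M₁)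
    (hM1 : M₁ ≤ 1) :
    ∫ x, ρ x * V x M₁ ≤ cc * M₁ ^ (2 / 3 : ℝ) * (∫ x, ρ x ^ (4 / 3 : ℝ))
      + 1 / (18 * Real.pi) * ((∫ x, δ⁻¹ ^ 2 * V x δ ^ 4) + 1 / 2 * ∫ x, ‖G x δ‖ ^ 2) := by
  have hM0 : 0 < M₁ := hδ.trans_le hM
  have hpi := Real.pi_pos
  have j1 : Integrable (fun x => ρ x * V x M₁) := G3_cs h (G3_contV h hM0)
  have j2 := G3_rho h
  have j3 : Integrable (fun x => M₁⁻¹ ^ 2 * V x M₁ ^ 4) := (G3_intV4 h hM0 hM1).const_mul _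
  have j4 := G3_intF h hδ hM hM1
  have j5 : Integrable (fun x => ρ x * ∫ M in δ..M₁, M⁻¹ * V x M) := by
    refine G3_cs h (G3_max (f := fun x M => M⁻¹ * V x M) ?_ hδ hM)
    refine ContinuousOn.mul (ContinuousOn.inv₀ (by fun_prop) ?_) h.contV
    intro p hp
    have : 0 < p.2 := hp
    exact this.ne'
  have k1 : Integrable (fun x => M₁⁻¹ ^ 2 * V x M₁ ^ 4
      + 2 / 9 * (∫ M in δ..M₁, M⁻¹ ^ 3 * V x M ^ 4)) := j3.add (j4.const_mul _)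
  have k2 : Integrable (fun x => M₁⁻¹ ^ 2 * V x M₁ ^ 4
      + 2 / 9 * (∫ M in δ..M₁, M⁻¹ ^ 3 * V x M ^ 4)
        - 4 * Real.pi * (ρ x * ∫ M in δ..M₁, M⁻¹ * V x M)) := k1.sub (j5.const_mul _)
  have h1 : ∫ x, ρ x * V x M₁ ≤ ∫ x, (cc * M₁ ^ (2 / 3 : ℝ) * ρ x ^ (4 / 3 : ℝ)
      + 1 / (18 * Real.pi) * (M₁⁻¹ ^ 2 * V x M₁ ^ 4
        + 2 / 9 * (∫ M in δ..M₁, M⁻¹ ^ 3 * V x M ^ 4)
        - 4 * Real.pi * (ρ x * ∫ M in δ..M₁, M⁻¹ * V x M))) := by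
    refine integral_mono j1 ((j2.const_mul _).add (k2.const_mul _)) ?_
    intro x
    exact G3_point h x hδ hM
  rw [MeasureTheory.integral_add (j2.const_mul _) (k2.const_mul _), MeasureTheory.integral_const_mul, MeasureTheory.integral_const_mul,
    MeasureTheory.integral_sub k1 (j5.const_mul _), MeasureTheory.integral_add j3 (j4.const_mul _), MeasureTheory.integral_const_mul (2 / 9 : ℝ),
    MeasureTheory.integral_const_mul (4 * Real.pi)] at h1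
  have h2 := h.ineq_delta hδ hM hM1
  refine h1.trans ?_
  have h3 : (∫ x, M₁⁻¹ ^ 2 * V x M₁ ^ 4) + 2 / 9 * (∫ x, ∫ M in δ..M₁, M⁻¹ ^ 3 * V x M ^ 4)
      - 4 * Real.pi * (∫ x, ρ x * ∫ M in δ..M₁, M⁻¹ * V x M)
      ≤ (∫ x, δ⁻¹ ^ 2 * V x δ ^ 4) + 1 / 2 * ∫ x, ‖G x δ‖ ^ 2 := by linarith
  have h4 := mul_le_mul_of_nonneg_left h3 (show (0 : ℝ) ≤ 1 / (18 * Real.pi) by positivity)
  linarith

theorem G3_lim1 (h : GData ρ V G T DV DG) :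
    Tendsto (fun δ : ℝ => ∫ x, δ⁻¹ ^ 2 * V x δ ^ 4) (𝓝[>] 0) (𝓝 0) := by
  obtain ⟨C, hC0, hC⟩ := G3_V4 h
  have hev : ∀ᶠ δ : ℝ in 𝓝[>] 0, 0 < δ ∧ δ ≤ 1 := by
    filter_upwards [Ioc_mem_nhdsGT (show (0 : ℝ) < 1 by norm_num)] with δ hδ
    exact hδ
  have h1 : Tendsto (fun δ : ℝ => δ ^ 2 * (C * ∫ x : E3, (1 + ‖x‖)⁻¹ ^ 8)) (𝓝[>] 0) (𝓝 0) := by
    have h2 : Continuous fun δ : ℝ => δ ^ 2 * (C * ∫ x : E3, (1 + ‖x‖)⁻¹ ^ 8) := by fun_prop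
    have h3 := (h2.tendsto 0).mono_left (nhdsWithin_le_nhds (s := Ioi 0))
    simpa using h3
  refine tendsto_of_tendsto_of_tendsto_of_le_of_le' tendsto_const_nhds h1 ?_ ?_
  · filter_upwards [hev] with δ hδ
    refine integral_nonneg fun x => ?_
    have := hC x δ hδ.1 hδ.2
    have h3 := this.1
    have h4 := hδ.1
    positivity
  · filter_upwards [hev] with δ hδ
    obtain ⟨h0, h1'⟩ := hδ
    have h3 : ∫ x, δ⁻¹ ^ 2 * V x δ ^ 4 ≤ ∫ x : E3, (δ ^ 2 * C) * (1 + ‖x‖)⁻¹ ^ 8 := by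
      refine integral_mono ((G3_intV4 h h0 h1').const_mul _)
        ((int_decay 8 (by norm_num)).const_mul _) ?_
      intro x
      obtain ⟨a1, a2, a3⟩ := hC x δ h0 h1'
      have h4 : δ⁻¹ ^ 2 * V x δ ^ 4 ≤ δ⁻¹ ^ 2 * (C * δ ^ 4 * (1 + ‖x‖)⁻¹ ^ 8) :=
        mul_le_mul_of_nonneg_left a3 (by positivity)
      have h5 : δ⁻¹ ^ 2 * (C * δ ^ 4 * (1 + ‖x‖)⁻¹ ^ 8) = (δ ^ 2 * C) * (1 + ‖x‖)⁻¹ ^ 8 := by
        field_simp
      exact h4.trans (le_of_eq h5)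
    rw [MeasureTheory.integral_const_mul (δ ^ 2 * C)] at h3
    linarith

theorem G3_lim2 (h : GData ρ V G T DV DG) :
    Tendsto (fun δ : ℝ => ∫ x, ‖G x δ‖ ^ 2) (𝓝[>] 0) (𝓝 0) := by
  obtain ⟨C, hC⟩ := h.bG
  have hev : ∀ᶠ δ : ℝ in 𝓝[>] 0, 0 < δ ∧ δ ≤ 1 := by
    filter_upwards [Ioc_mem_nhdsGT (show (0 : ℝ) < 1 by norm_num)] with δ hδ
    exact hδ
  have h1 : Tendsto (fun δ : ℝ => ∫ x, ‖G x δ‖ ^ 2) (𝓝[>] 0) (𝓝 (∫ x : E3, (0 : ℝ))) := by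
    refine tendsto_integral_filter_of_dominated_convergence
      (fun x : E3 => C ^ 2 * (1 + ‖x‖)⁻¹ ^ 4) ?_ ?_ ((int_decay 4 le_rfl).const_mul _) ?_
    · filter_upwards [hev] with δ hδ
      exact ((G3_contG h hδ.1).norm.pow 2).aestronglyMeasurable
    · filter_upwards [hev] with δ hδ
      refine Filter.Eventually.of_forall fun x => ?_
      rw [Real.norm_eq_abs, abs_of_nonneg (by positivity)]
      have h2 := pow_le_pow_left₀ (norm_nonneg _) (hC x δ hδ.1 hδ.2) 2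
      refine h2.trans (le_of_eq ?_)
      ring
    · refine Filter.Eventually.of_forall fun x => ?_
      have h2 := (h.smallG x).pow 2
      simpa using h2
  simpa using h1

theorem GData.final_M (h : GData ρ V G T DV DG) {M₁ : ℝ} (hM : 0 < M₁) (hM1 : M₁ ≤ 1) :
    ∫ x, ρ x * V x M₁ ≤ cc * M₁ ^ (2 / 3 : ℝ) * ∫ x, ρ x ^ (4 / 3 : ℝ) := by
  have h1 : Tendsto (fun δ : ℝ => cc * M₁ ^ (2 / 3 : ℝ) * (∫ x, ρ x ^ (4 / 3 : ℝ))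
      + 1 / (18 * Real.pi) * ((∫ x, δ⁻¹ ^ 2 * V x δ ^ 4) + 1 / 2 * ∫ x, ‖G x δ‖ ^ 2)) (𝓝[>] 0)
      (𝓝 (cc * M₁ ^ (2 / 3 : ℝ) * (∫ x, ρ x ^ (4 / 3 : ℝ))
        + 1 / (18 * Real.pi) * (0 + 1 / 2 * 0))) :=
    (((G3_lim1 h).add ((G3_lim2 h).const_mul _)).const_mul _).const_add _
  have h2 : cc * M₁ ^ (2 / 3 : ℝ) * (∫ x, ρ x ^ (4 / 3 : ℝ))
        + 1 / (18 * Real.pi) * (0 + 1 / 2 * 0)
        = cc * M₁ ^ (2 / 3 : ℝ) * ∫ x, ρ x ^ (4 / 3 : ℝ) := by ring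
  rw [h2] at h1
  refine ge_of_tendsto h1 ?_
  filter_upwards [Ioc_mem_nhdsGT hM] with δ hδ
  exact G3_step h hδ.1 hδ.2 hM1

theorem G3_prod (h : GData ρ V G T DV DG) :
    Integrable (fun p : E3 × ℝ => ρ p.1 * V p.1 p.2)
      ((volume : Measure E3).prod ((volume : Measure ℝ).restrict (Ioc 0 1))) := by
  obtain ⟨C, hC0, hC⟩ := G3_V4 h
  have hmeas : AEStronglyMeasurable (fun p : E3 × ℝ => ρ p.1 * V p.1 p.2)
      ((volume : Measure E3).prod ((volume : Measure ℝ).restrict (Ioc 0 1))) := by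
    have h1 : (volume : Measure E3).prod ((volume : Measure ℝ).restrict (Ioc 0 1))
        = ((volume : Measure E3).prod (volume : Measure ℝ)).restrict (univ ×ˢ Ioc 0 1) := by
      rw [← Measure.prod_restrict, Measure.restrict_univ]
    rw [h1]
    refine ContinuousOn.aestronglyMeasurable ?_ (MeasurableSet.univ.prod measurableSet_Ioc)
    refine ContinuousOn.mul ((h.rho_c.comp continuous_fst).continuousOn)
      (h.contV.mono fun p hp => hp.2.1)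
  have hint : Integrable (fun p : E3 × ℝ => ρ p.1 * C)
      ((volume : Measure E3).prod ((volume : Measure ℝ).restrict (Ioc 0 1))) := by
    have h2 : Integrable ρ := h.rho_c.integrable_of_hasCompactSupport h.rho_cs
    have h3 : Integrable (fun _ : ℝ => C) ((volume : Measure ℝ).restrict (Ioc 0 1)) := by
      exact integrable_const C
    exact h2.mul_prod h3
  refine Integrable.mono' hint hmeas ?_
  have h4 : ∀ᵐ p : E3 × ℝ ∂((volume : Measure E3).prod ((volume : Measure ℝ).restrict (Ioc 0 1))),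
      p.2 ∈ Ioc (0 : ℝ) 1 := by
    have h1 : (volume : Measure E3).prod ((volume : Measure ℝ).restrict (Ioc 0 1))
        = ((volume : Measure E3).prod (volume : Measure ℝ)).restrict (univ ×ˢ Ioc 0 1) := by
      rw [← Measure.prod_restrict, Measure.restrict_univ]
    rw [h1]
    filter_upwards [ae_restrict_mem (MeasurableSet.univ.prod measurableSet_Ioc)] with p hp
    exact hp.2
  filter_upwards [h4] with p hp
  obtain ⟨a1, a2, a3⟩ := hC p.1 p.2 hp.1 hp.2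
  rw [Real.norm_eq_abs, abs_of_nonneg (mul_nonneg (h.rho_nn _) a1)]
  refine mul_le_mul_of_nonneg_left (a2.trans ?_) (h.rho_nn _)
  have h5 : (1 + ‖p.1‖)⁻¹ ^ 2 ≤ 1 := by
    refine pow_le_one₀ (by positivity) (inv_le_one_of_one_le₀ ?_)
    linarith [norm_nonneg p.1]
  have h6 : p.2 * (1 + ‖p.1‖)⁻¹ ^ 2 ≤ 1 := mul_le_one₀ hp.2 (by positivity) h5
  calc C * p.2 * (1 + ‖p.1‖)⁻¹ ^ 2 = C * (p.2 * (1 + ‖p.1‖)⁻¹ ^ 2) := by ring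
    _ ≤ C * 1 := mul_le_mul_of_nonneg_left h6 hC0
    _ = C := mul_one C

theorem GData.final (h : GData ρ V G T DV DG) :
    ∫ x, ρ x * ∫ M in (0 : ℝ)..1, V x M ≤ 9 / 10 * kk * ∫ x, ρ x ^ (4 / 3 : ℝ) := by
  have hp := G3_prod h
  have h1 : ∫ x, ρ x * ∫ M in (0 : ℝ)..1, V x M
      = ∫ M in (0 : ℝ)..1, ∫ x, ρ x * V x M := by
    have h2 : ∀ x, ρ x * ∫ M in (0 : ℝ)..1, V x M = ∫ M in Ioc (0 : ℝ) 1, ρ x * V x M := by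
      intro x
      rw [intervalIntegral.integral_of_le zero_le_one, MeasureTheory.integral_const_mul]
    simp only [h2]
    rw [intervalIntegral.integral_of_le zero_le_one]
    exact integral_integral_swap hp
  rw [h1]
  have hi : IntervalIntegrable (fun M => ∫ x, ρ x * V x M) volume 0 1 := by
    rw [intervalIntegrable_iff_integrableOn_Ioc_of_le zero_le_one]
    exact hp.integral_prod_right
  have hr : IntervalIntegrable (fun M : ℝ => M ^ (2 / 3 : ℝ)) volume 0 1 :=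
    (Real.continuous_rpow_const (by norm_num)).intervalIntegrable _ _
  have h3 : ∫ M in (0 : ℝ)..1, ∫ x, ρ x * V x M
      ≤ ∫ M in (0 : ℝ)..1, (cc * ∫ x, ρ x ^ (4 / 3 : ℝ)) * M ^ (2 / 3 : ℝ) := by
    refine intervalIntegral.integral_mono_on_of_le_Ioo zero_le_one hi (hr.const_mul _) ?_
    intro M hM
    have h4 := h.final_M hM.1 hM.2.le
    refine h4.trans (le_of_eq ?_)
    ring
  refine h3.trans (le_of_eq ?_)
  rw [intervalIntegral.integral_const_mul, integral_rpow (Or.inl (by norm_num))]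
  have h5 : ((1 : ℝ) ^ (2 / 3 + 1 : ℝ) - 0 ^ (2 / 3 + 1 : ℝ)) / (2 / 3 + 1) = 3 / 5 := by
    rw [Real.one_rpow, Real.zero_rpow (by norm_num)]
    norm_num
  rw [h5, ← cc_kk]
  ring

end Pool.Agent.H36.LN
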