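import Pool.Agent.H36.LN.P7

/-!
# LN-K3: Dirichlet principle for the capacity-type quantity; cutoffs

* `cap_le`: with `σ = nχ₀` (`BCS`), `pot σ = 1 - χ₀`. `dirichlet`: `2∫σf ≤ (1/4π)∫‖gpot σ‖² + (1/4π)∫‖Df‖²` and `energy_pot`:
  `(1/4π)∫‖gpot σ‖² = ∫ σ pot σ = ∫ nχ₀(1-χ₀)`. Hence
  `(1/4π)∫‖Df‖² + ∫n(1-f)² - ∫nχ₀ ≥ 2∫nχ₀f - ∫nχ₀(1-χ₀) + ∫n(1-f)² - ∫nχ₀ = ∫ n(χ₀-(1-f))² ≥ 0`. Everything is continuous with compact support
  (`χ₀ = 1 - pot σ` is continuous).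
* `cutoff`: `φ` is `C²` and `Dec`; `φ^k(x) = ζ(x/(k+1)) φ(x)` with a smooth bump `ζ` (`1` on `B_1`, supported in `B_2`, values in `[0,1]`).
  `pd j φ^k = ζ_k pd j φ + φ pd j ζ_k`, `|pd j ζ_k| ≤ C/(k+1)` on `k+1 ≤ ‖x‖ ≤ 2(k+1)`, so it is bounded by `C (1+‖x‖)⁻¹` there; hence
  `|pd j φ^k|² ≤ C (1+‖x‖)^{-4}`, and it converges pointwise (it is eventually equal) to `|pd j φ|²`: dominated convergence (`int_decay 4`).
-/

open MeasureTheory Set Filter Topology Metric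

namespace Pool.Agent.H36.LN

private theorem bcs_mul_cont3 {f g : E3 → ℝ} (hf : BCS f) (hg : Continuous g) :
    BCS (fun x => f x * g x) := by
  obtain ⟨B, hB⟩ := hf.bdd
  obtain ⟨R, hR⟩ := hf.supp
  obtain ⟨C, hC⟩ := (isCompact_closedBall (0 : E3) R).exists_bound_of_continuousOn hg.continuousOn
  refine ⟨hf.meas.mul hg.measurable, ⟨B * |C|, fun x => ?_⟩, ⟨R, fun x hx => ?_⟩⟩
  · by_cases h : ‖x‖ ≤ R
    · have h1 := hC x (by rw [mem_closedBall, dist_zero_right]; exact h)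
      rw [abs_mul]
      exact mul_le_mul (hB x) (le_trans h1 (le_abs_self C)) (abs_nonneg _)
        (le_trans (abs_nonneg _) (hB x))
    · push Not at h
      rw [hR x h, zero_mul, abs_zero]
      exact mul_nonneg (le_trans (abs_nonneg _) (hB x)) (abs_nonneg _)
  · show f x * g x = 0
    rw [hR x hx, zero_mul]

private theorem cc1_bcs3 {f : E3 → ℝ} (hf : CC1 f) : BCS f := by
  obtain ⟨B, hB⟩ := hf.c1.continuous.bounded_above_of_compact_support hf.cs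
  obtain ⟨R, hR⟩ := hf.cs.isCompact.isBounded.subset_closedBall (0 : E3)
  refine ⟨hf.c1.continuous.measurable, ⟨B, fun x => hB x⟩, ⟨R, fun x hx => ?_⟩⟩
  by_contra h
  have h1 : x ∈ tsupport f := subset_tsupport f h
  have h2 := hR h1
  rw [mem_closedBall, dist_zero_right] at h2
  linarith

theorem cap_le {n χ₀ f : E3 → ℝ} (hn : CC1 n) (h0 : ∀ x, 0 ≤ n x) (hb : BCS (fun x => n x * χ₀ x))
    (e0 : ∀ x, χ₀ x = 1 - pot (fun z => n z * χ₀ z) x) (hf : Dec f) :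
    ∫ x, n x * χ₀ x ≤ (1 / (4 * Real.pi)) * (∫ x, ‖fderiv ℝ f x‖ ^ 2) + ∫ x, n x * (1 - f x) ^ 2 := by
  have hpi := Real.pi_pos
  have hfc : Continuous f := hf.c1.continuous
  have hpc : Continuous (pot (fun z => n z * χ₀ z)) := continuous_pot hb
  have hd := dirichlet hb hf
  obtain ⟨_, he⟩ := energy_pot hb
  rw [he] at hd
  have i1 : Integrable (fun x => (n x * χ₀ x)) := hb.int
  have i2 : Integrable (fun x => (n x * χ₀ x) * f x) := (bcs_mul_cont3 hb hfc).int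
  have i3 : Integrable (fun x => (n x * χ₀ x) * pot (fun z => n z * χ₀ z) x) :=
    (bcs_mul_cont3 hb hpc).int
  have i4 : Integrable (fun x => n x * (1 - f x) ^ 2) :=
    (bcs_mul_cont3 (cc1_bcs3 hn) ((continuous_const.sub hfc).pow 2)).int
  have key : 0 ≤ ∫ x, (2 * ((n x * χ₀ x) * f x) - (n x * χ₀ x) * pot (fun z => n z * χ₀ z) x
      + n x * (1 - f x) ^ 2 - n x * χ₀ x) := by
    refine integral_nonneg fun x => ?_
    have h1 : pot (fun z => n z * χ₀ z) x = 1 - χ₀ x := by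
      have := e0 x
      linarith
    show 0 ≤ 2 * ((n x * χ₀ x) * f x) - (n x * χ₀ x) * pot (fun z => n z * χ₀ z) x
      + n x * (1 - f x) ^ 2 - n x * χ₀ x
    rw [h1]
    have h2 : 2 * ((n x * χ₀ x) * f x) - (n x * χ₀ x) * (1 - χ₀ x)
      + n x * (1 - f x) ^ 2 - n x * χ₀ x = n x * (χ₀ x - (1 - f x)) ^ 2 := by ring
    rw [h2]
    exact mul_nonneg (h0 x) (sq_nonneg _)
  have s1 : Integrable (fun x => 2 * ((n x * χ₀ x) * f x)) := i2.const_mul 2
  have s2 : Integrable (fun x => 2 * ((n x * χ₀ x) * f x)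
      - (n x * χ₀ x) * pot (fun z => n z * χ₀ z) x) := s1.sub i3
  have s3 : Integrable (fun x => 2 * ((n x * χ₀ x) * f x)
      - (n x * χ₀ x) * pot (fun z => n z * χ₀ z) x + n x * (1 - f x) ^ 2) := s2.add i4
  rw [integral_sub s3 i1, integral_add s2 i4, integral_sub s1 i3, integral_const_mul] at key
  have h3 : 2 * (∫ x, (n x * χ₀ x) * f x) - ∫ x, (n x * χ₀ x) * pot (fun z => n z * χ₀ z) x
      ≤ (1 / (4 * Real.pi)) * ∫ x, ‖fderiv ℝ f x‖ ^ 2 := by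
    rw [one_div, ← div_eq_inv_mul, le_div_iff₀ (by positivity)]
    linarith
  linarith

/-- smooth cutoff functions -/
private theorem cut_seq3 : ∃ (ζ : ℕ → E3 → ℝ) (K : ℝ), 0 ≤ K ∧ (∀ n, ContDiff ℝ 2 (ζ n)) ∧
    (∀ n, HasCompactSupport (ζ n)) ∧ (∀ (n : ℕ) x, ‖x‖ ≤ (n : ℝ) → ζ n x = 1) ∧
    (∀ n x, 0 ≤ ζ n x ∧ ζ n x ≤ 1) ∧ ∀ n x, ‖fderiv ℝ (ζ n) x‖ ≤ K * (1 + ‖x‖)⁻¹ := by
  let b : ContDiffBump (0 : E3) := ⟨1, 2, one_pos, one_lt_two⟩
  have hc : ContDiff ℝ 2 b := b.contDiff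
  have hcs : HasCompactSupport b := b.hasCompactSupport
  have hcf : Continuous (fderiv ℝ b) := hc.continuous_fderiv two_ne_zero
  obtain ⟨K, hK⟩ := hcf.bounded_above_of_compact_support (hcs.fderiv ℝ)
  have hK0 : 0 ≤ K := le_trans (norm_nonneg _) (hK 0)
  have hbd : Differentiable ℝ b := hc.differentiable two_ne_zero
  let c : ℕ → ℝ := fun n => ((n : ℝ) + 1)⁻¹
  have hcpos : ∀ n, 0 < c n := fun n => inv_pos.2 (by positivity)
  refine ⟨fun n x => b (c n • x), 3 * K, by positivity, fun n => ?_, fun n => ?_, ?_, ?_, ?_⟩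
  · exact hc.comp (contDiff_const_smul (c n))
  · exact hcs.comp_homeomorph (Homeomorph.smulOfNeZero (c n) (hcpos n).ne')
  · intro n x hx
    apply b.one_of_mem_closedBall
    rw [mem_closedBall, dist_zero_right, norm_smul, Real.norm_eq_abs, abs_of_pos (hcpos n)]
    show ((n : ℝ) + 1)⁻¹ * ‖x‖ ≤ 1
    rw [← div_eq_inv_mul, div_le_one (by positivity)]
    linarith
  · intro n x
    exact ⟨b.nonneg, b.le_one⟩
  · intro n x
    have h1 : HasFDerivAt (fun y : E3 => c n • y) (c n • ContinuousLinearMap.id ℝ E3) x :=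
      (hasFDerivAt_id x).const_smul (c n)
    have h2 := ((hbd (c n • x)).hasFDerivAt.comp x h1).fderiv
    have h3 : (fderiv ℝ b (c n • x)).comp (c n • ContinuousLinearMap.id ℝ E3)
        = c n • fderiv ℝ b (c n • x) := by
      ext v
      simp
    rw [h3] at h2
    have h2' : fderiv ℝ (fun y => b (c n • y)) x = c n • fderiv ℝ b (c n • x) := h2
    have hpos : 0 < (1 + ‖x‖)⁻¹ := inv_pos.2 (by positivity)
    rw [h2']
    by_cases h : 2 < ‖c n • x‖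
    · have h4 : c n • x ∉ tsupport (b : E3 → ℝ) := by
        rw [b.tsupport_eq, mem_closedBall, dist_zero_right]
        exact not_le.2 h
      have h5 : (b : E3 → ℝ) =ᶠ[nhds (c n • x)] fun _ => (0 : ℝ) :=
        notMem_tsupport_iff_eventuallyEq.1 h4
      rw [h5.fderiv_eq]
      simp only [fderiv_fun_const, Pi.zero_apply, smul_zero, norm_zero]
      positivity
    · push Not at h
      rw [norm_smul, Real.norm_eq_abs, abs_of_pos (hcpos n)] at h ⊢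
      have h1 : c n ≤ 3 * (1 + ‖x‖)⁻¹ := by
        rw [← div_eq_mul_inv, le_div_iff₀ (by positivity), mul_add, mul_one]
        have h2 : c n ≤ 1 := by
          have : (1 : ℝ) ≤ (n : ℝ) + 1 := by
            have : (0 : ℝ) ≤ n := Nat.cast_nonneg n
            linarith
          exact inv_le_one_of_one_le₀ this
        linarith
      calc c n * ‖fderiv ℝ b (c n • x)‖ ≤ (3 * (1 + ‖x‖)⁻¹) * K :=
            mul_le_mul h1 (hK _) (norm_nonneg _) (by positivity)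
        _ = 3 * K * (1 + ‖x‖)⁻¹ := by ring

private theorem norm_ee3 (j : Fin 3) : ‖ee j‖ = 1 := by
  unfold ee
  simp

theorem cutoff {φ : Fin 3 → E3 → ℝ} (h2 : ∀ i, ContDiff ℝ 2 (φ i)) (hd : ∀ i, Dec (φ i)) :
    ∃ ψ : ℕ → Fin 3 → E3 → ℝ,
      (∀ k i, ContDiff ℝ 2 (ψ k i) ∧ HasCompactSupport (ψ k i)) ∧
      (∀ (k : ℕ) i x, ‖x‖ ≤ (k : ℝ) → ψ k i x = φ i x) ∧
      Tendsto (fun k => ∫ x, ∑ i, ∑ j, pd j (ψ k i) x ^ 2) atTop (𝓝 (∫ x, ∑ i, ∑ j, pd j (φ i) x ^ 2)) := by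
  obtain ⟨ζ, K, hK0, hζ2, hζc, hζ1, hζ3, hζK⟩ := cut_seq3
  choose C hC using fun i => (hd i).bd
  have hpos : ∀ y : E3, 0 < (1 + ‖y‖)⁻¹ := fun y => inv_pos.2 (by positivity)
  have hC0 : ∀ i, 0 ≤ C i := fun i =>
    nonneg_of_mul_nonneg_left (le_trans (abs_nonneg _) (hC i 0).1) (hpos 0)
  refine ⟨fun k i x => ζ k x * φ i x, fun k i => ⟨(hζ2 k).mul (h2 i), (hζc k).mul_right⟩, ?_, ?_⟩
  · intro k i x hx
    show ζ k x * φ i x = φ i x
    rw [hζ1 k x hx, one_mul]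
  have hφd : ∀ i, Differentiable ℝ (φ i) := fun i => (h2 i).differentiable two_ne_zero
  have hζd : ∀ k, Differentiable ℝ (ζ k) := fun k => (hζ2 k).differentiable two_ne_zero
  have hbd : ∀ k i x, ‖fderiv ℝ (fun x => ζ k x * φ i x) x‖
      ≤ (C i + C i * K) * (1 + ‖x‖)⁻¹ ^ 2 := by
    intro k i x
    have hp := hpos x
    have e0 : fderiv ℝ (fun x => ζ k x * φ i x) x = ζ k x • fderiv ℝ (φ i) x
        + φ i x • fderiv ℝ (ζ k) x :=
      (((hζd k) x).hasFDerivAt.mul ((hφd i) x).hasFDerivAt).fderiv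
    rw [e0]
    have e1 : ‖ζ k x • fderiv ℝ (φ i) x‖ ≤ C i * (1 + ‖x‖)⁻¹ ^ 2 := by
      rw [norm_smul, Real.norm_eq_abs, abs_of_nonneg (hζ3 k x).1]
      calc ζ k x * ‖fderiv ℝ (φ i) x‖ ≤ 1 * ‖fderiv ℝ (φ i) x‖ :=
            mul_le_mul_of_nonneg_right (hζ3 k x).2 (norm_nonneg _)
        _ ≤ _ := by rw [one_mul]; exact (hC i x).2
    have e2 : ‖φ i x • fderiv ℝ (ζ k) x‖ ≤ (C i * (1 + ‖x‖)⁻¹) * (K * (1 + ‖x‖)⁻¹) := by
      rw [norm_smul, Real.norm_eq_abs]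
      have := hC0 i
      exact mul_le_mul (hC i x).1 (hζK k x) (norm_nonneg _) (by positivity)
    calc ‖ζ k x • fderiv ℝ (φ i) x + φ i x • fderiv ℝ (ζ k) x‖ ≤ _ := norm_add_le _ _
      _ ≤ C i * (1 + ‖x‖)⁻¹ ^ 2 + (C i * (1 + ‖x‖)⁻¹) * (K * (1 + ‖x‖)⁻¹) := add_le_add e1 e2
      _ = (C i + C i * K) * (1 + ‖x‖)⁻¹ ^ 2 := by ring
  have hpd : ∀ k i j x, pd j (fun x => ζ k x * φ i x) x ^ 2
      ≤ (C i + C i * K) ^ 2 * (1 + ‖x‖)⁻¹ ^ 4 := by
    intro k i j x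
    have h1 : |pd j (fun x => ζ k x * φ i x) x| ≤ (C i + C i * K) * (1 + ‖x‖)⁻¹ ^ 2 := by
      have h3 := ContinuousLinearMap.le_opNorm (fderiv ℝ (fun x => ζ k x * φ i x) x) (ee j)
      rw [norm_ee3, mul_one, Real.norm_eq_abs] at h3
      exact le_trans h3 (hbd k i x)
    calc pd j (fun x => ζ k x * φ i x) x ^ 2 = |pd j (fun x => ζ k x * φ i x) x| ^ 2 :=
          (sq_abs _).symm
      _ ≤ ((C i + C i * K) * (1 + ‖x‖)⁻¹ ^ 2) ^ 2 := pow_le_pow_left₀ (abs_nonneg _) h1 2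
      _ = (C i + C i * K) ^ 2 * (1 + ‖x‖)⁻¹ ^ 4 := by ring
  refine tendsto_integral_of_dominated_convergence
    (fun x => (∑ i : Fin 3, ∑ _j : Fin 3, (C i + C i * K) ^ 2) * (1 + ‖x‖)⁻¹ ^ 4) ?_
    ((int_decay 4 le_rfl).const_mul _) ?_ ?_
  · intro k
    refine Continuous.aestronglyMeasurable ?_
    refine continuous_finsetSum _ fun i _ => continuous_finsetSum _ fun j _ => ?_
    have h3 : Continuous (fderiv ℝ (fun x => ζ k x * φ i x)) :=
      ((hζ2 k).mul (h2 i)).continuous_fderiv two_ne_zero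
    exact (h3.clm_apply continuous_const).pow 2
  · intro k
    refine Filter.Eventually.of_forall fun x => ?_
    rw [Real.norm_eq_abs, abs_of_nonneg
      (Finset.sum_nonneg fun i _ => Finset.sum_nonneg fun j _ => sq_nonneg _), Finset.sum_mul]
    refine Finset.sum_le_sum fun i _ => ?_
    rw [Finset.sum_mul]
    exact Finset.sum_le_sum fun j _ => hpd k i j x
  · refine Filter.Eventually.of_forall fun x => ?_
    refine tendsto_finsetSum _ fun i _ => tendsto_finsetSum _ fun j _ => ?_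
    refine Filter.Tendsto.congr' ?_ tendsto_const_nhds
    obtain ⟨N, hN⟩ := exists_nat_ge (‖x‖ + 1)
    filter_upwards [eventually_ge_atTop N] with k hk
    have h3 : (fun y => ζ k y * φ i y) =ᶠ[nhds x] φ i := by
      filter_upwards [ball_mem_nhds x one_pos] with y hy
      have h4 : ‖y‖ ≤ (k : ℝ) := by
        have h5 : ‖y - x‖ < 1 := by rw [← dist_eq_norm]; exact hy
        have h6 : ‖y‖ ≤ ‖y - x‖ + ‖x‖ := by
          have := norm_add_le (y - x) x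
          simpa using this
        have h7 : (N : ℝ) ≤ k := by exact_mod_cast hk
        linarith
      rw [hζ1 k y h4, one_mul]
    unfold pd
    rw [h3.fderiv_eq]

end Pool.Agent.H36.LN
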