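import Pool.Agent.H36.LN.K1
import Pool.Agent.H36.LN.K3

/-!
# LN-K5: the K-lemma

`φ_i = pot(nχ_i)`, `χ_i = X_i - φ_i`. `φ_i` is `C¹` (P3b), so `nχ_i` is `CC1` and `φ_i` is `C²` (P4), `Dec` (P3b). `Σ_i∫nX_iχ_i = ∫n|χ|² + Σ_i∫nχ_iφ_i` and
`4πΣ_i∫nχ_iφ_i = Σ_i∫‖gpot(nχ_i)‖² = ∫Σ_ij(∂_jφ_i)²` (`energy_pot`, `pd_pot`).
Take `ψ^k` from `cutoff`, `f_k = F(ϱ_k/a)`, `ϱ_k = rr (ψ^k) η`. For `k` larger than the radius of the support of `n`: `ψ^k = φ` on the support of `n`, so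
`n (1-f_k)² · 9a² ≤ n (|χ|²+η²)` (`FF_ge`: `0 ≤ 1 - F(s) ≤ s/3` with `s = ϱ/a`), and `cap_le`, `energy_ineq` give
`9a²∫nχ₀ ≤ (9a²/4π)∫‖Df_k‖² + ∫n(|χ|²+η²) ≤ (1/4π)(∫Σ(∂_jψ^k_i)² + 24πa³) + ∫n|χ|² + η²∫n`. Let `k → ∞`, then `η → 0`:
`9a²∫nχ₀ ≤ (1/4π)∫Σ(∂_jφ_i)² + 6a³ + ∫n|χ|² = Σ∫nX_iχ_i + 6a³`.
-/

open MeasureTheory Set Filter Topology

namespace Pool.Agent.H36.LN

theorem K5_coord (i : Fin 3) : ContDiff ℝ 1 (fun x : E3 => x i) :=
  (EuclideanSpace.proj i : E3 →L[ℝ] ℝ).contDiff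

/-- the pointwise bound for the penalty term -/
theorem K5_pt {c η a s : ℝ} (ha : 0 < a) (hs : 0 < s) (hs2 : s ^ 2 = c + η ^ 2) :
    9 * a ^ 2 * (1 - FF (s / a)) ^ 2 ≤ c + η ^ 2 := by
  have hsa : 0 < s / a := div_pos hs ha
  obtain ⟨h1, h2, -, -⟩ := FF_spec hsa
  have h3 := FF_ge hsa
  have h4 : (1 - FF (s / a)) ^ 2 ≤ (s / a / 3) ^ 2 :=
    pow_le_pow_left₀ (by linarith) h3 2
  calc 9 * a ^ 2 * (1 - FF (s / a)) ^ 2 ≤ 9 * a ^ 2 * (s / a / 3) ^ 2 :=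
        mul_le_mul_of_nonneg_left h4 (by positivity)
    _ = s ^ 2 := by
        field_simp
        ring
    _ = c + η ^ 2 := hs2

theorem K_lemma {n χ₀ : E3 → ℝ} {χ : Fin 3 → E3 → ℝ} (hn : CC1 n) (h0 : ∀ x, 0 ≤ n x)
    (hb0 : BCS (fun x => n x * χ₀ x)) (hb : ∀ i, BCS (fun x => n x * χ i x))
    (e0 : ∀ x, χ₀ x = 1 - pot (fun z => n z * χ₀ z) x)
    (e1 : ∀ i x, χ i x = x i - pot (fun z => n z * χ i z) x) {a : ℝ} (ha : 0 < a) :
    9 * a ^ 2 * (∫ x, n x * χ₀ x) - 6 * a ^ 3 ≤ ∑ i, ∫ x, n x * (x i * χ i x) := by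
  set φ : Fin 3 → E3 → ℝ := fun i => pot (fun z => n z * χ i z) with hφ
  have hχ : ∀ i x, χ i x = x i - φ i x := e1
  have hχf : ∀ i, χ i = fun x => x i - φ i x := fun i => funext (hχ i)
  have hc1 : ∀ i, ContDiff ℝ 1 (φ i) := fun i => contDiff_pot (hb i)
  have hχc1 : ∀ i, ContDiff ℝ 1 (χ i) := fun i => by
    rw [hχf i]
    exact (K5_coord i).sub (hc1 i)
  have hcc : ∀ i, CC1 (fun z => n z * χ i z) := fun i =>
    ⟨hn.c1.mul (hχc1 i), hn.cs.mul_right⟩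
  have hφ2 : ∀ i, ContDiff ℝ 2 (φ i) := fun i => contDiff_two_pot (hcc i)
  have hdec : ∀ i, Dec (φ i) := fun i => dec_pot (hb i)
  have hπ : 0 < Real.pi := Real.pi_pos
  -- energy
  set S : ℝ := ∫ x, ∑ i, ∑ j, pd j (φ i) x ^ 2 with hSdef
  have hS : S = 4 * Real.pi * ∑ i, ∫ z, (n z * χ i z) * φ i z := by
    have e : ∀ x, ∑ i, ∑ j, pd j (φ i) x ^ 2 =
        ∑ i, ‖gpot (fun z => n z * χ i z) x‖ ^ 2 := by
      intro x
      refine Finset.sum_congr rfl fun i _ => ?_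
      rw [EuclideanSpace.real_norm_sq_eq]
      refine Finset.sum_congr rfl fun j _ => ?_
      rw [← pd_pot (hb i) j x]
    rw [hSdef]
    simp only [e]
    rw [integral_finsetSum _ fun i _ => (energy_pot (hb i)).1, Finset.mul_sum]
    exact Finset.sum_congr rfl fun i _ => (energy_pot (hb i)).2
  -- the right hand side
  set Q : ℝ := ∫ x, n x * ∑ i, χ i x ^ 2 with hQdef
  have hint : ∀ i, Integrable fun x => n x * χ i x ^ 2 := fun i =>
    Continuous.integrable_of_hasCompactSupport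
      (hn.c1.continuous.mul ((hχc1 i).continuous.pow 2)) hn.cs.mul_right
  have hQi : Integrable fun x => n x * ∑ i, χ i x ^ 2 := by
    simp only [Finset.mul_sum]
    exact integrable_finsetSum _ fun i _ => hint i
  have hQ : Q = ∑ i, ∫ x, n x * χ i x ^ 2 := by
    rw [hQdef]
    simp only [Finset.mul_sum]
    exact integral_finsetSum _ fun i _ => hint i
  have hR : ∑ i, ∫ x, n x * (x i * χ i x) = Q + ∑ i, ∫ z, (n z * χ i z) * φ i z := by
    rw [hQ, ← Finset.sum_add_distrib]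
    refine Finset.sum_congr rfl fun i _ => ?_
    rw [← integral_add (hint i) (bcs_int (hb i) (hb i))]
    refine integral_congr_ae (Filter.Eventually.of_forall fun x => ?_)
    show n x * (x i * χ i x) = n x * χ i x ^ 2 + n x * χ i x * φ i x
    have : x i = χ i x + φ i x := by rw [hχ i x]; ring
    rw [this]
    ring
  have hNi : Integrable n :=
    Continuous.integrable_of_hasCompactSupport hn.c1.continuous hn.cs
  set N : ℝ := ∫ x, n x with hNdef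
  have hN0 : 0 ≤ N := integral_nonneg h0
  obtain ⟨ψ, hψ1, hψ2, hψ3⟩ := cutoff hφ2 hdec
  obtain ⟨R, hRn⟩ := hn.bcs.supp
  have key : ∀ η : ℝ, 0 < η → 9 * a ^ 2 * (∫ x, n x * χ₀ x) ≤
      (1 / (4 * Real.pi)) * (S + 24 * Real.pi * a ^ 3) + (Q + η ^ 2 * N) := by
    intro η hη
    have hlim : Tendsto (fun k => (1 / (4 * Real.pi)) *
        ((∫ x, ∑ i, ∑ j, pd j (ψ k i) x ^ 2) + 24 * Real.pi * a ^ 3) + (Q + η ^ 2 * N)) atTop
        (𝓝 ((1 / (4 * Real.pi)) * (S + 24 * Real.pi * a ^ 3) + (Q + η ^ 2 * N))) :=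
      ((hψ3.add_const _).const_mul _).add_const _
    refine ge_of_tendsto hlim ?_
    obtain ⟨k₀, hk₀⟩ := exists_nat_ge R
    filter_upwards [eventually_ge_atTop k₀] with k hk
    have hkR : R ≤ (k : ℝ) := hk₀.trans (by exact_mod_cast hk)
    have hCC : ∀ i, CC2 (ψ k i) := fun i => ⟨(hψ1 k i).1, (hψ1 k i).2⟩
    have hD := dec_f (φ := ψ k) hCC hη ha
    have h1 := cap_le hn h0 hb0 e0 hD
    have h2 := energy_ineq (φ := ψ k) hCC hη ha
    have h3 : ∫ x, 9 * a ^ 2 * (n x * (1 - FF (rr (ψ k) η x / a)) ^ 2) ≤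
        ∫ x, (n x * ∑ i, χ i x ^ 2 + η ^ 2 * n x) := by
      refine integral_mono_of_nonneg (Filter.Eventually.of_forall fun x => ?_)
        (hQi.add (hNi.const_mul _)) (Filter.Eventually.of_forall fun x => ?_)
      · exact mul_nonneg (by positivity) (mul_nonneg (h0 x) (sq_nonneg _))
      · show 9 * a ^ 2 * (n x * (1 - FF (rr (ψ k) η x / a)) ^ 2) ≤
          n x * ∑ i, χ i x ^ 2 + η ^ 2 * n x
        by_cases hx : ‖x‖ ≤ R
        · have h4 : rr (ψ k) η x ^ 2 = ∑ i, χ i x ^ 2 + η ^ 2 := by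
            unfold rr
            rw [Real.sq_sqrt (add_nonneg (Finset.sum_nonneg fun i _ => sq_nonneg _)
              (sq_nonneg _))]
            congr 1
            refine Finset.sum_congr rfl fun i _ => ?_
            unfold ch
            rw [hψ2 k i x (hx.trans hkR), ← hχ i x]
          have h5 := K5_pt ha (rr_pos hη x) h4
          calc 9 * a ^ 2 * (n x * (1 - FF (rr (ψ k) η x / a)) ^ 2)
              = n x * (9 * a ^ 2 * (1 - FF (rr (ψ k) η x / a)) ^ 2) := by ring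
            _ ≤ n x * (∑ i, χ i x ^ 2 + η ^ 2) := mul_le_mul_of_nonneg_left h5 (h0 x)
            _ = _ := by ring
        · rw [hRn x (not_le.1 hx)]
          simp
    rw [integral_const_mul, integral_add hQi (hNi.const_mul _), integral_const_mul] at h3
    have h6 : 9 * a ^ 2 * (∫ x, n x * χ₀ x) ≤ 9 * a ^ 2 *
        ((1 / (4 * Real.pi)) * (∫ x, ‖fderiv ℝ (fun x => FF (rr (ψ k) η x / a)) x‖ ^ 2) +
          ∫ x, n x * (1 - FF (rr (ψ k) η x / a)) ^ 2) :=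
      mul_le_mul_of_nonneg_left h1 (by positivity)
    have h7 : (1 / (4 * Real.pi)) * (9 * a ^ 2 *
        (∫ x, ‖fderiv ℝ (fun x => FF (rr (ψ k) η x / a)) x‖ ^ 2)) ≤
        (1 / (4 * Real.pi)) *
        ((∫ x, ∑ i, ∑ j, pd j (ψ k i) x ^ 2) + 24 * Real.pi * a ^ 3) :=
      mul_le_mul_of_nonneg_left (by linarith) (by positivity)
    calc 9 * a ^ 2 * (∫ x, n x * χ₀ x) ≤ _ := h6
      _ = (1 / (4 * Real.pi)) * (9 * a ^ 2 *
            (∫ x, ‖fderiv ℝ (fun x => FF (rr (ψ k) η x / a)) x‖ ^ 2)) +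
          9 * a ^ 2 * ∫ x, n x * (1 - FF (rr (ψ k) η x / a)) ^ 2 := by ring
      _ ≤ _ := add_le_add h7 h3
  have hfin : 9 * a ^ 2 * (∫ x, n x * χ₀ x) ≤
      (1 / (4 * Real.pi)) * (S + 24 * Real.pi * a ^ 3) + Q := by
    refine le_of_forall_pos_le_add fun ε hε => ?_
    have h1 := key (Real.sqrt (ε / (N + 1))) (Real.sqrt_pos.2 (by positivity))
    rw [Real.sq_sqrt (by positivity)] at h1
    have h2 : ε / (N + 1) * N ≤ ε := by
      rw [div_mul_eq_mul_div, div_le_iff₀ (by positivity)]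
      nlinarith
    linarith
  rw [hR]
  have h8 : (1 / (4 * Real.pi)) * (S + 24 * Real.pi * a ^ 3) =
      (∑ i, ∫ z, (n z * χ i z) * φ i z) + 6 * a ^ 3 := by
    rw [hS]
    field_simp
    ring
  rw [h8] at hfin
  linarith

end Pool.Agent.H36.LN
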