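import Pool.Agent.H36.LN.I2
import Pool.Agent.H36.LN.K5

/-!
# LN-I3: the D-lemma (inequality (4) of the paper proof) from the K-lemma by inversion at `x`

`v` is `C_c¹`, `v ≥ 0`, `v = 0` on the ball `B(x,r₀)`; `q₀ = s0 x - pot(v q₀)`, `q_i = s1 x i - pot(v q_i)`.
`n(X) = ‖X‖⁻¹^4 v(x + iv X)` (`n_cc1`), `χ̃₀(X) = ‖X‖⁻¹ q₀(x+iv X)`, `χ̃_i(X) = ‖X‖⁻¹ q_i(x + iv X)` and `χ₀ = 1 - pot(n χ̃₀)`, `χ_i = X_i - pot(n χ̃_i)`.
* By `pot_inv`, for `X ≠ 0`: `χ̃₀(X) = ‖X‖⁻¹(‖y-x‖⁻¹ - pot(vq₀)(y)) = 1 - pot(nχ̃₀)(X) = χ₀(X)`, `y = x + iv X` (as `‖y - x‖ = ‖X‖⁻¹`), and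
  `χ̃_i(X) = ‖X‖⁻¹ (‖y-x‖⁻¹^3 (y-x)_i - pot(vq_i)(y)) = X_i - pot(nχ̃_i)(X)`, as `(y-x)_i = ‖X‖⁻¹^2 X_i`. Since `n(0) = 0`, `nχ̃ = nχ` everywhere.
  `BCS (n χ̃)`: `q` is bounded on the support of `v` since `s0`, `s1` are bounded away from `x` and `pot(vq)` is bounded (`l2_pot`).
* `∫ v q₀ s0 = ∫ n χ₀`, `∫ v q_i s1_i = ∫ n X_i χ_i` by `inv_cov` (with `z - x = iv X`).
* apply `K_lemma`.
-/

open MeasureTheory Set

namespace Pool.Agent.H36.LN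

private theorem I3_meas_iv : Measurable iv := by
  unfold iv
  fun_prop

private theorem I3_bcs {v : E3 → ℝ} (hv : CC1 v) {x : E3} {r₀ : ℝ} (hr : 0 < r₀)
    (hz : ∀ y, ‖y - x‖ < r₀ → v y = 0) {Q : E3 → ℝ} (hQ : Measurable Q) {C : ℝ}
    (hC : ∀ y, r₀ ≤ ‖y - x‖ → |Q y| ≤ C) :
    BCS (fun X => (‖X‖⁻¹ ^ 4 * v (x + iv X)) * (‖X‖⁻¹ * Q (x + iv X))) := by
  have hvc : Continuous v := hv.c1.continuous
  have hm := I3_meas_iv
  obtain ⟨B, hB⟩ := hv.cs.exists_bound_of_continuous hvc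
  obtain ⟨R, hR⟩ := hv.cs.isCompact.isBounded.subset_closedBall x
  have hmain : ∀ X : E3, v (x + iv X) ≠ 0 → r₀ ≤ ‖X‖⁻¹ ∧ ‖X‖⁻¹ ≤ R := by
    intro X hX
    have h1 : ‖(x + iv X) - x‖ = ‖X‖⁻¹ := by
      rw [add_sub_cancel_left, norm_iv]
    constructor
    · by_contra hlt
      exact hX (hz _ (by rw [h1]; exact not_le.1 hlt))
    · have h2 : x + iv X ∈ tsupport v := subset_tsupport _ hX
      have h3 := hR h2
      rw [Metric.mem_closedBall, dist_eq_norm, h1] at h3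
      exact h3
  refine ⟨?_, ?_, ?_⟩
  · exact (((measurable_norm.inv.pow_const 4).mul
      (hvc.measurable.comp (measurable_const.add hm))).mul
      (measurable_norm.inv.mul (hQ.comp (measurable_const.add hm))))
  · refine ⟨(|R| ^ 4 * B) * (|R| * |C|), fun X => ?_⟩
    have hB0 : 0 ≤ B := (norm_nonneg _).trans (hB 0)
    by_cases hX : v (x + iv X) = 0
    · rw [hX, mul_zero, zero_mul, abs_zero]
      positivity
    · obtain ⟨h1, h2⟩ := hmain X hX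
      have h3 : ‖(x + iv X) - x‖ = ‖X‖⁻¹ := by
        rw [add_sub_cancel_left, norm_iv]
      have h4 := (hC (x + iv X) (by rw [h3]; exact h1)).trans (le_abs_self C)
      have h5 := hB (x + iv X)
      rw [Real.norm_eq_abs] at h5
      have h6 : 0 ≤ ‖X‖⁻¹ := by positivity
      have h7 := h2.trans (le_abs_self R)
      rw [abs_mul, abs_mul, abs_mul, abs_of_nonneg (pow_nonneg h6 4), abs_of_nonneg h6]
      gcongr
  · refine ⟨r₀⁻¹, fun X hX => ?_⟩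
    by_cases h : v (x + iv X) = 0
    · rw [h]; simp
    · exfalso
      have h1 := (hmain X h).1
      have h2 : ‖X‖⁻¹ < r₀ := by
        have h3 : 0 < ‖X‖ := (inv_pos.2 hr).trans hX
        rw [inv_lt_comm₀ h3 hr]
        exact hX
      linarith

theorem D_lemma {v : E3 → ℝ} (hv : CC1 v) (h0 : ∀ y, 0 ≤ v y) {x : E3} {r₀ : ℝ} (hr : 0 < r₀)
    (hz : ∀ y, ‖y - x‖ < r₀ → v y = 0) {q₀ : E3 → ℝ} {q : Fin 3 → E3 → ℝ}
    (e0 : IsLin v (s0 x) q₀) (e1 : ∀ i, IsLin v (s1 x i) (q i)) {a : ℝ} (ha : 0 < a) :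
    9 * a ^ 2 * (∫ z, v z * q₀ z * s0 x z) - 6 * a ^ 3 ≤ ∑ i, ∫ z, v z * q i z * s1 x i z := by
  have hvw : Wt v := by
    obtain ⟨B, hB⟩ := hv.cs.exists_bound_of_continuous hv.c1.continuous
    obtain ⟨R, hR⟩ := hv.cs.isCompact.isBounded.subset_closedBall (0 : E3)
    refine ⟨⟨hv.c1.continuous.measurable, ⟨B, fun y => by simpa using hB y⟩, ⟨R, fun y hy => ?_⟩⟩, h0⟩
    by_contra hne
    have h1 := hR (subset_tsupport _ (show y ∈ Function.support v from hne))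
    rw [mem_closedBall_zero_iff] at h1
    linarith
  obtain ⟨C, hC0, hCp⟩ := l2_pot hvw
  set n : E3 → ℝ := fun X => ‖X‖⁻¹ ^ 4 * v (x + iv X) with hn
  have hn1 : CC1 n := n_cc1 hv hr hz
  have hn0 : ∀ X, 0 ≤ n X := fun X => mul_nonneg (by positivity) (h0 _)
  have key : ∀ (s Q : E3 → ℝ) (c : E3 → ℝ) (D : ℝ), IsLin v s Q →
      (∀ y, r₀ ≤ ‖y - x‖ → |s y| ≤ D) →
      (∀ X : E3, X ≠ 0 → ‖X‖⁻¹ * s (x + iv X) = c X) →
      BCS (fun X => n X * (‖X‖⁻¹ * Q (x + iv X))) ∧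
      (∀ X, n X * (c X - pot (fun Z => n Z * (‖Z‖⁻¹ * Q (x + iv Z))) X)
        = n X * (‖X‖⁻¹ * Q (x + iv X))) := by
    intro s Q c D hQ hs hc
    constructor
    · refine I3_bcs hv hr hz hQ.l2.meas (C := D + C * Real.sqrt (∫ z, v z * Q z ^ 2)) ?_
      intro y hy
      rw [hQ.eq y]
      have h1 := hs y hy
      have h2 := (hCp Q hQ.l2 y).2
      exact (abs_sub _ _).trans (add_le_add h1 h2)
    · intro X
      by_cases hX : X = 0
      · have : n X = 0 := by simp [hn, hX]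
        rw [this]; ring
      · congr 1
        rw [pot_inv v Q x hX, hQ.eq (x + iv X), mul_sub, hc X hX]
  have hiv : ∀ X : E3, ‖(x + iv X) - x‖ = ‖X‖⁻¹ := fun X => by
    rw [add_sub_cancel_left, norm_iv]
  obtain ⟨hb0, hk0⟩ := key (s0 x) q₀ (fun _ => 1) r₀⁻¹ e0 (fun y hy => by
    unfold s0
    rw [abs_of_nonneg (by positivity)]
    exact inv_anti₀ hr hy) (fun X hX => by
    unfold s0
    rw [hiv X, inv_inv]
    exact inv_mul_cancel₀ (norm_ne_zero_iff.2 hX))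
  have hk1' : ∀ i : Fin 3, _ := fun i => key (s1 x i) (q i) (fun X => X i) (r₀⁻¹ ^ 2) (e1 i) (fun y hy => by
    unfold s1
    have h1 : |(y - x) i| ≤ ‖y - x‖ := by
      have h := PiLp.norm_apply_le (y - x) i
      rwa [Real.norm_eq_abs] at h
    have h2 : 0 < ‖y - x‖ := hr.trans_le hy
    rw [abs_mul, abs_of_nonneg (by positivity : 0 ≤ ‖y - x‖⁻¹ ^ 3)]
    calc ‖y - x‖⁻¹ ^ 3 * |(y - x) i| ≤ ‖y - x‖⁻¹ ^ 3 * ‖y - x‖ := by gcongr
      _ = ‖y - x‖⁻¹ ^ 2 := by field_simp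
      _ ≤ r₀⁻¹ ^ 2 := by gcongr) (fun X hX => by
    unfold s1
    have h2 : ‖X‖ ≠ 0 := norm_ne_zero_iff.2 hX
    rw [hiv X, inv_inv, add_sub_cancel_left]
    simp only [iv, PiLp.smul_apply, smul_eq_mul]
    field_simp)
  have hb1 := fun i => (hk1' i).1
  have hk1 := fun i => (hk1' i).2
  have E0 : ∀ X, n X * (1 - pot (fun Z => n Z * (‖Z‖⁻¹ * q₀ (x + iv Z))) X)
      = n X * (‖X‖⁻¹ * q₀ (x + iv X)) := hk0
  have E1 : ∀ i X, n X * (X i - pot (fun Z => n Z * (‖Z‖⁻¹ * q i (x + iv Z))) X)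
      = n X * (‖X‖⁻¹ * q i (x + iv X)) := hk1
  have hK := K_lemma (n := n)
    (χ₀ := fun X => 1 - pot (fun Z => n Z * (‖Z‖⁻¹ * q₀ (x + iv Z))) X)
    (χ := fun i X => X i - pot (fun Z => n Z * (‖Z‖⁻¹ * q i (x + iv Z))) X) hn1 hn0
    (by simp only [E0]; exact hb0) (fun i => by simp only [E1]; exact hb1 i)
    (fun X => by simp only [E0]) (fun i X => by simp only [E1]) ha
  have I0 : ∫ z, v z * q₀ z * s0 x z
      = ∫ X, n X * (1 - pot (fun Z => n Z * (‖Z‖⁻¹ * q₀ (x + iv Z))) X) := by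
    simp only [E0]
    rw [inv_cov (fun X => n X * (‖X‖⁻¹ * q₀ (x + iv X))),
      ← integral_add_left_eq_self (fun z => v z * q₀ z * s0 x z) x]
    congr 1
    funext z
    simp only [hn, iv_iv, norm_iv, inv_inv, s0, add_sub_cancel_left]
    by_cases hz0 : ‖z‖ = 0
    · simp [hz0]
    · field_simp
  have I1 : ∀ i, ∫ z, v z * q i z * s1 x i z
      = ∫ X, n X * (X i * (X i - pot (fun Z => n Z * (‖Z‖⁻¹ * q i (x + iv Z))) X)) := by
    intro i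
    have e : ∀ X : E3, n X * (X i * (X i - pot (fun Z => n Z * (‖Z‖⁻¹ * q i (x + iv Z))) X))
        = X i * (n X * (‖X‖⁻¹ * q i (x + iv X))) := fun X => by
      rw [← E1 i X]; ring
    simp only [e]
    rw [inv_cov (fun X => X i * (n X * (‖X‖⁻¹ * q i (x + iv X)))),
      ← integral_add_left_eq_self (fun z => v z * q i z * s1 x i z) x]
    congr 1
    funext z
    simp only [hn, iv_iv, norm_iv, inv_inv, s1, add_sub_cancel_left]
    simp only [iv, PiLp.smul_apply, smul_eq_mul]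
    by_cases hz0 : ‖z‖ = 0
    · simp [hz0]
    · field_simp
  rw [I0]
  simp only [I1]
  exact hK

end Pool.Agent.H36.LN
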