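import Pool.Agent.H36.LN.D3
import Pool.Agent.H36.LN.D5
import Pool.Agent.H36.LN.D6b
import Pool.Agent.H36.LN.I3
import Pool.Agent.H36.LN.G3

/-!
# LN-D7: the pointwise inequality, and the assembly

`key_ineq`: `M Σ_i DG_i = M Σ_i gpot (pd i μ) x i + M² Env = -4πM μ(x) + M² Env` (`laplace_pot`, `mu_cc1`), `μ(x) = ρ(x)` (`mm_near` at `y = x` or `IsSol.atx`),
`Env = Σ_i ∫ v q_i s1_i`. `V = 0`: `Env ≥ 0` by `IsLin.energy`. `V > 0` (`V ≥ 0`: `pot_mu_mem`): `D_lemma` with `a = 2V/(3M)` (`vv_cc1`, `vv_nonneg`, `vv_near` with `r₀ = M/(ε+S)`):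
`M²(9a²T - 6a³) = 4V²T - (16/9)V³/M`.
-/

open MeasureTheory Set Filter Topology

namespace Pool.Agent.H36.LN

variable {ρ : E3 → ℝ} {ε : ℝ} {β : ℝ → ℝ}

theorem key_ineq (hρ : Nice ρ) (hβ : Beta ε β) (x : E3) {M : ℝ} (hM : 0 < M) :
    4 * VV ρ β x M ^ 2 * TT ρ β x M - 16 / 9 * VV ρ β x M ^ 3 / M
      ≤ M * ∑ i, DG ρ β i x M + 4 * Real.pi * M * ρ x := by
  have hw := hρ.wt
  have hmu : mu ρ β x M x = ρ x := by
    show ρ x * mm ρ β x M x = ρ x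
    rw [(mm_sol hw hβ x hM).atx, mul_one]
  have hDG : ∑ i, DG ρ β i x M = -(4 * Real.pi * ρ x) +
      M * ∑ i, ∫ z, vv ρ β x M z * q1 ρ β x M i z * s1 x i z := by
    unfold DG
    rw [Finset.sum_add_distrib, laplace_pot (mu_cc1 hρ hβ x hM) x, hmu, Finset.mul_sum]
  have hV : 0 ≤ VV ρ β x M := (pot_mu_mem hw hβ x hM x).1
  rw [hDG]
  have hR : M * (-(4 * Real.pi * ρ x) +
      M * ∑ i, ∫ z, vv ρ β x M z * q1 ρ β x M i z * s1 x i z) + 4 * Real.pi * M * ρ x =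
      M ^ 2 * ∑ i, ∫ z, vv ρ β x M z * q1 ρ β x M i z * s1 x i z := by ring
  rw [hR]
  rcases hV.eq_or_lt with h0 | hpos
  · have hE : 0 ≤ ∑ i, ∫ z, vv ρ β x M z * q1 ρ β x M i z * s1 x i z := by
      refine Finset.sum_nonneg fun i _ => ?_
      refine le_trans ?_ (IsLin.energy (vv_wt hρ hβ x hM) (s1_l2 hρ hβ x hM i)
        (q1_lin hρ hβ x hM i)).1
      exact integral_nonneg fun z => mul_nonneg (vv_nonneg hρ hβ x M z) (sq_nonneg _)
    rw [← h0]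
    have : 0 ≤ M ^ 2 * ∑ i, ∫ z, vv ρ β x M z * q1 ρ β x M i z * s1 x i z := by positivity
    simpa using this
  · obtain ⟨S, hS0, hS⟩ := pot_sup hw
    have hεS : 0 < ε + S := by linarith [hβ.eps]
    have h1 := D_lemma (vv_cc1 hρ hβ x hM) (vv_nonneg hρ hβ x M) (x := x)
      (r₀ := M / (ε + S)) (by positivity)
      (fun y hy => vv_near hρ hβ hS x hM ((lt_div_iff₀ hεS).1 hy).le)
      (q0_lin hρ hβ x hM) (q1_lin hρ hβ x hM) (a := 2 * VV ρ β x M / (3 * M)) (by positivity)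
    have h2 : 4 * VV ρ β x M ^ 2 * TT ρ β x M - 16 / 9 * VV ρ β x M ^ 3 / M =
        M ^ 2 * (9 * (2 * VV ρ β x M / (3 * M)) ^ 2 *
          (∫ z, vv ρ β x M z * q0 ρ β x M z * s0 x z) -
          6 * (2 * VV ρ β x M / (3 * M)) ^ 3) := by
      unfold TT
      field_simp
      ring
    rw [h2]
    exact mul_le_mul_of_nonneg_left h1 (by positivity)

theorem gdata (hρ : Nice ρ) (hβ : Beta ε β) :
    GData ρ (VV ρ β) (GG ρ β) (TT ρ β) (DV ρ β) (DG ρ β) where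
  rho_c := hρ.c2.continuous
  rho_cs := hρ.cs
  rho_nn := hρ.nonneg
  contV := contV hρ.wt hβ
  contG := contG hρ.wt hβ
  dVM := fun x _ hM => dVM hρ hβ x hM
  dGM := fun x _ i hM => dGM hρ hβ x hM i
  dVx := fun x _ i hM => dVx hρ hβ x hM i
  dGx := fun x _ i hM => dGx hρ hβ x hM i
  ineq := fun x _ hM => key_ineq hρ hβ x hM
  bV := bV hρ hβ
  bG := bG hρ hβ
  bD := bD hρ hβ
  smallG := smallG hρ hβ

/-- the main inequality -/
theorem main_ineq (hρ : Nice ρ) (hβ : Beta ε β) :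
    ∫ x, ρ x * ∫ M in (0 : ℝ)..1, VV ρ β x M ≤ 9 / 10 * kk * ∫ x, ρ x ^ (4 / 3 : ℝ) :=
  (gdata hρ hβ).final

end Pool.Agent.H36.LN
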