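import Pool.Agent.H75.LO.Defs

/-!
# LN: basic definitions

Coulomb potentials on `ℝ³`, the soft obstacle problem, and the functions of `(x,M)` derived from its solution.
-/

open MeasureTheory Set

namespace Pool.Agent.H36.LN

/-- three-dimensional space -/
abbrev E3 := EuclideanSpace ℝ (Fin 3)

/-- standard basis vectors -/
noncomputable def ee (i : Fin 3) : E3 := EuclideanSpace.single i (1 : ℝ)

/-- bounded, measurable, with bounded support -/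
structure BCS (f : E3 → ℝ) : Prop where
  meas : Measurable f
  bdd : ∃ C, ∀ x, |f x| ≤ C
  supp : ∃ R, ∀ x, R < ‖x‖ → f x = 0

/-- `C¹` with compact support -/
structure CC1 (f : E3 → ℝ) : Prop where
  c1 : ContDiff ℝ 1 f
  cs : HasCompactSupport f

/-- admissible weights -/
structure Wt (ρ : E3 → ℝ) : Prop where
  bcs : BCS ρ
  nonneg : ∀ x, 0 ≤ ρ x

/-- measurable and square integrable with respect to the weight `ρ` -/
structure L2 (ρ q : E3 → ℝ) : Prop where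
  meas : Measurable q
  int : Integrable (fun z => ρ z * q z ^ 2)

/-- `C¹` with the decay of a Coulomb potential -/
structure Dec (f : E3 → ℝ) : Prop where
  c1 : ContDiff ℝ 1 f
  bd : ∃ C : ℝ, ∀ x, |f x| ≤ C * (1 + ‖x‖)⁻¹ ∧ ‖fderiv ℝ f x‖ ≤ C * (1 + ‖x‖)⁻¹ ^ 2

/-- Coulomb potential `∫ f(z)/|y-z| dz` -/
noncomputable def pot (f : E3 → ℝ) (y : E3) : ℝ := ∫ z, ‖y - z‖⁻¹ * f z

/-- the vector field `y ↦ -y/|y|³`, the gradient of `1/|y|` -/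
noncomputable def kv (y : E3) : E3 := (-(‖y‖⁻¹ ^ 3)) • y

/-- the gradient of the Coulomb potential, `∫ f(z) kv(y-z) dz` -/
noncomputable def gpot (f : E3 → ℝ) (y : E3) : E3 := ∫ z, f z • kv (y - z)

/-- partial derivative -/
noncomputable def pd (i : Fin 3) (f : E3 → ℝ) (x : E3) : ℝ := fderiv ℝ f x (ee i)

/-- gradient as a vector -/
noncomputable def gr (f : E3 → ℝ) (x : E3) : E3 := WithLp.toLp 2 (fun i => pd i f x)

/-- the penalty slope: smooth, nondecreasing, `0` on `s ≤ 0` and `1` on `s ≥ ε` -/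
structure Beta (ε : ℝ) (β : ℝ → ℝ) : Prop where
  eps : 0 < ε
  c2 : ContDiff ℝ 2 β
  mono : Monotone β
  zero : ∀ s, s ≤ 0 → β s = 0
  one : ∀ s, ε ≤ s → β s = 1

/-- nice densities: `C²`, compactly supported, nonnegative -/
structure Nice (ρ : E3 → ℝ) : Prop where
  c2 : ContDiff ℝ 2 ρ
  cs : HasCompactSupport ρ
  nonneg : ∀ x, 0 ≤ ρ x

/-- `m` solves the soft obstacle problem with source `M/|y-x|`:
`m = β(ψ)`, `ψ(y) = M/|y-x| - pot(ρ m)(y)` for `y ≠ x`, and `m x = 1` -/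
structure IsSol (ρ : E3 → ℝ) (β : ℝ → ℝ) (x : E3) (M : ℝ) (m : E3 → ℝ) : Prop where
  meas : Measurable m
  atx : m x = 1
  eq : ∀ y, y ≠ x → m y = β (M * ‖y - x‖⁻¹ - pot (fun z => ρ z * m z) y)

open Classical in
/-- the solution -/
noncomputable def mm (ρ : E3 → ℝ) (β : ℝ → ℝ) (x : E3) (M : ℝ) : E3 → ℝ :=
  if h : ∃ m, IsSol ρ β x M m then h.choose else fun _ => 0

/-- `ρ m` -/
noncomputable def mu (ρ : E3 → ℝ) (β : ℝ → ℝ) (x : E3) (M : ℝ) : E3 → ℝ :=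
  fun z => ρ z * mm ρ β x M z

/-- `ψ(y) = M/|y-x| - pot(ρ m)(y)` -/
noncomputable def psi (ρ : E3 → ℝ) (β : ℝ → ℝ) (x : E3) (M : ℝ) (y : E3) : ℝ :=
  M * ‖y - x‖⁻¹ - pot (mu ρ β x M) y

/-- `V(x,M) = pot(ρ m)(x)` -/
noncomputable def VV (ρ : E3 → ℝ) (β : ℝ → ℝ) (x : E3) (M : ℝ) : ℝ := pot (mu ρ β x M) x

/-- `G(x,M) = ∇pot(ρ m)(x)` -/
noncomputable def GG (ρ : E3 → ℝ) (β : ℝ → ℝ) (x : E3) (M : ℝ) : E3 := gpot (mu ρ β x M) x

/-- the linearised weight `v = ρ β'(ψ)` -/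
noncomputable def vv (ρ : E3 → ℝ) (β : ℝ → ℝ) (x : E3) (M : ℝ) : E3 → ℝ :=
  fun z => ρ z * deriv β (psi ρ β x M z)

/-- `q + pot(v q) = s` -/
structure IsLin (v s q : E3 → ℝ) : Prop where
  l2 : L2 v q
  eq : ∀ y, q y = s y - pot (fun z => v z * q z) y

open Classical in
/-- solution of the linear problem -/
noncomputable def lin (v s : E3 → ℝ) : E3 → ℝ :=
  if h : ∃ q, IsLin v s q then h.choose else fun _ => 0

/-- source `1/|y-x|` -/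
noncomputable def s0 (x : E3) : E3 → ℝ := fun y => ‖y - x‖⁻¹

/-- source `∂_{x_i} 1/|y-x| = (y-x)_i/|y-x|³` -/
noncomputable def s1 (x : E3) (i : Fin 3) : E3 → ℝ := fun y => ‖y - x‖⁻¹ ^ 3 * (y - x) i

/-- `q_0` -/
noncomputable def q0 (ρ : E3 → ℝ) (β : ℝ → ℝ) (x : E3) (M : ℝ) : E3 → ℝ :=
  lin (vv ρ β x M) (s0 x)

/-- `q_i` -/
noncomputable def q1 (ρ : E3 → ℝ) (β : ℝ → ℝ) (x : E3) (M : ℝ) (i : Fin 3) : E3 → ℝ :=
  lin (vv ρ β x M) (s1 x i)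

/-- `T = dV/dM` -/
noncomputable def TT (ρ : E3 → ℝ) (β : ℝ → ℝ) (x : E3) (M : ℝ) : ℝ :=
  ∫ z, vv ρ β x M z * q0 ρ β x M z * s0 x z

/-- `∂_i V = ∂_M (M G_i)` -/
noncomputable def DV (ρ : E3 → ℝ) (β : ℝ → ℝ) (i : Fin 3) (x : E3) (M : ℝ) : ℝ :=
  GG ρ β x M i + M * ∫ z, vv ρ β x M z * q0 ρ β x M z * s1 x i z

/-- `∂_i G_i` -/
noncomputable def DG (ρ : E3 → ℝ) (β : ℝ → ℝ) (i : Fin 3) (x : E3) (M : ℝ) : ℝ :=
  gpot (pd i (mu ρ β x M)) x i + M * ∫ z, vv ρ β x M z * q1 ρ β x M i z * s1 x i z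

/-- `cost(x) = ½ W(μ,μ) + ∫ ψ ρ` -/
noncomputable def cost (ρ : E3 → ℝ) (β : ℝ → ℝ) (x : E3) : ℝ :=
  (1 / 2) * (∫ y, mu ρ β x 1 y * pot (mu ρ β x 1) y) + ∫ y, psi ρ β x 1 y * ρ y

/-- `(4π/3)^{1/3}` -/
noncomputable def kk : ℝ := (4 * Real.pi / 3) ^ (1 / 3 : ℝ)

end Pool.Agent.H36.LN
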