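import Pool.Agent.H36.LN.P1

/-!
# LN-G0: the abstract data for the final inequality; measurability

`V, G, T, DV, DG` are functions of `x ∈ ℝ³` and `M > 0` (values at `M ≤ 0` are irrelevant).

Measurability (`joint_*`): `V`, `G` are continuous on the open set `{M > 0}`. `T x M = lim n (V(x, M+1/n) - V(x,M))`,
`DV i x M = lim n (V(x + (1/n)e_i, M) - V(x,M))`, `DG i x M = lim n (G(x+(1/n)e_i, M)_i - G(x,M)_i)` are pointwise limits on `{M > 0}` of functions
continuous there, hence `AEStronglyMeasurable` for the restricted measure (`aestronglyMeasurable_of_tendsto_ae`,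
`ContinuousOn.aestronglyMeasurable`; note `(volume.prod (volume.restrict (Ioi 0))) = (volume.prod volume).restrict (univ ×ˢ Ioi 0)`,
`Measure.prod_restrict`, `Measure.restrict_univ`).
-/

open MeasureTheory Set Filter Topology

namespace Pool.Agent.H36.LN

structure GData (ρ : E3 → ℝ) (V : E3 → ℝ → ℝ) (G : E3 → ℝ → E3) (T : E3 → ℝ → ℝ)
    (DV DG : Fin 3 → E3 → ℝ → ℝ) : Prop where
  rho_c : Continuous ρ
  rho_cs : HasCompactSupport ρ
  rho_nn : ∀ x, 0 ≤ ρ x
  contV : ContinuousOn (fun p : E3 × ℝ => V p.1 p.2) {p | 0 < p.2}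
  contG : ContinuousOn (fun p : E3 × ℝ => G p.1 p.2) {p | 0 < p.2}
  dVM : ∀ x M, 0 < M → HasDerivAt (V x) (T x M) M
  dGM : ∀ x M i, 0 < M → HasDerivAt (fun t => t * G x t i) (DV i x M) M
  dVx : ∀ x M i, 0 < M → HasLineDerivAt ℝ (fun y => V y M) (DV i x M) x (ee i)
  dGx : ∀ x M i, 0 < M → HasLineDerivAt ℝ (fun y => G y M i) (DG i x M) x (ee i)
  ineq : ∀ x M, 0 < M →
    4 * V x M ^ 2 * T x M - 16 / 9 * V x M ^ 3 / M ≤ M * ∑ i, DG i x M + 4 * Real.pi * M * ρ x
  bV : ∃ C : ℝ, ∀ x M, 0 < M → M ≤ 1 → 0 ≤ V x M ∧ V x M ≤ C * M * (1 + ‖x‖)⁻¹ ^ 2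
  bG : ∃ C : ℝ, ∀ x M, 0 < M → M ≤ 1 → ‖G x M‖ ≤ C * (1 + ‖x‖)⁻¹ ^ 2
  bD : ∀ δ : ℝ, 0 < δ → ∃ C : ℝ, ∀ x M i, δ ≤ M → M ≤ 1 →
    |T x M| ≤ C * (1 + ‖x‖)⁻¹ ^ 2 ∧ |DV i x M| ≤ C * (1 + ‖x‖)⁻¹ ^ 2 ∧
    |DG i x M| ≤ C * (1 + ‖x‖)⁻¹ ^ 2
  smallG : ∀ x, Tendsto (fun M => ‖G x M‖) (𝓝[>] 0) (𝓝 0)

variable {ρ : E3 → ℝ} {V : E3 → ℝ → ℝ} {G : E3 → ℝ → E3} {T : E3 → ℝ → ℝ}
  {DV DG : Fin 3 → E3 → ℝ → ℝ}

private theorem prod_restrict_eq :
    ((volume : Measure E3).prod ((volume : Measure ℝ).restrict (Ioi 0))) =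
      ((volume : Measure E3).prod (volume : Measure ℝ)).restrict {p | 0 < p.2} := by
  have h : {p : E3 × ℝ | 0 < p.2} = univ ×ˢ Ioi 0 := by
    ext p
    simp
  rw [h, ← Measure.prod_restrict, Measure.restrict_univ]

private theorem meas_pos : MeasurableSet {p : E3 × ℝ | 0 < p.2} :=
  (isOpen_lt continuous_const continuous_snd).measurableSet

private theorem meas_of_contOn {E : Type*} [TopologicalSpace E]
    [TopologicalSpace.PseudoMetrizableSpace E] [SecondCountableTopology E]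
    {F : E3 × ℝ → E} (hF : ContinuousOn F {p | 0 < p.2}) :
    AEStronglyMeasurable F ((volume : Measure E3).prod ((volume : Measure ℝ).restrict (Ioi 0))) := by
  rw [prod_restrict_eq]
  exact hF.aestronglyMeasurable meas_pos

/-- limits of difference quotients are measurable -/
private theorem meas_of_quot {F D : E3 × ℝ → ℝ} (hF : ContinuousOn F {p | 0 < p.2})
    (φ : ℕ → E3 × ℝ → E3 × ℝ) (hφ : ∀ n, Continuous (φ n))
    (hφS : ∀ n p, 0 < p.2 → 0 < (φ n p).2)
    (hlim : ∀ p : E3 × ℝ, 0 < p.2 →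
      Tendsto (fun n : ℕ => ((n : ℝ) + 1) * (F (φ n p) - F p)) atTop (𝓝 (D p))) :
    AEStronglyMeasurable D
      ((volume : Measure E3).prod ((volume : Measure ℝ).restrict (Ioi 0))) := by
  refine aestronglyMeasurable_of_tendsto_ae atTop
    (f := fun (n : ℕ) p => ((n : ℝ) + 1) * (F (φ n p) - F p)) ?_ ?_
  · intro n
    apply meas_of_contOn
    refine ContinuousOn.mul continuousOn_const (ContinuousOn.sub ?_ hF)
    exact hF.comp (hφ n).continuousOn (fun p hp => hφS n p hp)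
  · rw [prod_restrict_eq]
    refine (ae_restrict_iff' meas_pos).2 (Filter.Eventually.of_forall fun p hp => ?_)
    exact hlim p hp

/-- the same for functions of `x` -/
private theorem meas_of_quot' {F : E3 × ℝ → ℝ} {D : E3 → ℝ} {M : ℝ} (hM : 0 < M)
    (hF : ContinuousOn F {p | 0 < p.2}) (φ : ℕ → E3 → E3 × ℝ) (hφ : ∀ n, Continuous (φ n))
    (hφS : ∀ n x, 0 < (φ n x).2)
    (hlim : ∀ x : E3, Tendsto (fun n : ℕ => ((n : ℝ) + 1) * (F (φ n x) - F (x, M))) atTop
      (𝓝 (D x))) : AEStronglyMeasurable D (volume : Measure E3) := by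
  refine aestronglyMeasurable_of_tendsto_ae atTop
    (f := fun (n : ℕ) x => ((n : ℝ) + 1) * (F (φ n x) - F (x, M))) ?_
    (Filter.Eventually.of_forall fun x => hlim x)
  intro n
  apply Continuous.aestronglyMeasurable
  refine Continuous.mul continuous_const (Continuous.sub ?_ ?_)
  · exact hF.comp_continuous (hφ n) (fun x => hφS n x)
  · exact hF.comp_continuous (by fun_prop) (fun x => hM)

private theorem tendsto_quot {f : ℝ → ℝ} {f' x : ℝ} (h : HasDerivAt f f' x) :
    Tendsto (fun n : ℕ => ((n : ℝ) + 1) * (f (x + ((n : ℝ) + 1)⁻¹) - f x)) atTop (𝓝 f') := by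
  have h1 := h.tendsto_slope_zero
  have h2 : Tendsto (fun n : ℕ => ((n : ℝ) + 1)⁻¹) atTop (𝓝[≠] 0) := by
    apply tendsto_nhdsWithin_of_tendsto_nhds_of_eventually_within
    · have := tendsto_one_div_add_atTop_nhds_zero_nat (𝕜 := ℝ)
      simpa only [one_div] using this
    · refine Filter.Eventually.of_forall fun n => ?_
      have : (0 : ℝ) < (n : ℝ) + 1 := by positivity
      exact inv_ne_zero this.ne'
  have h3 := h1.comp h2
  refine h3.congr fun n => ?_
  simp [Function.comp]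

private theorem tendsto_quot_line {f : E3 → ℝ} {f' : ℝ} {x v : E3}
    (h : HasLineDerivAt ℝ f f' x v) :
    Tendsto (fun n : ℕ => ((n : ℝ) + 1) * (f (x + ((n : ℝ) + 1)⁻¹ • v) - f x)) atTop (𝓝 f') := by
  have h1 := tendsto_quot h
  refine h1.congr fun n => ?_
  simp

theorem GData.mV (h : GData ρ V G T DV DG) :
    AEStronglyMeasurable (fun p : E3 × ℝ => V p.1 p.2)
      ((volume : Measure E3).prod ((volume : Measure ℝ).restrict (Ioi 0))) :=
  meas_of_contOn h.contV

theorem GData.mG (h : GData ρ V G T DV DG) :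
    AEStronglyMeasurable (fun p : E3 × ℝ => G p.1 p.2)
      ((volume : Measure E3).prod ((volume : Measure ℝ).restrict (Ioi 0))) :=
  meas_of_contOn h.contG

private theorem GData.contGi (h : GData ρ V G T DV DG) (i : Fin 3) :
    ContinuousOn (fun p : E3 × ℝ => G p.1 p.2 i) {p | 0 < p.2} := by
  have h1 : Continuous (fun z : E3 => z i) := by fun_prop
  exact h1.comp_continuousOn h.contG

theorem GData.mT (h : GData ρ V G T DV DG) :
    AEStronglyMeasurable (fun p : E3 × ℝ => T p.1 p.2)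
      ((volume : Measure E3).prod ((volume : Measure ℝ).restrict (Ioi 0))) := by
  refine meas_of_quot h.contV (fun n p => (p.1, p.2 + ((n : ℝ) + 1)⁻¹)) (fun n => by fun_prop)
    (fun n p hp => by positivity) (fun p hp => ?_)
  exact tendsto_quot (h.dVM p.1 p.2 hp)

theorem GData.mDV (h : GData ρ V G T DV DG) (i : Fin 3) :
    AEStronglyMeasurable (fun p : E3 × ℝ => DV i p.1 p.2)
      ((volume : Measure E3).prod ((volume : Measure ℝ).restrict (Ioi 0))) := by
  refine meas_of_quot h.contV (fun n p => (p.1 + ((n : ℝ) + 1)⁻¹ • ee i, p.2))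
    (fun n => by fun_prop) (fun n p hp => hp) (fun p hp => ?_)
  exact tendsto_quot_line (h.dVx p.1 p.2 i hp)

theorem GData.mDG (h : GData ρ V G T DV DG) (i : Fin 3) :
    AEStronglyMeasurable (fun p : E3 × ℝ => DG i p.1 p.2)
      ((volume : Measure E3).prod ((volume : Measure ℝ).restrict (Ioi 0))) := by
  refine meas_of_quot (h.contGi i) (fun n p => (p.1 + ((n : ℝ) + 1)⁻¹ • ee i, p.2))
    (fun n => by fun_prop) (fun n p hp => hp) (fun p hp => ?_)
  exact tendsto_quot_line (h.dGx p.1 p.2 i hp)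

/-- the same for fixed `M` -/
theorem GData.sT (h : GData ρ V G T DV DG) {M : ℝ} (hM : 0 < M) :
    AEStronglyMeasurable (fun x => T x M) (volume : Measure E3) := by
  refine meas_of_quot' hM h.contV (fun n x => (x, M + ((n : ℝ) + 1)⁻¹)) (fun n => by fun_prop)
    (fun n x => by positivity) (fun x => ?_)
  exact tendsto_quot (h.dVM x M hM)

theorem GData.sDV (h : GData ρ V G T DV DG) (i : Fin 3) {M : ℝ} (hM : 0 < M) :
    AEStronglyMeasurable (fun x => DV i x M) (volume : Measure E3) := by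
  refine meas_of_quot' hM h.contV (fun n x => (x + ((n : ℝ) + 1)⁻¹ • ee i, M))
    (fun n => by fun_prop) (fun n x => hM) (fun x => ?_)
  exact tendsto_quot_line (h.dVx x M i hM)

theorem GData.sDG (h : GData ρ V G T DV DG) (i : Fin 3) {M : ℝ} (hM : 0 < M) :
    AEStronglyMeasurable (fun x => DG i x M) (volume : Measure E3) := by
  refine meas_of_quot' hM (h.contGi i) (fun n x => (x + ((n : ℝ) + 1)⁻¹ • ee i, M))
    (fun n => by fun_prop) (fun n x => hM) (fun x => ?_)
  exact tendsto_quot_line (h.dGx x M i hM)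

end Pool.Agent.H36.LN
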