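import Pool.Agent.H36.LN.G0

/-!
# LN-G1: integration by parts in `x` and the fundamental theorem of calculus in `M`

* `ibp`: for each `i`, `integral_bilinear_hasLineDerivAt_right_eq_neg_left_of_integrable` (Mathlib: `Analysis/Calculus/LineDeriv/IntegrationByParts`; with the
  bilinear map `ContinuousLinearMap.mul ℝ ℝ`), all the products are `≤ C (1+‖x‖)^{-4}` (`bV`, `bG`, `bD`, `int_decay`), measurability from G0.
* `ftcV`: `(d/dM)(M⁻² V⁴) = 4 M⁻² V³ T - 2 M⁻³ V⁴` on `M > 0`; `intervalIntegral.integral_eq_sub_of_hasDerivAt`; integrability: `T x ·` is bounded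
  on `[δ,1]` (`bD`) and measurable there since it equals `deriv (V x)` (`measurable_deriv`), `V x ·` is continuous on `M > 0`.
* `ftcG`: `(d/dM)(½ M⁻² |M G|²) = M⁻² Σ_i (M G_i) DV_i - M⁻³ |M G|²`, i.e. with `½|G|² = ½ M⁻² Σ (M G_i)²`:
  `∫_δ^{M₁} M⁻¹ Σ G_i DV_i dM = ½|G(M₁)|² - ½|G(δ)|² + ∫_δ^{M₁} M⁻¹ |G|² ≥ -½|G(δ)|²`.
-/

open MeasureTheory Set Filter Topology intervalIntegral

namespace Pool.Agent.H36.LN

variable {ρ : E3 → ℝ} {V : E3 → ℝ → ℝ} {G : E3 → ℝ → E3} {T : E3 → ℝ → ℝ}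
  {DV DG : Fin 3 → E3 → ℝ → ℝ}

/-- products of functions with decay `(1+‖x‖)^{-2}` are integrable -/
theorem G1_int_mul {p q : E3 → ℝ} {A B : ℝ} (hp : AEStronglyMeasurable p (volume : Measure E3))
    (hq : AEStronglyMeasurable q (volume : Measure E3))
    (hA : ∀ x, |p x| ≤ A * (1 + ‖x‖)⁻¹ ^ 2) (hB : ∀ x, |q x| ≤ B * (1 + ‖x‖)⁻¹ ^ 2) :
    Integrable (fun x => p x * q x) := by
  refine Integrable.mono' ((int_decay 4 le_rfl).const_mul (A * B)) (hp.mul hq)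
    (Filter.Eventually.of_forall fun x => ?_)
  rw [Real.norm_eq_abs, abs_mul]
  calc |p x| * |q x| ≤ (A * (1 + ‖x‖)⁻¹ ^ 2) * (B * (1 + ‖x‖)⁻¹ ^ 2) :=
        mul_le_mul (hA x) (hB x) (abs_nonneg _) ((abs_nonneg _).trans (hA x))
    _ = A * B * (1 + ‖x‖)⁻¹ ^ 4 := by ring

theorem G1_coord_le (z : E3) (i : Fin 3) : |z i| ≤ ‖z‖ := by
  have := PiLp.norm_apply_le z i
  simpa [Real.norm_eq_abs] using this

theorem G1_norm_sq (z : E3) : ‖z‖ ^ 2 = ∑ i, z i ^ 2 := by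
  rw [EuclideanSpace.norm_sq_eq]
  simp [Real.norm_eq_abs, sq_abs]

theorem GData.ibp (h : GData ρ V G T DV DG) {M : ℝ} (hM : 0 < M) (hM1 : M ≤ 1) :
    Integrable (fun x => V x M * ∑ i, DG i x M) ∧ Integrable (fun x => ∑ i, DV i x M * G x M i) ∧
    ∫ x, V x M * ∑ i, DG i x M = - ∫ x, ∑ i, DV i x M * G x M i := by
  obtain ⟨C, hC⟩ := h.bV
  obtain ⟨C', hC'⟩ := h.bG
  obtain ⟨D, hD⟩ := h.bD M hM
  have mV : AEStronglyMeasurable (fun x => V x M) (volume : Measure E3) := by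
    apply Continuous.aestronglyMeasurable
    exact h.contV.comp_continuous (f := fun x : E3 => (x, M)) (by fun_prop) (fun x => hM)
  have mG : ∀ i : Fin 3, AEStronglyMeasurable (fun x => G x M i) (volume : Measure E3) := by
    intro i
    apply Continuous.aestronglyMeasurable
    have h1 : Continuous (fun z : E3 => z i) := by fun_prop
    exact h1.comp (h.contG.comp_continuous (f := fun x : E3 => (x, M)) (by fun_prop)
      (fun x => hM))
  have aV : ∀ x, |V x M| ≤ (C * M) * (1 + ‖x‖)⁻¹ ^ 2 := by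
    intro x
    rw [abs_of_nonneg (hC x M hM hM1).1]
    exact (hC x M hM hM1).2
  have aG : ∀ i x, |G x M i| ≤ C' * (1 + ‖x‖)⁻¹ ^ 2 := by
    intro i x
    exact (G1_coord_le _ i).trans (hC' x M hM hM1)
  have aDV : ∀ i x, |DV i x M| ≤ D * (1 + ‖x‖)⁻¹ ^ 2 := fun i x => (hD x M i le_rfl hM1).2.1
  have aDG : ∀ i x, |DG i x M| ≤ D * (1 + ‖x‖)⁻¹ ^ 2 := fun i x => (hD x M i le_rfl hM1).2.2
  have i1 : ∀ i : Fin 3, Integrable (fun x => V x M * DG i x M) := fun i =>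
    G1_int_mul mV (h.sDG i hM) aV (aDG i)
  have i2 : ∀ i : Fin 3, Integrable (fun x => DV i x M * G x M i) := fun i =>
    G1_int_mul (h.sDV i hM) (mG i) (aDV i) (aG i)
  have i3 : ∀ i : Fin 3, Integrable (fun x => V x M * G x M i) := fun i =>
    G1_int_mul mV (mG i) aV (aG i)
  have key : ∀ i : Fin 3, ∫ x, V x M * DG i x M = - ∫ x, DV i x M * G x M i := by
    intro i
    exact integral_bilinear_hasLineDerivAt_right_eq_neg_left_of_integrable
      (μ := (volume : Measure E3)) (f := fun x => V x M) (f' := fun x => DV i x M)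
      (g := fun x => G x M i) (g' := fun x => DG i x M) (v := ee i)
      (B := ContinuousLinearMap.mul ℝ ℝ) (i2 i) (i1 i) (i3 i)
      (fun x _ => h.dVx x M i hM) (fun x _ => h.dGx x M i hM)
  have e1 : (fun x => V x M * ∑ i, DG i x M) = fun x => ∑ i, V x M * DG i x M := by
    funext x
    rw [Finset.mul_sum]
  refine ⟨?_, ?_, ?_⟩
  · rw [e1]
    exact integrable_finsetSum _ fun i _ => i1 i
  · exact integrable_finsetSum _ fun i _ => i2 i
  · rw [e1, integral_finsetSum _ fun i _ => i1 i, integral_finsetSum _ fun i _ => i2 i,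
      ← Finset.sum_neg_distrib]
    exact Finset.sum_congr rfl fun i _ => key i

/-- a derivative that is bounded on an interval is interval integrable -/
theorem G1_deriv_int {f f' : ℝ → ℝ} {a b C : ℝ} (ha : 0 < a) (hab : a ≤ b)
    (hd : ∀ t, 0 < t → HasDerivAt f (f' t) t) (hC : ∀ t, a ≤ t → t ≤ b → |f' t| ≤ C) :
    IntervalIntegrable f' volume a b := by
  rw [intervalIntegrable_iff_integrableOn_Ioc_of_le hab]
  have h1 : IntegrableOn (deriv f) (Ioc a b) volume := by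
    refine Measure.integrableOn_of_bounded (M := C) (by simp) ?_ ?_
    · exact (stronglyMeasurable_deriv f).aestronglyMeasurable
    · refine (ae_restrict_iff' measurableSet_Ioc).2 (Filter.Eventually.of_forall fun t ht => ?_)
      rw [(hd t (ha.trans ht.1)).deriv, Real.norm_eq_abs]
      exact hC t ht.1.le ht.2
  exact h1.congr_fun (fun t ht => (hd t (ha.trans ht.1)).deriv) measurableSet_Ioc

theorem GData.ftcV (h : GData ρ V G T DV DG) (x : E3) {δ M₁ : ℝ} (hδ : 0 < δ) (hM : δ ≤ M₁)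
    (hM1 : M₁ ≤ 1) :
    ∫ M in δ..M₁, 4 * M⁻¹ ^ 2 * V x M ^ 3 * T x M
      = M₁⁻¹ ^ 2 * V x M₁ ^ 4 - δ⁻¹ ^ 2 * V x δ ^ 4 + 2 * ∫ M in δ..M₁, M⁻¹ ^ 3 * V x M ^ 4 := by
  obtain ⟨D, hD⟩ := h.bD δ hδ
  have hT : IntervalIntegrable (T x) volume δ M₁ :=
    G1_deriv_int (C := D * (1 + ‖x‖)⁻¹ ^ 2) hδ hM (fun t ht => h.dVM x t ht)
      (fun t h1 h2 => (hD x t 0 h1 (h2.trans hM1)).1)
  have hIcc : uIcc δ M₁ = Icc δ M₁ := uIcc_of_le hM
  have hpos : ∀ t ∈ uIcc δ M₁, 0 < t := fun t ht => by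
    rw [hIcc] at ht
    exact lt_of_lt_of_le hδ ht.1
  have cV : ContinuousOn (V x) (uIcc δ M₁) := fun t ht =>
    (h.dVM x t (hpos t ht)).continuousAt.continuousWithinAt
  have cI : ContinuousOn (fun t : ℝ => t⁻¹) (uIcc δ M₁) := fun t ht =>
    (continuousAt_inv₀ (hpos t ht).ne').continuousWithinAt
  have j1 : IntervalIntegrable (fun M => 4 * M⁻¹ ^ 2 * V x M ^ 3 * T x M) volume δ M₁ :=
    hT.continuousOn_mul ((continuousOn_const.mul (cI.pow 2)).mul (cV.pow 3))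
  have j2 : IntervalIntegrable (fun M => 2 * (M⁻¹ ^ 3 * V x M ^ 4)) volume δ M₁ :=
    (continuousOn_const.mul ((cI.pow 3).mul (cV.pow 4))).intervalIntegrable
  have hd : ∀ t ∈ uIcc δ M₁, HasDerivAt (fun M => M⁻¹ ^ 2 * V x M ^ 4)
      (4 * t⁻¹ ^ 2 * V x t ^ 3 * T x t - 2 * (t⁻¹ ^ 3 * V x t ^ 4)) t := by
    intro t ht
    have ht0 := (hpos t ht).ne'
    have h1 := ((hasDerivAt_inv ht0).pow 2).mul ((h.dVM x t (hpos t ht)).pow 4)
    refine h1.congr_deriv ?_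
    simp only [Pi.pow_apply, Nat.cast_ofNat, show (2 - 1 : ℕ) = 1 from rfl,
      show (4 - 1 : ℕ) = 3 from rfl, pow_one]
    field_simp
    ring
  have h2 := integral_eq_sub_of_hasDerivAt hd (j1.sub j2)
  rw [integral_sub j1 j2, intervalIntegral.integral_const_mul] at h2
  linarith

theorem GData.ftcG (h : GData ρ V G T DV DG) (x : E3) {δ M₁ : ℝ} (hδ : 0 < δ) (hM : δ ≤ M₁)
    (hM1 : M₁ ≤ 1) :
    -(1 / 2) * ‖G x δ‖ ^ 2 ≤ ∫ M in δ..M₁, M⁻¹ * ∑ i, DV i x M * G x M i := by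
  obtain ⟨D, hD⟩ := h.bD δ hδ
  have hDV : ∀ i : Fin 3, IntervalIntegrable (DV i x) volume δ M₁ := fun i =>
    G1_deriv_int (C := D * (1 + ‖x‖)⁻¹ ^ 2) hδ hM (fun t ht => h.dGM x t i ht)
      (fun t h1 h2 => (hD x t i h1 (h2.trans hM1)).2.1)
  have hIcc : uIcc δ M₁ = Icc δ M₁ := uIcc_of_le hM
  have hpos : ∀ t ∈ uIcc δ M₁, 0 < t := fun t ht => by
    rw [hIcc] at ht
    exact lt_of_lt_of_le hδ ht.1
  have cI : ContinuousOn (fun t : ℝ => t⁻¹) (uIcc δ M₁) := fun t ht =>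
    (continuousAt_inv₀ (hpos t ht).ne').continuousWithinAt
  have cG : ∀ i : Fin 3, ContinuousOn (fun t => G x t i) (uIcc δ M₁) := by
    intro i
    have h1 : ContinuousOn (fun t : ℝ => t⁻¹ * (t * G x t i)) (uIcc δ M₁) :=
      cI.mul (fun t ht => (h.dGM x t i (hpos t ht)).continuousAt.continuousWithinAt)
    refine h1.congr fun t ht => ?_
    have := (hpos t ht).ne'
    field_simp
  have j1 : ∀ i : Fin 3, IntervalIntegrable (fun M => M⁻¹ * (DV i x M * G x M i)) volume δ M₁ := by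
    intro i
    have h1 := ((hDV i).mul_continuousOn (cG i)).continuousOn_mul cI
    exact h1
  have j1s : IntervalIntegrable (fun M => M⁻¹ * ∑ i, DV i x M * G x M i) volume δ M₁ := by
    have h1 : (fun M => M⁻¹ * ∑ i, DV i x M * G x M i) =
        fun M => ∑ i, M⁻¹ * (DV i x M * G x M i) := by
      funext M
      rw [Finset.mul_sum]
    rw [h1]
    have h2 := IntervalIntegrable.sum (Finset.univ : Finset (Fin 3))
      (f := fun i M => M⁻¹ * (DV i x M * G x M i)) fun i _ => j1 i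
    refine h2.congr ?_
    intro t _
    simp
  have cN : ContinuousOn (fun M => M⁻¹ * ∑ i, G x M i ^ 2) (uIcc δ M₁) :=
    cI.mul (continuousOn_finsetSum _ fun i _ => (cG i).pow 2)
  have j2 : IntervalIntegrable (fun M => M⁻¹ * ∑ i, G x M i ^ 2) volume δ M₁ :=
    cN.intervalIntegrable
  have hd : ∀ t ∈ uIcc δ M₁, HasDerivAt
      (fun M => ∑ i : Fin 3, (1 / 2) * (M⁻¹ ^ 2 * (M * G x M i) ^ 2))
      (t⁻¹ * (∑ i, DV i x t * G x t i) - t⁻¹ * ∑ i, G x t i ^ 2) t := by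
    intro t ht
    have ht0 := (hpos t ht).ne'
    have h1 : ∀ i : Fin 3, HasDerivAt (fun M => (1 / 2) * (M⁻¹ ^ 2 * (M * G x M i) ^ 2))
        (t⁻¹ * (DV i x t * G x t i) - t⁻¹ * G x t i ^ 2) t := by
      intro i
      have h2 := (((hasDerivAt_inv ht0).pow 2).mul ((h.dGM x t i (hpos t ht)).pow 2)).const_mul
        (1 / 2 : ℝ)
      refine h2.congr_deriv ?_
      simp only [Pi.pow_apply, Nat.cast_ofNat, show (2 - 1 : ℕ) = 1 from rfl, pow_one]
      field_simp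
      ring
    have h3 := HasDerivAt.fun_sum (u := Finset.univ) fun i _ => h1 i
    refine h3.congr_deriv ?_
    rw [Finset.sum_sub_distrib, Finset.mul_sum, Finset.mul_sum]
  have h2 := integral_eq_sub_of_hasDerivAt hd (j1s.sub j2)
  rw [integral_sub j1s j2] at h2
  have h3 : ∀ t, 0 < t → ∑ i : Fin 3, (1 / 2) * (t⁻¹ ^ 2 * (t * G x t i) ^ 2) =
      (1 / 2) * ‖G x t‖ ^ 2 := by
    intro t ht
    rw [G1_norm_sq, Finset.mul_sum]
    refine Finset.sum_congr rfl fun i _ => ?_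
    have := ht.ne'
    field_simp
  rw [h3 M₁ (hδ.trans_le hM), h3 δ hδ] at h2
  have h4 : 0 ≤ ∫ M in δ..M₁, M⁻¹ * ∑ i, G x M i ^ 2 := by
    refine intervalIntegral.integral_nonneg hM fun t ht => ?_
    have : 0 < t := hδ.trans_le ht.1
    positivity
  have h5 : 0 ≤ (1 / 2) * ‖G x M₁‖ ^ 2 := by positivity
  linarith

end Pool.Agent.H36.LN
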