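import Pool.Agent.H36.LN.G1

/-!
# LN-G2: the integrated inequality on `[δ, M₁]`

For `0 < δ ≤ M₁ ≤ 1`. Multiply `h.ineq` by `V/M² ≥ 0`:
`4 M⁻² V³ T - (16/9) M⁻³ V⁴ ≤ M⁻¹ V Σ_i DG_i + 4π M⁻¹ ρ V`. Integrate over `x ∈ ℝ³` and `M ∈ (δ, M₁)`. All four functions are integrable on
`ℝ³ × (δ,M₁)`: bounded by `C_δ (1+‖x‖)^{-4}` resp. `C ρ(x)` (`bV`, `bD`, `int_decay`), measurable by G0; so Fubini applies.
Left side: `∫_x [M₁⁻²V(M₁)⁴ - δ⁻²V(δ)⁴ + 2∫M⁻³V⁴] - (16/9)∫_x∫M⁻³V⁴` by `ftcV`.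
Right side, first term: `∫_M M⁻¹ ∫_x V ΣDG = -∫_M M⁻¹ ∫_x Σ DV_i G_i = -∫_x∫_M M⁻¹ΣDV_iG_i ≤ ½∫_x‖G(δ)‖²` by `ibp`, `ftcG`.
Second: `4π∫_x ρ ∫_M M⁻¹V`.
-/

open MeasureTheory Set Filter Topology intervalIntegral

namespace Pool.Agent.H36.LN

variable {ρ : E3 → ℝ} {V : E3 → ℝ → ℝ} {G : E3 → ℝ → E3} {T : E3 → ℝ → ℝ}
  {DV DG : Fin 3 → E3 → ℝ → ℝ}

theorem GData.g2_bound (h : GData ρ V G T DV DG) {δ : ℝ} (hδ : 0 < δ) :
    ∃ C : ℝ, 0 ≤ C ∧ ∀ x M, δ ≤ M → M ≤ 1 →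
      |V x M| ≤ C * (1 + ‖x‖)⁻¹ ^ 2 ∧ |T x M| ≤ C * (1 + ‖x‖)⁻¹ ^ 2 ∧
      (∀ i, |DV i x M| ≤ C * (1 + ‖x‖)⁻¹ ^ 2) ∧ (∀ i, |DG i x M| ≤ C * (1 + ‖x‖)⁻¹ ^ 2) ∧
      (∀ i, |G x M i| ≤ C * (1 + ‖x‖)⁻¹ ^ 2) ∧ |ρ x| ≤ C * (1 + ‖x‖)⁻¹ ^ 2 := by
  obtain ⟨C1, h1⟩ := h.bV
  obtain ⟨C2, h2⟩ := h.bG
  obtain ⟨C3, h3⟩ := h.bD δ hδ
  have hc : Continuous (fun x : E3 => ρ x * (1 + ‖x‖) ^ 2) :=
    h.rho_c.mul ((continuous_const.add continuous_norm).pow 2)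
  obtain ⟨C4, h4⟩ := (h.rho_cs.mul_right (f' := fun x : E3 => (1 + ‖x‖) ^ 2)
    : HasCompactSupport (ρ * fun x : E3 => (1 + ‖x‖) ^ 2)).exists_bound_of_continuous hc
  refine ⟨|C1| + |C2| + |C3| + |C4|, by positivity, fun x M hM hM1 => ?_⟩
  have hM0 : 0 < M := hδ.trans_le hM
  have hw : 0 ≤ (1 + ‖x‖)⁻¹ ^ 2 := by positivity
  have key : ∀ c : ℝ, c ≤ |C1| + |C2| + |C3| + |C4| →
      c * (1 + ‖x‖)⁻¹ ^ 2 ≤ (|C1| + |C2| + |C3| + |C4|) * (1 + ‖x‖)⁻¹ ^ 2 :=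
    fun c hc => mul_le_mul_of_nonneg_right hc hw
  have a1 := abs_nonneg C1
  have a2 := abs_nonneg C2
  have a3 := abs_nonneg C3
  have a4 := abs_nonneg C4
  have b1 := le_abs_self C1
  have b2 := le_abs_self C2
  have b3 := le_abs_self C3
  have b4 := le_abs_self C4
  have k3 := key C3 (by linarith)
  have k2 := key C2 (by linarith)
  refine ⟨?_, ?_, ?_, ?_, ?_, ?_⟩
  · obtain ⟨hv0, hv⟩ := h1 x M hM0 hM1
    rw [abs_of_nonneg hv0]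
    refine hv.trans ?_
    have hc1 : C1 * M ≤ |C1| := by
      calc C1 * M ≤ |C1| * M := mul_le_mul_of_nonneg_right b1 hM0.le
        _ ≤ |C1| * 1 := mul_le_mul_of_nonneg_left hM1 a1
        _ = |C1| := mul_one _
    exact key _ (by linarith)
  · exact (h3 x M 0 hM hM1).1.trans k3
  · exact fun i => (h3 x M i hM hM1).2.1.trans k3
  · exact fun i => (h3 x M i hM hM1).2.2.trans k3
  · intro i
    have h5 : |G x M i| ≤ ‖G x M‖ := by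
      rw [← Real.norm_eq_abs]
      exact PiLp.norm_apply_le _ i
    exact (h5.trans (h2 x M hM0 hM1)).trans k2
  · have h6 := h4 x
    have hpos : 0 < (1 + ‖x‖) ^ 2 := by positivity
    rw [Pi.mul_apply, Real.norm_eq_abs, abs_mul, abs_of_pos hpos] at h6
    have h7 : |ρ x| ≤ C4 * (1 + ‖x‖)⁻¹ ^ 2 := by
      rw [inv_pow, ← div_eq_mul_inv, le_div_iff₀ hpos]
      exact h6
    exact h7.trans (key C4 (by linarith))

theorem g2_int {δ M₁ : ℝ} {f : E3 × ℝ → ℝ}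
    (hf : AEStronglyMeasurable f ((volume : Measure E3).prod (volume.restrict (Ioc δ M₁))))
    (K : ℝ) (hb : ∀ x M, M ∈ Ioc δ M₁ → |f (x, M)| ≤ K * (1 + ‖x‖)⁻¹ ^ 4) :
    Integrable f ((volume : Measure E3).prod (volume.restrict (Ioc δ M₁))) := by
  have h1 : Integrable (fun p : E3 × ℝ => (K * (1 + ‖p.1‖)⁻¹ ^ 4) * (1 : ℝ))
      ((volume : Measure E3).prod (volume.restrict (Ioc δ M₁))) := by
    refine Integrable.mul_prod (f := fun x : E3 => K * (1 + ‖x‖)⁻¹ ^ 4)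
      (g := fun _ : ℝ => (1 : ℝ)) ((int_decay 4 le_rfl).const_mul K) ?_
    exact integrableOn_const (by simp)
  refine h1.mono' hf ?_
  have h2 : (volume : Measure E3).prod (volume.restrict (Ioc δ M₁)) =
      ((volume : Measure E3).prod (volume : Measure ℝ)).restrict (univ ×ˢ Ioc δ M₁) := by
    rw [← Measure.prod_restrict, Measure.restrict_univ]
  rw [h2]
  filter_upwards [ae_restrict_mem (MeasurableSet.univ.prod measurableSet_Ioc)] with p hp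
  rw [Real.norm_eq_abs, mul_one]
  exact hb p.1 p.2 hp.2

theorem g2_ae {δ M₁ : ℝ} {P : E3 × ℝ → Prop} (hP : ∀ x M, M ∈ Ioc δ M₁ → P (x, M)) :
    ∀ᵐ p ∂((volume : Measure E3).prod (volume.restrict (Ioc δ M₁))), P p := by
  have h2 : (volume : Measure E3).prod (volume.restrict (Ioc δ M₁)) =
      ((volume : Measure E3).prod (volume : Measure ℝ)).restrict (univ ×ˢ Ioc δ M₁) := by
    rw [← Measure.prod_restrict, Measure.restrict_univ]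
  rw [h2]
  filter_upwards [ae_restrict_mem (MeasurableSet.univ.prod measurableSet_Ioc)] with p hp
  exact hP p.1 p.2 hp.2

theorem g2_meas {δ M₁ : ℝ} (hδ : 0 < δ) {β : Type*} [TopologicalSpace β] {f : E3 × ℝ → β}
    (hf : AEStronglyMeasurable f
      ((volume : Measure E3).prod ((volume : Measure ℝ).restrict (Ioi 0)))) :
    AEStronglyMeasurable f ((volume : Measure E3).prod (volume.restrict (Ioc δ M₁))) := by
  refine hf.mono_ac ?_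
  refine Measure.AbsolutelyContinuous.prod Measure.AbsolutelyContinuous.rfl ?_
  exact (Measure.restrict_mono (fun t ht => hδ.trans ht.1) le_rfl).absolutelyContinuous

/-- the five integrable functions -/
theorem GData.g2_all (h : GData ρ V G T DV DG) {δ M₁ : ℝ} (hδ : 0 < δ) (hM1 : M₁ ≤ 1) :
    Integrable (fun p : E3 × ℝ => 4 * p.2⁻¹ ^ 2 * V p.1 p.2 ^ 3 * T p.1 p.2)
      ((volume : Measure E3).prod (volume.restrict (Ioc δ M₁))) ∧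
    Integrable (fun p : E3 × ℝ => p.2⁻¹ ^ 3 * V p.1 p.2 ^ 4)
      ((volume : Measure E3).prod (volume.restrict (Ioc δ M₁))) ∧
    Integrable (fun p : E3 × ℝ => p.2⁻¹ * (V p.1 p.2 * ∑ i, DG i p.1 p.2))
      ((volume : Measure E3).prod (volume.restrict (Ioc δ M₁))) ∧
    Integrable (fun p : E3 × ℝ => ρ p.1 * (p.2⁻¹ * V p.1 p.2))
      ((volume : Measure E3).prod (volume.restrict (Ioc δ M₁))) ∧
    Integrable (fun p : E3 × ℝ => p.2⁻¹ * ∑ i, DV i p.1 p.2 * G p.1 p.2 i)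
      ((volume : Measure E3).prod (volume.restrict (Ioc δ M₁))) := by
  obtain ⟨C, hC, hb⟩ := h.g2_bound hδ
  have mV := g2_meas (M₁ := M₁) hδ h.mV
  have mT := g2_meas (M₁ := M₁) hδ h.mT
  have mG := g2_meas (M₁ := M₁) hδ h.mG
  have mDV := fun i => g2_meas (M₁ := M₁) hδ (h.mDV i)
  have mDG := fun i => g2_meas (M₁ := M₁) hδ (h.mDG i)
  have mI : AEStronglyMeasurable (fun p : E3 × ℝ => p.2⁻¹)
      ((volume : Measure E3).prod (volume.restrict (Ioc δ M₁))) :=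
    (measurable_snd.inv).aestronglyMeasurable
  have mR : AEStronglyMeasurable (fun p : E3 × ℝ => ρ p.1)
      ((volume : Measure E3).prod (volume.restrict (Ioc δ M₁))) :=
    (h.rho_c.comp continuous_fst).aestronglyMeasurable
  have mGi : ∀ i : Fin 3, AEStronglyMeasurable (fun p : E3 × ℝ => G p.1 p.2 i)
      ((volume : Measure E3).prod (volume.restrict (Ioc δ M₁))) := fun i =>
    (EuclideanSpace.proj (𝕜 := ℝ) i).continuous.comp_aestronglyMeasurable mG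
  have hinv : ∀ M, M ∈ Ioc δ M₁ → |M⁻¹| ≤ δ⁻¹ := by
    intro M hM
    rw [abs_of_pos (inv_pos.2 (hδ.trans hM.1))]
    exact inv_anti₀ hδ hM.1.le
  have hdi : 0 ≤ δ⁻¹ := (inv_pos.2 hδ).le
  have hw0 : ∀ x : E3, 0 ≤ (1 + ‖x‖)⁻¹ := fun x => by positivity
  have hw1 : ∀ x : E3, (1 + ‖x‖)⁻¹ ≤ 1 := fun x => by
    apply inv_le_one_of_one_le₀
    have := norm_nonneg x
    linarith
  have hw8 : ∀ x : E3, (1 + ‖x‖)⁻¹ ^ 8 ≤ (1 + ‖x‖)⁻¹ ^ 4 := fun x =>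
    pow_le_pow_of_le_one (hw0 x) (hw1 x) (by norm_num)
  refine ⟨?_, ?_, ?_, ?_, ?_⟩
  · refine g2_int (((mI.pow 2).const_mul 4).mul (mV.pow 3) |>.mul mT) (4 * δ⁻¹ ^ 2 * C ^ 4) ?_
    intro x M hM
    obtain ⟨hV, hT, -⟩ := hb x M hM.1.le (hM.2.trans hM1)
    show |4 * M⁻¹ ^ 2 * V x M ^ 3 * T x M| ≤ _
    rw [abs_mul, abs_mul, abs_mul, abs_pow, abs_pow, abs_of_pos (by norm_num : (0 : ℝ) < 4)]
    calc 4 * |M⁻¹| ^ 2 * |V x M| ^ 3 * |T x M|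
        ≤ 4 * δ⁻¹ ^ 2 * (C * (1 + ‖x‖)⁻¹ ^ 2) ^ 3 * (C * (1 + ‖x‖)⁻¹ ^ 2) := by
          gcongr
          exact hinv M hM
      _ = 4 * δ⁻¹ ^ 2 * C ^ 4 * (1 + ‖x‖)⁻¹ ^ 8 := by ring
      _ ≤ 4 * δ⁻¹ ^ 2 * C ^ 4 * (1 + ‖x‖)⁻¹ ^ 4 :=
          mul_le_mul_of_nonneg_left (hw8 x) (by positivity)
  · refine g2_int ((mI.pow 3).mul (mV.pow 4)) (δ⁻¹ ^ 3 * C ^ 4) ?_
    intro x M hM
    obtain ⟨hV, -⟩ := hb x M hM.1.le (hM.2.trans hM1)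
    show |M⁻¹ ^ 3 * V x M ^ 4| ≤ _
    rw [abs_mul, abs_pow, abs_pow]
    calc |M⁻¹| ^ 3 * |V x M| ^ 4
        ≤ δ⁻¹ ^ 3 * (C * (1 + ‖x‖)⁻¹ ^ 2) ^ 4 := by
          gcongr
          exact hinv M hM
      _ = δ⁻¹ ^ 3 * C ^ 4 * (1 + ‖x‖)⁻¹ ^ 8 := by ring
      _ ≤ δ⁻¹ ^ 3 * C ^ 4 * (1 + ‖x‖)⁻¹ ^ 4 :=
          mul_le_mul_of_nonneg_left (hw8 x) (by positivity)
  · refine g2_int (mI.mul (mV.mul ?_)) (δ⁻¹ * (3 * C ^ 2)) ?_
    · exact Finset.aestronglyMeasurable_fun_sum _ fun i _ => mDG i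
    intro x M hM
    obtain ⟨hV, -, -, hDG, -⟩ := hb x M hM.1.le (hM.2.trans hM1)
    show |M⁻¹ * (V x M * ∑ i, DG i x M)| ≤ _
    have hs : |∑ i, DG i x M| ≤ 3 * (C * (1 + ‖x‖)⁻¹ ^ 2) := by
      refine (Finset.abs_sum_le_sum_abs _ _).trans ?_
      refine (Finset.sum_le_sum fun i _ => hDG i).trans ?_
      simp
    rw [abs_mul, abs_mul]
    calc |M⁻¹| * (|V x M| * |∑ i, DG i x M|)
        ≤ δ⁻¹ * ((C * (1 + ‖x‖)⁻¹ ^ 2) * (3 * (C * (1 + ‖x‖)⁻¹ ^ 2))) := by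
          gcongr
          exact hinv M hM
      _ = δ⁻¹ * (3 * C ^ 2) * (1 + ‖x‖)⁻¹ ^ 4 := by ring
  · refine g2_int (mR.mul (mI.mul mV)) (δ⁻¹ * C ^ 2) ?_
    intro x M hM
    obtain ⟨hV, -, -, -, -, hR⟩ := hb x M hM.1.le (hM.2.trans hM1)
    show |ρ x * (M⁻¹ * V x M)| ≤ _
    rw [abs_mul, abs_mul]
    calc |ρ x| * (|M⁻¹| * |V x M|)
        ≤ (C * (1 + ‖x‖)⁻¹ ^ 2) * (δ⁻¹ * (C * (1 + ‖x‖)⁻¹ ^ 2)) := by
          gcongr
          exact hinv M hM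
      _ = δ⁻¹ * C ^ 2 * (1 + ‖x‖)⁻¹ ^ 4 := by ring
  · refine g2_int (mI.mul ?_) (δ⁻¹ * (3 * C ^ 2)) ?_
    · exact Finset.aestronglyMeasurable_fun_sum _ fun i _ => (mDV i).mul (mGi i)
    intro x M hM
    obtain ⟨-, -, hDV, -, hG, -⟩ := hb x M hM.1.le (hM.2.trans hM1)
    show |M⁻¹ * ∑ i, DV i x M * G x M i| ≤ _
    have hs : |∑ i, DV i x M * G x M i| ≤ 3 * (C ^ 2 * (1 + ‖x‖)⁻¹ ^ 4) := by
      refine (Finset.abs_sum_le_sum_abs _ _).trans ?_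
      have : ∀ i, |DV i x M * G x M i| ≤ C ^ 2 * (1 + ‖x‖)⁻¹ ^ 4 := by
        intro i
        rw [abs_mul]
        calc |DV i x M| * |G x M i| ≤ (C * (1 + ‖x‖)⁻¹ ^ 2) * (C * (1 + ‖x‖)⁻¹ ^ 2) := by
              gcongr
              · exact hDV i
              · exact hG i
          _ = C ^ 2 * (1 + ‖x‖)⁻¹ ^ 4 := by ring
      refine (Finset.sum_le_sum fun i _ => this i).trans ?_
      simp
    rw [abs_mul]
    calc |M⁻¹| * |∑ i, DV i x M * G x M i|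
        ≤ δ⁻¹ * (3 * (C ^ 2 * (1 + ‖x‖)⁻¹ ^ 4)) := by
          gcongr
          exact hinv M hM
      _ = δ⁻¹ * (3 * C ^ 2) * (1 + ‖x‖)⁻¹ ^ 4 := by ring

/-- slices at fixed `M` -/
theorem GData.g2_slice (h : GData ρ V G T DV DG) {M : ℝ} (hM : 0 < M) (hM1 : M ≤ 1) :
    Integrable (fun x => M⁻¹ ^ 2 * V x M ^ 4) ∧ Integrable (fun x => ‖G x M‖ ^ 2) := by
  obtain ⟨C, hC, hb⟩ := h.g2_bound hM
  obtain ⟨C2, h2⟩ := h.bG
  have cV : Continuous (fun x => V x M) := by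
    refine continuous_iff_continuousAt.2 fun x => ?_
    have h1 : ContinuousAt (fun p : E3 × ℝ => V p.1 p.2) (x, M) :=
      h.contV.continuousAt ((isOpen_lt continuous_const continuous_snd).mem_nhds hM)
    exact h1.comp (f := fun y : E3 => (y, M)) (by fun_prop)
  have cG : Continuous (fun x => G x M) := by
    refine continuous_iff_continuousAt.2 fun x => ?_
    have h1 : ContinuousAt (fun p : E3 × ℝ => G p.1 p.2) (x, M) :=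
      h.contG.continuousAt ((isOpen_lt continuous_const continuous_snd).mem_nhds hM)
    exact h1.comp (f := fun y : E3 => (y, M)) (by fun_prop)
  have hw0 : ∀ x : E3, 0 ≤ (1 + ‖x‖)⁻¹ := fun x => by positivity
  constructor
  · refine ((int_decay 8 (by norm_num)).const_mul (M⁻¹ ^ 2 * C ^ 4)).mono'
      ((cV.pow 4).const_mul _ |>.aestronglyMeasurable) (ae_of_all _ fun x => ?_)
    obtain ⟨hV, -⟩ := hb x M le_rfl hM1
    rw [Real.norm_eq_abs, abs_mul, abs_pow (V x M), abs_of_nonneg (by positivity : 0 ≤ M⁻¹ ^ 2)]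
    calc M⁻¹ ^ 2 * |V x M| ^ 4 ≤ M⁻¹ ^ 2 * (C * (1 + ‖x‖)⁻¹ ^ 2) ^ 4 := by gcongr
      _ = M⁻¹ ^ 2 * C ^ 4 * (1 + ‖x‖)⁻¹ ^ 8 := by ring
  · refine ((int_decay 4 le_rfl).const_mul (C2 ^ 2)).mono'
      ((cG.norm.pow 2).aestronglyMeasurable) (ae_of_all _ fun x => ?_)
    rw [Real.norm_eq_abs, abs_of_nonneg (by positivity)]
    calc ‖G x M‖ ^ 2 ≤ (C2 * (1 + ‖x‖)⁻¹ ^ 2) ^ 2 :=
          pow_le_pow_left₀ (norm_nonneg _) (h2 x M hM hM1) 2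
      _ = C2 ^ 2 * (1 + ‖x‖)⁻¹ ^ 4 := by ring

theorem GData.ineq_delta (h : GData ρ V G T DV DG) {δ M₁ : ℝ} (hδ : 0 < δ) (hM : δ ≤ M₁)
    (hM1 : M₁ ≤ 1) :
    (∫ x, M₁⁻¹ ^ 2 * V x M₁ ^ 4) + 2 / 9 * (∫ x, ∫ M in δ..M₁, M⁻¹ ^ 3 * V x M ^ 4)
      ≤ 4 * Real.pi * (∫ x, ρ x * ∫ M in δ..M₁, M⁻¹ * V x M)
        + (∫ x, δ⁻¹ ^ 2 * V x δ ^ 4) + 1 / 2 * ∫ x, ‖G x δ‖ ^ 2 := by
  obtain ⟨iA, iB, iC, iD, iE⟩ := h.g2_all (M₁ := M₁) hδ hM1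
  have hM10 : 0 < M₁ := hδ.trans_le hM
  obtain ⟨s1, -⟩ := h.g2_slice hM10 hM1
  obtain ⟨s2, s3⟩ := h.g2_slice hδ (hM.trans hM1)
  -- the main inequality
  have main : ∫ p, (4 * p.2⁻¹ ^ 2 * V p.1 p.2 ^ 3 * T p.1 p.2 -
        16 / 9 * (p.2⁻¹ ^ 3 * V p.1 p.2 ^ 4))
        ∂((volume : Measure E3).prod (volume.restrict (Ioc δ M₁))) ≤
      ∫ p, (p.2⁻¹ * (V p.1 p.2 * ∑ i, DG i p.1 p.2) +
        4 * Real.pi * (ρ p.1 * (p.2⁻¹ * V p.1 p.2)))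
        ∂((volume : Measure E3).prod (volume.restrict (Ioc δ M₁))) := by
    refine integral_mono_ae (iA.sub (iB.const_mul _)) (iC.add (iD.const_mul _)) ?_
    refine g2_ae (P := fun p => 4 * p.2⁻¹ ^ 2 * V p.1 p.2 ^ 3 * T p.1 p.2 -
        16 / 9 * (p.2⁻¹ ^ 3 * V p.1 p.2 ^ 4) ≤ p.2⁻¹ * (V p.1 p.2 * ∑ i, DG i p.1 p.2) +
        4 * Real.pi * (ρ p.1 * (p.2⁻¹ * V p.1 p.2))) fun x M hMm => ?_
    have hM0 : 0 < M := hδ.trans hMm.1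
    have h1 := h.ineq x M hM0
    obtain ⟨CV, hCV⟩ := h.bV
    have hV0 := (hCV x M hM0 (hMm.2.trans hM1)).1
    have h2 : 0 ≤ V x M * M⁻¹ ^ 2 := by positivity
    have h3 := mul_le_mul_of_nonneg_left h1 h2
    have e1 : V x M * M⁻¹ ^ 2 * (4 * V x M ^ 2 * T x M - 16 / 9 * V x M ^ 3 / M) =
        4 * M⁻¹ ^ 2 * V x M ^ 3 * T x M - 16 / 9 * (M⁻¹ ^ 3 * V x M ^ 4) := by
      rw [div_eq_mul_inv]
      ring
    have e2 : V x M * M⁻¹ ^ 2 * (M * ∑ i, DG i x M + 4 * Real.pi * M * ρ x) =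
        M⁻¹ * (V x M * ∑ i, DG i x M) + 4 * Real.pi * (ρ x * (M⁻¹ * V x M)) := by
      have : M⁻¹ ^ 2 * M = M⁻¹ := by
        rw [pow_two, mul_assoc, inv_mul_cancel₀ hM0.ne', mul_one]
      calc V x M * M⁻¹ ^ 2 * (M * ∑ i, DG i x M + 4 * Real.pi * M * ρ x)
          = (M⁻¹ ^ 2 * M) * (V x M * ∑ i, DG i x M) +
            4 * Real.pi * (ρ x * ((M⁻¹ ^ 2 * M) * V x M)) := by ring
        _ = _ := by rw [this]
    rw [e1, e2] at h3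
    exact h3
  rw [integral_sub iA (iB.const_mul _), integral_add iC (iD.const_mul _),
    MeasureTheory.integral_const_mul, MeasureTheory.integral_const_mul] at main
  -- evaluate the four integrals
  have hA : ∫ p, 4 * p.2⁻¹ ^ 2 * V p.1 p.2 ^ 3 * T p.1 p.2
        ∂((volume : Measure E3).prod (volume.restrict (Ioc δ M₁))) =
      (∫ x, M₁⁻¹ ^ 2 * V x M₁ ^ 4) - (∫ x, δ⁻¹ ^ 2 * V x δ ^ 4) +
        2 * ∫ x, ∫ M in δ..M₁, M⁻¹ ^ 3 * V x M ^ 4 := by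
    rw [integral_prod _ iA]
    have hBx : Integrable (fun x => ∫ M in δ..M₁, M⁻¹ ^ 3 * V x M ^ 4) := by
      refine iB.integral_prod_left.congr (ae_of_all _ fun x => ?_)
      exact (intervalIntegral.integral_of_le hM).symm
    have hs12 : Integrable (fun x => M₁⁻¹ ^ 2 * V x M₁ ^ 4 - δ⁻¹ ^ 2 * V x δ ^ 4) := s1.sub s2
    rw [← MeasureTheory.integral_sub s1 s2, ← MeasureTheory.integral_const_mul,
      ← MeasureTheory.integral_add hs12 (hBx.const_mul 2)]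
    refine integral_congr_ae (ae_of_all _ fun x => ?_)
    show ∫ M in Ioc δ M₁, 4 * M⁻¹ ^ 2 * V x M ^ 3 * T x M = _
    rw [← intervalIntegral.integral_of_le hM]
    exact h.ftcV x hδ hM hM1
  have hB : ∫ p, p.2⁻¹ ^ 3 * V p.1 p.2 ^ 4
        ∂((volume : Measure E3).prod (volume.restrict (Ioc δ M₁))) =
      ∫ x, ∫ M in δ..M₁, M⁻¹ ^ 3 * V x M ^ 4 := by
    rw [integral_prod _ iB]
    refine integral_congr_ae (ae_of_all _ fun x => ?_)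
    exact (intervalIntegral.integral_of_le hM).symm
  have hD : ∫ p, ρ p.1 * (p.2⁻¹ * V p.1 p.2)
        ∂((volume : Measure E3).prod (volume.restrict (Ioc δ M₁))) =
      ∫ x, ρ x * ∫ M in δ..M₁, M⁻¹ * V x M := by
    rw [integral_prod _ iD]
    refine integral_congr_ae (ae_of_all _ fun x => ?_)
    show ∫ M in Ioc δ M₁, ρ x * (M⁻¹ * V x M) = ρ x * ∫ M in δ..M₁, M⁻¹ * V x M
    rw [MeasureTheory.integral_const_mul, ← intervalIntegral.integral_of_le hM]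
  have hC : ∫ p, p.2⁻¹ * (V p.1 p.2 * ∑ i, DG i p.1 p.2)
        ∂((volume : Measure E3).prod (volume.restrict (Ioc δ M₁))) ≤
      1 / 2 * ∫ x, ‖G x δ‖ ^ 2 := by
    have hCE : ∫ p, p.2⁻¹ * (V p.1 p.2 * ∑ i, DG i p.1 p.2)
        ∂((volume : Measure E3).prod (volume.restrict (Ioc δ M₁))) =
        -∫ p, p.2⁻¹ * ∑ i, DV i p.1 p.2 * G p.1 p.2 i
        ∂((volume : Measure E3).prod (volume.restrict (Ioc δ M₁))) := by
      rw [integral_prod_symm _ iC, integral_prod_symm _ iE, ← MeasureTheory.integral_neg]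
      refine setIntegral_congr_fun measurableSet_Ioc fun M hMm => ?_
      show ∫ x, M⁻¹ * (V x M * ∑ i, DG i x M) = -∫ x, M⁻¹ * ∑ i, DV i x M * G x M i
      rw [MeasureTheory.integral_const_mul, MeasureTheory.integral_const_mul,
        (h.ibp (hδ.trans hMm.1) (hMm.2.trans hM1)).2.2, mul_neg]
    rw [hCE, integral_prod _ iE]
    have h1 : -(1 / 2 * ∫ x, ‖G x δ‖ ^ 2) ≤
        ∫ x, ∫ M, M⁻¹ * ∑ i, DV i x M * G x M i ∂(volume.restrict (Ioc δ M₁)) := by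
      rw [← MeasureTheory.integral_const_mul, ← MeasureTheory.integral_neg]
      refine integral_mono_ae (s3.const_mul _).neg iE.integral_prod_left (ae_of_all _ fun x => ?_)
      have h2 := h.ftcG x hδ hM hM1
      rw [intervalIntegral.integral_of_le hM] at h2
      show -(1 / 2 * ‖G x δ‖ ^ 2) ≤ _
      linarith
    linarith
  rw [hA, hB, hD] at main
  linarith

end Pool.Agent.H36.LN
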