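import Pool.Agent.H36.LN.P4

/-!
# LN-I1: change of variables by inversion

`J(z) = ‖z‖⁻¹² z` is an involution of `ℝ³ \ {0}`, with derivative at `z ≠ 0` equal to `‖z‖⁻²` times a reflection, so the Jacobian is `‖z‖^{-6}`.
Use `MeasureTheory.integral_image_eq_integral_abs_det_fderiv_smul` on `{0}ᶜ` (a null set is removed). In Mathlib: `EuclideanGeometry.inversion`,
`EuclideanGeometry.hasFDerivAt_inversion` (file `Geometry/Euclidean/Inversion/Calculus`): derivative `(R / dist x c)^2 • reflection (ℝ ∙ (x - c))ᗮ`; its determinant has absolute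
value `(R/dist x c)^6` (`LinearMap.det_smul`, `Module.finrank = 3`, a linear isometry equivalence has `|det| = 1`:
`LinearIsometryEquiv.det_eq_one_or...`/`abs_det`). `inversion 0 1 z = (1/‖z‖)^2 • z`.
`inv_dist`: `‖J y - J z‖ = ‖y-z‖ ‖y‖⁻¹ ‖z‖⁻¹` (`EuclideanGeometry.dist_inversion_inversion`).
-/

open MeasureTheory Set

namespace Pool.Agent.H36.LN

/-- inversion at `0` -/
noncomputable def iv (z : E3) : E3 := (‖z‖⁻¹ ^ 2) • z

theorem I1_eq (z : E3) : iv z = EuclideanGeometry.inversion (0 : E3) 1 z := by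
  unfold iv EuclideanGeometry.inversion
  rw [dist_zero_right, vsub_eq_sub, sub_zero, vadd_eq_add, add_zero, one_div]

theorem iv_iv (z : E3) : iv (iv z) = z := by
  rw [I1_eq, I1_eq]
  exact EuclideanGeometry.inversion_inversion 0 one_ne_zero z

theorem norm_iv (z : E3) : ‖iv z‖ = ‖z‖⁻¹ := by
  unfold iv
  rw [norm_smul, norm_pow, norm_inv, norm_norm]
  by_cases hz : z = 0
  · rw [hz, norm_zero, inv_zero, mul_zero]
  · have h := norm_ne_zero_iff.2 hz
    rw [sq, mul_assoc, inv_mul_cancel₀ h, mul_one]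

theorem iv_ne {z : E3} (hz : z ≠ 0) : iv z ≠ 0 := by
  rw [← norm_ne_zero_iff, norm_iv]
  exact inv_ne_zero (norm_ne_zero_iff.2 hz)

theorem inv_dist {y z : E3} (hy : y ≠ 0) (hz : z ≠ 0) :
    ‖iv y - iv z‖ = ‖y - z‖ * ‖y‖⁻¹ * ‖z‖⁻¹ := by
  rw [← dist_eq_norm, I1_eq, I1_eq, EuclideanGeometry.dist_inversion_inversion hy hz,
    dist_zero_right, dist_zero_right, dist_eq_norm, one_pow, one_div, mul_inv]
  ring

theorem iv_contDiffAt {z : E3} (hz : z ≠ 0) : ContDiffAt ℝ 2 iv z := by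
  have h1 : ContDiffAt ℝ 2 (fun w : E3 => ‖w‖) z := contDiffAt_id.norm ℝ hz
  have h2 : ContDiffAt ℝ 2 (fun w : E3 => ‖w‖⁻¹ ^ 2) z :=
    (h1.inv (norm_ne_zero_iff.2 hz)).pow 2
  exact h2.smul contDiffAt_id

theorem I1_image : iv '' ({0}ᶜ : Set E3) = {0}ᶜ := by
  ext z
  constructor
  · rintro ⟨w, hw, rfl⟩
    exact iv_ne hw
  · intro hz
    exact ⟨iv z, iv_ne hz, iv_iv z⟩

theorem I1_det {z : E3} (hz : z ≠ 0) :
    |(((1 : ℝ) / dist z 0) ^ 2 • ((ℝ ∙ (z - 0))ᗮ.reflection : E3 →L[ℝ] E3)).det| =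
      ‖z‖⁻¹ ^ 6 := by
  have h1 : (((1 : ℝ) / dist z 0) ^ 2 • ((ℝ ∙ (z - 0))ᗮ.reflection : E3 →L[ℝ] E3)).det =
      LinearMap.det ((((1 : ℝ) / dist z 0) ^ 2) •
        ((ℝ ∙ (z - 0))ᗮ.reflection.toLinearMap : E3 →ₗ[ℝ] E3)) := rfl
  rw [h1, LinearMap.det_smul, Submodule.det_reflection, abs_mul, abs_pow, abs_pow (-1 : ℝ),
    abs_neg, abs_one, one_pow, mul_one, dist_zero_right, one_div, abs_pow, abs_inv, abs_norm,
    finrank_euclideanSpace_fin, ← pow_mul]

/-- change of variables, no integrability needed -/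
theorem inv_cov (g : E3 → ℝ) : ∫ X, g X = ∫ z, ‖z‖⁻¹ ^ 6 * g (iv z) := by
  have hms : MeasurableSet ({0}ᶜ : Set E3) := (measurableSet_singleton 0).compl
  have hae : ∀ h : E3 → ℝ, ∫ z in ({0}ᶜ : Set E3), h z = ∫ z, h z := by
    intro h
    have : (volume : Measure E3).restrict ({0}ᶜ : Set E3) = volume :=
      Measure.restrict_eq_self_of_ae_mem (by
        rw [ae_iff]
        have h1 : {a : E3 | a ∉ ({0}ᶜ : Set E3)} = {0} := by
          ext a
          simp
        rw [h1]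
        exact measure_singleton 0)
    rw [this]
  have h1 := integral_image_eq_integral_abs_det_fderiv_smul (volume : Measure E3) hms
    (f := iv) (f' := fun z => ((1 : ℝ) / dist z 0) ^ 2 •
      ((ℝ ∙ (z - 0))ᗮ.reflection : E3 →L[ℝ] E3)) (fun z hz => by
        have h2 : iv = EuclideanGeometry.inversion (0 : E3) 1 := funext I1_eq
        rw [h2]
        exact (EuclideanGeometry.hasFDerivAt_inversion hz).hasFDerivWithinAt)
    (fun z _ w _ hzw => by rw [← iv_iv z, hzw, iv_iv]) g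
  rw [I1_image, hae] at h1
  rw [h1, ← hae (fun z => ‖z‖⁻¹ ^ 6 * g (iv z))]
  refine setIntegral_congr_fun hms fun z hz => ?_
  have h3 := I1_det hz
  simp only [smul_eq_mul]
  rw [h3]

end Pool.Agent.H36.LN
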