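import Pool.Agent.H36.LN.I1

/-!
# LN-I2: densities and potentials under inversion at `x`

* `n_cc1`: `n(X) = ‖X‖⁻¹^4 v(x + iv X)` vanishes for `‖X‖ > 1/r₀` and, as `v` has compact support, for small `‖X‖`; it is `C¹` away from `0` (`iv_contDiffAt`,
  `‖·‖⁻¹^4` is smooth away from `0`).
* `pot_inv`: for `X ≠ 0` and any function `q`, `pot(Z ↦ n(Z)‖Z‖⁻¹ q(x+iv Z))(X) = ‖X‖⁻¹ pot(v q)(x + iv X)`: change of variables `inv_cov` (then translate by `x`),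
  with `Z = iv(z - x)`, `‖X - Z‖ = ‖y - z‖ ‖X‖ ‖Z‖` where `y = x + iv X` (`inv_dist`), and powers of `‖Z‖ = ‖z-x‖⁻¹`: the factors are
  `‖X-Z‖⁻¹ ‖Z‖⁻¹^4 ‖Z‖⁻¹ · ‖z-x‖⁻¹^6 = ‖y-z‖⁻¹‖X‖⁻¹ ‖Z‖⁻¹^6 ‖Z‖^6`. Points with `z = x` have measure zero.
-/

open MeasureTheory Set

namespace Pool.Agent.H36.LN

theorem n_cc1 {v : E3 → ℝ} (hv : CC1 v) {x : E3} {r₀ : ℝ} (hr : 0 < r₀)
    (hz : ∀ y, ‖y - x‖ < r₀ → v y = 0) : CC1 (fun X => ‖X‖⁻¹ ^ 4 * v (x + iv X)) := by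
  have hfar : ∀ X : E3, ‖X‖⁻¹ < r₀ → ‖X‖⁻¹ ^ 4 * v (x + iv X) = 0 := by
    intro X hX
    rw [hz (x + iv X) (by rw [add_sub_cancel_left, norm_iv]; exact hX), mul_zero]
  obtain ⟨R, hR⟩ := hv.cs.isCompact.isBounded.exists_norm_le
  have hv0 : ∀ y : E3, R < ‖y‖ → v y = 0 := by
    intro y hy
    by_contra hne
    exact absurd (hR y (subset_tsupport v hne)) (not_le.mpr hy)
  have hnear : ∀ X : E3, X ∈ Metric.ball (0 : E3) (|R| + ‖x‖ + 1)⁻¹ →
      ‖X‖⁻¹ ^ 4 * v (x + iv X) = 0 := by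
    intro X hX
    rw [mem_ball_zero_iff] at hX
    rcases eq_or_ne X 0 with h0 | h0
    · apply hfar
      rw [h0, norm_zero, inv_zero]
      exact hr
    · have hp : 0 < ‖X‖ := norm_pos_iff.mpr h0
      have h1 : |R| + ‖x‖ + 1 < ‖X‖⁻¹ := by
        rw [lt_inv_comm₀ (by positivity) hp]
        exact hX
      have h2 : ‖iv X‖ ≤ ‖x + iv X‖ + ‖x‖ := by
        have := norm_sub_le (x + iv X) x
        rwa [add_sub_cancel_left] at this
      rw [norm_iv] at h2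
      rw [hv0 (x + iv X) (by linarith [le_abs_self R]), mul_zero]
  refine ⟨?_, ?_⟩
  · rw [contDiff_iff_contDiffAt]
    intro X
    rcases eq_or_ne X 0 with h0 | h0
    · subst h0
      have h1 : (fun X : E3 => ‖X‖⁻¹ ^ 4 * v (x + iv X)) =ᶠ[nhds 0] fun _ => 0 := by
        filter_upwards [Metric.ball_mem_nhds (0 : E3)
          (show 0 < (|R| + ‖x‖ + 1)⁻¹ by positivity)] with X hX
        exact hnear X hX
      exact contDiffAt_const.congr_of_eventuallyEq h1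
    · have hn : ContDiffAt ℝ 1 (fun X : E3 => ‖X‖⁻¹) X :=
        (contDiffAt_norm ℝ h0).inv (norm_ne_zero_iff.mpr h0)
      have h2 : ContDiffAt ℝ 1 (fun X : E3 => x + iv X) X :=
        contDiffAt_const.add ((iv_contDiffAt h0).of_le (by norm_num))
      have h3 : ContDiffAt ℝ 1 (fun X : E3 => v (x + iv X)) X :=
        ContDiffAt.comp X hv.c1.contDiffAt h2
      exact (hn.pow 4).mul h3
  · refine HasCompactSupport.intro (isCompact_closedBall (0 : E3) r₀⁻¹) fun X hX => ?_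
    rw [mem_closedBall_zero_iff, not_le] at hX
    refine hfar X ?_
    rw [inv_lt_comm₀ (lt_trans (by positivity) hX) hr]
    exact hX

theorem pot_inv (v q : E3 → ℝ) (x : E3) {X : E3} (hX : X ≠ 0) :
    pot (fun Z => (‖Z‖⁻¹ ^ 4 * v (x + iv Z)) * (‖Z‖⁻¹ * q (x + iv Z))) X
      = ‖X‖⁻¹ * pot (fun z => v z * q z) (x + iv X) := by
  unfold pot
  rw [inv_cov, ← integral_add_left_eq_self
    (fun z => ‖x + iv X - z‖⁻¹ * (v z * q z)) x, ← integral_const_mul]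
  refine integral_congr_ae ?_
  have h0 : ∀ᵐ z : E3, z ≠ 0 := by
    rw [ae_iff]
    simp
  filter_upwards [h0] with z hz
  have hX' : iv X ≠ 0 := iv_ne hX
  have h1 : ‖X - iv z‖ = ‖iv X - z‖ * ‖X‖ * ‖z‖⁻¹ := by
    have := inv_dist hX' hz
    rw [iv_iv, norm_iv, inv_inv] at this
    exact this
  have h2 : ‖z‖ ≠ 0 := norm_ne_zero_iff.mpr hz
  have h3 : x + iv X - (x + z) = iv X - z := by abel
  rw [iv_iv, norm_iv, h1, h3, inv_inv, mul_inv, mul_inv, inv_inv]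
  field_simp

end Pool.Agent.H36.LN
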