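import Pool.Agent.H36.LN.Defs

/-!
# LN-K0: the trial function `F` and the weight `b`

`F : (0,∞) → (0,1)` is the decreasing function with `s = 1/F - F²` (with `r = 1/F > 1`: `s = r - r⁻²`).
`exists_F`: `g(u) = 1/u - u²` is continuous and strictly decreasing from `(0,1)` onto `(0,∞)`, `g'(u) = -u⁻² - 2u = -(1+2u³)/u² ≠ 0`; the inverse
function is differentiable with derivative `1/g'(F) = -F²/(1+2F³)` (`HasStrictDerivAt.to_localInverse`, `HasDerivAt.of_local_left_inverse`,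
continuity of the inverse from monotonicity and surjectivity).
`FF_ge`: with `r = 1/F`: `1 - 1/r ≤ (r - r⁻²)/3` is `(r-1)³ ≥ 0`.
`FF_le`: `1/F = s + F² ≥ s`.
`FF_contDiff`: `F' = -F²/(1+2F³)`, bootstrap (`F` differentiable, so `F'` differentiable with continuous derivative ...), or the inverse function
theorem for `ContDiff`.
`bb_deriv`: `db/dF = -18F²(1+F)/(1+F+F²)³` and the chain rule. `bb_mem`: `3F³(2+F) ≤ (1+F+F²)²` for `0 ≤ F ≤ 1`
(`(1+F+F²)² - 6F³ - 3F⁴ = 1+2F+3F²-4F³-2F⁴ ≥ 0`).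
`bb_lim`: `s F(s) → 1`, `F(s) → 0` as `s → ∞` (`s F = 1 - F³`), `s³(b-1) = -3 (sF)³ (2+F)/(1+F+F²)²`.
-/

open MeasureTheory Set Filter Topology

namespace Pool.Agent.H36.LN

/-- every positive number is a value of `1/u - u²` on `(0,1)` -/
theorem exists_inv {s : ℝ} (hs : 0 < s) : ∃ u : ℝ, 0 < u ∧ u < 1 ∧ s = u⁻¹ - u ^ 2 := by
  -- on `[a, 1]` with `a = 1/(s+1)`
  have ha : 0 < (s + 1)⁻¹ := by positivity
  have ha1 : (s + 1)⁻¹ < 1 := inv_lt_one_of_one_lt₀ (by linarith)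
  have hc : ContinuousOn (fun u : ℝ => u⁻¹ - u ^ 2) (Icc (s + 1)⁻¹ 1) := by
    apply ContinuousOn.sub
    · exact continuousOn_inv₀.mono (fun x hx => ne_of_gt (lt_of_lt_of_le ha hx.1))
    · fun_prop
  have hmem : s ∈ Ioo ((fun u : ℝ => u⁻¹ - u ^ 2) 1) ((fun u : ℝ => u⁻¹ - u ^ 2) (s + 1)⁻¹) := by
    constructor
    · simpa using hs
    · simp only [inv_inv]
      have : (s + 1)⁻¹ ^ 2 < 1 := by
        rw [pow_lt_one_iff_of_nonneg ha.le (by norm_num)]
        exact ha1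
      linarith
  obtain ⟨u, hu, hus⟩ := intermediate_value_Ioo' ha1.le hc hmem
  exact ⟨u, lt_trans ha hu.1, hu.2, hus.symm⟩

theorem inv_lip {u v : ℝ} (hu : 0 < u) (hu1 : u < 1) (hv : 0 < v) (hv1 : v < 1) :
    |u - v| ≤ |(u⁻¹ - u ^ 2) - (v⁻¹ - v ^ 2)| := by
  have h : (u⁻¹ - u ^ 2) - (v⁻¹ - v ^ 2) = (v - u) * ((u * v)⁻¹ + (u + v)) := by
    field_simp
    ring
  rw [h, abs_mul, abs_sub_comm u v]
  have h1 : 1 ≤ (u * v)⁻¹ := by
    rw [one_le_inv₀ (by positivity)]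
    nlinarith
  have h2 : 1 ≤ |(u * v)⁻¹ + (u + v)| := by
    rw [abs_of_pos (by positivity)]
    linarith
  nlinarith [abs_nonneg (v - u)]

theorem exists_F : ∃ F : ℝ → ℝ, ∀ s, 0 < s → 0 < F s ∧ F s < 1 ∧ s = (F s)⁻¹ - F s ^ 2 ∧
    HasDerivAt F (-(F s) ^ 2 / (1 + 2 * F s ^ 3)) s := by
  classical
  let F : ℝ → ℝ := fun s => if h : 0 < s then (exists_inv h).choose else 0
  have hF : ∀ s, 0 < s → 0 < F s ∧ F s < 1 ∧ s = (F s)⁻¹ - F s ^ 2 := by
    intro s hs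
    have h := (exists_inv hs).choose_spec
    have e : F s = (exists_inv hs).choose := by simp [F, hs]
    rw [e]
    exact h
  refine ⟨F, fun s hs => ?_⟩
  obtain ⟨h0, h1, h2⟩ := hF s hs
  refine ⟨h0, h1, h2, ?_⟩
  have hcont : ContinuousAt F s := by
    rw [Metric.continuousAt_iff]
    intro ε hε
    refine ⟨min ε s, lt_min hε hs, ?_⟩
    intro t ht
    rw [Real.dist_eq] at ht ⊢
    have ht1 : |t - s| < ε := lt_of_lt_of_le ht (min_le_left _ _)
    have ht2 : |t - s| < s := lt_of_lt_of_le ht (min_le_right _ _)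
    have ht0 : 0 < t := by
      have := (abs_lt.1 ht2).1
      linarith
    obtain ⟨k0, k1, k2⟩ := hF t ht0
    have := inv_lip k0 k1 h0 h1
    rw [← k2, ← h2] at this
    exact lt_of_le_of_lt this ht1
  have hd : HasDerivAt (fun u : ℝ => u⁻¹ - u ^ 2) (-(F s ^ 2)⁻¹ - 2 * F s) (F s) := by
    have a := hasDerivAt_inv (ne_of_gt h0)
    have b := hasDerivAt_pow 2 (F s)
    exact HasDerivAt.congr_deriv (a.sub b) (by simp)
  have hne : (-(F s ^ 2)⁻¹ - 2 * F s) ≠ 0 := by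
    have : 0 < (F s ^ 2)⁻¹ := by positivity
    intro h
    linarith
  have hev : ∀ᶠ y in 𝓝 s, (fun u : ℝ => u⁻¹ - u ^ 2) (F y) = y := by
    filter_upwards [Ioi_mem_nhds hs] with y hy
    exact ((hF y hy).2.2).symm
  have key := HasDerivAt.of_local_left_inverse hcont hd hne hev
  have e : (-(F s ^ 2)⁻¹ - 2 * F s)⁻¹ = -(F s) ^ 2 / (1 + 2 * F s ^ 3) := by
    have p : (1 + 2 * F s ^ 3) ≠ 0 := by positivity
    have q : F s ≠ 0 := ne_of_gt h0
    rw [inv_eq_iff_eq_inv, inv_div]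
    field_simp
    ring
  rw [← e]
  exact key

/-- the trial function -/
noncomputable def FF : ℝ → ℝ := exists_F.choose

theorem FF_spec {s : ℝ} (hs : 0 < s) : 0 < FF s ∧ FF s < 1 ∧ s = (FF s)⁻¹ - FF s ^ 2 ∧
    HasDerivAt FF (-(FF s) ^ 2 / (1 + 2 * FF s ^ 3)) s := exists_F.choose_spec s hs

theorem FF_ge {s : ℝ} (hs : 0 < s) : 1 - FF s ≤ s / 3 := by
  obtain ⟨h0, h1, h2, -⟩ := FF_spec hs
  have h3 : s * FF s = 1 - FF s ^ 3 := by
    have q : FF s ≠ 0 := ne_of_gt h0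
    have : s * FF s = ((FF s)⁻¹ - FF s ^ 2) * FF s := by rw [← h2]
    rw [this]
    field_simp
  have h4 : 0 ≤ (1 - FF s) ^ 3 := by
    have : 0 ≤ 1 - FF s := by linarith
    positivity
  -- `3 (1 - F) F ≤ s F = 1 - F³`
  have h5 : (1 - FF s) * FF s ≤ (s / 3) * FF s := by nlinarith
  exact le_of_mul_le_mul_right h5 h0

theorem FF_le {s : ℝ} (hs : 0 < s) : FF s ≤ s⁻¹ := by
  obtain ⟨h0, h1, h2, -⟩ := FF_spec hs
  rw [le_inv_comm₀ h0 hs]
  have : 0 ≤ FF s ^ 2 := by positivity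
  linarith

theorem FF_contDiff_nat (n : ℕ) : ContDiffOn ℝ n FF (Ioi 0) := by
  have hd : ∀ s ∈ Ioi (0 : ℝ), HasDerivAt FF (-(FF s) ^ 2 / (1 + 2 * FF s ^ 3)) s :=
    fun s hs => (FF_spec hs).2.2.2
  have hdiff : DifferentiableOn ℝ FF (Ioi 0) :=
    fun s hs => (hd s hs).differentiableAt.differentiableWithinAt
  induction n with
  | zero =>
    exact contDiffOn_zero.2 hdiff.continuousOn
  | succ n ih =>
    have : ContDiffOn ℝ ((n : WithTop ℕ∞) + 1) FF (Ioi 0) := by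
      rw [contDiffOn_succ_iff_deriv_of_isOpen isOpen_Ioi]
      refine ⟨hdiff, by simp, ?_⟩
      have h1 : ContDiffOn ℝ n (fun s => -(FF s) ^ 2 / (1 + 2 * FF s ^ 3)) (Ioi 0) := by
        apply ContDiffOn.div
        · exact (ih.pow 2).neg
        · exact contDiffOn_const.add (contDiffOn_const.mul (ih.pow 3))
        · intro s hs
          have := (FF_spec hs).1
          positivity
      exact h1.congr (fun s hs => (hd s hs).deriv)
    exact_mod_cast this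

theorem FF_contDiff : ContDiffOn ℝ 2 FF (Ioi 0) := by
  exact_mod_cast FF_contDiff_nat 2

/-- the weight `b` as a function of `F` -/
noncomputable def bF (F : ℝ) : ℝ := 1 - 3 * F ^ 3 * (2 + F) / (1 + F + F ^ 2) ^ 2

/-- the coefficient `½ s b'(s)` as a function of `F` -/
noncomputable def cF (F : ℝ) : ℝ := 9 * F ^ 3 * (1 - F ^ 2) / ((1 + F + F ^ 2) ^ 2 * (1 + 2 * F ^ 3))

/-- the weight -/
noncomputable def bb (s : ℝ) : ℝ := bF (FF s)

/-- its derivative -/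
noncomputable def bd (s : ℝ) : ℝ :=
  18 * FF s ^ 4 * (1 + FF s) / ((1 + FF s + FF s ^ 2) ^ 3 * (1 + 2 * FF s ^ 3))

theorem bF_deriv {F : ℝ} (h : 0 < F) :
    HasDerivAt bF (-(18 * F ^ 2 * (1 + F) / (1 + F + F ^ 2) ^ 3)) F := by
  have p : (1 + F + F ^ 2) ≠ 0 := by positivity
  have a : HasDerivAt (fun u : ℝ => 3 * u ^ 3 * (2 + u)) (18 * F ^ 2 + 12 * F ^ 3) F := by
    have a1 : HasDerivAt (fun u : ℝ => 3 * u ^ 3) (9 * F ^ 2) F := by
      exact HasDerivAt.congr_deriv ((hasDerivAt_pow 3 F).const_mul 3) (by push_cast; ring)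
    have a2 : HasDerivAt (fun u : ℝ => 2 + u) 1 F := (hasDerivAt_id F).const_add 2
    exact HasDerivAt.congr_deriv (a1.mul a2) (by ring)
  have b : HasDerivAt (fun u : ℝ => (1 + u + u ^ 2) ^ 2) (2 * (1 + F + F ^ 2) * (1 + 2 * F)) F := by
    have b1 : HasDerivAt (fun u : ℝ => 1 + u + u ^ 2) (1 + 2 * F) F := by
      exact HasDerivAt.congr_deriv (((hasDerivAt_id F).const_add 1).add (hasDerivAt_pow 2 F)) (by simp)
    exact HasDerivAt.congr_deriv (b1.pow 2) (by push_cast; ring)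
  have c := (a.div b (pow_ne_zero 2 p)).const_sub 1
  refine HasDerivAt.congr_deriv c ?_
  field_simp
  ring

theorem bb_deriv {s : ℝ} (hs : 0 < s) : HasDerivAt bb (bd s) s := by
  obtain ⟨h0, h1, h2, h3⟩ := FF_spec hs
  have := (bF_deriv h0).comp s h3
  refine HasDerivAt.congr_deriv (this : HasDerivAt bb _ s) ?_
  unfold bd
  have p : (1 + FF s + FF s ^ 2) ≠ 0 := by positivity
  have q : (1 + 2 * FF s ^ 3) ≠ 0 := by positivity
  field_simp

theorem bd_eq {s : ℝ} (hs : 0 < s) : s * bd s / 2 = cF (FF s) := by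
  obtain ⟨h0, h1, h2, h3⟩ := FF_spec hs
  have k : s * FF s = 1 - FF s ^ 3 := by
    have q : FF s ≠ 0 := ne_of_gt h0
    have : s * FF s = ((FF s)⁻¹ - FF s ^ 2) * FF s := by rw [← h2]
    rw [this]
    field_simp
  unfold bd cF
  have p : (1 + FF s + FF s ^ 2) ≠ 0 := by positivity
  have q : (1 + 2 * FF s ^ 3) ≠ 0 := by positivity
  have e : s * (18 * FF s ^ 4 * (1 + FF s) / ((1 + FF s + FF s ^ 2) ^ 3 * (1 + 2 * FF s ^ 3))) / 2 =
      (s * FF s) * (9 * FF s ^ 3 * (1 + FF s)) / ((1 + FF s + FF s ^ 2) ^ 3 * (1 + 2 * FF s ^ 3)) := by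
    field_simp
    ring
  rw [e, k]
  field_simp
  ring

theorem bb_contDiff : ContDiffOn ℝ 2 bb (Ioi 0) := by
  have h := FF_contDiff
  have : ContDiffOn ℝ 2 (fun s => 1 - 3 * FF s ^ 3 * (2 + FF s) / (1 + FF s + FF s ^ 2) ^ 2) (Ioi 0) := by
    apply ContDiffOn.sub contDiffOn_const
    apply ContDiffOn.div
    · exact (contDiffOn_const.mul (h.pow 3)).mul (contDiffOn_const.add h)
    · exact ((contDiffOn_const.add h).add (h.pow 2)).pow 2
    · intro s hs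
      have := (FF_spec hs).1
      positivity
  exact this

theorem bF_mem {F : ℝ} (h0 : 0 ≤ F) (h1 : F ≤ 1) : 0 ≤ bF F ∧ bF F ≤ 1 := by
  unfold bF
  have p : 0 < (1 + F + F ^ 2) ^ 2 := by positivity
  constructor
  · rw [sub_nonneg, div_le_one p]
    have h2 : F ^ 2 ≤ 1 := by nlinarith
    have h3 : F ^ 3 ≤ F ^ 2 := by nlinarith [mul_nonneg (sq_nonneg F) (sub_nonneg.2 h1)]
    have h4 : F ^ 4 ≤ F ^ 3 := by nlinarith [mul_nonneg (pow_nonneg h0 3) (sub_nonneg.2 h1)]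
    nlinarith
  · have : 0 ≤ 3 * F ^ 3 * (2 + F) / (1 + F + F ^ 2) ^ 2 := by positivity
    linarith

theorem FF_tendsto : Tendsto FF atTop (𝓝 0) := by
  refine squeeze_zero' ?_ ?_ tendsto_inv_atTop_zero
  · filter_upwards [eventually_gt_atTop 0] with s hs
    exact (FF_spec hs).1.le
  · filter_upwards [eventually_gt_atTop 0] with s hs
    exact FF_le hs

theorem bb_lim : Tendsto (fun s => s ^ 3 * (bb s - 1)) atTop (𝓝 (-6)) := by
  have h := FF_tendsto
  have h1 : Tendsto (fun s => -3 * (1 - FF s ^ 3) ^ 3 * (2 + FF s) / (1 + FF s + FF s ^ 2) ^ 2) atTop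
      (𝓝 (-3 * (1 - 0 ^ 3) ^ 3 * (2 + 0) / (1 + 0 + 0 ^ 2) ^ 2)) := by
    apply Tendsto.div
    · exact ((tendsto_const_nhds.sub (h.pow 3)).pow 3 |>.const_mul (-3)).mul (tendsto_const_nhds.add h)
    · exact ((tendsto_const_nhds.add h).add (h.pow 2)).pow 2
    · norm_num
  have e : (-3 * (1 - 0 ^ 3) ^ 3 * (2 + 0) / (1 + 0 + 0 ^ 2) ^ 2 : ℝ) = -6 := by norm_num
  rw [e] at h1
  refine h1.congr' ?_
  filter_upwards [eventually_gt_atTop 0] with s hs
  obtain ⟨h0, -, h2, -⟩ := FF_spec hs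
  have k : s * FF s = 1 - FF s ^ 3 := by
    have q : FF s ≠ 0 := ne_of_gt h0
    have : s * FF s = ((FF s)⁻¹ - FF s ^ 2) * FF s := by rw [← h2]
    rw [this]
    field_simp
  rw [← k]
  unfold bb bF
  ring

end Pool.Agent.H36.LN
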