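import Pool.Agent.H36.LN.K0

/-!
# LN-K1c: the null Lagrangian identity

`div_null`: product rule; the terms with second derivatives cancel: `Σ_i χ_i ∂_i ∂_j χ_j - Σ_i χ_j ∂_i ∂_j χ_i` summed over `i, j` vanish
by symmetry of second derivatives (`ContDiffAt.isSymmSndFDerivAt`, or `second_derivative_symmetric`).
Details: `∂_i(b χ_i ∂_jχ_j) = ∂_ib χ_i ∂_jχ_j + b ∂_iχ_i ∂_jχ_j + b χ_i ∂_i∂_jχ_j`,
`∂_i(b χ_j ∂_jχ_i) = ∂_ib χ_j ∂_jχ_i + b ∂_iχ_j ∂_jχ_i + b χ_j ∂_i∂_jχ_i`; sum over `i,j` and rename.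
-/

open MeasureTheory Set

namespace Pool.Agent.H36.LN

theorem k1c_mul {f g : E3 → ℝ} {x : E3} (hf : DifferentiableAt ℝ f x)
    (hg : DifferentiableAt ℝ g x) (k : Fin 3) :
    pd k (fun y => f y * g y) x = pd k f x * g x + f x * pd k g x := by
  unfold pd
  rw [fderiv_fun_mul hf hg]
  simp only [ContinuousLinearMap.add_apply, ContinuousLinearMap.smul_apply, smul_eq_mul]
  ring

theorem k1c_sub {f g : E3 → ℝ} {x : E3} (hf : DifferentiableAt ℝ f x)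
    (hg : DifferentiableAt ℝ g x) (k : Fin 3) :
    pd k (fun y => f y - g y) x = pd k f x - pd k g x := by
  unfold pd
  rw [fderiv_fun_sub hf hg]
  simp only [ContinuousLinearMap.sub_apply]

theorem k1c_add {f g : E3 → ℝ} {x : E3} (hf : DifferentiableAt ℝ f x)
    (hg : DifferentiableAt ℝ g x) (k : Fin 3) :
    pd k (fun y => f y + g y) x = pd k f x + pd k g x := by
  unfold pd
  rw [fderiv_fun_add hf hg]
  simp only [ContinuousLinearMap.add_apply]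

theorem k1c_pd_diff {f : E3 → ℝ} (hf : ContDiff ℝ 2 f) (j : Fin 3) (x : E3) :
    DifferentiableAt ℝ (fun y => pd j f y) x := by
  have h1 : ContDiff ℝ 1 (fderiv ℝ f) := hf.fderiv_right (by norm_num)
  exact ((h1.differentiable (by norm_num)) x).clm_apply (differentiableAt_const _)

theorem k1c_pd_pd {f : E3 → ℝ} (hf : ContDiff ℝ 2 f) (i j : Fin 3) (x : E3) :
    pd i (fun y => pd j f y) x = fderiv ℝ (fderiv ℝ f) x (ee i) (ee j) := by
  have h1 : ContDiff ℝ 1 (fderiv ℝ f) := hf.fderiv_right (by norm_num)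
  have h2 : DifferentiableAt ℝ (fderiv ℝ f) x := (h1.differentiable (by norm_num)) x
  unfold pd
  rw [fderiv_clm_apply h2 (differentiableAt_const _)]
  simp

theorem k1c_symm {f : E3 → ℝ} (hf : ContDiff ℝ 2 f) (i j : Fin 3) (x : E3) :
    pd i (fun y => pd j f y) x = pd j (fun y => pd i f y) x := by
  rw [k1c_pd_pd hf, k1c_pd_pd hf]
  exact (hf.contDiffAt.isSymmSndFDerivAt (by simp)) (ee i) (ee j)

theorem k1c_term {χ : Fin 3 → E3 → ℝ} (hχ : ∀ i, ContDiff ℝ 2 (χ i)) {b : E3 → ℝ}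
    (hb : ContDiff ℝ 1 b) (x : E3) (i : Fin 3) :
    pd i (fun y => b y * (χ i y * (∑ j, pd j (χ j) y) - ∑ j, χ j y * pd j (χ i) y)) x
      = pd i b x * (χ i x * (∑ j, pd j (χ j) x) - ∑ j, χ j x * pd j (χ i) x)
        + b x * ((pd i (χ i) x * (∑ j, pd j (χ j) x)
          + χ i x * ∑ j, pd i (fun y => pd j (χ j) y) x)
          - ∑ j, (pd i (χ j) x * pd j (χ i) x + χ j x * pd i (fun y => pd j (χ i) y) x)) := by
  have hc : ∀ i, DifferentiableAt ℝ (χ i) x := fun i =>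
    ((hχ i).differentiable (by norm_num)) x
  have hbd : DifferentiableAt ℝ b x := (hb.differentiable (by norm_num)) x
  have hp : ∀ i j, DifferentiableAt ℝ (fun y => pd j (χ i) y) x := fun i j =>
    k1c_pd_diff (hχ i) j x
  simp only [Fin.sum_univ_three]
  have hs1 : DifferentiableAt ℝ (fun y => pd 0 (χ 0) y + pd 1 (χ 1) y) x :=
    (hp 0 0).fun_add (hp 1 1)
  have hs2 : DifferentiableAt ℝ (fun y => pd 0 (χ 0) y + pd 1 (χ 1) y + pd 2 (χ 2) y) x :=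
    hs1.fun_add (hp 2 2)
  have hm : ∀ j, DifferentiableAt ℝ (fun y => χ j y * pd j (χ i) y) x := fun j =>
    (hc j).fun_mul (hp i j)
  have hm1 : DifferentiableAt ℝ (fun y => χ 0 y * pd 0 (χ i) y + χ 1 y * pd 1 (χ i) y) x :=
    (hm 0).fun_add (hm 1)
  have hm2 : DifferentiableAt ℝ (fun y => χ 0 y * pd 0 (χ i) y + χ 1 y * pd 1 (χ i) y +
      χ 2 y * pd 2 (χ i) y) x := hm1.fun_add (hm 2)
  have hl : DifferentiableAt ℝ (fun y => χ i y * (pd 0 (χ 0) y + pd 1 (χ 1) y +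
      pd 2 (χ 2) y)) x := (hc i).fun_mul hs2
  rw [k1c_mul hbd (hl.fun_sub hm2), k1c_sub hl hm2, k1c_mul (hc i) hs2, k1c_add hs1 (hp 2 2),
    k1c_add (hp 0 0) (hp 1 1), k1c_add hm1 (hm 2), k1c_add (hm 0) (hm 1),
    k1c_mul (hc 0) (hp i 0), k1c_mul (hc 1) (hp i 1), k1c_mul (hc 2) (hp i 2)]

theorem div_null {χ : Fin 3 → E3 → ℝ} (hχ : ∀ i, ContDiff ℝ 2 (χ i)) {b : E3 → ℝ}
    (hb : ContDiff ℝ 1 b) (x : E3) :
    ∑ i, pd i (fun y => b y * (χ i y * (∑ j, pd j (χ j) y) - ∑ j, χ j y * pd j (χ i) y)) x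
      = b x * ((∑ i, pd i (χ i) x) ^ 2 - ∑ i, ∑ j, pd j (χ i) x * pd i (χ j) x)
        + ∑ i, pd i b x * (χ i x * (∑ j, pd j (χ j) x) - ∑ j, χ j x * pd j (χ i) x) := by
  rw [Finset.sum_congr rfl (fun i _ => k1c_term hχ hb x i)]
  have s01 := k1c_symm (hχ 0) 0 1 x
  have s02 := k1c_symm (hχ 0) 0 2 x
  have s10 := k1c_symm (hχ 1) 0 1 x
  have s12 := k1c_symm (hχ 1) 1 2 x
  have s20 := k1c_symm (hχ 2) 0 2 x
  have s21 := k1c_symm (hχ 2) 1 2 x
  simp only [Fin.sum_univ_three]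
  rw [s01, s02, s10, s12, s20, s21]
  ring

end Pool.Agent.H36.LN
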