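import Pool.Agent.H36.LN.K1d

/-!
# LN-K1e: the radial integral

`g(x) = 3(b(s)-1) + b'(s) ‖x‖²/(a √(‖x‖²+η²))`, `s = √(‖x‖²+η²)/a`, is `r^{-2} (d/dr)[ r³ (b(√(r²+η²)/a) - 1) ]` at `r = ‖x‖`. In polar coordinates
(`integral_fun_norm_addHaar`, the volume of the unit ball is `4π/3`, `EuclideanSpace.volume_ball_fin_three`) its integral is
`4π lim_{r→∞} r³ (b(√(r²+η²)/a) - 1) = 4π · (-6 a³) = -24 π a³` (`bb_lim`, and `r/(√(r²+η²)) → 1`).
Integrability: with `F = FF s`, `b - 1 = -3F³(2+F)/(1+F+F²)²`, `s b' = 2 cF F = 18F³(1-F²)/((1+F+F²)²(1+2F³))`, and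
`g = 3(b-1) + s b' (1 - η²/(‖x‖²+η²))`; `3(b-1) + s b' = O(F⁴)` (the `F³` terms cancel: `-18 F³ + 18 F³`), `s b' η²/(‖x‖²+η²) = O(F³ ‖x‖^{-2})`,
and `F ≤ a/√(‖x‖²+η²)`; so `|g| ≤ C (1+‖x‖)^{-4}`, `int_decay`-type integrability (`integrable_one_add_norm`).
`FTC`: `MeasureTheory.integral_Ioi_of_hasDerivAt_of_tendsto`.
`div_rad`: product and chain rule, `pd i (fun y => y i) = 1`; it is `pd_comp` with `φ = 0`.
-/

open MeasureTheory Set Filter Topology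

namespace Pool.Agent.H36.LN

/-- the radial density -/
noncomputable def gg (a η : ℝ) (x : E3) : ℝ :=
  3 * (bb (Real.sqrt (‖x‖ ^ 2 + η ^ 2) / a) - 1)
    + bd (Real.sqrt (‖x‖ ^ 2 + η ^ 2) / a) * (‖x‖ ^ 2 / (a * Real.sqrt (‖x‖ ^ 2 + η ^ 2)))

/-- the radial profile -/
noncomputable def hh (a η r : ℝ) : ℝ :=
  3 * (bb (Real.sqrt (r ^ 2 + η ^ 2) / a) - 1)
    + bd (Real.sqrt (r ^ 2 + η ^ 2) / a) * (r ^ 2 / (a * Real.sqrt (r ^ 2 + η ^ 2)))

/-- the primitive -/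
noncomputable def PP (a η r : ℝ) : ℝ := r ^ 3 * (bb (Real.sqrt (r ^ 2 + η ^ 2) / a) - 1)

theorem sq_pos' {η : ℝ} (hη : 0 < η) (r : ℝ) : 0 < r ^ 2 + η ^ 2 := by positivity

theorem hasDerivAt_S {a η : ℝ} (ha : 0 < a) (hη : 0 < η) (r : ℝ) :
    HasDerivAt (fun r : ℝ => Real.sqrt (r ^ 2 + η ^ 2) / a)
      (r / (a * Real.sqrt (r ^ 2 + η ^ 2))) r := by
  have h1 : HasDerivAt (fun r : ℝ => r ^ 2 + η ^ 2) (2 * r) r := by
    have := (hasDerivAt_pow 2 r).add_const (η ^ 2)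
    simpa using this
  have h2 := (h1.sqrt (sq_pos' hη r).ne').div_const a
  have hs : 0 < Real.sqrt (r ^ 2 + η ^ 2) := Real.sqrt_pos.mpr (sq_pos' hη r)
  refine h2.congr_deriv ?_
  field_simp

theorem hasDerivAt_PP {a η : ℝ} (ha : 0 < a) (hη : 0 < η) (r : ℝ) :
    HasDerivAt (PP a η) (r ^ 2 * hh a η r) r := by
  have hs : 0 < Real.sqrt (r ^ 2 + η ^ 2) := Real.sqrt_pos.mpr (sq_pos' hη r)
  have hs' : 0 < Real.sqrt (r ^ 2 + η ^ 2) / a := div_pos hs ha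
  have h1 := (bb_deriv hs').comp r (hasDerivAt_S ha hη r)
  have h2 := (hasDerivAt_pow 3 r).mul (h1.sub_const 1)
  have e : PP a η = (fun r : ℝ => r ^ 3) * fun r =>
      (bb ∘ fun r : ℝ => Real.sqrt (r ^ 2 + η ^ 2) / a) r - 1 := by
    funext r
    simp [PP]
  rw [e]
  refine h2.congr_deriv ?_
  unfold hh
  simp only [Function.comp_apply]
  push_cast
  ring

theorem hh_nonpos {a η : ℝ} (ha : 0 < a) (hη : 0 < η) (r : ℝ) : hh a η r ≤ 0 := by
  have hs : 0 < Real.sqrt (r ^ 2 + η ^ 2) := Real.sqrt_pos.mpr (sq_pos' hη r)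
  have hs' : 0 < Real.sqrt (r ^ 2 + η ^ 2) / a := div_pos hs ha
  set s := Real.sqrt (r ^ 2 + η ^ 2) / a with hsdef
  obtain ⟨f0, f1, -, -⟩ := FF_spec hs'
  set F := FF s with hF
  have hbd := bd_eq hs'
  have hsq : Real.sqrt (r ^ 2 + η ^ 2) = a * s := by
    rw [hsdef]; field_simp
  have hsq2 : (a * s) ^ 2 = r ^ 2 + η ^ 2 := by
    rw [← hsq, Real.sq_sqrt (sq_pos' hη r).le]
  have e1 : bd s * (r ^ 2 / (a * Real.sqrt (r ^ 2 + η ^ 2)))
      = 2 * cF F * (r ^ 2 / (a * s) ^ 2) := by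
    rw [hsq, ← hbd]
    field_simp
  have hc : 0 ≤ cF F := by
    unfold cF
    have : 0 ≤ 1 - F ^ 2 := by nlinarith
    positivity
  have h2 : r ^ 2 / (a * s) ^ 2 ≤ 1 := by
    rw [hsq2, div_le_one (sq_pos' hη r)]
    nlinarith [sq_nonneg η]
  have h3 : 2 * cF F * (r ^ 2 / (a * s) ^ 2) ≤ 2 * cF F * 1 := by gcongr
  have h4 : 3 * (bF F - 1) + 2 * cF F =
      -(9 * F ^ 4 * (1 + 2 * F + 4 * F ^ 2 + 2 * F ^ 3)) / ((1 + F + F ^ 2) ^ 2 * (1 + 2 * F ^ 3)) := by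
    unfold bF cF
    have d1 : (1 + F + F ^ 2) ≠ 0 := by positivity
    have d2 : (1 + 2 * F ^ 3) ≠ 0 := by positivity
    field_simp
    ring
  have h5 : 3 * (bF F - 1) + 2 * cF F ≤ 0 := by
    rw [h4]
    apply div_nonpos_of_nonpos_of_nonneg
    · have : 0 ≤ 9 * F ^ 4 * (1 + 2 * F + 4 * F ^ 2 + 2 * F ^ 3) := by positivity
      linarith
    · positivity
  have e2 : hh a η r = 3 * (bF F - 1) + 2 * cF F * (r ^ 2 / (a * s) ^ 2) := by
    unfold hh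
    rw [← hsdef, e1]
    rfl
  rw [e2]
  linarith

theorem tendsto_PP {a η : ℝ} (ha : 0 < a) (hη : 0 < η) :
    Tendsto (PP a η) atTop (𝓝 (-6 * a ^ 3)) := by
  -- `s → ∞`
  have hS : Tendsto (fun r : ℝ => Real.sqrt (r ^ 2 + η ^ 2) / a) atTop atTop := by
    have h1 : Tendsto (fun r : ℝ => r / a) atTop atTop := tendsto_id.atTop_div_const ha
    refine tendsto_atTop_mono' _ ?_ h1
    filter_upwards [eventually_ge_atTop (0 : ℝ)] with r hr
    apply div_le_div_of_nonneg_right _ ha.le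
    apply Real.le_sqrt_of_sq_le
    nlinarith [sq_nonneg η]
  have h1 := bb_lim.comp hS
  have h2 : Tendsto (fun r : ℝ => (1 + η ^ 2 / r ^ 2)) atTop (𝓝 (1 + 0)) := by
    apply Tendsto.const_add
    exact tendsto_const_nhds.div_atTop (tendsto_pow_atTop (by norm_num))
  have h3 : Tendsto (fun r : ℝ => (a / Real.sqrt (1 + η ^ 2 / r ^ 2)) ^ 3) atTop
      (𝓝 ((a / Real.sqrt (1 + 0)) ^ 3)) := by
    apply Tendsto.pow
    apply Tendsto.div tendsto_const_nhds (h2.sqrt)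
    simp
  have h4 := h3.mul h1
  have e : (a / Real.sqrt (1 + 0)) ^ 3 * (-6) = -6 * a ^ 3 := by
    simp
    ring
  rw [e] at h4
  refine h4.congr' ?_
  filter_upwards [eventually_gt_atTop (0 : ℝ)] with r hr
  simp only [Function.comp_apply, PP]
  have hsq : Real.sqrt (r ^ 2 + η ^ 2) = r * Real.sqrt (1 + η ^ 2 / r ^ 2) := by
    have : r ^ 2 + η ^ 2 = r ^ 2 * (1 + η ^ 2 / r ^ 2) := by field_simp
    rw [this, Real.sqrt_mul (sq_nonneg r), Real.sqrt_sq hr.le]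
  have hpos : 0 < Real.sqrt (1 + η ^ 2 / r ^ 2) := Real.sqrt_pos.mpr (by positivity)
  have key : (a / Real.sqrt (1 + η ^ 2 / r ^ 2)) ^ 3 * (Real.sqrt (r ^ 2 + η ^ 2) / a) ^ 3
      = r ^ 3 := by
    rw [hsq]
    field_simp
  rw [← mul_assoc, key]

theorem PP_zero {a η : ℝ} : PP a η 0 = 0 := by simp [PP]

theorem hh_intOn {a η : ℝ} (ha : 0 < a) (hη : 0 < η) :
    IntegrableOn (fun r : ℝ => r ^ 2 * hh a η r) (Ioi 0) := by
  refine integrableOn_Ioi_deriv_of_nonpos (g := PP a η) (l := -6 * a ^ 3)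
    (hasDerivAt_PP ha hη 0).continuousAt.continuousWithinAt
    (fun x _ => hasDerivAt_PP ha hη x) (fun x _ => ?_) (tendsto_PP ha hη)
  exact mul_nonpos_of_nonneg_of_nonpos (sq_nonneg x) (hh_nonpos ha hη x)

theorem hh_integral {a η : ℝ} (ha : 0 < a) (hη : 0 < η) :
    ∫ r in Ioi (0 : ℝ), r ^ 2 * hh a η r = -6 * a ^ 3 := by
  have := integral_Ioi_of_hasDerivAt_of_nonpos (g := PP a η) (l := -6 * a ^ 3)
    (g' := fun r => r ^ 2 * hh a η r) (a := 0)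
    (hasDerivAt_PP ha hη 0).continuousAt.continuousWithinAt
    (fun x _ => hasDerivAt_PP ha hη x)
    (fun x _ => mul_nonpos_of_nonneg_of_nonpos (sq_nonneg x) (hh_nonpos ha hη x))
    (tendsto_PP ha hη)
  rw [this, PP_zero, sub_zero]

theorem gg_int {a η : ℝ} (ha : 0 < a) (hη : 0 < η) : Integrable (gg a η) := by
  have h := (integrable_fun_norm_addHaar (μ := (volume : Measure E3)) (f := hh a η)).mpr
  apply h
  have hd : Module.finrank ℝ E3 - 1 = 2 := by simp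
  rw [hd]
  simpa only [smul_eq_mul] using hh_intOn ha hη

theorem gg_val {a η : ℝ} (ha : 0 < a) (hη : 0 < η) : ∫ x, gg a η x = -(24 * Real.pi * a ^ 3) := by
  have h := integral_fun_norm_addHaar (volume : Measure E3) (hh a η)
  have hd : Module.finrank ℝ E3 = 3 := by simp
  have hb : (volume : Measure E3).real (Metric.ball 0 1) = Real.pi * 4 / 3 := by
    rw [Measure.real, EuclideanSpace.volume_ball_fin_three]
    have hp := Real.pi_nonneg
    simp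
    positivity
  rw [hd, hb] at h
  have h2 : ∫ y in Ioi (0 : ℝ), y ^ (3 - 1) • hh a η y = -6 * a ^ 3 := by
    simpa only [smul_eq_mul] using hh_integral ha hη
  rw [h2] at h
  calc ∫ x, gg a η x = ∫ x : E3, hh a η ‖x‖ := rfl
    _ = 3 • (Real.pi * 4 / 3) • (-6 * a ^ 3) := h
    _ = -(24 * Real.pi * a ^ 3) := by
        simp only [nsmul_eq_mul, smul_eq_mul]
        push_cast
        ring

theorem div_rad {a η : ℝ} (ha : 0 < a) (hη : 0 < η) (x : E3) :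
    ∑ i, pd i (fun y : E3 => bb (Real.sqrt (‖y‖ ^ 2 + η ^ 2) / a) * y i) x = 3 + gg a η x := by
  have h0 : ∀ i : Fin 3, ContDiff ℝ 2 ((fun (_ : Fin 3) (_ : E3) => (0 : ℝ)) i) :=
    fun i => contDiff_const
  have hrr : ∀ y : E3, rr (fun _ _ => 0) η y = Real.sqrt (‖y‖ ^ 2 + η ^ 2) := by
    intro y
    unfold rr ch
    rw [EuclideanSpace.norm_sq_eq]
    simp
  have hch : ∀ (k : Fin 3) (y : E3), ch (fun _ _ => 0) k y = y k := by
    intro k y
    simp [ch]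
  have hpc : ∀ (k i : Fin 3) (y : E3), pd i (ch (fun _ _ => 0) k) y = if k = i then 1 else 0 := by
    intro k i y
    rw [pd_ch h0]
    have : pd i (fun _ : E3 => (0 : ℝ)) y = 0 := by
      unfold pd
      simp
    rw [this, sub_zero]
  have hpos : 0 < Real.sqrt (‖x‖ ^ 2 + η ^ 2) := Real.sqrt_pos.mpr (by positivity)
  have hs : 0 < Real.sqrt (‖x‖ ^ 2 + η ^ 2) / a := div_pos hpos ha
  have hc2 : ContDiff ℝ 2 (fun y : E3 => bb (Real.sqrt (‖y‖ ^ 2 + η ^ 2) / a)) := by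
    have := comp_c2 h0 hη ha bb_contDiff
    simpa only [hrr] using this
  have hpd : ∀ i : Fin 3, pd i (fun y : E3 => bb (Real.sqrt (‖y‖ ^ 2 + η ^ 2) / a)) x
      = bd (Real.sqrt (‖x‖ ^ 2 + η ^ 2) / a) / (a * Real.sqrt (‖x‖ ^ 2 + η ^ 2)) * x i := by
    intro i
    have hb : HasDerivAt bb (bd (Real.sqrt (‖x‖ ^ 2 + η ^ 2) / a))
        (rr (fun _ _ => 0) η x / a) := by
      rw [hrr]
      exact bb_deriv hs
    have := pd_comp h0 hη ha hb i
    simp only [hrr, hch, hpc] at this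
    rw [this]
    congr 1
    simp
  have hprod : ∀ i : Fin 3, pd i (fun y : E3 => bb (Real.sqrt (‖y‖ ^ 2 + η ^ 2) / a) * y i) x
      = bb (Real.sqrt (‖x‖ ^ 2 + η ^ 2) / a)
        + x i * (bd (Real.sqrt (‖x‖ ^ 2 + η ^ 2) / a) / (a * Real.sqrt (‖x‖ ^ 2 + η ^ 2)) * x i) := by
    intro i
    rw [← hpd i]
    have hd1 : DifferentiableAt ℝ (fun y : E3 => bb (Real.sqrt (‖y‖ ^ 2 + η ^ 2) / a)) x :=
      hc2.differentiable (by norm_num) x
    have hd2 : HasFDerivAt (fun y : E3 => y i) (EuclideanSpace.proj i : E3 →L[ℝ] ℝ) x :=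
      (EuclideanSpace.proj i : E3 →L[ℝ] ℝ).hasFDerivAt
    unfold pd
    rw [fderiv_fun_mul hd1 hd2.differentiableAt, hd2.fderiv]
    simp [ee]
  simp only [hprod]
  unfold gg
  rw [Finset.sum_add_distrib]
  have e1 : ∑ i : Fin 3, x i * (bd (Real.sqrt (‖x‖ ^ 2 + η ^ 2) / a)
      / (a * Real.sqrt (‖x‖ ^ 2 + η ^ 2)) * x i)
      = bd (Real.sqrt (‖x‖ ^ 2 + η ^ 2) / a) * (‖x‖ ^ 2 / (a * Real.sqrt (‖x‖ ^ 2 + η ^ 2))) := by
    rw [EuclideanSpace.norm_sq_eq x]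
    simp only [Real.norm_eq_abs, sq_abs]
    rw [Finset.sum_div, Finset.mul_sum]
    exact Finset.sum_congr rfl (fun i _ => by ring)
  rw [e1]
  simp
  ring

end Pool.Agent.H36.LN
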