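import Pool.Agent.H36.LN.P6

/-!
# LN-P7: weak Poisson equation for decaying functions; the Dirichlet energy of a potential

* `weak_dec`: `g` is `C¹` with `|g| ≤ C/(1+‖x‖)`, `‖Dg‖ ≤ C/(1+‖x‖)²`. Cutoff `ζ_R(x) = ζ(x/R)`, `ζ` a smooth bump function (`ContDiffBump`) equal to
  `1` on `B_1`, supported in `B_2`, `‖Dζ_R‖ ≤ C/R`, supported in `R ≤ ‖x‖ ≤ 2R`: apply `weak_pot` to `w = ζ_R g`;
  `∫ ζ_R Dg(gpot f) → ∫ Dg (gpot f)` (dominated convergence, `‖Dg‖‖gpot f‖ ≤ C (1+‖x‖)^{-4}`, `int_decay`),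
  `|∫ g Dζ_R (gpot f)| ≤ C R^{-1} R^{-1} R^{-2} R³ → 0`. (For the last one can also write `‖Dζ_R‖ ≤ C (1+‖x‖)⁻¹` on its support, so that the
  integrand is dominated by `C (1+‖x‖)^{-4}` and tends to `0` pointwise.)
* `energy_pot`: `weak_dec` with `g = pot f` (`dec_pot`), `D(pot f)(gpot f) = ‖gpot f‖²`.
* `dirichlet`: `2 Dg(gpot σ) ≤ ‖Dg‖² + ‖gpot σ‖²` and `weak_dec`.
-/

open MeasureTheory Set Metric

namespace Pool.Agent.H36.LN

/-- a smooth cutoff function -/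
private theorem exists_cut7 : ∃ (ζ : E3 → ℝ) (K : ℝ), ContDiff ℝ 1 ζ ∧ HasCompactSupport ζ ∧ 0 ≤ K ∧
    (∀ x, ‖x‖ ≤ 1 → ζ x = 1) ∧ (∀ x, 2 < ‖x‖ → fderiv ℝ ζ x = 0) ∧
    (∀ x, 0 ≤ ζ x ∧ ζ x ≤ 1) ∧ ∀ x, ‖fderiv ℝ ζ x‖ ≤ K := by
  let b : ContDiffBump (0 : E3) := ⟨1, 2, one_pos, one_lt_two⟩
  have hc : ContDiff ℝ 1 b := b.contDiff
  have hcs : HasCompactSupport b := b.hasCompactSupport
  have hcf : Continuous (fderiv ℝ b) := hc.continuous_fderiv one_ne_zero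
  have hcsf : HasCompactSupport (fderiv ℝ b) := hcs.fderiv ℝ
  obtain ⟨K, hK⟩ := hcf.bounded_above_of_compact_support hcsf
  refine ⟨b, K, hc, hcs, le_trans (norm_nonneg _) (hK 0), ?_, ?_, ?_, hK⟩
  · intro x hx
    apply b.one_of_mem_closedBall
    rw [mem_closedBall, dist_zero_right]
    exact hx
  · intro x hx
    have h1 : x ∉ tsupport (b : E3 → ℝ) := by
      rw [b.tsupport_eq, mem_closedBall, dist_zero_right]
      exact not_le.2 hx
    have h2 : (b : E3 → ℝ) =ᶠ[nhds x] fun _ => (0 : ℝ) :=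
      notMem_tsupport_iff_eventuallyEq.1 h1
    rw [h2.fderiv_eq]
    simp
  · intro x
    exact ⟨b.nonneg, b.le_one⟩

theorem weak_dec {f g : E3 → ℝ} (hf : BCS f) (hg : Dec g) :
    Integrable (fun y => fderiv ℝ g y (gpot f y)) ∧
    ∫ y, fderiv ℝ g y (gpot f y) = 4 * Real.pi * ∫ z, f z * g z := by
  obtain ⟨ζ, K, hζ, hζc, hK0, hζ1, hζ2, hζ3, hζK⟩ := exists_cut7
  obtain ⟨C0, hC0⟩ := hg.bd
  obtain ⟨B, hB⟩ := hf.bdd
  obtain ⟨R, hR⟩ := hf.supp
  obtain ⟨C1, hC1, hpb⟩ := pot_bound R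
  have hgp : ∀ y, ‖gpot f y‖ ≤ C1 * B * (1 + ‖y‖)⁻¹ ^ 2 := fun y => (hpb f B hf.meas hB hR y).2
  have hpos : ∀ y : E3, 0 < (1 + ‖y‖)⁻¹ := fun y => inv_pos.2 (by positivity)
  have hC0n : 0 ≤ C0 := by
    have h := le_trans (abs_nonneg _) (hC0 0).1
    exact nonneg_of_mul_nonneg_left h (hpos 0)
  have hB0 : 0 ≤ B := le_trans (abs_nonneg _) (hB 0)
  have hgc : Continuous g := hg.c1.continuous
  have hgd : Differentiable ℝ g := hg.c1.differentiable one_ne_zero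
  have hζd : Differentiable ℝ ζ := hζ.differentiable one_ne_zero
  have hgf : Continuous (fderiv ℝ g) := hg.c1.continuous_fderiv one_ne_zero
  have hcont : Continuous (fun y => fderiv ℝ g y (gpot f y)) :=
    hgf.clm_apply (continuous_gpot hf)
  have hint4 : Integrable (fun y : E3 => (1 + ‖y‖)⁻¹ ^ 4) := int_decay 4 le_rfl
  have hintA : Integrable (fun y => fderiv ℝ g y (gpot f y)) := by
    refine (hint4.const_mul (C0 * (C1 * B))).mono' hcont.aestronglyMeasurable ?_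
    refine Filter.Eventually.of_forall fun y => ?_
    have h1 : ‖fderiv ℝ g y (gpot f y)‖ ≤ ‖fderiv ℝ g y‖ * ‖gpot f y‖ :=
      ContinuousLinearMap.le_opNorm _ _
    have h2 : ‖fderiv ℝ g y‖ * ‖gpot f y‖
        ≤ (C0 * (1 + ‖y‖)⁻¹ ^ 2) * (C1 * B * (1 + ‖y‖)⁻¹ ^ 2) :=
      mul_le_mul (hC0 y).2 (hgp y) (norm_nonneg _) (by have := hpos y; positivity)
    calc ‖fderiv ℝ g y (gpot f y)‖ ≤ _ := h1.trans h2
      _ = C0 * (C1 * B) * (1 + ‖y‖)⁻¹ ^ 4 := by ring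
  refine ⟨hintA, ?_⟩
  -- the cutoff functions
  let c : ℕ → ℝ := fun n => ((n : ℝ) + 1)⁻¹
  have hcpos : ∀ n, 0 < c n := fun n => inv_pos.2 (by positivity)
  have hc0 : Filter.Tendsto c Filter.atTop (nhds 0) := by
    have := tendsto_one_div_add_atTop_nhds_zero_nat (𝕜 := ℝ)
    simpa [c, one_div] using this
  let ζn : ℕ → E3 → ℝ := fun n x => ζ (c n • x)
  let w : ℕ → E3 → ℝ := fun n x => ζn n x * g x
  have hζnd : ∀ n y, HasFDerivAt (ζn n) (c n • fderiv ℝ ζ (c n • y)) y := by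
    intro n y
    have h1 : HasFDerivAt (fun x : E3 => c n • x) (c n • ContinuousLinearMap.id ℝ E3) y :=
      (hasFDerivAt_id y).const_smul (c n)
    have h2 := (hζd (c n • y)).hasFDerivAt.comp y h1
    have h3 : (fderiv ℝ ζ (c n • y)).comp (c n • ContinuousLinearMap.id ℝ E3)
        = c n • fderiv ℝ ζ (c n • y) := by
      ext v
      simp
    rw [h3] at h2
    exact h2
  have hζn1 : ∀ n, ContDiff ℝ 1 (ζn n) := fun n => hζ.comp (contDiff_const_smul (c n))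
  have hwC : ∀ n, CC1 (w n) := by
    intro n
    refine ⟨(hζn1 n).mul hg.c1, ?_⟩
    have h1 : HasCompactSupport (ζn n) :=
      hζc.comp_homeomorph (Homeomorph.smulOfNeZero (c n) (hcpos n).ne')
    exact h1.mul_right
  have hwd : ∀ n y, fderiv ℝ (w n) y = ζn n y • fderiv ℝ g y
      + g y • (c n • fderiv ℝ ζ (c n • y)) := by
    intro n y
    exact ((hζnd n y).mul (hgd y).hasFDerivAt).fderiv
  have hζnb : ∀ n y, ‖c n • fderiv ℝ ζ (c n • y)‖ ≤ 3 * K * (1 + ‖y‖)⁻¹ := by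
    intro n y
    by_cases h : 2 < ‖c n • y‖
    · rw [hζ2 _ h, smul_zero, norm_zero]
      have := hpos y
      positivity
    · push Not at h
      rw [norm_smul, Real.norm_eq_abs, abs_of_pos (hcpos n)] at h ⊢
      have h1 : c n ≤ 3 * (1 + ‖y‖)⁻¹ := by
        rw [← div_eq_mul_inv, le_div_iff₀ (by positivity), mul_add, mul_one]
        have h2 : c n ≤ 1 := by
          have : (1 : ℝ) ≤ (n : ℝ) + 1 := by
            have : (0 : ℝ) ≤ n := Nat.cast_nonneg n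
            linarith
          exact inv_le_one_of_one_le₀ this
        linarith
      calc c n * ‖fderiv ℝ ζ (c n • y)‖ ≤ (3 * (1 + ‖y‖)⁻¹) * K :=
            mul_le_mul h1 (hζK _) (norm_nonneg _) (by have := hpos y; positivity)
        _ = 3 * K * (1 + ‖y‖)⁻¹ := by ring
  have hζlim : ∀ y, Filter.Tendsto (fun n => ζn n y) Filter.atTop (nhds 1) := by
    intro y
    have h1 : Filter.Tendsto (fun n => c n • y) Filter.atTop (nhds ((0 : ℝ) • y)) :=
      hc0.smul_const y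
    rw [zero_smul] at h1
    have h2 := (hζ.continuous.tendsto 0).comp h1
    have h3 : ζ 0 = 1 := hζ1 0 (by simp)
    rw [h3] at h2
    exact h2
  have hdlim : ∀ y, Filter.Tendsto (fun n => c n • fderiv ℝ ζ (c n • y)) Filter.atTop (nhds 0) := by
    intro y
    rw [tendsto_zero_iff_norm_tendsto_zero]
    have h1 : Filter.Tendsto (fun n => c n * K) Filter.atTop (nhds 0) := by
      simpa using hc0.mul_const K
    refine squeeze_zero (fun n => norm_nonneg _) (fun n => ?_) h1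
    rw [norm_smul, Real.norm_eq_abs, abs_of_pos (hcpos n)]
    exact mul_le_mul_of_nonneg_left (hζK _) (hcpos n).le
  -- limit of the left side
  have hL : Filter.Tendsto (fun n => ∫ y, fderiv ℝ (w n) y (gpot f y)) Filter.atTop
      (nhds (∫ y, fderiv ℝ g y (gpot f y))) := by
    refine tendsto_integral_of_dominated_convergence
      (fun y => (C0 + C0 * (3 * K)) * (C1 * B) * (1 + ‖y‖)⁻¹ ^ 4)
      (fun n => (weak_pot hf (hwC n)).1.aestronglyMeasurable) (hint4.const_mul _) ?_ ?_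
    · intro n
      refine Filter.Eventually.of_forall fun y => ?_
      have hp := hpos y
      have h0 : ‖fderiv ℝ (w n) y‖ ≤ (C0 + C0 * (3 * K)) * (1 + ‖y‖)⁻¹ ^ 2 := by
        rw [hwd n y]
        have e1 : ‖ζn n y • fderiv ℝ g y‖ ≤ C0 * (1 + ‖y‖)⁻¹ ^ 2 := by
          rw [norm_smul, Real.norm_eq_abs, abs_of_nonneg (hζ3 _).1]
          calc ζn n y * ‖fderiv ℝ g y‖ ≤ 1 * ‖fderiv ℝ g y‖ :=
                mul_le_mul_of_nonneg_right (hζ3 _).2 (norm_nonneg _)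
            _ ≤ _ := by rw [one_mul]; exact (hC0 y).2
        have e2 : ‖g y • (c n • fderiv ℝ ζ (c n • y))‖
            ≤ (C0 * (1 + ‖y‖)⁻¹) * (3 * K * (1 + ‖y‖)⁻¹) := by
          rw [norm_smul, Real.norm_eq_abs]
          exact mul_le_mul (hC0 y).1 (hζnb n y) (norm_nonneg _) (by positivity)
        calc ‖ζn n y • fderiv ℝ g y + g y • (c n • fderiv ℝ ζ (c n • y))‖
            ≤ _ := norm_add_le _ _
          _ ≤ C0 * (1 + ‖y‖)⁻¹ ^ 2 + (C0 * (1 + ‖y‖)⁻¹) * (3 * K * (1 + ‖y‖)⁻¹) :=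
              add_le_add e1 e2
          _ = (C0 + C0 * (3 * K)) * (1 + ‖y‖)⁻¹ ^ 2 := by ring
      have h1 : ‖fderiv ℝ (w n) y (gpot f y)‖ ≤ ‖fderiv ℝ (w n) y‖ * ‖gpot f y‖ :=
        ContinuousLinearMap.le_opNorm _ _
      have h2 : ‖fderiv ℝ (w n) y‖ * ‖gpot f y‖
          ≤ ((C0 + C0 * (3 * K)) * (1 + ‖y‖)⁻¹ ^ 2) * (C1 * B * (1 + ‖y‖)⁻¹ ^ 2) :=
        mul_le_mul h0 (hgp y) (norm_nonneg _) (by positivity)
      calc ‖fderiv ℝ (w n) y (gpot f y)‖ ≤ _ := h1.trans h2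
        _ = (C0 + C0 * (3 * K)) * (C1 * B) * (1 + ‖y‖)⁻¹ ^ 4 := by ring
    · refine Filter.Eventually.of_forall fun y => ?_
      have h1 : Filter.Tendsto (fun n => ζn n y • fderiv ℝ g y
          + g y • (c n • fderiv ℝ ζ (c n • y))) Filter.atTop
          (nhds ((1 : ℝ) • fderiv ℝ g y + g y • (0 : E3 →L[ℝ] ℝ))) :=
        ((hζlim y).smul_const _).add ((hdlim y).const_smul _)
      have h2 : (1 : ℝ) • fderiv ℝ g y + g y • (0 : E3 →L[ℝ] ℝ) = fderiv ℝ g y := by simp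
      rw [h2] at h1
      have h3 : Filter.Tendsto (fun n => fderiv ℝ (w n) y) Filter.atTop (nhds (fderiv ℝ g y)) := by
        refine h1.congr fun n => ?_
        rw [hwd n y]
      exact ((ContinuousLinearMap.apply ℝ ℝ (gpot f y)).continuous.tendsto _).comp h3
  -- limit of the right side
  have hRt : Filter.Tendsto (fun n => ∫ z, f z * w n z) Filter.atTop (nhds (∫ z, f z * g z)) := by
    refine tendsto_integral_of_dominated_convergence (fun z => |f z| * C0)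
      (fun n => (hf.meas.mul (hwC n).c1.continuous.measurable).aestronglyMeasurable)
      (hf.int.abs.mul_const _) ?_ ?_
    · intro n
      refine Filter.Eventually.of_forall fun z => ?_
      rw [Real.norm_eq_abs, abs_mul]
      refine mul_le_mul_of_nonneg_left ?_ (abs_nonneg _)
      have e1 : |w n z| = ζn n z * |g z| := by
        show |ζn n z * g z| = _
        rw [abs_mul, abs_of_nonneg (hζ3 _).1]
      have e2 : (1 + ‖z‖)⁻¹ ≤ 1 := inv_le_one_of_one_le₀ (by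
        have := norm_nonneg z
        linarith)
      rw [e1]
      calc ζn n z * |g z| ≤ 1 * |g z| := mul_le_mul_of_nonneg_right (hζ3 _).2 (abs_nonneg _)
        _ = |g z| := one_mul _
        _ ≤ C0 * (1 + ‖z‖)⁻¹ := (hC0 z).1
        _ ≤ C0 * 1 := mul_le_mul_of_nonneg_left e2 hC0n
        _ = C0 := mul_one _
    · refine Filter.Eventually.of_forall fun z => ?_
      have h1 := ((hζlim z).mul_const (g z)).const_mul (f z)
      rw [one_mul] at h1
      exact h1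
  have hEq : ∀ n, ∫ y, fderiv ℝ (w n) y (gpot f y) = 4 * Real.pi * ∫ z, f z * w n z :=
    fun n => (weak_pot hf (hwC n)).2
  have hR2 := hRt.const_mul (4 * Real.pi)
  refine tendsto_nhds_unique hL (hR2.congr fun n => ?_)
  rw [hEq n]

private theorem fderiv_pot_aux7 {f : E3 → ℝ} (hf : BCS f) (y : E3) :
    fderiv ℝ (pot f) y = innerSL ℝ (gpot f y) := (hasFDerivAt_pot hf y).fderiv

theorem energy_pot {f : E3 → ℝ} (hf : BCS f) :
    Integrable (fun y => ‖gpot f y‖ ^ 2) ∧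
    ∫ y, ‖gpot f y‖ ^ 2 = 4 * Real.pi * ∫ z, f z * pot f z := by
  have h := weak_dec hf (dec_pot hf)
  have he : (fun y => fderiv ℝ (pot f) y (gpot f y)) = fun y => ‖gpot f y‖ ^ 2 := by
    funext y
    rw [fderiv_pot_aux7 hf y, innerSL_apply_apply, real_inner_self_eq_norm_sq]
  rw [he] at h
  exact h

/-- Dirichlet principle: `8π ∫ σ f ≤ ∫ |∇ pot σ|² + ∫ |∇ f|²` -/
theorem dirichlet {σ g : E3 → ℝ} (hσ : BCS σ) (hg : Dec g) :
    8 * Real.pi * ∫ z, σ z * g z ≤ (∫ y, ‖gpot σ y‖ ^ 2) + ∫ y, ‖fderiv ℝ g y‖ ^ 2 := by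
  obtain ⟨h1, h2⟩ := weak_dec hσ hg
  obtain ⟨h3, _⟩ := energy_pot hσ
  obtain ⟨C0, hC0⟩ := hg.bd
  have hgf : Continuous (fderiv ℝ g) := hg.c1.continuous_fderiv one_ne_zero
  have hint : Integrable (fun y => ‖fderiv ℝ g y‖ ^ 2) := by
    refine ((int_decay 4 le_rfl).const_mul (C0 ^ 2)).mono'
      ((hgf.norm.pow 2).aestronglyMeasurable) ?_
    refine Filter.Eventually.of_forall fun y => ?_
    rw [Real.norm_eq_abs, abs_of_nonneg (by positivity)]
    calc ‖fderiv ℝ g y‖ ^ 2 ≤ (C0 * (1 + ‖y‖)⁻¹ ^ 2) ^ 2 :=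
          pow_le_pow_left₀ (norm_nonneg _) (hC0 y).2 2
      _ = C0 ^ 2 * (1 + ‖y‖)⁻¹ ^ 4 := by ring
  have h4 : 8 * Real.pi * ∫ z, σ z * g z = ∫ y, 2 * fderiv ℝ g y (gpot σ y) := by
    rw [integral_const_mul, h2]
    ring
  rw [h4, ← integral_add h3 hint]
  refine integral_mono (h1.const_mul 2) (h3.add hint) fun y => ?_
  have h5 : fderiv ℝ g y (gpot σ y) ≤ ‖fderiv ℝ g y‖ * ‖gpot σ y‖ := by
    have := ContinuousLinearMap.le_opNorm (fderiv ℝ g y) (gpot σ y)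
    rw [Real.norm_eq_abs] at this
    exact le_trans (le_abs_self _) this
  have h6 := sq_nonneg (‖fderiv ℝ g y‖ - ‖gpot σ y‖)
  show 2 * fderiv ℝ g y (gpot σ y) ≤ ‖gpot σ y‖ ^ 2 + ‖fderiv ℝ g y‖ ^ 2
  nlinarith

end Pool.Agent.H36.LN
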