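import Pool.Agent.H36.LN.K1a
import Pool.Agent.H36.LN.K1c
import Pool.Agent.H36.LN.K1e
import Pool.Agent.H36.LN.P7

/-!
# LN-K1: the energy inequality for `C²` fields with compact support

Claim: `∫ Σ_ij (∂_jφ_i)² - 9a² ∫ |∇f|² ≥ -24πa³`, `f = F(ϱ/a)`.
-/

open MeasureTheory Set

namespace Pool.Agent.H36.LN

theorem Dec.int_sq {f : E3 → ℝ} (hf : Dec f) : Integrable (fun x => ‖fderiv ℝ f x‖ ^ 2) := by
  obtain ⟨C0, hC0⟩ := hf.bd
  have hgf : Continuous (fderiv ℝ f) := hf.c1.continuous_fderiv one_ne_zero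
  refine ((int_decay 4 le_rfl).const_mul (C0 ^ 2)).mono'
    ((hgf.norm.pow 2).aestronglyMeasurable) ?_
  refine Filter.Eventually.of_forall fun y => ?_
  rw [Real.norm_eq_abs, abs_of_nonneg (by positivity)]
  calc ‖fderiv ℝ f y‖ ^ 2 ≤ (C0 * (1 + ‖y‖)⁻¹ ^ 2) ^ 2 :=
        pow_le_pow_left₀ (norm_nonneg _) (hC0 y).2 2
    _ = C0 ^ 2 * (1 + ‖y‖)⁻¹ ^ 4 := by ring

theorem K1_pd_c1 {f : E3 → ℝ} (hf : ContDiff ℝ 2 f) (i : Fin 3) : ContDiff ℝ 1 (pd i f) := by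
  unfold pd
  exact (hf.fderiv_right (m := 1) (by norm_num)).clm_apply contDiff_const

theorem K1_pd_sub {f g : E3 → ℝ} {x : E3} (hf : DifferentiableAt ℝ f x)
    (hg : DifferentiableAt ℝ g x) (i : Fin 3) :
    pd i (fun y => f y - g y) x = pd i f x - pd i g x := by
  unfold pd
  rw [fderiv_fun_sub hf hg]
  rfl

/-- the flux -/
noncomputable def K1_G (φ : Fin 3 → E3 → ℝ) (η a : ℝ) (i : Fin 3) : E3 → ℝ := fun y =>
  (1 / 2 * bb (rr φ η y / a)) *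
    (ch φ i y * (∑ j, pd j (ch φ j) y) - ∑ j, ch φ j y * pd j (ch φ i) y)

/-- the radial flux -/
noncomputable def K1_G0 (η a : ℝ) (i : Fin 3) : E3 → ℝ := fun y =>
  bb (Real.sqrt (‖y‖ ^ 2 + η ^ 2) / a) * y i

theorem K1_norm_sq (y : E3) : ‖y‖ ^ 2 = ∑ i, y i ^ 2 := by
  rw [EuclideanSpace.norm_sq_eq]
  exact Finset.sum_congr rfl fun i _ => by rw [Real.norm_eq_abs, sq_abs]

theorem K1_coord (i : Fin 3) : ContDiff ℝ 2 (fun y : E3 => y i) :=
  (EuclideanSpace.proj (𝕜 := ℝ) i : E3 →L[ℝ] ℝ).contDiff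

theorem K1_G0_c1 {η a : ℝ} (hη : 0 < η) (ha : 0 < a) (i : Fin 3) :
    ContDiff ℝ 1 (K1_G0 η a i) := by
  have h1 : (fun y : E3 => bb (Real.sqrt (‖y‖ ^ 2 + η ^ 2) / a)) =
      fun y => bb (rr (fun _ _ => 0) η y / a) := by
    funext y
    unfold rr ch
    rw [K1_norm_sq]
    simp only [sub_zero]
  have h2 : ContDiff ℝ 2 (fun y : E3 => bb (Real.sqrt (‖y‖ ^ 2 + η ^ 2) / a)) := by
    rw [h1]
    exact comp_c2 (fun _ => contDiff_const) hη ha bb_contDiff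
  exact (h2.mul (K1_coord i)).of_le (by norm_num)

theorem K1_G_c1 {φ : Fin 3 → E3 → ℝ} {η a : ℝ} (hφ : ∀ i, CC2 (φ i)) (hη : 0 < η) (ha : 0 < a)
    (i : Fin 3) : ContDiff ℝ 1 (K1_G φ η a i) := by
  have hφ2 : ∀ i, ContDiff ℝ 2 (φ i) := fun i => (hφ i).c2
  have hb : ContDiff ℝ 1 (fun x => bb (rr φ η x / a)) :=
    (comp_c2 hφ2 hη ha bb_contDiff).of_le (by norm_num)
  have hc : ∀ i, ContDiff ℝ 1 (ch φ i) := fun i => (ch_c2 hφ2 i).of_le (by norm_num)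
  have hp : ∀ i j, ContDiff ℝ 1 (pd j (ch φ i)) := fun i j => K1_pd_c1 (ch_c2 hφ2 i) j
  unfold K1_G
  refine (contDiff_const.mul hb).mul (((hc i).mul ?_).sub ?_)
  · exact ContDiff.sum fun j _ => hp j j
  · exact ContDiff.sum fun j _ => (hc j).mul (hp i j)

theorem K1_zero_near {φ : Fin 3 → E3 → ℝ} {y : E3} (hy : ∀ i, y ∉ tsupport (φ i)) (i : Fin 3) :
    φ i y = 0 ∧ ∀ j, pd j (φ i) y = 0 := by
  have h2 : φ i =ᶠ[nhds y] fun _ => (0 : ℝ) := notMem_tsupport_iff_eventuallyEq.1 (hy i)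
  refine ⟨h2.eq_of_nhds, fun j => ?_⟩
  unfold pd
  rw [h2.fderiv_eq]
  simp

theorem K1_out {φ : Fin 3 → E3 → ℝ} {η a : ℝ} (hφ : ∀ i, CC2 (φ i)) {y : E3}
    (hy : ∀ i, y ∉ tsupport (φ i)) (i : Fin 3) : K1_G φ η a i y = K1_G0 η a i y := by
  have hφ2 : ∀ i, ContDiff ℝ 2 (φ i) := fun i => (hφ i).c2
  have h0 := K1_zero_near hy
  have hch : ∀ i, ch φ i y = y i := fun i => by
    unfold ch
    rw [(h0 i).1, sub_zero]
  have hpd : ∀ i j, pd j (ch φ i) y = if i = j then 1 else 0 := fun i j => by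
    rw [pd_ch hφ2, (h0 i).2, sub_zero]
  have hrr : rr φ η y = Real.sqrt (‖y‖ ^ 2 + η ^ 2) := by
    unfold rr
    rw [K1_norm_sq]
    simp only [hch]
  unfold K1_G K1_G0
  rw [hrr]
  simp only [hch, hpd]
  have h2 : (∑ j : Fin 3, y j * if i = j then (1 : ℝ) else 0) = y i := by simp
  rw [h2]
  simp only [if_true, Finset.sum_const, Finset.card_univ, Fintype.card_fin, nsmul_eq_mul]
  push_cast
  ring

theorem K1_psi_cc1 {φ : Fin 3 → E3 → ℝ} {η a : ℝ} (hφ : ∀ i, CC2 (φ i)) (hη : 0 < η)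
    (ha : 0 < a) (i : Fin 3) : CC1 (fun y => K1_G φ η a i y - K1_G0 η a i y) := by
  refine ⟨(K1_G_c1 hφ hη ha i).sub (K1_G0_c1 hη ha i), ?_⟩
  have hK : IsCompact (⋃ i : Fin 3, tsupport (φ i)) := isCompact_iUnion fun i => (hφ i).cs
  refine HasCompactSupport.intro hK ?_
  intro y hy
  rw [mem_iUnion] at hy
  push Not at hy
  rw [K1_out hφ hy i, sub_self]

theorem K1_pointwise {φ : Fin 3 → E3 → ℝ} {η a : ℝ} (hφ : ∀ i, CC2 (φ i)) (hη : 0 < η)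
    (ha : 0 < a) (x : E3) :
    ∑ i, pd i (fun y => K1_G φ η a i y - K1_G0 η a i y) x ≤
      (∑ i, ∑ j, pd j (φ i) x ^ 2) - 9 * a ^ 2 * ‖fderiv ℝ (fun x => FF (rr φ η x / a)) x‖ ^ 2
        - gg a η x - 2 * ∑ i, pd i (φ i) x := by
  have hφ2 : ∀ i, ContDiff ℝ 2 (φ i) := fun i => (hφ i).c2
  have hϱ : 0 < rr φ η x := rr_pos hη x
  have hs : 0 < rr φ η x / a := div_pos hϱ ha
  obtain ⟨hF0, hF1, -, hFd⟩ := FF_spec hs
  set F : ℝ := FF (rr φ η x / a) with hF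
  have hq := quad_ineq hF0 hF1 hϱ (fun i j => pd j (ch φ i) x) (fun i => ch φ i x)
    (rr_ge hη x)
  -- the divergence of the flux
  have hbc : ContDiff ℝ 1 (fun y => 1 / 2 * bb (rr φ η y / a)) :=
    contDiff_const.mul ((comp_c2 hφ2 hη ha bb_contDiff).of_le (by norm_num))
  have hdn := div_null (ch_c2 hφ2) hbc x
  have hgd : HasDerivAt (fun s => 1 / 2 * bb s) (1 / 2 * bd (rr φ η x / a)) (rr φ η x / a) :=
    (bb_deriv hs).const_mul _
  have hpb : ∀ i, pd i (fun y => 1 / 2 * bb (rr φ η y / a)) x =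
      cF F / rr φ η x ^ 2 * ∑ k, ch φ k x * pd i (ch φ k) x := by
    intro i
    have h1 := pd_comp (g := fun s => 1 / 2 * bb s) hφ2 hη ha hgd i
    rw [h1]
    congr 1
    have h2 := bd_eq hs
    rw [← hF] at h2
    rw [← h2]
    field_simp
  have hbx : bb (rr φ η x / a) = bF F := rfl
  simp only [hpb] at hdn
  rw [hbx] at hdn
  -- the gradient of `f`
  have hpf : ∀ j, pd j (fun x => FF (rr φ η x / a)) x =
      (-F ^ 2 / (1 + 2 * F ^ 3)) / (a * rr φ η x) * ∑ i, ch φ i x * pd j (ch φ i) x :=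
    fun j => pd_comp hφ2 hη ha hFd j
  have hDf : 9 * a ^ 2 * ‖fderiv ℝ (fun x => FF (rr φ η x / a)) x‖ ^ 2 =
      9 * F ^ 4 / (1 + 2 * F ^ 3) ^ 2 *
        ((∑ j, (∑ i, ch φ i x * pd j (ch φ i) x) ^ 2) / rr φ η x ^ 2) := by
    rw [norm_fderiv_sq]
    simp only [hpf, mul_pow]
    rw [← Finset.mul_sum]
    have h3 : (1 + 2 * F ^ 3) ≠ 0 := by positivity
    field_simp
  -- the radial part
  have hrad : ∑ i, pd i (K1_G0 η a i) x = 3 + gg a η x := div_rad ha hη x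
  have hsub : ∀ i, pd i (fun y => K1_G φ η a i y - K1_G0 η a i y) x =
      pd i (K1_G φ η a i) x - pd i (K1_G0 η a i) x := fun i =>
    K1_pd_sub ((K1_G_c1 hφ hη ha i).differentiable one_ne_zero x)
      ((K1_G0_c1 hη ha i).differentiable one_ne_zero x) i
  have hG : ∑ i, pd i (K1_G φ η a i) x ≤
      (∑ i, ∑ j, pd j (ch φ i) x ^ 2) -
        9 * a ^ 2 * ‖fderiv ℝ (fun x => FF (rr φ η x / a)) x‖ ^ 2 := by
    rw [hDf]
    refine le_trans (le_of_eq ?_) hq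
    have h4 : ∑ i, pd i (K1_G φ η a i) x = _ := hdn
    rw [h4]
    congr 1
    · ring
    · have h5 : ∀ i : Fin 3, cF F / rr φ η x ^ 2 * (∑ k, ch φ k x * pd i (ch φ k) x) *
          (ch φ i x * (∑ j, pd j (ch φ j) x) - ∑ j, ch φ j x * pd j (ch φ i) x) =
          cF F / rr φ η x ^ 2 * (((∑ k, ch φ k x * pd i (ch φ k) x) * ch φ i x) *
            (∑ j, pd j (ch φ j) x) -
            (∑ k, ch φ k x * pd i (ch φ k) x) * ∑ j, ch φ j x * pd j (ch φ i) x) := by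
        intro i
        ring
      simp only [h5]
      rw [← Finset.mul_sum, Finset.sum_sub_distrib, ← Finset.sum_mul]
  have hA : ∑ i, ∑ j, pd j (ch φ i) x ^ 2 =
      3 - 2 * ∑ i, pd i (φ i) x + ∑ i, ∑ j, pd j (φ i) x ^ 2 := by
    simp only [pd_ch hφ2, Fin.sum_univ_three]
    simp only [Fin.isValue, Fin.reduceEq, if_true, if_false]
    ring
  simp only [hsub]
  rw [Finset.sum_sub_distrib, hrad]
  linarith

theorem energy_ineq {φ : Fin 3 → E3 → ℝ} {η a : ℝ} (hφ : ∀ i, CC2 (φ i)) (hη : 0 < η) (ha : 0 < a) :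
    -(24 * Real.pi * a ^ 3) ≤ (∫ x, ∑ i, ∑ j, pd j (φ i) x ^ 2)
      - 9 * a ^ 2 * ∫ x, ‖fderiv ℝ (fun x => FF (rr φ η x / a)) x‖ ^ 2 := by
  have hφ1 : ∀ i, CC1 (φ i) := fun i => ⟨(hφ i).c2.of_le (by norm_num), (hφ i).cs⟩
  have hΨ := K1_psi_cc1 hφ hη ha
  have hi1 : ∀ i, Integrable (pd i (fun y => K1_G φ η a i y - K1_G0 η a i y)) := fun i =>
    (pd_cont (hΨ i) i).integrable_of_hasCompactSupport (pd_cs (hΨ i) i)
  have hi2 : ∀ i j, Integrable (fun x => pd j (φ i) x ^ 2) := by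
    intro i j
    have hc : Continuous (fun x => pd j (φ i) x ^ 2) := (pd_cont (hφ1 i) j).pow 2
    refine hc.integrable_of_hasCompactSupport ?_
    have := (pd_cs (hφ1 i) j).comp_left (g := fun t : ℝ => t ^ 2) (by norm_num)
    exact this
  have hi3 : Integrable (fun x => ∑ i, ∑ j, pd j (φ i) x ^ 2) :=
    integrable_finsetSum _ fun i _ => integrable_finsetSum _ fun j _ => hi2 i j
  have hi4 : Integrable (fun x => ‖fderiv ℝ (fun x => FF (rr φ η x / a)) x‖ ^ 2) :=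
    (dec_f hφ hη ha).int_sq
  have hi5 : Integrable (gg a η) := gg_int ha hη
  have hi6 : ∀ i, Integrable (pd i (φ i)) := fun i =>
    (pd_cont (hφ1 i) i).integrable_of_hasCompactSupport (pd_cs (hφ1 i) i)
  have hi7 : Integrable (fun x => ∑ i, pd i (φ i) x) :=
    integrable_finsetSum _ fun i _ => hi6 i
  have hL : ∫ x, ∑ i, pd i (fun y => K1_G φ η a i y - K1_G0 η a i y) x = 0 := by
    rw [integral_finsetSum _ fun i _ => hi1 i]
    exact Finset.sum_eq_zero fun i _ => int_pd_zero (hΨ i) i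
  have hR7 : ∫ x, ∑ i, pd i (φ i) x = 0 := by
    rw [integral_finsetSum _ fun i _ => hi6 i]
    exact Finset.sum_eq_zero fun i _ => int_pd_zero (hφ1 i) i
  have hmono := integral_mono (μ := volume)
    (f := fun x => ∑ i, pd i (fun y => K1_G φ η a i y - K1_G0 η a i y) x)
    (g := fun x => (∑ i, ∑ j, pd j (φ i) x ^ 2) -
      9 * a ^ 2 * ‖fderiv ℝ (fun x => FF (rr φ η x / a)) x‖ ^ 2
        - gg a η x - 2 * ∑ i, pd i (φ i) x)
    (integrable_finsetSum _ fun i _ => hi1 i)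
    (((hi3.sub (hi4.const_mul _)).sub hi5).sub (hi7.const_mul _))
    (fun x => K1_pointwise hφ hη ha x)
  have e1 : ∫ x, ((∑ i, ∑ j, pd j (φ i) x ^ 2) -
      9 * a ^ 2 * ‖fderiv ℝ (fun x => FF (rr φ η x / a)) x‖ ^ 2
        - gg a η x - 2 * ∑ i, pd i (φ i) x) =
      (∫ x, ∑ i, ∑ j, pd j (φ i) x ^ 2)
      - 9 * a ^ 2 * (∫ x, ‖fderiv ℝ (fun x => FF (rr φ η x / a)) x‖ ^ 2)
      - (∫ x, gg a η x) - 2 * ∫ x, ∑ i, pd i (φ i) x := by
    have s1 : Integrable (fun x => (∑ i, ∑ j, pd j (φ i) x ^ 2) -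
        9 * a ^ 2 * ‖fderiv ℝ (fun x => FF (rr φ η x / a)) x‖ ^ 2) :=
      hi3.sub (hi4.const_mul _)
    have s2 : Integrable (fun x => (∑ i, ∑ j, pd j (φ i) x ^ 2) -
        9 * a ^ 2 * ‖fderiv ℝ (fun x => FF (rr φ η x / a)) x‖ ^ 2 - gg a η x) := s1.sub hi5
    rw [integral_sub s2 (hi7.const_mul _), integral_sub s1 hi5,
      integral_sub hi3 (hi4.const_mul _), integral_const_mul, integral_const_mul]
  rw [hL, e1, gg_val ha hη, hR7] at hmono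
  linarith

end Pool.Agent.H36.LN
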