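import Pool.Agent.H36.LN.K0

/-!
# LN-K1a: the pointwise quadratic form inequality

`0 < F < 1`, `A` a real `3×3` matrix, `U ∈ ℝ³` with `|U|² ≤ ϱ²`, `b = bF F`, `c = cF F`, `κ = 9F⁴/(1+2F³)²`. Claim:
`|A|² - κ |AᵀU|²/ϱ² - b σ₂(A) - c [ (AᵀU·U) tr A - (AᵀU)·(AU) ]/ϱ² ≥ 0`, `σ₂(A) = ½((tr A)² - tr A²)`.

Proof. For `U = 0`: `σ₂(A) ≤ |A|²` and `0 ≤ b ≤ 1`. For `U ≠ 0` put `e = U/|U|`, `θ = |U|²/ϱ² ∈ (0,1]`; the left side is affine in `θ`, so it suffices to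
treat `θ = 0` (done) and `θ = 1`, `U = ϱ e`. Choose an orthonormal basis `e, f, g` and write `a_{uv} = Σ_{ij} u_i A_{ij} v_j` for `u, v ∈ {e,f,g}`.
`|A|² = Σ_{u,v} a_{uv}²`, `tr A = a_ee + a_ff + a_gg`, `tr A² = Σ a_{uv} a_{vu}`, `|Aᵀe|² = a_ee² + a_ef² + a_eg²`, `Aᵀe·e = a_ee`,
`(Aᵀe)·(Ae) = a_ee² + a_ef a_fe + a_eg a_ge`. With `λ² = 1 - κ`, `α = b + c` the form is
`[λ² a_ee² - α a_ee (a_ff+a_gg) + a_ff² + a_gg² - b a_ff a_gg] + [λ² a_ef² + a_fe² + α a_ef a_fe] + [λ² a_eg² + a_ge² + α a_eg a_ge]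
 + [a_fg² + a_gf² + b a_fg a_gf]`.
Facts (all rational functions of `F ∈ (0,1)`):
`λ² = (1-F)²(1+2F)(1+3F²+2F³)/(1+2F³)²`, `2 - b = (1+2F)(1+3F²+2F³)/(1+F+F²)²`, `α = (1-F)(1+2F)(1+3F²+2F³)/((1+2F³)(1+F+F²))`, hence
`α² = λ²(2-b)`. Since `0 ≤ b ≤ 1`: `a_ff² + a_gg² - b a_ff a_gg ≥ ((2-b)/4)(a_ff+a_gg)²`, so the first bracket is
`≥ λ² p² - α p q + ((2-b)/4) q² = (λ p - (√(2-b)/2) q)² ≥ 0` (discriminant `α² - λ²(2-b) = 0`); the second and third are `≥ 0` since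
`α² ≤ 4 λ²`; the last since `b ≤ 2`.
-/

open MeasureTheory Set

namespace Pool.Agent.H36.LN

open Matrix

/-- the discriminant identity -/
theorem disc_eq {F : ℝ} (hF : 0 < F) :
    (bF F + cF F) ^ 2 = (1 - 9 * F ^ 4 / (1 + 2 * F ^ 3) ^ 2) * (2 - bF F) := by
  have h1 : (1 + F + F ^ 2) ≠ 0 := by positivity
  have h2 : (1 + 2 * F ^ 3) ≠ 0 := by positivity
  unfold bF cF
  field_simp
  ring

/-- the core inequality at `θ = 1` for the entries of a matrix -/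
theorem core_one {b c κ : ℝ} (hb0 : 0 ≤ b) (hb1 : b ≤ 1)
    (hd : (b + c) ^ 2 = (1 - κ) * (2 - b)) (x1 x2 x3 y1 y2 y3 z1 z2 z3 : ℝ) :
    b * ((x1 + y2 + z3) ^ 2 - (x1 * x1 + x2 * y1 + x3 * z1 + (y1 * x2 + y2 * y2 + y3 * z2)
        + (z1 * x3 + z2 * y3 + z3 * z3))) / 2
      + c * (x1 * (x1 + y2 + z3) - (x1 * x1 + x2 * y1 + x3 * z1))
    ≤ (x1 ^ 2 + x2 ^ 2 + x3 ^ 2 + (y1 ^ 2 + y2 ^ 2 + y3 ^ 2) + (z1 ^ 2 + z2 ^ 2 + z3 ^ 2))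
      - κ * (x1 ^ 2 + x2 ^ 2 + x3 ^ 2) := by
  have hb2 : 1 ≤ 2 - b := by linarith
  have hl : 0 ≤ 1 - κ := by
    by_contra h
    push Not at h
    have : (1 - κ) * (2 - b) < 0 := mul_neg_of_neg_of_pos h (by linarith)
    nlinarith [sq_nonneg (b + c)]
  -- first bracket
  have t1 : 0 ≤ (1 - κ) * x1 ^ 2 - (b + c) * x1 * (y2 + z3) + (2 - b) / 4 * (y2 + z3) ^ 2 := by
    have h : (2 - b) * ((1 - κ) * x1 ^ 2 - (b + c) * x1 * (y2 + z3)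
        + (2 - b) / 4 * (y2 + z3) ^ 2) = ((b + c) * x1 - (2 - b) / 2 * (y2 + z3)) ^ 2 := by
      linear_combination (- x1 ^ 2) * hd
    have h0 : 0 ≤ (2 - b) * ((1 - κ) * x1 ^ 2 - (b + c) * x1 * (y2 + z3)
        + (2 - b) / 4 * (y2 + z3) ^ 2) := by rw [h]; exact sq_nonneg _
    exact nonneg_of_mul_nonneg_right h0 (by linarith)
  have t1' : 0 ≤ (2 + b) / 4 * (y2 - z3) ^ 2 := by positivity
  -- second bracket
  have hm : 0 ≤ (1 - κ) - (b + c) ^ 2 / 4 := by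
    rw [hd]
    nlinarith
  have t2 : 0 ≤ (1 - κ) * x2 ^ 2 + y1 ^ 2 + (b + c) * x2 * y1 := by
    have h : (1 - κ) * x2 ^ 2 + y1 ^ 2 + (b + c) * x2 * y1 =
      (y1 + (b + c) / 2 * x2) ^ 2 + ((1 - κ) - (b + c) ^ 2 / 4) * x2 ^ 2 := by ring
    rw [h]
    positivity
  have t3 : 0 ≤ (1 - κ) * x3 ^ 2 + z1 ^ 2 + (b + c) * x3 * z1 := by
    have h : (1 - κ) * x3 ^ 2 + z1 ^ 2 + (b + c) * x3 * z1 =
      (z1 + (b + c) / 2 * x3) ^ 2 + ((1 - κ) - (b + c) ^ 2 / 4) * x3 ^ 2 := by ring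
    rw [h]
    positivity
  have t4 : 0 ≤ y3 ^ 2 + z2 ^ 2 + b * y3 * z2 := by
    have h : y3 ^ 2 + z2 ^ 2 + b * y3 * z2 =
      (b / 2) * (y3 + z2) ^ 2 + (1 - b / 2) * (y3 ^ 2 + z2 ^ 2) := by ring
    rw [h]
    have : 0 ≤ 1 - b / 2 := by linarith
    positivity
  have key : (x1 ^ 2 + x2 ^ 2 + x3 ^ 2 + (y1 ^ 2 + y2 ^ 2 + y3 ^ 2) + (z1 ^ 2 + z2 ^ 2 + z3 ^ 2))
      - κ * (x1 ^ 2 + x2 ^ 2 + x3 ^ 2)
      - (b * ((x1 + y2 + z3) ^ 2 - (x1 * x1 + x2 * y1 + x3 * z1 + (y1 * x2 + y2 * y2 + y3 * z2)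
        + (z1 * x3 + z2 * y3 + z3 * z3))) / 2
      + c * (x1 * (x1 + y2 + z3) - (x1 * x1 + x2 * y1 + x3 * z1))) =
      ((1 - κ) * x1 ^ 2 - (b + c) * x1 * (y2 + z3) + (2 - b) / 4 * (y2 + z3) ^ 2)
      + (2 + b) / 4 * (y2 - z3) ^ 2
      + ((1 - κ) * x2 ^ 2 + y1 ^ 2 + (b + c) * x2 * y1)
      + ((1 - κ) * x3 ^ 2 + z1 ^ 2 + (b + c) * x3 * z1)
      + (y3 ^ 2 + z2 ^ 2 + b * y3 * z2) := by ring
  linarith

/-- the core inequality at `θ = 0` -/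
theorem core_zero {b : ℝ} (hb0 : 0 ≤ b) (hb1 : b ≤ 1) (x1 x2 x3 y1 y2 y3 z1 z2 z3 : ℝ) :
    b * ((x1 + y2 + z3) ^ 2 - (x1 * x1 + x2 * y1 + x3 * z1 + (y1 * x2 + y2 * y2 + y3 * z2)
        + (z1 * x3 + z2 * y3 + z3 * z3))) / 2
    ≤ (x1 ^ 2 + x2 ^ 2 + x3 ^ 2 + (y1 ^ 2 + y2 ^ 2 + y3 ^ 2) + (z1 ^ 2 + z2 ^ 2 + z3 ^ 2)) := by
  have hS : 0 ≤ (x1 ^ 2 + x2 ^ 2 + x3 ^ 2 + (y1 ^ 2 + y2 ^ 2 + y3 ^ 2)
      + (z1 ^ 2 + z2 ^ 2 + z3 ^ 2)) := by positivity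
  have h1 : ((x1 + y2 + z3) ^ 2 - (x1 * x1 + x2 * y1 + x3 * z1 + (y1 * x2 + y2 * y2 + y3 * z2)
        + (z1 * x3 + z2 * y3 + z3 * z3))) / 2
      ≤ (x1 ^ 2 + x2 ^ 2 + x3 ^ 2 + (y1 ^ 2 + y2 ^ 2 + y3 ^ 2) + (z1 ^ 2 + z2 ^ 2 + z3 ^ 2)) := by
    nlinarith [sq_nonneg (x1 - y2), sq_nonneg (x1 - z3), sq_nonneg (y2 - z3),
      sq_nonneg (x2 + y1), sq_nonneg (x3 + z1), sq_nonneg (y3 + z2), sq_nonneg x2,
      sq_nonneg x3, sq_nonneg y1, sq_nonneg y3, sq_nonneg z1, sq_nonneg z2]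
  rw [mul_div_assoc]
  by_cases h : 0 ≤ ((x1 + y2 + z3) ^ 2 - (x1 * x1 + x2 * y1 + x3 * z1
        + (y1 * x2 + y2 * y2 + y3 * z2) + (z1 * x3 + z2 * y3 + z3 * z3))) / 2
  · calc b * (((x1 + y2 + z3) ^ 2 - (x1 * x1 + x2 * y1 + x3 * z1
        + (y1 * x2 + y2 * y2 + y3 * z2) + (z1 * x3 + z2 * y3 + z3 * z3))) / 2)
        ≤ 1 * (((x1 + y2 + z3) ^ 2 - (x1 * x1 + x2 * y1 + x3 * z1
        + (y1 * x2 + y2 * y2 + y3 * z2) + (z1 * x3 + z2 * y3 + z3 * z3))) / 2) := by gcongr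
      _ ≤ _ := by rw [one_mul]; exact h1
  · push Not at h
    have := mul_nonpos_of_nonneg_of_nonpos hb0 h.le
    linarith

/-- the core inequality for `0 ≤ θ ≤ 1` -/
theorem core_ineq {b c κ θ : ℝ} (hb0 : 0 ≤ b) (hb1 : b ≤ 1)
    (hd : (b + c) ^ 2 = (1 - κ) * (2 - b)) (hθ0 : 0 ≤ θ) (hθ1 : θ ≤ 1)
    (B : Matrix (Fin 3) (Fin 3) ℝ) :
    b * ((B.trace ^ 2 - (B * B).trace) / 2)
      + c * θ * (B 0 0 * B.trace - ∑ j, B 0 j * B j 0)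
    ≤ (B * Bᵀ).trace - κ * θ * ∑ j, B 0 j ^ 2 := by
  have h0 := core_zero hb0 hb1 (B 0 0) (B 0 1) (B 0 2) (B 1 0) (B 1 1) (B 1 2) (B 2 0) (B 2 1)
    (B 2 2)
  have h1 := core_one hb0 hb1 hd (B 0 0) (B 0 1) (B 0 2) (B 1 0) (B 1 1) (B 1 2) (B 2 0) (B 2 1)
    (B 2 2)
  have e1 : B.trace = B 0 0 + B 1 1 + B 2 2 := by
    simp [Matrix.trace, Fin.sum_univ_three]
  have e2 : (B * B).trace = B 0 0 * B 0 0 + B 0 1 * B 1 0 + B 0 2 * B 2 0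
      + (B 1 0 * B 0 1 + B 1 1 * B 1 1 + B 1 2 * B 2 1)
      + (B 2 0 * B 0 2 + B 2 1 * B 1 2 + B 2 2 * B 2 2) := by
    simp [Matrix.trace, Matrix.mul_apply, Fin.sum_univ_three]
  have e3 : (B * Bᵀ).trace = B 0 0 ^ 2 + B 0 1 ^ 2 + B 0 2 ^ 2
      + (B 1 0 ^ 2 + B 1 1 ^ 2 + B 1 2 ^ 2)
      + (B 2 0 ^ 2 + B 2 1 ^ 2 + B 2 2 ^ 2) := by
    simp [Matrix.trace, Matrix.mul_apply, Fin.sum_univ_three]
    ring
  rw [e1, e2, e3]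
  simp only [Fin.sum_univ_three]
  have h0' := mul_le_mul_of_nonneg_left h0 (by linarith : 0 ≤ 1 - θ)
  have h1' := mul_le_mul_of_nonneg_left h1 hθ0
  nlinarith [h0', h1']

/-- a reflection that maps `U` to a multiple of the first basis vector -/
theorem exists_refl (U : Fin 3 → ℝ) (s : ℝ) (hs : s ^ 2 = U ⬝ᵥ U) :
    ∃ O : Matrix (Fin 3) (Fin 3) ℝ, Oᵀ = O ∧ O * O = 1 ∧ O *ᵥ U = Pi.single 0 s := by
  by_cases hv : (U - Pi.single 0 s) ⬝ᵥ (U - Pi.single 0 s) = 0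
  · refine ⟨1, Matrix.transpose_one, one_mul 1, ?_⟩
    rw [Matrix.one_mulVec]
    have := dotProduct_self_eq_zero.mp hv
    exact sub_eq_zero.mp this
  · set v : Fin 3 → ℝ := U - Pi.single 0 s with hvdef
    refine ⟨1 - (2 / (v ⬝ᵥ v)) • Matrix.vecMulVec v v, ?_, ?_, ?_⟩
    · rw [Matrix.transpose_sub, Matrix.transpose_one, Matrix.transpose_smul]
      congr 2
      ext i j
      simp [Matrix.vecMulVec_apply, mul_comm]
    · have h1 : Matrix.vecMulVec v v * Matrix.vecMulVec v v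
          = (v ⬝ᵥ v) • Matrix.vecMulVec v v := by
        ext i j
        simp only [Matrix.mul_apply, Matrix.vecMulVec_apply, Matrix.smul_apply, smul_eq_mul,
          dotProduct, Finset.sum_mul]
        exact Finset.sum_congr rfl (fun k _ => by ring)
      rw [sub_mul, mul_sub, mul_sub, one_mul, mul_one, one_mul, Matrix.smul_mul,
        Matrix.mul_smul, h1, smul_smul, smul_smul]
      have h2 : 2 / (v ⬝ᵥ v) * (2 / (v ⬝ᵥ v)) * (v ⬝ᵥ v) = 2 / (v ⬝ᵥ v) + 2 / (v ⬝ᵥ v) := by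
        field_simp
        ring
      rw [h2, add_smul]
      abel
    · have h3 : v ⬝ᵥ v = 2 * (v ⬝ᵥ U) := by
        have hU : U = v + Pi.single 0 s := by rw [hvdef]; abel
        have e1 : v ⬝ᵥ U = U ⬝ᵥ U - s * U 0 := by
          rw [hvdef]
          simp only [dotProduct, Fin.sum_univ_three, Pi.sub_apply, Pi.single_apply]
          simp
          ring
        have e2 : v ⬝ᵥ v = U ⬝ᵥ U - 2 * s * U 0 + s ^ 2 := by
          rw [hvdef]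
          simp only [dotProduct, Fin.sum_univ_three, Pi.sub_apply, Pi.single_apply]
          simp
          ring
        rw [e1, e2, hs]
        ring
      have h4 : (Matrix.vecMulVec v v) *ᵥ U = (v ⬝ᵥ U) • v := by
        ext i
        simp only [Matrix.mulVec, dotProduct, Matrix.vecMulVec_apply, Pi.smul_apply, smul_eq_mul,
          Finset.sum_mul]
        exact Finset.sum_congr rfl (fun k _ => by ring)
      rw [Matrix.sub_mulVec, Matrix.one_mulVec, Matrix.smul_mulVec, h4, smul_smul]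
      have hvU : v ⬝ᵥ U ≠ 0 := by
        intro h
        apply hv
        rw [h3, h, mul_zero]
      have h5 : 2 / (v ⬝ᵥ v) * (v ⬝ᵥ U) = 1 := by
        rw [h3, div_mul_eq_mul_div]
        exact div_self (mul_ne_zero two_ne_zero hvU)
      rw [h5, one_smul, hvdef]
      abel

theorem quad_ineq {F ϱ : ℝ} (hF : 0 < F) (hF1 : F < 1) (hϱ : 0 < ϱ) (A : Fin 3 → Fin 3 → ℝ)
    (U : Fin 3 → ℝ) (hU : ∑ i, U i ^ 2 ≤ ϱ ^ 2) :
    bF F * (((∑ i, A i i) ^ 2 - ∑ i, ∑ j, A i j * A j i) / 2)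
      + cF F / ϱ ^ 2 * ((∑ j, (∑ i, U i * A i j) * U j) * (∑ i, A i i)
          - ∑ j, (∑ i, U i * A i j) * (∑ k, U k * A j k))
    ≤ (∑ i, ∑ j, A i j ^ 2)
      - 9 * F ^ 4 / (1 + 2 * F ^ 3) ^ 2 * ((∑ j, (∑ i, U i * A i j) ^ 2) / ϱ ^ 2) := by
  obtain ⟨hb0, hb1⟩ := bF_mem hF.le hF1.le
  have hd := disc_eq hF
  have hUU : U ⬝ᵥ U = ∑ i, U i ^ 2 := by
    simp only [dotProduct, pow_two]
  have hUU0 : 0 ≤ U ⬝ᵥ U := by rw [hUU]; positivity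
  obtain ⟨s, hs⟩ : ∃ s : ℝ, s ^ 2 = U ⬝ᵥ U := ⟨Real.sqrt (U ⬝ᵥ U), Real.sq_sqrt hUU0⟩
  obtain ⟨O, hOt, hO2, hOU⟩ := exists_refl U s hs
  let A' : Matrix (Fin 3) (Fin 3) ℝ := A
  obtain ⟨B, hB⟩ : ∃ B : Matrix (Fin 3) (Fin 3) ℝ, B = O * A' * O := ⟨_, rfl⟩
  have hA : A' = O * B * O := by
    rw [hB]
    calc A' = (O * O) * A' * (O * O) := by rw [hO2, one_mul, mul_one]
      _ = O * (O * A' * O) * O := by simp only [mul_assoc]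
  set θ : ℝ := s ^ 2 / ϱ ^ 2 with hθ
  have hθ0 : 0 ≤ θ := by positivity
  have hθ1 : θ ≤ 1 := by
    rw [hθ, div_le_one (by positivity), hs, hUU]
    exact hU
  have hcore := core_ineq hb0 hb1 hd hθ0 hθ1 B
  -- invariance
  have t1 : B.trace = ∑ i, A i i := by
    have : B.trace = A'.trace := by
      rw [hB, Matrix.trace_mul_comm, ← mul_assoc, hO2, one_mul]
    rw [this]
    rfl
  have t2 : (B * B).trace = ∑ i, ∑ j, A i j * A j i := by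
    have : (B * B).trace = (A' * A').trace := by
      have e : B * B = O * (A' * A') * O := by
        rw [hB]
        calc O * A' * O * (O * A' * O) = O * A' * (O * O) * A' * O := by simp only [mul_assoc]
          _ = O * (A' * A') * O := by rw [hO2, mul_one]; simp only [mul_assoc]
      rw [e, Matrix.trace_mul_comm, ← mul_assoc, hO2, one_mul]
    rw [this]
    simp only [Matrix.trace, Matrix.diag_apply, Matrix.mul_apply]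
    rfl
  have hBt : Bᵀ = O * A'ᵀ * O := by
    rw [hB, Matrix.transpose_mul, Matrix.transpose_mul, hOt, ← mul_assoc]
  have t3 : (B * Bᵀ).trace = ∑ i, ∑ j, A i j ^ 2 := by
    have : (B * Bᵀ).trace = (A' * A'ᵀ).trace := by
      have e : B * Bᵀ = O * (A' * A'ᵀ) * O := by
        rw [hBt, hB]
        calc O * A' * O * (O * A'ᵀ * O) = O * A' * (O * O) * A'ᵀ * O := by simp only [mul_assoc]
          _ = O * (A' * A'ᵀ) * O := by rw [hO2, mul_one]; simp only [mul_assoc]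
      rw [e, Matrix.trace_mul_comm, ← mul_assoc, hO2, one_mul]
    rw [this]
    simp only [Matrix.trace, Matrix.diag_apply, Matrix.mul_apply, Matrix.transpose_apply, pow_two]
    rfl
  -- the vectors
  have hdot : ∀ x y : Fin 3 → ℝ, (O *ᵥ x) ⬝ᵥ (O *ᵥ y) = x ⬝ᵥ y := by
    intro x y
    rw [Matrix.dotProduct_mulVec, Matrix.vecMul_mulVec, hOt, hO2, Matrix.vecMul_one]
  have v1 : A' *ᵥ U = O *ᵥ (B *ᵥ (O *ᵥ U)) := by
    rw [Matrix.mulVec_mulVec, Matrix.mulVec_mulVec, ← hA]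
  have v2 : A'ᵀ *ᵥ U = O *ᵥ (Bᵀ *ᵥ (O *ᵥ U)) := by
    rw [Matrix.mulVec_mulVec, Matrix.mulVec_mulVec, hBt]
    have : O * (O * A'ᵀ * O) * O = A'ᵀ := by
      calc O * (O * A'ᵀ * O) * O = (O * O) * A'ᵀ * (O * O) := by simp only [mul_assoc]
        _ = A'ᵀ := by rw [hO2, one_mul, mul_one]
    rw [this]
  have w1 : ∀ j, (B *ᵥ (O *ᵥ U)) j = s * B j 0 := by
    intro j
    rw [hOU]
    simp [Matrix.mulVec, dotProduct, Fin.sum_univ_three, mul_comm]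
  have w2 : ∀ j, (Bᵀ *ᵥ (O *ᵥ U)) j = s * B 0 j := by
    intro j
    rw [hOU]
    simp [Matrix.mulVec, dotProduct, Fin.sum_univ_three, mul_comm]
  have c1 : ∀ j, ∑ i, U i * A i j = (A'ᵀ *ᵥ U) j := by
    intro j
    simp only [Matrix.mulVec, dotProduct, Matrix.transpose_apply]
    exact Finset.sum_congr rfl (fun i _ => mul_comm _ _)
  have c2 : ∀ j, ∑ k, U k * A j k = (A' *ᵥ U) j := by
    intro j
    simp only [Matrix.mulVec, dotProduct]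
    exact Finset.sum_congr rfl (fun i _ => mul_comm _ _)
  have d1 : ∑ j, (∑ i, U i * A i j) * U j = s ^ 2 * B 0 0 := by
    simp only [c1]
    have e : ∑ j, (A'ᵀ *ᵥ U) j * U j = (A'ᵀ *ᵥ U) ⬝ᵥ U := rfl
    have hdot' : ∀ x : Fin 3 → ℝ, (O *ᵥ x) ⬝ᵥ U = x ⬝ᵥ (O *ᵥ U) := by
      intro x
      have := hdot x (O *ᵥ U)
      rwa [Matrix.mulVec_mulVec, hO2, Matrix.one_mulVec] at this
    rw [e, v2, hdot']
    simp only [dotProduct, w2]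
    rw [hOU]
    simp [Fin.sum_univ_three]
    ring
  have d2 : ∑ j, (∑ i, U i * A i j) * (∑ k, U k * A j k) = s ^ 2 * ∑ j, B 0 j * B j 0 := by
    simp only [c1, c2]
    have e : ∑ j, (A'ᵀ *ᵥ U) j * (A' *ᵥ U) j = (A'ᵀ *ᵥ U) ⬝ᵥ (A' *ᵥ U) := rfl
    rw [e, v1, v2, hdot]
    simp only [dotProduct, w1, w2, Finset.mul_sum]
    exact Finset.sum_congr rfl (fun i _ => by ring)
  have d3 : ∑ j, (∑ i, U i * A i j) ^ 2 = s ^ 2 * ∑ j, B 0 j ^ 2 := by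
    simp only [c1]
    have e : ∑ j, (A'ᵀ *ᵥ U) j ^ 2 = (A'ᵀ *ᵥ U) ⬝ᵥ (A'ᵀ *ᵥ U) := by
      simp only [dotProduct, pow_two]
    rw [e, v2, hdot]
    simp only [dotProduct, w2, Finset.mul_sum]
    exact Finset.sum_congr rfl (fun i _ => by ring)
  rw [d1, d2, d3, ← t1, ← t2, ← t3]
  have hϱ2 : ϱ ^ 2 ≠ 0 := by positivity
  have f1 : cF F / ϱ ^ 2 * (s ^ 2 * B 0 0 * B.trace - s ^ 2 * ∑ j, B 0 j * B j 0)
      = cF F * θ * (B 0 0 * B.trace - ∑ j, B 0 j * B j 0) := by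
    rw [hθ]; ring
  have f2 : 9 * F ^ 4 / (1 + 2 * F ^ 3) ^ 2 * (s ^ 2 * (∑ j, B 0 j ^ 2) / ϱ ^ 2)
      = 9 * F ^ 4 / (1 + 2 * F ^ 3) ^ 2 * θ * ∑ j, B 0 j ^ 2 := by
    rw [hθ]; ring
  rw [f1, f2]
  exact hcore

end Pool.Agent.H36.LN
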