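import Pool.Agent.H36.LN.K0

/-!
# LN-K1d: the regularised length and the trial function

`φ_i` are `C²` with compact support, `χ_i(x) = x_i - φ_i(x)`, `ϱ(x) = √(Σ χ_i² + η²)`, `f = F(ϱ/a)`.
Everything is the chain rule. Decay of `f` (`dec_f`): outside a ball `χ = x`, so `ϱ ≥ ‖x‖`, `f ≤ (ϱ/a)⁻¹ ≤ a/‖x‖` (`FF_le`) and
`|∂_j f| ≤ F² |x_j| /(a ϱ) ≤ F²/a ≤ a/‖x‖²`; on the ball, `f ≤ 1` and the derivative is continuous, hence bounded.
-/

open MeasureTheory Set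

namespace Pool.Agent.H36.LN

/-- `C²` with compact support -/
structure CC2 (f : E3 → ℝ) : Prop where
  c2 : ContDiff ℝ 2 f
  cs : HasCompactSupport f

/-- `χ = x - φ` -/
noncomputable def ch (φ : Fin 3 → E3 → ℝ) (i : Fin 3) : E3 → ℝ := fun x => x i - φ i x

/-- `ϱ = √(|χ|² + η²)` -/
noncomputable def rr (φ : Fin 3 → E3 → ℝ) (η : ℝ) : E3 → ℝ := fun x =>
  Real.sqrt (∑ i, ch φ i x ^ 2 + η ^ 2)

variable {φ : Fin 3 → E3 → ℝ} {η a : ℝ}

theorem ch_c2 (hφ : ∀ i, ContDiff ℝ 2 (φ i)) (i : Fin 3) : ContDiff ℝ 2 (ch φ i) := by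
  have h1 : ContDiff ℝ 2 (fun x : E3 => x i) :=
    (EuclideanSpace.proj i : E3 →L[ℝ] ℝ).contDiff
  exact h1.sub (hφ i)

theorem pd_ch (hφ : ∀ i, ContDiff ℝ 2 (φ i)) (i j : Fin 3) (x : E3) :
    pd j (ch φ i) x = (if i = j then 1 else 0) - pd j (φ i) x := by
  have h1 : HasFDerivAt (fun x : E3 => x i) (EuclideanSpace.proj i : E3 →L[ℝ] ℝ) x :=
    (EuclideanSpace.proj i : E3 →L[ℝ] ℝ).hasFDerivAt
  have h2 : HasFDerivAt (φ i) (fderiv ℝ (φ i) x) x :=
    ((hφ i).differentiable (by norm_num)).differentiableAt.hasFDerivAt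
  have h3 : fderiv ℝ (ch φ i) x = _ := (h1.sub h2).fderiv
  unfold pd
  rw [h3]
  simp [ee]

theorem rr_pos (hη : 0 < η) (x : E3) : 0 < rr φ η x := by
  unfold rr
  apply Real.sqrt_pos.2
  have h : 0 ≤ ∑ i, ch φ i x ^ 2 := Finset.sum_nonneg fun i _ => sq_nonneg _
  positivity

theorem rr_sq (x : E3) : rr φ η x ^ 2 = ∑ i, ch φ i x ^ 2 + η ^ 2 := by
  unfold rr
  apply Real.sq_sqrt
  have h : 0 ≤ ∑ i, ch φ i x ^ 2 := Finset.sum_nonneg fun i _ => sq_nonneg _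
  positivity

theorem rr_ge (hη : 0 < η) (x : E3) : ∑ i, ch φ i x ^ 2 ≤ rr φ η x ^ 2 := by
  rw [rr_sq]
  nlinarith [sq_nonneg η]

theorem rr_c2 (hφ : ∀ i, ContDiff ℝ 2 (φ i)) (hη : 0 < η) : ContDiff ℝ 2 (rr φ η) := by
  unfold rr
  apply ContDiff.sqrt
  · apply ContDiff.add _ contDiff_const
    apply ContDiff.sum
    intro i _
    exact (ch_c2 hφ i).pow 2
  · intro x
    have h : 0 ≤ ∑ i, ch φ i x ^ 2 := Finset.sum_nonneg fun i _ => sq_nonneg _
    positivity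

theorem rr_hasFDerivAt (hφ : ∀ i, ContDiff ℝ 2 (φ i)) (hη : 0 < η) (x : E3) :
    HasFDerivAt (rr φ η) (fderiv ℝ (rr φ η) x) x :=
  ((rr_c2 hφ hη).differentiable (by norm_num)).differentiableAt.hasFDerivAt

theorem pd_rr (hφ : ∀ i, ContDiff ℝ 2 (φ i)) (hη : 0 < η) (j : Fin 3) (x : E3) :
    pd j (rr φ η) x = (∑ i, ch φ i x * pd j (ch φ i) x) / rr φ η x := by
  have h1 : ∀ i, HasFDerivAt (ch φ i) (fderiv ℝ (ch φ i) x) x := fun i =>
    ((ch_c2 hφ i).differentiable (by norm_num)).differentiableAt.hasFDerivAt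
  have h2 : ∀ i, HasFDerivAt (fun y => ch φ i y ^ 2) ((2 * ch φ i x) • fderiv ℝ (ch φ i) x) x := by
    intro i
    have := (h1 i).pow 2
    simpa [two_mul, add_smul] using this
  have h3 : HasFDerivAt (fun y => ∑ i, ch φ i y ^ 2) (∑ i, (2 * ch φ i x) • fderiv ℝ (ch φ i) x) x :=
    HasFDerivAt.fun_sum fun i _ => h2 i
  have h4 := h3.add_const (η ^ 2)
  have hne : ∑ i, ch φ i x ^ 2 + η ^ 2 ≠ 0 := by
    have h : 0 ≤ ∑ i, ch φ i x ^ 2 := Finset.sum_nonneg fun i _ => sq_nonneg _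
    positivity
  have h5 := h4.sqrt hne
  have h6 : fderiv ℝ (rr φ η) x = _ := h5.fderiv
  have hpos := rr_pos (φ := φ) hη x
  unfold pd
  rw [h6]
  change (1 / (2 * rr φ η x)) • ((∑ i, (2 * ch φ i x) • fderiv ℝ (ch φ i) x) (ee j)) = _
  simp only [_root_.sum_apply, _root_.smul_apply, smul_eq_mul]
  rw [show (∑ i, 2 * ch φ i x * (fderiv ℝ (ch φ i) x) (ee j))
    = 2 * ∑ i, ch φ i x * (fderiv ℝ (ch φ i) x) (ee j) by
      rw [Finset.mul_sum]; exact Finset.sum_congr rfl fun i _ => by ring]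
  field_simp

/-- a smooth function of `ϱ/a` -/
theorem comp_c2 (hφ : ∀ i, ContDiff ℝ 2 (φ i)) (hη : 0 < η) (ha : 0 < a) {g : ℝ → ℝ}
    (hg : ContDiffOn ℝ 2 g (Ioi 0)) : ContDiff ℝ 2 (fun x => g (rr φ η x / a)) := by
  apply hg.comp_contDiff
  · exact (rr_c2 hφ hη).div_const a
  · intro x
    exact div_pos (rr_pos hη x) ha

theorem pd_comp (hφ : ∀ i, ContDiff ℝ 2 (φ i)) (hη : 0 < η) (ha : 0 < a) {g : ℝ → ℝ} {x : E3} {g' : ℝ}
    (hg : HasDerivAt g g' (rr φ η x / a)) (j : Fin 3) :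
    pd j (fun x => g (rr φ η x / a)) x
      = g' / (a * rr φ η x) * ∑ i, ch φ i x * pd j (ch φ i) x := by
  have h1 := rr_hasFDerivAt hφ hη x
  have h2 : HasFDerivAt (fun y => rr φ η y / a) (a⁻¹ • fderiv ℝ (rr φ η) x) x := by
    simpa [div_eq_mul_inv] using h1.mul_const a⁻¹
  have h3 := hg.comp_hasFDerivAt x h2
  have h4 : fderiv ℝ (fun x => g (rr φ η x / a)) x = _ := h3.fderiv
  have hpos := rr_pos (φ := φ) hη x
  have h5 := pd_rr hφ hη j x
  unfold pd at h5 ⊢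
  rw [h4]
  simp only [_root_.smul_apply, smul_eq_mul]
  rw [h5]
  field_simp

theorem norm_fderiv_sq {f : E3 → ℝ} (x : E3) : ‖fderiv ℝ f x‖ ^ 2 = ∑ j, pd j f x ^ 2 := by
  set L : E3 →L[ℝ] ℝ := fderiv ℝ f x with hL
  set v : E3 := (InnerProductSpace.toDual ℝ E3).symm L with hv
  have h1 : ‖v‖ = ‖L‖ := (InnerProductSpace.toDual ℝ E3).symm.norm_map L
  have h2 : ∀ j, v j = L (ee j) := by
    intro j
    have h := InnerProductSpace.toDual_symm_apply (𝕜 := ℝ) (E := E3) (x := ee j) (y := L)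
    rw [← h, ← hv]
    simp [ee, EuclideanSpace.inner_single_right]
  rw [← h1, EuclideanSpace.real_norm_sq_eq]
  exact Finset.sum_congr rfl fun j _ => by rw [h2 j]; rfl

theorem dec_f (hφ : ∀ i, CC2 (φ i)) (hη : 0 < η) (ha : 0 < a) :
    Dec (fun x => FF (rr φ η x / a)) := by
  have hc : ∀ i, ContDiff ℝ 2 (φ i) := fun i => (hφ i).c2
  have hf2 : ContDiff ℝ 2 (fun x => FF (rr φ η x / a)) := comp_c2 hc hη ha FF_contDiff
  have hf1 : ContDiff ℝ 1 (fun x => FF (rr φ η x / a)) := hf2.of_le (by norm_num)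
  refine ⟨hf1, ?_⟩
  -- radius
  have hR : ∃ R : ℝ, 1 ≤ R ∧ ∀ i, ∀ x : E3, R < ‖x‖ → x ∉ tsupport (φ i) := by
    have h1 : ∀ i, ∃ R : ℝ, ∀ x ∈ tsupport (φ i), ‖x‖ ≤ R := fun i =>
      ((hφ i).cs.isCompact.isBounded).exists_norm_le
    choose R hR using h1
    refine ⟨1 + ∑ i, |R i|, ?_, ?_⟩
    · have : 0 ≤ ∑ i, |R i| := Finset.sum_nonneg fun i _ => abs_nonneg _
      linarith
    · intro i x hx hmem
      have h2 := hR i x hmem
      have h3 : |R i| ≤ ∑ i, |R i| :=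
        Finset.single_le_sum (f := fun i => |R i|) (fun i _ => abs_nonneg _) (Finset.mem_univ i)
      have h4 := le_abs_self (R i)
      linarith
  obtain ⟨R, hR1, hR⟩ := hR
  have hbd : ∃ D : ℝ, ∀ x ∈ Metric.closedBall (0 : E3) R,
      ‖fderiv ℝ (fun x => FF (rr φ η x / a)) x‖ ≤ D := by
    have hcont : Continuous (fderiv ℝ (fun x => FF (rr φ η x / a))) :=
      hf1.continuous_fderiv (by norm_num)
    exact (isCompact_closedBall (0 : E3) R).exists_bound_of_continuousOn hcont.continuousOn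
  obtain ⟨D, hD⟩ := hbd
  have hD0 : 0 ≤ D := (norm_nonneg _).trans (hD 0 (by simp; linarith))
  have hFpos : ∀ x, 0 < FF (rr φ η x / a) := fun x => (FF_spec (div_pos (rr_pos hη x) ha)).1
  have hFlt : ∀ x, FF (rr φ η x / a) < 1 := fun x => (FF_spec (div_pos (rr_pos hη x) ha)).2.1
  refine ⟨4 * a + (1 + R) ^ 2 * (1 + D), fun x => ?_⟩
  have hx0 : 0 ≤ ‖x‖ := norm_nonneg x
  have hx1 : 0 < 1 + ‖x‖ := by linarith
  by_cases hx : ‖x‖ ≤ R
  · have hR2 : (1 + R)⁻¹ ≤ (1 + ‖x‖)⁻¹ := by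
      apply inv_anti₀ hx1; linarith
    have hRp : 0 < 1 + R := by linarith
    have e1 : (1 + R) * (1 + R)⁻¹ = 1 := mul_inv_cancel₀ hRp.ne'
    have hi : 0 < (1 + R)⁻¹ := inv_pos.2 hRp
    constructor
    · rw [abs_of_pos (hFpos x)]
      have h1 : 1 ≤ (1 + R) ^ 2 * (1 + D) * (1 + R)⁻¹ := by
        have : (1 + R) ^ 2 * (1 + D) * (1 + R)⁻¹ = (1 + R) * (1 + D) := by
          field_simp
        rw [this]
        nlinarith
      have h2 : (1 + R) ^ 2 * (1 + D) * (1 + R)⁻¹ ≤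
          (4 * a + (1 + R) ^ 2 * (1 + D)) * (1 + ‖x‖)⁻¹ := by
        apply mul_le_mul _ hR2 hi.le (by positivity)
        linarith
      have := (hFlt x).le
      linarith
    · have hd := hD x (by simpa using hx)
      have h1 : D ≤ (1 + R) ^ 2 * (1 + D) * (1 + R)⁻¹ ^ 2 := by
        have : (1 + R) ^ 2 * (1 + D) * (1 + R)⁻¹ ^ 2 = 1 + D := by
          field_simp
        rw [this]
        linarith
      have h2 : (1 + R) ^ 2 * (1 + D) * (1 + R)⁻¹ ^ 2 ≤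
          (4 * a + (1 + R) ^ 2 * (1 + D)) * (1 + ‖x‖)⁻¹ ^ 2 := by
        apply mul_le_mul _ (pow_le_pow_left₀ hi.le hR2 2) (by positivity) (by positivity)
        linarith
      linarith
  · push Not at hx
    have hx1' : 1 ≤ ‖x‖ := by linarith
    have hxp : 0 < ‖x‖ := by linarith
    have hch : ∀ i, ch φ i x = x i := by
      intro i
      have h0 : φ i x = 0 := image_eq_zero_of_notMem_tsupport (hR i x hx)
      simp [ch, h0]
    have hpd : ∀ i j, pd j (ch φ i) x = if i = j then 1 else 0 := by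
      intro i j
      rw [pd_ch hc]
      have h0 : pd j (φ i) x = 0 := by
        unfold pd
        rw [fderiv_of_notMem_tsupport ℝ (hR i x hx)]
        rfl
      rw [h0, sub_zero]
    have hxn : ∑ i, x i ^ 2 = ‖x‖ ^ 2 := (EuclideanSpace.real_norm_sq_eq x).symm
    have hrr : ‖x‖ ≤ rr φ η x := by
      have h1 := rr_ge (φ := φ) hη x
      simp only [hch] at h1
      rw [hxn] at h1
      exact (sq_le_sq₀ hx0 (rr_pos hη x).le).1 h1
    have hrp := rr_pos (φ := φ) hη x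
    have hspos : 0 < rr φ η x / a := div_pos hrp ha
    obtain ⟨s1, s2, s3, s4⟩ := FF_spec hspos
    have hFle : FF (rr φ η x / a) ≤ a / ‖x‖ := by
      have h1 := FF_le hspos
      rw [inv_div] at h1
      refine h1.trans ?_
      exact div_le_div_of_nonneg_left ha.le hxp hrr
    have hinv : 1 / ‖x‖ ≤ 2 * (1 + ‖x‖)⁻¹ := by
      rw [div_le_iff₀ hxp, mul_assoc, mul_comm _ ‖x‖, ← div_eq_mul_inv, ← mul_div_assoc,
        le_div_iff₀ hx1]
      linarith
    have hinv0 : 0 ≤ (1 + ‖x‖)⁻¹ := (inv_pos.2 hx1).le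
    have hRR : 0 ≤ (1 + R) ^ 2 * (1 + D) := by positivity
    constructor
    · rw [abs_of_pos s1]
      have : a / ‖x‖ ≤ (4 * a + (1 + R) ^ 2 * (1 + D)) * (1 + ‖x‖)⁻¹ := by
        have h1 : a / ‖x‖ = a * (1 / ‖x‖) := by ring
        rw [h1]
        calc a * (1 / ‖x‖) ≤ a * (2 * (1 + ‖x‖)⁻¹) := mul_le_mul_of_nonneg_left hinv ha.le
          _ = 2 * a * (1 + ‖x‖)⁻¹ := by ring
          _ ≤ _ := by
            apply mul_le_mul_of_nonneg_right _ hinv0
            linarith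
      linarith
    · -- the gradient
      have hg : ∀ j, pd j (fun x => FF (rr φ η x / a)) x =
          -(FF (rr φ η x / a)) ^ 2 / (1 + 2 * FF (rr φ η x / a) ^ 3) / (a * rr φ η x) * x j := by
        intro j
        rw [pd_comp hc hη ha s4 j]
        congr 1
        simp [hch, hpd]
      have hnorm : ‖fderiv ℝ (fun x => FF (rr φ η x / a)) x‖ ^ 2 =
          (-(FF (rr φ η x / a)) ^ 2 / (1 + 2 * FF (rr φ η x / a) ^ 3) / (a * rr φ η x)) ^ 2
            * ‖x‖ ^ 2 := by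
        rw [norm_fderiv_sq]
        simp only [hg, mul_pow]
        rw [← Finset.mul_sum, hxn]
      have hnorm' : ‖fderiv ℝ (fun x => FF (rr φ η x / a)) x‖ =
          (FF (rr φ η x / a)) ^ 2 / (1 + 2 * FF (rr φ η x / a) ^ 3) / (a * rr φ η x) * ‖x‖ := by
        rw [← sq_eq_sq₀ (norm_nonneg _) (by positivity), hnorm]
        ring
      have hle : ‖fderiv ℝ (fun x => FF (rr φ η x / a)) x‖ ≤ a * (1 / ‖x‖) ^ 2 := by
        rw [hnorm']
        set F := FF (rr φ η x / a) with hF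
        have h1 : F ^ 2 / (1 + 2 * F ^ 3) ≤ F ^ 2 := by
          apply div_le_self (by positivity)
          have : 0 ≤ F ^ 3 := by positivity
          linarith
        have h2 : F ^ 2 ≤ (a / ‖x‖) ^ 2 := pow_le_pow_left₀ s1.le hFle 2
        have h3 : F ^ 2 / (1 + 2 * F ^ 3) / (a * rr φ η x) * ‖x‖ ≤
            (a / ‖x‖) ^ 2 / (a * ‖x‖) * ‖x‖ := by
          apply mul_le_mul_of_nonneg_right _ hx0
          apply div_le_div₀ (by positivity) (h1.trans h2) (by positivity)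
          exact mul_le_mul_of_nonneg_left hrr ha.le
        refine h3.trans (le_of_eq ?_)
        field_simp
      refine hle.trans ?_
      have h4 : (1 / ‖x‖) ^ 2 ≤ (2 * (1 + ‖x‖)⁻¹) ^ 2 :=
        pow_le_pow_left₀ (by positivity) hinv 2
      calc a * (1 / ‖x‖) ^ 2 ≤ a * (2 * (1 + ‖x‖)⁻¹) ^ 2 := mul_le_mul_of_nonneg_left h4 ha.le
        _ = 4 * a * (1 + ‖x‖)⁻¹ ^ 2 := by ring
        _ ≤ _ := by
          apply mul_le_mul_of_nonneg_right _ (by positivity)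
          linarith

end Pool.Agent.H36.LN
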