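import Pool.Agent.H36.LN.S0

/-!
# LN-L1: the primitive of `β`

`BB β s = ∫_0^s β`. `β` is continuous, so `BB' = β` (`intervalIntegral.integral_hasDerivAt_right` / `Continuous.deriv_integral`). Convexity since `β` is nondecreasing:
`BB t - BB s - β(s)(t-s) = ∫_s^t (β - β(s)) ≥ 0`. `BB s = 0` for `s ≤ 0`; for `s ≥ 0`: `0 ≤ BB s ≤ s`; `BB s ≥ s - ε` (for `s ≥ ε`: `BB s ≥ ∫_ε^s 1`; for `s < ε`: `BB s ≥ 0`).
-/

open MeasureTheory Set

namespace Pool.Agent.H36.LN

variable {ε : ℝ} {β : ℝ → ℝ}

noncomputable def BB (β : ℝ → ℝ) (s : ℝ) : ℝ := ∫ t in (0 : ℝ)..s, β t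

theorem L1_int (hβ : Beta ε β) (a b : ℝ) : IntervalIntegrable β volume a b :=
  hβ.c2.continuous.intervalIntegrable a b

theorem L1_zero : BB β 0 = 0 := by
  unfold BB
  exact intervalIntegral.integral_same

theorem BB_convex (hβ : Beta ε β) (s t : ℝ) : BB β s + β s * (t - s) ≤ BB β t := by
  have h1 : BB β s + ∫ u in s..t, β u = BB β t :=
    intervalIntegral.integral_add_adjacent_intervals (L1_int hβ 0 s) (L1_int hβ s t)
  rw [← h1]
  have h2 : β s * (t - s) ≤ ∫ u in s..t, β u := by
    rcases le_total s t with h | h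
    · have h3 : ∫ _ in s..t, β s = β s * (t - s) := by
        rw [intervalIntegral.integral_const, smul_eq_mul, mul_comm]
      rw [← h3]
      exact intervalIntegral.integral_mono_on h intervalIntegrable_const (L1_int hβ s t)
        fun u hu => hβ.mono hu.1
    · have h3 : ∫ _ in t..s, β s = β s * (s - t) := by
        rw [intervalIntegral.integral_const, smul_eq_mul, mul_comm]
      have h4 : ∫ u in t..s, β u ≤ ∫ _ in t..s, β s :=
        intervalIntegral.integral_mono_on h (L1_int hβ t s) intervalIntegrable_const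
          fun u hu => hβ.mono hu.2
      rw [intervalIntegral.integral_symm]
      rw [h3] at h4
      linarith
  linarith

theorem BB_nonneg (hβ : Beta ε β) (s : ℝ) : 0 ≤ BB β s := by
  have h := BB_convex hβ 0 s
  rw [L1_zero, hβ.zero 0 le_rfl] at h
  linarith

theorem BB_ge (hβ : Beta ε β) (s : ℝ) : s - ε ≤ BB β s := by
  have h := BB_convex hβ ε s
  have h1 := BB_nonneg hβ ε
  rw [hβ.one ε le_rfl] at h
  linarith

theorem BB_le (hβ : Beta ε β) (s : ℝ) : BB β s ≤ max s 0 := by
  have h := BB_convex hβ s 0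
  rw [L1_zero] at h
  have h1 : BB β s ≤ β s * s := by linarith
  refine h1.trans ?_
  rcases le_total 0 s with h0 | h0
  · rw [max_eq_left h0]
    exact mul_le_of_le_one_left h0 (hβ.mem s).2
  · rw [hβ.zero s h0, zero_mul]
    exact le_max_right _ _

theorem BB_cont (hβ : Beta ε β) : Continuous (BB β) :=
  intervalIntegral.continuous_primitive (L1_int hβ) 0

end Pool.Agent.H36.LN
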