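import Pool.Agent.H36.LN.P5

/-!
# LN-P6: the Poisson equation, pointwise and weak

* `laplace_pot`: `Σ_i gpot (pd i f) y i = ∫ Σ_i ∂_i f(z) (z-y)_i/|z-y|³ dz = ∫ Df(z)(z-y) |z-y|^{-3} dz = -4π f(y)` by `newton`
  (`gpot_apply` or the definition; `kv (y-z) = ‖y-z‖⁻¹^3 • (z-y)`).
* `weak_pot`: Fubini: `∫_y Dw(y)(gpot f y) = ∫_z f(z) ∫_y Dw(y)(kv(y-z)) = ∫ f(z) (4π w(z)) dz`
  (`∬ |f(z)| ‖Dw(y)‖ ‖y-z‖^{-2} < ∞` by `kern_bound`).
-/

open MeasureTheory Set Metric

namespace Pool.Agent.H36.LN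

private theorem p6_kv (x z : E3) : kv (x - z) = (‖z - x‖⁻¹ ^ 3) • (z - x) := by
  unfold kv
  rw [← neg_sub z x, norm_neg, smul_neg, neg_smul, neg_neg]

private theorem p6_s1 (x : E3) (i : Fin 3) (z : E3) : s1 x i z = kv (x - z) i := by
  rw [p6_kv]
  rfl

private theorem p6_int {f : E3 → ℝ} (hf : BCS f) (x : E3) (i : Fin 3) :
    Integrable (fun z => f z * s1 x i z) := by
  have h := (EuclideanSpace.proj (𝕜 := ℝ) i : E3 →L[ℝ] ℝ).integrable_comp
    (hf.int_kv x)
  refine h.congr (Filter.Eventually.of_forall fun z => ?_)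
  show (f z • kv (x - z)) i = f z * s1 x i z
  rw [p6_s1]
  rfl

private theorem p6_sum (L : E3 →L[ℝ] ℝ) (c : ℝ) (v : E3) :
    ∑ i, L (ee i) * (c * v i) = L (c • v) := by
  have h : v = ∑ i, v i • ee i := by
    ext j
    simp [ee, Finset.sum_apply, Pi.single_apply]
  conv_rhs => rw [h]
  rw [map_smul, map_sum, Finset.smul_sum]
  refine Finset.sum_congr rfl fun i _ => ?_
  rw [map_smul, smul_eq_mul, smul_eq_mul]
  ring

theorem laplace_pot {f : E3 → ℝ} (hf : CC1 f) (y : E3) :
    ∑ i, gpot (pd i f) y i = -(4 * Real.pi * f y) := by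
  rw [← (newton hf y).2, Finset.sum_congr rfl fun i _ => gpot_apply (hf.pd_bcs i) y i,
    ← integral_finsetSum _ fun i _ => p6_int (hf.pd_bcs i) y i]
  refine integral_congr_ae (Filter.Eventually.of_forall fun z => ?_)
  exact p6_sum (fderiv ℝ f z) (‖z - y‖⁻¹ ^ 3) (z - y)

private theorem p6_meas {f w : E3 → ℝ} (hf : BCS f) (hw : CC1 w) :
    AEStronglyMeasurable (fun p : E3 × E3 => f p.2 * fderiv ℝ w p.1 (kv (p.1 - p.2)))
      ((volume : Measure E3).prod volume) := by
  have h1 : Measurable fun p : E3 × E3 => f p.2 := hf.meas.comp measurable_snd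
  have h2 : Measurable fun p : E3 × E3 => kv (p.1 - p.2) := by
    have h3 : Measurable kv := by
      unfold kv
      exact ((measurable_norm.inv.pow_const 3).neg).smul measurable_id
    exact h3.comp (measurable_fst.sub measurable_snd)
  have h4 : Continuous fun y => fderiv ℝ w y := hw.c1.continuous_fderiv one_ne_zero
  have h5 : StronglyMeasurable fun p : E3 × E3 => fderiv ℝ w p.1 (kv (p.1 - p.2)) := by
    have h6 : StronglyMeasurable fun p : E3 × E3 => (fderiv ℝ w p.1, kv (p.1 - p.2)) :=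
      ((h4.stronglyMeasurable.comp_measurable measurable_fst)).prodMk h2.stronglyMeasurable
    exact (isBoundedBilinearMap_apply (𝕜 := ℝ) (E := E3) (F := ℝ)).continuous.comp_stronglyMeasurable h6
  exact (h1.stronglyMeasurable.mul h5).aestronglyMeasurable

private theorem p6_prod {f w : E3 → ℝ} (hf : BCS f) (hw : CC1 w) :
    Integrable (fun p : E3 × E3 => f p.2 * fderiv ℝ w p.1 (kv (p.1 - p.2)))
      ((volume : Measure E3).prod volume) := by
  rw [integrable_prod_iff (p6_meas hf hw)]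
  constructor
  · refine Filter.Eventually.of_forall fun y => ?_
    have h := (fderiv ℝ w y).integrable_comp (hf.int_kv y)
    refine h.congr (Filter.Eventually.of_forall fun z => ?_)
    show fderiv ℝ w y (f z • kv (y - z)) = f z * fderiv ℝ w y (kv (y - z))
    rw [map_smul, smul_eq_mul]
  · obtain ⟨B, hB⟩ := hf.bdd
    obtain ⟨R, hR⟩ := hf.supp
    obtain ⟨C, hC, hk⟩ := kern_bound R
    have hB0 : 0 ≤ B := (abs_nonneg _).trans (hB 0)
    have hDc : Continuous fun y => ‖fderiv ℝ w y‖ := (hw.c1.continuous_fderiv one_ne_zero).norm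
    have hDs : HasCompactSupport fun y => ‖fderiv ℝ w y‖ := (hw.cs.fderiv ℝ).norm
    have hDi : Integrable fun y => ‖fderiv ℝ w y‖ := hDc.integrable_of_hasCompactSupport hDs
    refine (hDi.const_mul (B * C)).mono' (p6_meas hf hw).norm.integral_prod_right'
      (Filter.Eventually.of_forall fun y => ?_)
    have h0 : 0 ≤ ∫ z, ‖f z * fderiv ℝ w y (kv (y - z))‖ :=
      integral_nonneg fun z => norm_nonneg _
    show ‖∫ z, ‖f z * fderiv ℝ w y (kv (y - z))‖‖ ≤ _
    rw [Real.norm_of_nonneg h0]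
    have h1 : ∀ z, ‖f z * fderiv ℝ w y (kv (y - z))‖ ≤
        (closedBall (0 : E3) R).indicator (fun z => B * ‖fderiv ℝ w y‖ * ‖y - z‖⁻¹ ^ 2) z := by
      intro z
      by_cases hz : z ∈ closedBall (0 : E3) R
      · rw [indicator_of_mem hz, norm_mul, mul_assoc]
        have h2 := (fderiv ℝ w y).le_opNorm (kv (y - z))
        rw [norm_kv] at h2
        exact mul_le_mul (hB z) h2 (norm_nonneg _) hB0
      · rw [indicator_of_notMem hz]
        have h3 : R < ‖z‖ := by
          rw [mem_closedBall, dist_zero_right] at hz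
          exact not_le.1 hz
        rw [hR z h3, zero_mul, norm_zero]
    have h2 : Integrable ((closedBall (0 : E3) R).indicator
        (fun z => B * ‖fderiv ℝ w y‖ * ‖y - z‖⁻¹ ^ 2)) := by
      rw [integrable_indicator_iff measurableSet_closedBall]
      exact (kern_int R 2 le_rfl y).const_mul _
    have h4 : ∫ z, ‖f z * fderiv ℝ w y (kv (y - z))‖ ≤
        ∫ z, (closedBall (0 : E3) R).indicator (fun z => B * ‖fderiv ℝ w y‖ * ‖y - z‖⁻¹ ^ 2) z :=
      integral_mono_of_nonneg (Filter.Eventually.of_forall fun z => norm_nonneg _) h2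
        (Filter.Eventually.of_forall h1)
    rw [integral_indicator measurableSet_closedBall, integral_const_mul] at h4
    refine h4.trans ?_
    have h5 := hk 2 le_rfl y
    have h6 : C * (1 + ‖y‖)⁻¹ ^ 2 ≤ C := by
      have h7 : (1 + ‖y‖)⁻¹ ≤ 1 := inv_le_one_of_one_le₀ (by linarith [norm_nonneg y])
      have h8 : (1 + ‖y‖)⁻¹ ^ 2 ≤ 1 := pow_le_one₀ (by positivity) h7
      nlinarith
    have h9 : 0 ≤ B * ‖fderiv ℝ w y‖ := mul_nonneg hB0 (norm_nonneg _)
    calc B * ‖fderiv ℝ w y‖ * ∫ z in closedBall (0 : E3) R, ‖y - z‖⁻¹ ^ 2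
        ≤ B * ‖fderiv ℝ w y‖ * C := mul_le_mul_of_nonneg_left (h5.trans h6) h9
      _ = B * C * ‖fderiv ℝ w y‖ := by ring

theorem weak_pot {f w : E3 → ℝ} (hf : BCS f) (hw : CC1 w) :
    Integrable (fun y => fderiv ℝ w y (gpot f y)) ∧
    ∫ y, fderiv ℝ w y (gpot f y) = 4 * Real.pi * ∫ z, f z * w z := by
  have h1 := p6_prod hf hw
  have h2 : (fun y => fderiv ℝ w y (gpot f y)) =
      fun y => ∫ z, f z * fderiv ℝ w y (kv (y - z)) := by
    funext y
    unfold gpot
    rw [← (fderiv ℝ w y).integral_comp_comm (hf.int_kv y)]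
    refine integral_congr_ae (Filter.Eventually.of_forall fun z => ?_)
    show fderiv ℝ w y (f z • kv (y - z)) = f z * fderiv ℝ w y (kv (y - z))
    rw [map_smul, smul_eq_mul]
  rw [h2]
  refine ⟨h1.integral_prod_left, ?_⟩
  rw [integral_integral_swap (f := fun y z => f z * fderiv ℝ w y (kv (y - z))) h1,
    ← integral_const_mul]
  refine integral_congr_ae (Filter.Eventually.of_forall fun z => ?_)
  show ∫ y, f z * fderiv ℝ w y (kv (y - z)) = 4 * Real.pi * (f z * w z)
  rw [integral_const_mul]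
  have h3 : ∫ y, fderiv ℝ w y (kv (y - z)) = 4 * Real.pi * w z := by
    have h4 := (newton hw z).2
    have h5 : (fun y => fderiv ℝ w y (kv (y - z))) =
        fun y => -fderiv ℝ w y (((‖y - z‖⁻¹) ^ 3) • (y - z)) := by
      funext y
      unfold kv
      rw [neg_smul, map_neg]
    rw [h5, integral_neg, h4, neg_neg]
  rw [h3]
  ring

end Pool.Agent.H36.LN
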