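import Pool.Agent.H36.LN.S5b
import Pool.Agent.H36.LN.P6

/-!
# LN-S6: `ψ ≥ 0`, i.e. `pot(μ) ≤ M/|y-x|`

Fix `τ > 0`, `U = pot μ` (`C¹`, `dec_pot`), `w(y) = (U(y) - M‖y-x‖⁻¹ - τ)₊²` for `y ≠ x`, `w(x) = 0`. `w` vanishes for `‖y-x‖` small (`U ≤ S`, `M/‖y-x‖` large) and for `‖y‖` large
(`U → 0`), and is `C¹` with gradient `2(U - M‖·-x‖⁻¹ - τ)₊ ∇(U - M‖·-x‖⁻¹)`, so it is `CC1`. Where `w ≠ 0`: `ψ = M/‖y-x‖ - U < -τ < 0`, so `m = β(ψ) = 0` and `μ w = 0`. Hence
`∫ Dw(gpot μ) = 4π∫μw = 0` (`weak_pot`) and `∫ Dw(‖y-x‖⁻¹^3 (y-x)) = -4πw(x) = 0` (`newton`), and `∇U = gpot μ`, `∇‖y-x‖⁻¹ = -‖y-x‖⁻¹^3(y-x)`, so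
`0 = ∫ Dw(∇(U - M‖·-x‖⁻¹)) = ∫ 2(U-M‖·-x‖⁻¹-τ)₊ |∇(U-M‖·-x‖⁻¹)|²`: the continuous nonnegative integrand vanishes identically, so `Dw = 0` everywhere, `w` is constant,
and having compact support it is `0`: `U ≤ M‖y-x‖⁻¹ + τ`. Let `τ → 0`.
-/

open MeasureTheory Set Filter Topology

namespace Pool.Agent.H36.LN

variable {ρ : E3 → ℝ} {ε : ℝ} {β : ℝ → ℝ}

/-- the derivative of `t ↦ t₊²` -/
theorem s6_pos (t : ℝ) : HasDerivAt (fun s : ℝ => (max s 0) ^ 2) (2 * max t 0) t := by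
  rcases lt_trichotomy t 0 with h | h | h
  · have e : (fun s : ℝ => (max s 0) ^ 2) =ᶠ[𝓝 t] fun _ => 0 := by
      filter_upwards [Iio_mem_nhds h] with s hs
      rw [max_eq_right (le_of_lt hs)]
      norm_num
    rw [max_eq_right h.le, mul_zero]
    exact (hasDerivAt_const t (0 : ℝ)).congr_of_eventuallyEq e
  · subst h
    rw [max_self, mul_zero, hasDerivAt_iff_isLittleO_nhds_zero]
    simp only [zero_add, max_self, smul_zero, sub_zero]
    have h2 : (fun h : ℝ => (max h 0) ^ 2 - 0 ^ 2) =O[𝓝 0] fun h => h ^ 2 := by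
      refine Asymptotics.IsBigO.of_bound 1 (Filter.Eventually.of_forall fun s => ?_)
      rw [one_mul, Real.norm_eq_abs, Real.norm_eq_abs, abs_of_nonneg (sq_nonneg s)]
      rcases le_total s 0 with hs | hs
      · rw [max_eq_right hs]
        simp [sq_nonneg]
      · rw [max_eq_left hs]
        simp
    refine h2.trans_isLittleO ?_
    exact Asymptotics.isLittleO_pow_id one_lt_two
  · have e : (fun s : ℝ => (max s 0) ^ 2) =ᶠ[𝓝 t] fun s => s ^ 2 := by
      filter_upwards [Ioi_mem_nhds h] with s hs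
      rw [max_eq_left (le_of_lt hs)]
    rw [max_eq_left h.le]
    have h3 := (hasDerivAt_pow 2 t).congr_of_eventuallyEq e
    simpa using h3

theorem s6_pos_c1 : ContDiff ℝ 1 (fun s : ℝ => (max s 0) ^ 2) := by
  rw [contDiff_one_iff_deriv]
  refine ⟨fun t => (s6_pos t).differentiableAt, ?_⟩
  have e : deriv (fun s : ℝ => (max s 0) ^ 2) = fun t => 2 * max t 0 := funext fun t => (s6_pos t).deriv
  rw [e]
  fun_prop

/-- the derivative of `1/‖y-x‖` -/
theorem s6_inv {x y : E3} (h : y ≠ x) :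
    HasFDerivAt (fun z : E3 => ‖z - x‖⁻¹) (innerSL ℝ (-((‖y - x‖⁻¹ ^ 3) • (y - x)))) y := by
  have h0 : ‖y - x‖ ≠ 0 := by
    rw [norm_ne_zero_iff]
    exact sub_ne_zero.2 h
  have h1 : HasFDerivAt (fun z : E3 => ‖z - x‖ ^ 2)
      (2 • (innerSL ℝ (y - x)).comp (ContinuousLinearMap.id ℝ E3)) y :=
    ((hasFDerivAt_id y).sub_const x).norm_sq
  have hne : ‖y - x‖ ^ 2 ≠ 0 := pow_ne_zero 2 h0
  have h2 := h1.sqrt hne
  have h5 : Real.sqrt (‖y - x‖ ^ 2) = ‖y - x‖ := Real.sqrt_sq (norm_nonneg _)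
  have h6 : (fun z : E3 => Real.sqrt (‖z - x‖ ^ 2)) = fun z => ‖z - x‖ :=
    funext fun z => Real.sqrt_sq (norm_nonneg _)
  rw [h6, h5] at h2
  have h3 := (hasDerivAt_inv h0).comp_hasFDerivAt y h2
  refine h3.congr_fderiv ?_
  ext v
  simp only [innerSL_apply_apply, _root_.smul_apply, smul_eq_mul, inner_smul_left, RCLike.conj_to_real,
    nsmul_eq_mul, Nat.cast_ofNat, inner_neg_left, ContinuousLinearMap.comp_id]
  field_simp

theorem s6_inv_c1 {x y : E3} (h : y ≠ x) : ContDiffAt ℝ 1 (fun z : E3 => ‖z - x‖⁻¹) y := by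
  have h0 : y - x ≠ 0 := sub_ne_zero.2 h
  have h1 : ContDiffAt ℝ 1 (fun z : E3 => ‖z - x‖) y :=
    ContDiffAt.norm ℝ (by fun_prop) h0
  exact h1.inv (norm_ne_zero_iff.2 h0)

open Classical in
/-- the test function -/
noncomputable def s6w (U : E3 → ℝ) (x : E3) (M τ : ℝ) (y : E3) : ℝ :=
  if y = x then 0 else (max (U y - M * ‖y - x‖⁻¹ - τ) 0) ^ 2

theorem s6w_near {U : E3 → ℝ} (hU : Dec U) (x : E3) {M τ : ℝ} (hM : 0 < M) (hτ : 0 < τ) :
    s6w U x M τ =ᶠ[𝓝 x] fun _ => 0 := by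
  obtain ⟨C, hC⟩ := hU.bd
  have hC0 : 0 ≤ C := by
    have h := (abs_nonneg _).trans (hC 0).1
    simpa using h
  have hCU : ∀ y, U y ≤ C := fun y => by
    have h1 : (1 + ‖y‖)⁻¹ ≤ 1 := inv_le_one_of_one_le₀ (by linarith [norm_nonneg y])
    calc U y ≤ |U y| := le_abs_self _
      _ ≤ C * (1 + ‖y‖)⁻¹ := (hC y).1
      _ ≤ C * 1 := mul_le_mul_of_nonneg_left h1 hC0
      _ = C := mul_one C
  filter_upwards [Metric.ball_mem_nhds x (show 0 < M / (C + 1) by positivity)] with y hy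
  unfold s6w
  split_ifs with h
  · rfl
  · have h0 : 0 < ‖y - x‖ := norm_pos_iff.2 (sub_ne_zero.2 h)
    rw [Metric.mem_ball, dist_eq_norm, lt_div_iff₀ (by linarith)] at hy
    have h2 : C + 1 ≤ M * ‖y - x‖⁻¹ := by
      rw [← div_eq_mul_inv, le_div_iff₀ h0]
      linarith
    rw [max_eq_right (by linarith [hCU y])]
    norm_num

theorem s6w_away (U : E3 → ℝ) {x y : E3} (M τ : ℝ) (hy : y ≠ x) :
    s6w U x M τ =ᶠ[𝓝 y] fun z => (max (U z - M * ‖z - x‖⁻¹ - τ) 0) ^ 2 := by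
  filter_upwards [isOpen_ne.mem_nhds hy] with z hz
  unfold s6w
  rw [if_neg hz]

theorem s6w_cc1 {U : E3 → ℝ} (hU : Dec U) (x : E3) {M τ : ℝ} (hM : 0 < M) (hτ : 0 < τ) :
    CC1 (s6w U x M τ) := by
  constructor
  · rw [contDiff_iff_contDiffAt]
    intro y
    by_cases h : y = x
    · subst h
      exact contDiffAt_const.congr_of_eventuallyEq (s6w_near hU y hM hτ)
    · refine ContDiffAt.congr_of_eventuallyEq ?_ (s6w_away U M τ h)
      have h1 : ContDiffAt ℝ 1 (fun z => U z - M * ‖z - x‖⁻¹ - τ) y :=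
        ((hU.c1.contDiffAt).sub (contDiffAt_const.mul (s6_inv_c1 h))).sub contDiffAt_const
      exact s6_pos_c1.contDiffAt.comp y h1
  · obtain ⟨C, hC⟩ := hU.bd
    have hC0 : 0 ≤ C := by
      have h := (abs_nonneg _).trans (hC 0).1
      simpa using h
    refine HasCompactSupport.of_support_subset_isCompact (isCompact_closedBall (0 : E3) (C / τ)) ?_
    intro y hy
    by_contra hn
    apply hy
    rw [mem_closedBall_zero_iff, not_le] at hn
    unfold s6w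
    split_ifs with h
    · rfl
    · have h1 : U y ≤ τ := by
        have h3 : 0 < 1 + ‖y‖ := by positivity
        calc U y ≤ |U y| := le_abs_self _
          _ ≤ C * (1 + ‖y‖)⁻¹ := (hC y).1
          _ ≤ τ := by
            rw [← div_eq_mul_inv, div_le_iff₀ h3]
            rw [div_lt_iff₀ hτ] at hn
            nlinarith
      have h2 : 0 ≤ M * ‖y - x‖⁻¹ := by positivity
      rw [max_eq_right (by linarith)]
      norm_num

theorem s6_main {f : E3 → ℝ} (hf : BCS f) (x : E3) {M τ : ℝ} (hM : 0 < M) (hτ : 0 < τ)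
    (h0 : ∀ z, z ≠ x → τ < pot f z - M * ‖z - x‖⁻¹ → f z = 0) {y : E3} (hy : y ≠ x) :
    pot f y ≤ M * ‖y - x‖⁻¹ + τ := by
  have hU := dec_pot hf
  have hw := s6w_cc1 hU x hM hτ
  have hD : Continuous (fun z => fderiv ℝ (s6w (pot f) x M τ) z) := hw.c1.continuous_fderiv one_ne_zero
  have hfd : ∀ z, z ≠ x → fderiv ℝ (s6w (pot f) x M τ) z =
      (2 * max (pot f z - M * ‖z - x‖⁻¹ - τ) 0) •
        innerSL ℝ (gpot f z + M • ((‖z - x‖⁻¹ ^ 3) • (z - x))) := by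
    intro z hz
    have h1 : HasFDerivAt (fun z => pot f z - M * ‖z - x‖⁻¹ - τ)
        (innerSL ℝ (gpot f z + M • ((‖z - x‖⁻¹ ^ 3) • (z - x)))) z := by
      have h2 := ((hasFDerivAt_pot hf z).sub ((s6_inv hz).const_mul M)).sub_const τ
      refine h2.congr_fderiv ?_
      rw [map_neg, smul_neg, sub_neg_eq_add, map_add, map_smul, map_smul, map_smul]
    have h3 := ((s6_pos _).comp_hasFDerivAt z h1).congr_of_eventuallyEq
      (s6w_away (pot f) M τ hz)
    exact h3.fderiv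
  have hx : fderiv ℝ (s6w (pot f) x M τ) x = 0 := by
    rw [(s6w_near hU x hM hτ).fderiv_eq]
    simp
  have hi1 := weak_pot hf hw
  have hi2 := newton hw x
  have hz1 : ∀ z, f z * s6w (pot f) x M τ z = 0 := by
    intro z
    unfold s6w
    split_ifs with h
    · exact mul_zero _
    · by_cases h2 : τ < pot f z - M * ‖z - x‖⁻¹
      · rw [h0 z h h2, zero_mul]
      · rw [max_eq_right (by linarith [not_lt.1 h2])]
        norm_num
  have hz2 : s6w (pot f) x M τ x = 0 := by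
    unfold s6w
    rw [if_pos rfl]
  have e1 : ∫ z, fderiv ℝ (s6w (pot f) x M τ) z (gpot f z) = 0 := by
    rw [hi1.2]
    simp only [hz1, integral_zero, mul_zero]
  have e2 : ∫ z, fderiv ℝ (s6w (pot f) x M τ) z ((‖z - x‖⁻¹ ^ 3) • (z - x)) = 0 := by
    rw [hi2.2, hz2]
    simp
  -- the sum
  set F : E3 → ℝ := fun z => fderiv ℝ (s6w (pot f) x M τ) z (gpot f z) +
    M * fderiv ℝ (s6w (pot f) x M τ) z ((‖z - x‖⁻¹ ^ 3) • (z - x)) with hF
  have hFi : Integrable F := hi1.1.add (hi2.1.const_mul M)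
  have hF0 : ∫ z, F z = 0 := by
    rw [hF, integral_add hi1.1 (hi2.1.const_mul M), integral_const_mul, e1, e2]
    ring
  have hFv : ∀ z, z ≠ x → F z = (2 * max (pot f z - M * ‖z - x‖⁻¹ - τ) 0) *
      ‖gpot f z + M • ((‖z - x‖⁻¹ ^ 3) • (z - x))‖ ^ 2 := by
    intro z hz
    have h1 : F z = fderiv ℝ (s6w (pot f) x M τ) z
        (gpot f z + M • ((‖z - x‖⁻¹ ^ 3) • (z - x))) := by
      rw [hF]
      simp only [map_add, map_smul, smul_eq_mul]
    rw [h1, hfd z hz]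
    simp only [_root_.smul_apply, smul_eq_mul, innerSL_apply_apply, real_inner_self_eq_norm_sq]
  have hFn : ∀ z, 0 ≤ F z := by
    intro z
    by_cases hz : z = x
    · subst hz
      rw [hF]
      simp [hx]
    · rw [hFv z hz]
      have := le_max_right (pot f z - M * ‖z - x‖⁻¹ - τ) 0
      positivity
  have hae : F =ᵐ[volume] 0 := (integral_eq_zero_iff_of_nonneg hFn hFi).1 hF0
  have hDae : (fun z => fderiv ℝ (s6w (pot f) x M τ) z) =ᵐ[volume] fun _ => 0 := by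
    filter_upwards [hae] with z hz
    by_cases hzx : z = x
    · subst hzx
      exact hx
    · rw [hfd z hzx]
      rw [hFv z hzx] at hz
      rcases mul_eq_zero.1 hz with h | h
      · rw [h, zero_smul]
      · have h2 : gpot f z + M • ((‖z - x‖⁻¹ ^ 3) • (z - x)) = 0 := by
          rw [← norm_eq_zero]
          exact pow_eq_zero_iff (two_ne_zero) |>.1 h
        rw [h2, map_zero, smul_zero]
  have hD0 : (fun z => fderiv ℝ (s6w (pot f) x M τ) z) = fun _ => 0 :=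
    (hD.ae_eq_iff_eq volume continuous_const).1 hDae
  have hconst := is_const_of_fderiv_eq_zero (hw.c1.differentiable one_ne_zero)
    (fun z => congrFun hD0 z) y x
  rw [hz2] at hconst
  unfold s6w at hconst
  rw [if_neg hy] at hconst
  have h5 : max (pot f y - M * ‖y - x‖⁻¹ - τ) 0 = 0 := pow_eq_zero_iff (two_ne_zero) |>.1 hconst
  have h6 := le_max_left (pot f y - M * ‖y - x‖⁻¹ - τ) 0
  rw [h5] at h6
  linarith

theorem psi_nonneg (hρ : Wt ρ) (hβ : Beta ε β) (x : E3) {M : ℝ} (hM : 0 < M) {y : E3}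
    (hy : y ≠ x) : 0 ≤ psi ρ β x M y := by
  unfold psi
  rw [sub_nonneg]
  refine le_of_forall_pos_le_add fun τ hτ => ?_
  refine s6_main (mu_bcs hρ hβ x hM) x hM hτ (fun z hz h => ?_) hy
  have h1 : mm ρ β x M z = 0 := by
    rw [mm_eq hρ hβ x hM hz]
    refine hβ.zero _ ?_
    unfold psi
    linarith
  unfold mu
  rw [h1, mul_zero]

end Pool.Agent.H36.LN
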