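import Pool.Agent.H36.LN.L1
import Pool.Agent.H36.LN.S6
import Pool.Agent.H36.LN.D3

/-!
# LN-L2: the energy `ell(x,M) = ½ W(μ,μ) + ∫ ρ BB(ψ)` and the bound for `cost`

`μ = mu ρ β x M`, `ψ = psi ρ β x M` (the point `y = x` has measure zero: `mm_eq` holds a.e.).
* `ell_int`: `0 ≤ ρ BB(ψ) ≤ ρ M‖y-x‖⁻¹` (`BB_le`, `pot_mu_mem`), integrable (`BCS.int_kern`).
* `ell_ineq`: with `μ' = mu ρ β x M'`: `½W(μ',μ') - ½W(μ,μ) = ½W(μ'-μ,μ'-μ) + W(μ'-μ, μ) ≥ ∫ (μ'-μ) pot μ` (`bcs_nonneg`, `bcs_sub`, `bcs_symm`), and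
  `∫ρ(BB(ψ') - BB(ψ)) ≥ ∫ρβ(ψ)(ψ'-ψ) = ∫ μ ((M'-M)‖y-x‖⁻¹ - pot(μ'-μ)) = (M'-M) V(M) - ∫ μ pot(μ'-μ)` (`BB_convex`, `mm_eq`, `V = pot μ x`). The `W` terms cancel (`bcs_symm`).
* `ell_small`: `½∫μ pot μ ≤ ½∫ρ M‖y-x‖⁻¹` (`psi_nonneg`), `∫ρBB(ψ) ≤ M pot ρ x`.
* `ell_eq`: from `ell_ineq` for `(M,M')` and `(M',M)`: `(M'-M)V(M) ≤ ell(M')-ell(M) ≤ (M'-M)V(M')`, and `V(x,·)` is continuous on `(0,∞)` (`contV`): `ell` has derivative `V` on `(0,∞)`;
  so `ell(1) - ell(δ) = ∫_δ^1 V ≤ ∫_0^1 V` (`V ≥ 0`, bounded by `pot ρ x`, `intervalIntegral.integral_eq_sub_of_hasDerivAt`) and `ell(δ) → 0`.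
  Only the inequality `ell 1 ≤ ∫_0^1 V` is needed. (`VV` is interval integrable on `[0,1]`: continuous on `(0,1]` and bounded.)
* `cost_le`: `ψ ≤ BB(ψ) + ε` (`BB_ge`), so `cost ≤ ell(1) + ε∫ρ`. (`∫ψρ`: `ψρ` is integrable.)
-/

open MeasureTheory Set

namespace Pool.Agent.H36.LN

variable {ρ : E3 → ℝ} {ε : ℝ} {β : ℝ → ℝ}

noncomputable def ell (ρ : E3 → ℝ) (β : ℝ → ℝ) (x : E3) (M : ℝ) : ℝ :=
  (1 / 2) * (∫ y, mu ρ β x M y * pot (mu ρ β x M) y) + ∫ y, ρ y * BB β (psi ρ β x M y)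

/-- `y ≠ x` almost everywhere -/
theorem L2b_ne (x : E3) : ∀ᵐ y : E3, y ≠ x := by
  rw [ae_iff]
  simp

/-- `‖y-x‖⁻¹ f y` is integrable -/
theorem L2b_k {f : E3 → ℝ} (hf : BCS f) (x : E3) : Integrable (fun y => ‖y - x‖⁻¹ * f y) := by
  have h := hf.int_kern 1 (by norm_num) x
  refine h.congr (Filter.Eventually.of_forall fun y => ?_)
  show ‖x - y‖⁻¹ ^ 1 * f y = ‖y - x‖⁻¹ * f y
  rw [pow_one, norm_sub_rev]

theorem L2b_pot (f : E3 → ℝ) (x : E3) : ∫ y, ‖y - x‖⁻¹ * f y = pot f x := by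
  unfold pot
  refine integral_congr_ae (Filter.Eventually.of_forall fun y => ?_)
  show ‖y - x‖⁻¹ * f y = ‖x - y‖⁻¹ * f y
  rw [norm_sub_rev]

theorem L2b_psi_meas (hρ : Wt ρ) (hβ : Beta ε β) (x : E3) {M : ℝ} (hM : 0 < M) :
    Measurable (psi ρ β x M) := by
  unfold psi
  exact (((measurable_id.sub_const x).norm.inv).const_mul M).sub
    (continuous_pot (mu_bcs hρ hβ x hM)).measurable

theorem L2b_BB_le (hρ : Wt ρ) (hβ : Beta ε β) (x : E3) {M : ℝ} (hM : 0 < M) (y : E3) :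
    ρ y * BB β (psi ρ β x M y) ≤ M * (‖y - x‖⁻¹ * ρ y) := by
  have h1 := BB_le hβ (psi ρ β x M y)
  have h2 := (pot_mu_mem hρ hβ x hM y).1
  have h3 : 0 ≤ M * ‖y - x‖⁻¹ := by positivity
  have h4 : BB β (psi ρ β x M y) ≤ M * ‖y - x‖⁻¹ := by
    refine h1.trans (max_le ?_ h3)
    unfold psi
    linarith
  calc ρ y * BB β (psi ρ β x M y) ≤ ρ y * (M * ‖y - x‖⁻¹) :=
        mul_le_mul_of_nonneg_left h4 (hρ.nonneg y)
    _ = _ := by ring

theorem ell_int (hρ : Wt ρ) (hβ : Beta ε β) (x : E3) {M : ℝ} (hM : 0 < M) :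
    Integrable (fun y => ρ y * BB β (psi ρ β x M y)) := by
  refine ((L2b_k hρ.bcs x).const_mul M).mono' ?_ (Filter.Eventually.of_forall fun y => ?_)
  · exact (hρ.bcs.meas.mul ((BB_cont hβ).measurable.comp (L2b_psi_meas hρ hβ x hM))).aestronglyMeasurable
  · rw [Real.norm_eq_abs, abs_of_nonneg (mul_nonneg (hρ.nonneg y) (BB_nonneg hβ _))]
    exact L2b_BB_le hρ hβ x hM y

theorem ell_ineq (hρ : Wt ρ) (hβ : Beta ε β) (x : E3) {M M' : ℝ} (hM : 0 < M) (hM' : 0 < M') :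
    ell ρ β x M + (M' - M) * VV ρ β x M ≤ ell ρ β x M' := by
  set m := mu ρ β x M with hm
  set m' := mu ρ β x M' with hm'
  have b := mu_bcs hρ hβ x hM
  have b' := mu_bcs hρ hβ x hM'
  have i11 := bcs_int b b
  have i12 := bcs_int b b'
  have i21 := bcs_int b' b
  have i22 := bcs_int b' b'
  have hV := L2b_k b x
  have hVe : ∫ y, ‖y - x‖⁻¹ * m y = VV ρ β x M := L2b_pot m x
  have hsym : ∫ z, m z * pot m' z = ∫ z, m' z * pot m z := bcs_symm b b'
  -- positive definiteness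
  have hA : 0 ≤ (∫ z, m' z * pot m' z) - (∫ z, m' z * pot m z) - (∫ z, m z * pot m' z) +
      ∫ z, m z * pot m z := by
    have h := bcs_nonneg (b'.sub b)
    have e : ∀ z, (m' z - m z) * pot (fun z => m' z - m z) z =
        (m' z * pot m' z - m' z * pot m z) - (m z * pot m' z - m z * pot m z) := by
      intro z
      rw [bcs_sub b' b]
      ring
    have h' : 0 ≤ ∫ z, (m' z - m z) * pot (fun z => m' z - m z) z := h
    simp only [e] at h'
    have j1 : Integrable (fun z => m' z * pot m' z - m' z * pot m z) := i22.sub i21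
    have j2 : Integrable (fun z => m z * pot m' z - m z * pot m z) := i12.sub i11
    rw [integral_sub j1 j2, integral_sub i22 i21, integral_sub i12 i11] at h'
    linarith
  -- convexity
  have hB : (∫ y, ρ y * BB β (psi ρ β x M y)) + ((M' - M) * VV ρ β x M -
      ((∫ z, m z * pot m' z) - ∫ z, m z * pot m z)) ≤ ∫ y, ρ y * BB β (psi ρ β x M' y) := by
    have k1 := ell_int hρ hβ x hM
    have k2 : Integrable (fun y => (M' - M) * (‖y - x‖⁻¹ * m y)) := hV.const_mul _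
    have k3 : Integrable (fun y => m y * pot m' y - m y * pot m y) := i12.sub i11
    have k4 : Integrable (fun y => (M' - M) * (‖y - x‖⁻¹ * m y) -
        (m y * pot m' y - m y * pot m y)) := k2.sub k3
    have e : (∫ y, ρ y * BB β (psi ρ β x M y)) + ((M' - M) * VV ρ β x M -
      ((∫ z, m z * pot m' z) - ∫ z, m z * pot m z)) =
      ∫ y, (ρ y * BB β (psi ρ β x M y) + ((M' - M) * (‖y - x‖⁻¹ * m y) -
        (m y * pot m' y - m y * pot m y))) := by
      rw [integral_add k1 k4, integral_sub k2 k3, integral_sub i12 i11, integral_const_mul, hVe]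
    rw [e]
    refine integral_mono_ae (k1.add k4) (ell_int hρ hβ x hM') ?_
    filter_upwards [L2b_ne x] with y hy
    have h1 := BB_convex hβ (psi ρ β x M y) (psi ρ β x M' y)
    have h2 := mul_le_mul_of_nonneg_left h1 (hρ.nonneg y)
    have h3 : m y = ρ y * β (psi ρ β x M y) := by
      show ρ y * mm ρ β x M y = _
      rw [mm_eq hρ hβ x hM hy]
    have h4 : psi ρ β x M' y - psi ρ β x M y = (M' - M) * ‖y - x‖⁻¹ - (pot m' y - pot m y) := by
      unfold psi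
      ring
    rw [h4] at h2
    show ρ y * BB β (psi ρ β x M y) + ((M' - M) * (‖y - x‖⁻¹ * m y) -
        (m y * pot m' y - m y * pot m y)) ≤ ρ y * BB β (psi ρ β x M' y)
    refine le_trans (le_of_eq ?_) h2
    rw [h3]
    ring
  unfold ell
  rw [← hm, ← hm']
  linarith

theorem ell_small (hρ : Wt ρ) (hβ : Beta ε β) (x : E3) {M : ℝ} (hM : 0 < M) :
    0 ≤ ell ρ β x M ∧ ell ρ β x M ≤ 3 / 2 * M * pot ρ x := by
  have b := mu_bcs hρ hβ x hM
  have h1 : 0 ≤ ∫ y, mu ρ β x M y * pot (mu ρ β x M) y := bcs_nonneg b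
  have h2 : 0 ≤ ∫ y, ρ y * BB β (psi ρ β x M y) :=
    integral_nonneg fun y => mul_nonneg (hρ.nonneg y) (BB_nonneg hβ _)
  have hk := (L2b_k hρ.bcs x).const_mul M
  have h3 : ∫ y, ρ y * BB β (psi ρ β x M y) ≤ M * pot ρ x := by
    rw [← L2b_pot ρ x, ← integral_const_mul]
    exact integral_mono (ell_int hρ hβ x hM) hk fun y => L2b_BB_le hρ hβ x hM y
  have h4 : ∫ y, mu ρ β x M y * pot (mu ρ β x M) y ≤ M * pot ρ x := by
    rw [← L2b_pot ρ x, ← integral_const_mul]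
    refine integral_mono_ae (bcs_int b b) hk ?_
    filter_upwards [L2b_ne x] with y hy
    have e1 := mu_mem hρ hβ x hM y
    have e2 := (pot_mu_mem hρ hβ x hM y).1
    have e3 := psi_nonneg hρ hβ x hM hy
    have e4 : pot (mu ρ β x M) y ≤ M * ‖y - x‖⁻¹ := by
      unfold psi at e3
      linarith
    calc mu ρ β x M y * pot (mu ρ β x M) y ≤ ρ y * (M * ‖y - x‖⁻¹) :=
          mul_le_mul e1.2 e4 e2 (hρ.nonneg y)
      _ = M * (‖y - x‖⁻¹ * ρ y) := by ring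
  unfold ell
  constructor
  · linarith
  · linarith

theorem L2b_V (hρ : Wt ρ) (hβ : Beta ε β) (x : E3) {M : ℝ} (hM : 0 < M) :
    0 ≤ VV ρ β x M ∧ VV ρ β x M ≤ pot ρ x := pot_mu_mem hρ hβ x hM x

theorem L2b_cont0 {F : E3 → ℝ → ℝ} (h : ContinuousOn (fun p : E3 × ℝ => F p.1 p.2) {p | 0 < p.2})
    (x : E3) : ContinuousOn (F x) (Ioi 0) := by
  have h2 : ContinuousOn (fun M : ℝ => (x, M)) (Ioi 0) :=
    (continuous_const.prodMk continuous_id).continuousOn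
  have h3 : MapsTo (fun M : ℝ => (x, M)) (Ioi 0) {p : E3 × ℝ | 0 < p.2} := by
    intro M hM
    show (0 : ℝ) < M
    exact hM
  exact h.comp h2 h3

theorem L2b_cont (hρ : Wt ρ) (hβ : Beta ε β) (x : E3) : ContinuousOn (VV ρ β x) (Ioi 0) :=
  L2b_cont0 (contV hρ hβ) x

theorem VV_int (hρ : Wt ρ) (hβ : Beta ε β) (x : E3) :
    IntervalIntegrable (VV ρ β x) volume 0 1 := by
  rw [intervalIntegrable_iff_integrableOn_Ioc_of_le zero_le_one]
  refine Integrable.of_bound ?_ (pot ρ x) ?_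
  · exact ((L2b_cont hρ hβ x).mono fun M hM => hM.1).aestronglyMeasurable measurableSet_Ioc
  · refine (ae_restrict_iff' measurableSet_Ioc).2 (Filter.Eventually.of_forall fun M hM => ?_)
    have h := L2b_V hρ hβ x hM.1
    rw [Real.norm_eq_abs, abs_of_nonneg h.1]
    exact h.2

theorem L2b_deriv (hρ : Wt ρ) (hβ : Beta ε β) (x : E3) {M : ℝ} (hM : 0 < M) :
    HasDerivAt (ell ρ β x) (VV ρ β x M) M := by
  rw [hasDerivAt_iff_isLittleO, Asymptotics.isLittleO_iff]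
  intro c hc
  have hcont : ContinuousAt (VV ρ β x) M := (L2b_cont hρ hβ x).continuousAt (Ioi_mem_nhds hM)
  have h1 : ∀ᶠ M' in nhds M, |VV ρ β x M' - VV ρ β x M| < c := by
    have := Metric.tendsto_nhds.1 hcont c hc
    simpa [Real.dist_eq] using this
  filter_upwards [h1, Ioi_mem_nhds hM] with M' h2 h3
  have hM' : 0 < M' := h3
  have a1 := ell_ineq hρ hβ x hM hM'
  have a2 := ell_ineq hρ hβ x hM' hM
  rw [Real.norm_eq_abs, Real.norm_eq_abs, smul_eq_mul]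
  have b1 : 0 ≤ ell ρ β x M' - ell ρ β x M - (M' - M) * VV ρ β x M := by linarith
  have b2 : ell ρ β x M' - ell ρ β x M - (M' - M) * VV ρ β x M ≤
      (M' - M) * (VV ρ β x M' - VV ρ β x M) := by linarith
  rw [abs_of_nonneg b1]
  refine b2.trans ((le_abs_self _).trans ?_)
  rw [abs_mul, mul_comm]
  exact mul_le_mul_of_nonneg_right h2.le (abs_nonneg _)

theorem L2b_step (hρ : Wt ρ) (hβ : Beta ε β) (x : E3) {δ : ℝ} (hδ : 0 < δ) (hδ1 : δ ≤ 1) :
    ell ρ β x 1 ≤ ell ρ β x δ + ∫ M in (0 : ℝ)..1, VV ρ β x M := by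
  have hi := VV_int hρ hβ x
  have hi1 : IntervalIntegrable (VV ρ β x) volume 0 δ :=
    hi.mono_set (by rw [uIcc_of_le hδ.le, uIcc_of_le zero_le_one]; exact Icc_subset_Icc le_rfl hδ1)
  have hi2 : IntervalIntegrable (VV ρ β x) volume δ 1 :=
    hi.mono_set (by rw [uIcc_of_le hδ1, uIcc_of_le zero_le_one]; exact Icc_subset_Icc hδ.le le_rfl)
  have h1 : ∫ M in δ..1, VV ρ β x M = ell ρ β x 1 - ell ρ β x δ := by
    refine intervalIntegral.integral_eq_sub_of_hasDerivAt (fun M hM => ?_) hi2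
    rw [uIcc_of_le hδ1] at hM
    exact L2b_deriv hρ hβ x (hδ.trans_le hM.1)
  have h2 := intervalIntegral.integral_add_adjacent_intervals hi1 hi2
  have h3 : 0 ≤ ∫ M in (0 : ℝ)..δ, VV ρ β x M := by
    rw [intervalIntegral.integral_of_le hδ.le]
    exact setIntegral_nonneg measurableSet_Ioc fun M hM => (L2b_V hρ hβ x hM.1).1
  linarith

theorem ell_le (hρ : Wt ρ) (hβ : Beta ε β) (x : E3) :
    ell ρ β x 1 ≤ ∫ M in (0 : ℝ)..1, VV ρ β x M := by
  by_contra hcon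
  push Not at hcon
  set I := ∫ M in (0 : ℝ)..1, VV ρ β x M with hI
  set K := pot ρ x with hK
  have hK0 : 0 ≤ K := pot_nonneg hρ.nonneg x
  set g := ell ρ β x 1 - I with hg
  have hg0 : 0 < g := by linarith
  have hK1 : 0 < K + 1 := by linarith
  set δ := min 1 (g / (2 * (K + 1))) with hδ
  have hδ0 : 0 < δ := lt_min one_pos (by positivity)
  have h1 := L2b_step hρ hβ x hδ0 (min_le_left _ _)
  have h2 := (ell_small hρ hβ x hδ0).2
  have h3 : δ ≤ g / (2 * (K + 1)) := min_le_right _ _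
  have h4 : δ * (K + 1) ≤ g / 2 := by
    calc δ * (K + 1) ≤ g / (2 * (K + 1)) * (K + 1) := mul_le_mul_of_nonneg_right h3 hK1.le
      _ = g / 2 := by field_simp
  have h5 : 3 / 2 * δ * pot ρ x ≤ 3 / 2 * (δ * (K + 1)) := by
    rw [← hK]
    nlinarith
  linarith

theorem psi_int (hρ : Wt ρ) (hβ : Beta ε β) (x : E3) {M : ℝ} (hM : 0 < M) :
    Integrable (fun y => psi ρ β x M y * ρ y) := by
  have h1 := (L2b_k hρ.bcs x).const_mul M
  have h2 := bcs_int hρ.bcs (mu_bcs hρ hβ x hM)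
  refine (h1.sub h2).congr (Filter.Eventually.of_forall fun y => ?_)
  show M * (‖y - x‖⁻¹ * ρ y) - ρ y * pot (mu ρ β x M) y = psi ρ β x M y * ρ y
  unfold psi
  ring

theorem cost_le (hρ : Wt ρ) (hβ : Beta ε β) (x : E3) :
    cost ρ β x ≤ (∫ M in (0 : ℝ)..1, VV ρ β x M) + ε * ∫ y, ρ y := by
  have h1 := ell_le hρ hβ x
  have k1 := ell_int hρ hβ x one_pos
  have k2 : Integrable (fun y => ε * ρ y) := hρ.bcs.int.const_mul ε
  have h2 : ∫ y, psi ρ β x 1 y * ρ y ≤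
      (∫ y, ρ y * BB β (psi ρ β x 1 y)) + ε * ∫ y, ρ y := by
    rw [← integral_const_mul, ← integral_add k1 k2]
    refine integral_mono (psi_int hρ hβ x one_pos) (k1.add k2) fun y => ?_
    show psi ρ β x 1 y * ρ y ≤ ρ y * BB β (psi ρ β x 1 y) + ε * ρ y
    have h3 := BB_ge hβ (psi ρ β x 1 y)
    have h4 := mul_le_mul_of_nonneg_left h3 (hρ.nonneg y)
    linarith
  unfold cost
  unfold ell at h1
  linarith

end Pool.Agent.H36.LN
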