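import Pool.Agent.H36.LN.L2

/-!
# LN-L3: properties of `cost`

`μ = mu ρ β x 1`, `ψ = psi ρ β x 1`.
* `cost_eq`: `∫ψρ = ∫‖y-x‖⁻¹ρ - ∫ρ pot μ = pot ρ x - ∫ρ pot μ`.
* `cost_nonneg`: `bcs_nonneg`, `psi_nonneg` (a.e.).
* `cost_bdd`: `cost_le` and `V ≤ pot ρ x ≤ S`.
* `cost_cont`: by `cost_eq` it suffices that `x ↦ ∫ρ pot μ_x` and `x ↦ ∫μ_x pot μ_x` are continuous (`pot ρ` is: `continuous_pot`): by `mu_lip` with `M = M' = 1` (`δ = A = 1`):
  `|μ_x - μ_{x'}| ≤ C‖x-x'‖ρ`, so both are Lipschitz (`|pot(μ_x) - pot(μ_{x'})| ≤ C‖x-x'‖ pot ρ ≤ C S‖x-x'‖`).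
* `int_cost`: integrate `cost_le` against `ρ` and use `main_ineq`. (`x ↦ ρ(x) ∫_0^1 V(x,M) dM` is integrable: it is measurable and bounded with compact support; measurability: `contV` gives
  joint measurability on `M > 0` (`ContinuousOn.aestronglyMeasurable`) and Fubini's `AEStronglyMeasurable.integral_prod_right'`.)
-/

open MeasureTheory Set

namespace Pool.Agent.H36.LN

variable {ρ : E3 → ℝ} {ε : ℝ} {β : ℝ → ℝ}

private theorem L3_psi_eq (hρ : Wt ρ) (hβ : Beta ε β) (x : E3) :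
    ∫ y, psi ρ β x 1 y * ρ y = pot ρ x - ∫ y, ρ y * pot (mu ρ β x 1) y := by
  have hm := mu_bcs hρ hβ x (M := 1) one_pos
  have h1 : Integrable (fun z => ‖x - z‖⁻¹ * ρ z) := by
    simpa only [pow_one] using hρ.bcs.int_kern 1 (by norm_num) x
  have h2 : pot ρ x = ∫ z, ‖x - z‖⁻¹ * ρ z := rfl
  rw [h2, ← integral_sub h1 (bcs_int hρ.bcs hm)]
  refine integral_congr_ae (Filter.Eventually.of_forall fun y => ?_)
  show psi ρ β x 1 y * ρ y = ‖x - y‖⁻¹ * ρ y - ρ y * pot (mu ρ β x 1) y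
  unfold psi
  rw [norm_sub_rev y x]
  ring

theorem cost_eq (hρ : Wt ρ) (hβ : Beta ε β) (x : E3) :
    2 * (pot ρ x - cost ρ β x) = 2 * (∫ y, ρ y * pot (mu ρ β x 1) y)
      - ∫ y, mu ρ β x 1 y * pot (mu ρ β x 1) y := by
  unfold cost
  rw [L3_psi_eq hρ hβ x]
  ring

private theorem L3_ne (x : E3) : ∀ᵐ y : E3, y ≠ x := by
  have h : (volume : Measure E3) {x} = 0 := measure_singleton x
  exact compl_mem_ae_iff.2 h

theorem cost_nonneg (hρ : Wt ρ) (hβ : Beta ε β) (x : E3) : 0 ≤ cost ρ β x := by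
  have hm := mu_bcs hρ hβ x (M := 1) one_pos
  have h1 := bcs_nonneg hm
  have h2 : 0 ≤ ∫ y, psi ρ β x 1 y * ρ y := by
    refine integral_nonneg_of_ae ?_
    filter_upwards [L3_ne x] with y hy
    exact mul_nonneg (psi_nonneg hρ hβ x one_pos hy) (hρ.nonneg y)
  unfold cost
  linarith

theorem cost_bdd (hρ : Wt ρ) (hβ : Beta ε β) {S : ℝ} (hS : ∀ y, pot ρ y ≤ S) (x : E3) :
    cost ρ β x ≤ S + ε * ∫ y, ρ y := by
  have h1 := cost_le hρ hβ x
  have h2 : (∫ M in (0 : ℝ)..1, VV ρ β x M) ≤ ∫ _ in (0 : ℝ)..1, S := by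
    refine intervalIntegral.integral_mono_on_of_le_Ioo zero_le_one (VV_int hρ hβ x)
      intervalIntegrable_const fun M hM => ?_
    exact (pot_mu_mem hρ hβ x hM.1 x).2.trans (hS x)
  rw [intervalIntegral.integral_const, sub_zero, one_smul] at h2
  linarith

private theorem L3_lip {F : E3 → ℝ} {K : ℝ} (hK : 0 ≤ K)
    (h : ∀ x x', |F x - F x'| ≤ K * ‖x - x'‖) : Continuous F :=
  (LipschitzWith.of_dist_le_mul (K := ⟨K, hK⟩) fun x y => by
    rw [Real.dist_eq, dist_eq_norm]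
    exact h x y).continuous

private theorem L3_int (hρ : Wt ρ) {d g : E3 → ℝ} {c : ℝ} (hc : 0 ≤ c)
    (hd : ∀ z, |d z| ≤ c * ρ z) (hg : ∀ z, 0 ≤ g z ∧ g z ≤ 2 * pot ρ z) :
    |∫ z, d z * g z| ≤ 2 * c * ∫ z, ρ z * pot ρ z := by
  rw [← integral_const_mul, ← Real.norm_eq_abs]
  refine norm_integral_le_of_norm_le ((bcs_int hρ.bcs hρ.bcs).const_mul _)
    (Filter.Eventually.of_forall fun z => ?_)
  rw [Real.norm_eq_abs, abs_mul, abs_of_nonneg (hg z).1]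
  calc |d z| * g z ≤ (c * ρ z) * (2 * pot ρ z) :=
        mul_le_mul (hd z) (hg z).2 (hg z).1 (mul_nonneg hc (hρ.nonneg z))
    _ = _ := by ring

theorem cost_cont (hρ : Wt ρ) (hβ : Beta ε β) : Continuous (cost ρ β) := by
  obtain ⟨C, hC, hl⟩ := mu_lip (A := 1) hρ hβ one_pos
  have hm := fun x => mu_bcs hρ hβ x (M := 1) one_pos
  have hp := fun x y => pot_mu_mem hρ hβ x (M := 1) one_pos y
  have hW : 0 ≤ ∫ z, ρ z * pot ρ z := bcs_nonneg hρ.bcs
  have hl' : ∀ x x' z, |mu ρ β x 1 z - mu ρ β x' 1 z| ≤ C * ‖x - x'‖ * ρ z := by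
    intro x x' z
    have h := hl x x' 1 1 le_rfl le_rfl le_rfl le_rfl z
    rwa [sub_self, abs_zero, zero_add] at h
  have hF : Continuous (fun x => ∫ y, ρ y * pot (mu ρ β x 1) y) := by
    refine L3_lip (K := 2 * C * ∫ z, ρ z * pot ρ z) (by positivity) fun x x' => ?_
    have e1 : (∫ y, ρ y * pot (mu ρ β x 1) y) - (∫ y, ρ y * pot (mu ρ β x' 1) y) =
        ∫ y, (mu ρ β x 1 y - mu ρ β x' 1 y) * pot ρ y := by
      rw [bcs_symm hρ.bcs (hm x), bcs_symm hρ.bcs (hm x'),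
        ← integral_sub (bcs_int (hm x) hρ.bcs) (bcs_int (hm x') hρ.bcs)]
      refine integral_congr_ae (Filter.Eventually.of_forall fun y => ?_)
      show mu ρ β x 1 y * pot ρ y - mu ρ β x' 1 y * pot ρ y = _
      ring
    rw [e1]
    have h0 := L3_int (d := fun y => mu ρ β x 1 y - mu ρ β x' 1 y) (g := pot ρ) hρ
      (by positivity : 0 ≤ C * ‖x - x'‖) (hl' x x')
      (fun z => ⟨pot_nonneg hρ.nonneg z, by linarith [pot_nonneg hρ.nonneg z]⟩)
    refine h0.trans (le_of_eq ?_)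
    ring
  have hG : Continuous (fun x => ∫ y, mu ρ β x 1 y * pot (mu ρ β x 1) y) := by
    refine L3_lip (K := 2 * C * ∫ z, ρ z * pot ρ z) (by positivity) fun x x' => ?_
    have e1 : (∫ y, mu ρ β x 1 y * pot (mu ρ β x 1) y) -
        (∫ y, mu ρ β x' 1 y * pot (mu ρ β x' 1) y) =
        ∫ y, (mu ρ β x 1 y - mu ρ β x' 1 y) * (pot (mu ρ β x 1) y + pot (mu ρ β x' 1) y) := by
      have i1 := bcs_int (hm x) (hm x)
      have i2 := bcs_int (hm x) (hm x')
      have i3 := bcs_int (hm x') (hm x)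
      have i4 := bcs_int (hm x') (hm x')
      have e2 : (fun y => (mu ρ β x 1 y - mu ρ β x' 1 y) *
          (pot (mu ρ β x 1) y + pot (mu ρ β x' 1) y)) = fun y =>
          (mu ρ β x 1 y * pot (mu ρ β x 1) y + mu ρ β x 1 y * pot (mu ρ β x' 1) y) -
          (mu ρ β x' 1 y * pot (mu ρ β x 1) y + mu ρ β x' 1 y * pot (mu ρ β x' 1) y) := by
        funext y
        ring
      have i5 : Integrable (fun y => mu ρ β x 1 y * pot (mu ρ β x 1) y +
          mu ρ β x 1 y * pot (mu ρ β x' 1) y) := i1.add i2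
      have i6 : Integrable (fun y => mu ρ β x' 1 y * pot (mu ρ β x 1) y +
          mu ρ β x' 1 y * pot (mu ρ β x' 1) y) := i3.add i4
      rw [e2, integral_sub i5 i6]
      have e3 : ∫ y, (mu ρ β x 1 y * pot (mu ρ β x 1) y + mu ρ β x 1 y * pot (mu ρ β x' 1) y) =
          (∫ y, mu ρ β x 1 y * pot (mu ρ β x 1) y) + ∫ y, mu ρ β x 1 y * pot (mu ρ β x' 1) y :=
        integral_add i1 i2
      have e4 : ∫ y, (mu ρ β x' 1 y * pot (mu ρ β x 1) y +
          mu ρ β x' 1 y * pot (mu ρ β x' 1) y) =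
          (∫ y, mu ρ β x' 1 y * pot (mu ρ β x 1) y) +
            ∫ y, mu ρ β x' 1 y * pot (mu ρ β x' 1) y := integral_add i3 i4
      rw [e3, e4, bcs_symm (hm x) (hm x')]
      ring
    rw [e1]
    have h0 := L3_int (d := fun y => mu ρ β x 1 y - mu ρ β x' 1 y)
      (g := fun y => pot (mu ρ β x 1) y + pot (mu ρ β x' 1) y) hρ
      (by positivity : 0 ≤ C * ‖x - x'‖) (hl' x x')
      (fun z => ⟨add_nonneg (hp x z).1 (hp x' z).1, by linarith [(hp x z).2, (hp x' z).2]⟩)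
    refine h0.trans (le_of_eq ?_)
    ring
  have e5 : cost ρ β = fun x => pot ρ x - (∫ y, ρ y * pot (mu ρ β x 1) y) +
      (1 / 2) * ∫ y, mu ρ β x 1 y * pot (mu ρ β x 1) y := by
    funext x
    unfold cost
    rw [L3_psi_eq hρ hβ x]
    ring
  rw [e5]
  exact ((continuous_pot hρ.bcs).sub hF).add (hG.const_mul _)

end Pool.Agent.H36.LN
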