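import Pool.Agent.H36.LN.L3
import Pool.Agent.H36.LN.D7

/-!
# LN-L4: the averaged cost

Integrate `cost_le` against `ρ` and use `main_ineq`. (`ρ cost` is integrable: `cost_cont`, compact support. `x ↦ ρ(x) ∫_0^1 V(x,M) dM` is integrable: bounded (`V ≤ pot ρ ≤ S`) with compact support, and measurable:
`contV` gives joint measurability on `M > 0` (`ContinuousOn.aestronglyMeasurable`), then `AEStronglyMeasurable.integral_prod_right'`.)
-/

open MeasureTheory Set

namespace Pool.Agent.H36.LN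

variable {ρ : E3 → ℝ} {ε : ℝ} {β : ℝ → ℝ}

theorem int_cost (hρ : Nice ρ) (hβ : Beta ε β) :
    ∫ x, ρ x * cost ρ β x ≤ 9 / 10 * kk * (∫ x, ρ x ^ (4 / 3 : ℝ)) + ε * (∫ x, ρ x) ^ 2 := by
  have hw := hρ.wt
  have hri : Integrable ρ := hρ.c2.continuous.integrable_of_hasCompactSupport hρ.cs
  have h1 : Integrable (fun x => ρ x * cost ρ β x) :=
    (hρ.c2.continuous.mul (cost_cont hw hβ)).integrable_of_hasCompactSupport
      (hρ.cs.mul_right)
  have h2 : Integrable (fun x => ρ x * ∫ M in (0 : ℝ)..1, VV ρ β x M) := by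
    refine (G3_prod (gdata hρ hβ)).integral_prod_left.congr
      (Filter.Eventually.of_forall fun x => ?_)
    show ∫ M in Ioc (0 : ℝ) 1, ρ x * VV ρ β x M = ρ x * ∫ M in (0 : ℝ)..1, VV ρ β x M
    rw [intervalIntegral.integral_of_le zero_le_one, MeasureTheory.integral_const_mul]
  have h3 : Integrable (fun x => ρ x * (ε * ∫ y, ρ y)) := hri.mul_const _
  calc ∫ x, ρ x * cost ρ β x
      ≤ ∫ x, (ρ x * (∫ M in (0 : ℝ)..1, VV ρ β x M) + ρ x * (ε * ∫ y, ρ y)) := by
        refine integral_mono h1 (h2.add h3) fun x => ?_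
        have h4 := mul_le_mul_of_nonneg_left (cost_le hw hβ x) (hρ.nonneg x)
        refine h4.trans (le_of_eq ?_)
        ring
    _ = (∫ x, ρ x * ∫ M in (0 : ℝ)..1, VV ρ β x M) + ∫ x, ρ x * (ε * ∫ y, ρ y) :=
        integral_add h2 h3
    _ = (∫ x, ρ x * ∫ M in (0 : ℝ)..1, VV ρ β x M) + ε * (∫ x, ρ x) ^ 2 := by
        rw [MeasureTheory.integral_mul_const]
        ring
    _ ≤ 9 / 10 * kk * (∫ x, ρ x ^ (4 / 3 : ℝ)) + ε * (∫ x, ρ x) ^ 2 := by
        have h5 := main_ineq hρ hβ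
        linarith

end Pool.Agent.H36.LN
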