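import Pool.Agent.H36.LN.L3

/-!
# LN-O1: Onsager's inequality for distinct points

`μ_i = mu ρ β (x i) 1`, `W(f,g) = ∫ f pot g`. For `i ≠ j`: `W(μ_j, μ_i) ≤ ∫ μ_j(y)‖y-x_i‖⁻¹ = pot μ_j (x_i) ≤ ‖x_i-x_j‖⁻¹` (`psi_nonneg` twice: `pot μ_i(y) ≤ ‖y-x_i‖⁻¹` for `y ≠ x_i`, a.e.;
`pot μ_j(x_i) ≤ ‖x_i-x_j‖⁻¹` as `x_i ≠ x_j`). With `μ = Σ_{i∈S} μ_i`: `0 ≤ W(μ-ρ, μ-ρ) = W(μ,μ) - 2W(ρ,μ) + W(ρ,ρ)` (`bcs_nonneg`), so
`Σ_{i≠j} ‖x_i-x_j‖⁻¹ ≥ Σ_{i≠j} W(μ_i,μ_j) = W(μ,μ) - Σ_i W(μ_i,μ_i) ≥ 2 Σ_i W(ρ,μ_i) - W(ρ,ρ) - Σ_i W(μ_i,μ_i) = Σ_i 2(pot ρ(x_i) - cost(x_i)) - W(ρ,ρ)` by `cost_eq`.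
-/

open MeasureTheory Set

namespace Pool.Agent.H36.LN

variable {ρ : E3 → ℝ} {ε : ℝ} {β : ℝ → ℝ}

theorem O1_zero : BCS (fun _ : E3 => (0 : ℝ)) :=
  ⟨measurable_const, ⟨0, fun _ => by simp⟩, ⟨0, fun _ _ => rfl⟩⟩

theorem O1_sum {ι : Type} [DecidableEq ι] (S : Finset ι) {m : ι → E3 → ℝ}
    (hm : ∀ i, BCS (m i)) : BCS (fun z => ∑ i ∈ S, m i z) ∧
      ∀ y, pot (fun z => ∑ i ∈ S, m i z) y = ∑ i ∈ S, pot (m i) y := by
  induction S using Finset.induction_on with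
  | empty =>
    refine ⟨by simpa using O1_zero, fun y => ?_⟩
    simp [pot]
  | insert i S hi ih =>
    obtain ⟨h1, h2⟩ := ih
    have e : (fun z => ∑ k ∈ insert i S, m k z) = fun z => m i z + ∑ k ∈ S, m k z := by
      funext z
      rw [Finset.sum_insert hi]
    rw [e]
    refine ⟨(hm i).add h1, fun y => ?_⟩
    rw [bcs_add (hm i) h1, h2, Finset.sum_insert hi]

theorem O1_right {ι : Type} [DecidableEq ι] (S : Finset ι) {m : ι → E3 → ℝ}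
    (hm : ∀ i, BCS (m i)) {f : E3 → ℝ} (hf : BCS f) :
    ∫ y, f y * pot (fun z => ∑ i ∈ S, m i z) y = ∑ i ∈ S, ∫ y, f y * pot (m i) y := by
  rw [← integral_finsetSum S fun i _ => bcs_int hf (hm i)]
  refine integral_congr_ae (Filter.Eventually.of_forall fun y => ?_)
  show f y * pot (fun z => ∑ i ∈ S, m i z) y = ∑ i ∈ S, f y * pot (m i) y
  rw [(O1_sum S hm).2, Finset.mul_sum]

theorem O1_left {ι : Type} [DecidableEq ι] (S : Finset ι) {m : ι → E3 → ℝ}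
    (hm : ∀ i, BCS (m i)) {f : E3 → ℝ} (hf : BCS f) :
    ∫ y, (∑ i ∈ S, m i y) * pot f y = ∑ i ∈ S, ∫ y, m i y * pot f y := by
  rw [← integral_finsetSum S fun i _ => bcs_int (hm i) hf]
  refine integral_congr_ae (Filter.Eventually.of_forall fun y => ?_)
  show (∑ i ∈ S, m i y) * pot f y = ∑ i ∈ S, m i y * pot f y
  rw [Finset.sum_mul]

theorem O1_sq {μ ρ : E3 → ℝ} (hμ : BCS μ) (hρ : BCS ρ) :
    0 ≤ (∫ y, μ y * pot μ y) - 2 * (∫ y, ρ y * pot μ y) + ∫ y, ρ y * pot ρ y := by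
  have h := bcs_nonneg (hμ.sub hρ)
  have e : (fun y => (μ y - ρ y) * pot (fun z => μ z - ρ z) y)
      = fun y => (μ y * pot μ y - μ y * pot ρ y) - (ρ y * pot μ y - ρ y * pot ρ y) := by
    funext y
    rw [bcs_sub hμ hρ]
    ring
  have i1 : Integrable (fun y => μ y * pot μ y - μ y * pot ρ y) :=
    (bcs_int hμ hμ).sub (bcs_int hμ hρ)
  have i2 : Integrable (fun y => ρ y * pot μ y - ρ y * pot ρ y) :=
    (bcs_int hρ hμ).sub (bcs_int hρ hρ)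
  rw [e, integral_sub i1 i2, integral_sub (bcs_int hμ hμ) (bcs_int hμ hρ),
    integral_sub (bcs_int hρ hμ) (bcs_int hρ hρ), bcs_symm hμ hρ] at h
  linarith

theorem O1_cross (hρ : Wt ρ) (hβ : Beta ε β) {a b : E3} (hab : a ≠ b) :
    ∫ y, mu ρ β a 1 y * pot (mu ρ β b 1) y ≤ ‖a - b‖⁻¹ := by
  have ha := mu_bcs hρ hβ a one_pos
  have hb := mu_bcs hρ hβ b one_pos
  have h1 : ∫ y, mu ρ β a 1 y * pot (mu ρ β b 1) y ≤ pot (mu ρ β a 1) b := by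
    unfold pot
    refine integral_mono_ae (bcs_int ha hb) (P2b_k1 ha b) ?_
    have hne : ∀ᵐ y : E3, y ≠ b := by
      rw [ae_iff]
      have : {y : E3 | ¬ y ≠ b} = {b} := by
        ext y
        simp
      rw [this]
      exact measure_singleton b
    filter_upwards [hne] with y hy
    have h2 := psi_nonneg hρ hβ b one_pos hy
    have h3 : pot (mu ρ β b 1) y ≤ ‖b - y‖⁻¹ := by
      unfold psi at h2
      rw [one_mul, norm_sub_rev] at h2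
      linarith
    have h4 := (mu_mem hρ hβ a one_pos y).1
    show mu ρ β a 1 y * pot (mu ρ β b 1) y ≤ ‖b - y‖⁻¹ * mu ρ β a 1 y
    rw [mul_comm (‖b - y‖⁻¹)]
    exact mul_le_mul_of_nonneg_left h3 h4
  have h5 := psi_nonneg hρ hβ a one_pos hab.symm
  unfold psi at h5
  rw [one_mul, norm_sub_rev] at h5
  linarith

theorem onsager (hρ : Wt ρ) (hβ : Beta ε β) {ι : Type} [DecidableEq ι] (S : Finset ι) (x : ι → E3)
    (hinj : ∀ i ∈ S, ∀ j ∈ S, i ≠ j → x i ≠ x j) :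
    (∑ i ∈ S, 2 * (pot ρ (x i) - cost ρ β (x i))) - (∫ y, ρ y * pot ρ y)
      ≤ ∑ i ∈ S, ∑ j ∈ S.erase i, ‖x i - x j‖⁻¹ := by
  have hm : ∀ i, BCS (mu ρ β (x i) 1) := fun i => mu_bcs hρ hβ (x i) one_pos
  have hμ := (O1_sum S hm).1
  have h1 := O1_sq hμ hρ.bcs
  have h2 : ∫ y, (∑ i ∈ S, mu ρ β (x i) 1 y) * pot (fun z => ∑ i ∈ S, mu ρ β (x i) 1 z) y
      = ∑ i ∈ S, ∑ j ∈ S, ∫ y, mu ρ β (x i) 1 y * pot (mu ρ β (x j) 1) y := by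
    rw [O1_left S hm hμ]
    exact Finset.sum_congr rfl fun i _ => O1_right S hm (hm i)
  have h3 := O1_right S hm hρ.bcs
  rw [h2, h3] at h1
  have h4 : ∀ i ∈ S, ∑ j ∈ S, ∫ y, mu ρ β (x i) 1 y * pot (mu ρ β (x j) 1) y
      ≤ (∫ y, mu ρ β (x i) 1 y * pot (mu ρ β (x i) 1) y)
        + ∑ j ∈ S.erase i, ‖x i - x j‖⁻¹ := by
    intro i hi
    rw [← Finset.add_sum_erase S _ hi]
    refine add_le_add le_rfl (Finset.sum_le_sum fun j hj => ?_)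
    obtain ⟨h5, h6⟩ := Finset.mem_erase.1 hj
    exact O1_cross hρ hβ (hinj i hi j h6 h5.symm)
  have h5 := Finset.sum_le_sum h4
  rw [Finset.sum_add_distrib] at h5
  have h6 : ∑ i ∈ S, 2 * (pot ρ (x i) - cost ρ β (x i))
      = 2 * (∑ i ∈ S, ∫ y, ρ y * pot (mu ρ β (x i) 1) y)
        - ∑ i ∈ S, ∫ y, mu ρ β (x i) 1 y * pot (mu ρ β (x i) 1) y := by
    rw [Finset.mul_sum, ← Finset.sum_sub_distrib]
    exact Finset.sum_congr rfl fun i _ => cost_eq hρ hβ (x i)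
  rw [h6]
  linarith

end Pool.Agent.H36.LN
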