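import Pool.Agent.H36.LN.O1

/-!
# LN-O2: taking the expectation

`h = E.indicator (2(pot ρ - cost ρ β))` is bounded (`pot_sup`, `cost_bdd`, `cost_nonneg`, `pot_nonneg`) and measurable (`continuous_pot`, `cost_cont`). For each `ω`, with `S = {i | X i ω ∈ E}`:
`ofReal (Σ_i h(X i ω) - W(ρ,ρ)) ≤ Σ_i Σ_{j≠i} (ofReal ‖X_i - X_j‖)⁻¹`: if two points with indices in `S` coincide the right side is `∞` (`(ofReal 0)⁻¹ = ⊤`); otherwise `onsager` (and the right sum over all
pairs is at least the one over pairs in `S`; `ENNReal.ofReal_inv_of_pos`).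
`∫_Ω Σ_i h(X_i) dP = ∫ ρ' h`: `hd` for the positive and the negative part of `h` (finite: `h` is bounded, vanishes outside `E`, `ρ' ≤ B` on `E` and `E` is bounded),
`integral_eq_lintegral_pos_part_sub_lintegral_neg_part`. Then `ofReal (∫ F dP) ≤ ∫⁻ ofReal F dP` for integrable `F`.
-/

open MeasureTheory Set
open scoped ENNReal

namespace Pool.Agent.H36.LN

variable {ρ : E3 → ℝ} {ε : ℝ} {β : ℝ → ℝ}

/-- `ofReal (∫ f) ≤ ∫⁻ ofReal f` -/
private theorem ofReal_int_le {α : Type*} [MeasurableSpace α] {P : Measure α} {f : α → ℝ}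
    (hf : Integrable f P) : ENNReal.ofReal (∫ a, f a ∂P) ≤ ∫⁻ a, ENNReal.ofReal (f a) ∂P := by
  rw [integral_eq_lintegral_pos_part_sub_lintegral_neg_part hf]
  refine le_trans (ENNReal.ofReal_le_ofReal (sub_le_self _ ENNReal.toReal_nonneg)) ?_
  exact ENNReal.ofReal_toReal_le

private theorem ofReal_inv_le (x : ℝ) : ENNReal.ofReal (x⁻¹) ≤ (ENNReal.ofReal x)⁻¹ := by
  rcases lt_trichotomy x 0 with h | h | h
  · rw [ENNReal.ofReal_of_nonpos (inv_nonpos.2 h.le)]
    exact zero_le
  · subst h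
    simp
  · rw [ENNReal.ofReal_inv_of_pos h]

open Classical in
/-- the pointwise inequality -/
private theorem pointwise (hρ : Wt ρ) (hβ : Beta ε β) {N : ℕ} (y : Fin N → E3) (E : Set E3) :
    ENNReal.ofReal ((∑ i, E.indicator (fun x => 2 * (pot ρ x - cost ρ β x)) (y i))
        - ∫ y, ρ y * pot ρ y)
      ≤ ∑ i, ∑ j ∈ Finset.univ.erase i, (ENNReal.ofReal ‖y i - y j‖)⁻¹ := by
  set S : Finset (Fin N) := Finset.univ.filter (fun i => y i ∈ E) with hS
  by_cases hinj : ∀ i ∈ S, ∀ j ∈ S, i ≠ j → y i ≠ y j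
  · have h1 : (∑ i, E.indicator (fun x => 2 * (pot ρ x - cost ρ β x)) (y i))
        = ∑ i ∈ S, 2 * (pot ρ (y i) - cost ρ β (y i)) := by
      rw [hS, Finset.sum_filter]
      refine Finset.sum_congr rfl fun i _ => ?_
      rw [indicator_apply]
    rw [h1]
    refine le_trans (ENNReal.ofReal_le_ofReal (onsager hρ hβ S y hinj)) ?_
    rw [ENNReal.ofReal_sum_of_nonneg (fun i _ => Finset.sum_nonneg fun j _ => by positivity)]
    refine le_trans (Finset.sum_le_sum (g := fun i =>
      ∑ j ∈ Finset.univ.erase i, (ENNReal.ofReal ‖y i - y j‖)⁻¹) fun i _ => ?_) ?_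
    · rw [ENNReal.ofReal_sum_of_nonneg (fun j _ => by positivity)]
      refine le_trans (Finset.sum_le_sum fun j _ => ofReal_inv_le _) ?_
      refine Finset.sum_le_sum_of_subset fun j hj => ?_
      rw [Finset.mem_erase] at hj ⊢
      exact ⟨hj.1, Finset.mem_univ _⟩
    · exact Finset.sum_le_sum_of_subset (Finset.subset_univ _)
  · push Not at hinj
    obtain ⟨i, _, j, _, hij, he⟩ := hinj
    have h1 : (ENNReal.ofReal ‖y i - y j‖)⁻¹ = ⊤ := by
      rw [he]
      simp
    have h2 : (⊤ : ℝ≥0∞) ≤ ∑ i, ∑ j ∈ Finset.univ.erase i, (ENNReal.ofReal ‖y i - y j‖)⁻¹ := by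
      rw [← h1]
      refine le_trans ?_ (Finset.single_le_sum (f := fun i =>
        ∑ j ∈ Finset.univ.erase i, (ENNReal.ofReal ‖y i - y j‖)⁻¹) (fun _ _ => zero_le)
        (Finset.mem_univ i))
      exact Finset.single_le_sum (f := fun j => (ENNReal.ofReal ‖y i - y j‖)⁻¹)
        (fun _ _ => zero_le) (Finset.mem_erase.2 ⟨hij.symm, Finset.mem_univ j⟩)
    exact le_trans le_top h2

theorem expect (hρ : Wt ρ) (hβ : Beta ε β) {Ω : Type} [MeasurableSpace Ω] (P : Measure Ω)
    [IsProbabilityMeasure P] {N : ℕ} (X : Fin N → Ω → E3) (hX : ∀ i, Measurable (X i))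
    {ρ' : E3 → ℝ≥0∞} (hρ' : Measurable ρ')
    (hd : ∀ f : E3 → ℝ≥0∞, Measurable f → ∑ i, ∫⁻ ω, f (X i ω) ∂P = ∫⁻ x, f x * ρ' x)
    {E : Set E3} (hE : MeasurableSet E) {B R : ℝ} (hB : ∀ x ∈ E, ρ' x ≤ ENNReal.ofReal B)
    (hR : ∀ x ∈ E, ‖x‖ ≤ R) :
    ENNReal.ofReal ((∫ x, (E.indicator ρ' x).toReal * (2 * (pot ρ x - cost ρ β x)))
        - ∫ y, ρ y * pot ρ y)
      ≤ ∫⁻ ω, ∑ i, ∑ j ∈ Finset.univ.erase i, (ENNReal.ofReal ‖X i ω - X j ω‖)⁻¹ ∂P := by
  classical
  obtain ⟨S, hS0, hS⟩ := pot_sup hρ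
  -- the function `g` and its bounds
  set g : E3 → ℝ := fun x => 2 * (pot ρ x - cost ρ β x) with hg
  have hgc : Continuous g :=
    continuous_const.mul ((continuous_pot hρ.bcs).sub (cost_cont hρ hβ))
  set H : ℝ := 2 * S + 2 * (S + |ε * ∫ y, ρ y|) with hH
  have hH0 : 0 ≤ H := by positivity
  have hgb : ∀ x, |g x| ≤ H := by
    intro x
    have h1 := hS x
    have h2 := pot_nonneg (f := ρ) hρ.nonneg x
    have h3 := cost_nonneg hρ hβ x
    have h4 := cost_bdd hρ hβ hS x
    have h5 := le_abs_self (ε * ∫ y, ρ y)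
    have h6 := abs_nonneg (ε * ∫ y, ρ y)
    rw [abs_le]
    constructor <;> simp only [hg, hH] <;> linarith
  set h : E3 → ℝ := E.indicator g with hh
  have hhm : Measurable h := hgc.measurable.indicator hE
  have hhb : ∀ x, |h x| ≤ H := by
    intro x
    by_cases hx : x ∈ E
    · simp only [hh, indicator_of_mem hx]
      exact hgb x
    · simp only [hh, indicator_of_notMem hx]
      simpa using hH0
  -- the function `F`
  set F : E3 → ℝ := fun x => (E.indicator ρ' x).toReal * g x with hF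
  have hFm : Measurable F := ((hρ'.indicator hE).ennreal_toReal).mul hgc.measurable
  have hFi : Integrable F := by
    have hc : Integrable ((Metric.closedBall (0 : E3) R).indicator (fun _ => |B| * H)) := by
      rw [integrable_indicator_iff Metric.isClosed_closedBall.measurableSet]
      exact integrableOn_const (measure_closedBall_lt_top).ne
    refine Integrable.mono' hc hFm.aestronglyMeasurable (Filter.Eventually.of_forall fun x => ?_)
    by_cases hx : x ∈ E
    · rw [indicator_of_mem (by simpa using hR x hx)]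
      simp only [hF, indicator_of_mem hx]
      rw [norm_mul, Real.norm_eq_abs, Real.norm_eq_abs, abs_of_nonneg ENNReal.toReal_nonneg]
      refine mul_le_mul ?_ (hgb x) (abs_nonneg _) (abs_nonneg _)
      refine le_trans (ENNReal.toReal_mono ENNReal.ofReal_ne_top (hB x hx)) ?_
      rw [ENNReal.toReal_ofReal']
      exact max_le (le_abs_self _) (abs_nonneg _)
    · simp only [hF, indicator_of_notMem hx]
      simp only [ENNReal.toReal_zero, zero_mul, norm_zero]
      exact indicator_nonneg (fun _ _ => by positivity) x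
  have hfin : ∀ x ∈ E, ρ' x ≠ ⊤ := fun x hx => ne_top_of_le_ne_top ENNReal.ofReal_ne_top (hB x hx)
  have hpos : ∀ x, ENNReal.ofReal (F x) = ENNReal.ofReal (h x) * ρ' x := by
    intro x
    by_cases hx : x ∈ E
    · simp only [hF, hh, indicator_of_mem hx]
      rw [ENNReal.ofReal_mul ENNReal.toReal_nonneg, ENNReal.ofReal_toReal (hfin x hx), mul_comm]
    · simp only [hF, hh, indicator_of_notMem hx]
      simp
  have hneg : ∀ x, ENNReal.ofReal (-F x) = ENNReal.ofReal (-h x) * ρ' x := by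
    intro x
    by_cases hx : x ∈ E
    · simp only [hF, hh, indicator_of_mem hx]
      rw [← mul_neg, ENNReal.ofReal_mul ENNReal.toReal_nonneg, ENNReal.ofReal_toReal (hfin x hx),
        mul_comm]
    · simp only [hF, hh, indicator_of_notMem hx]
      simp
  -- integrability of `h (X i ω)`
  have hXi : ∀ i, Integrable (fun ω => h (X i ω)) P := by
    intro i
    refine Integrable.mono' (integrable_const H) (hhm.comp (hX i)).aestronglyMeasurable
      (Filter.Eventually.of_forall fun ω => ?_)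
    exact hhb _
  have hkey : ∫ x, F x = ∑ i, ∫ ω, h (X i ω) ∂P := by
    have e1 : ∀ i, ∫ ω, h (X i ω) ∂P = (∫⁻ ω, ENNReal.ofReal (h (X i ω)) ∂P).toReal
        - (∫⁻ ω, ENNReal.ofReal (-h (X i ω)) ∂P).toReal := fun i =>
      integral_eq_lintegral_pos_part_sub_lintegral_neg_part (hXi i)
    rw [Finset.sum_congr rfl fun i _ => e1 i, Finset.sum_sub_distrib,
      integral_eq_lintegral_pos_part_sub_lintegral_neg_part hFi]
    have e2 : ∀ i ∈ Finset.univ, ∫⁻ ω, ENNReal.ofReal (h (X i ω)) ∂P ≠ ⊤ := fun i _ =>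
      (hXi i).lintegral_lt_top.ne
    have e3 : ∀ i ∈ Finset.univ, ∫⁻ ω, ENNReal.ofReal (-h (X i ω)) ∂P ≠ ⊤ := fun i _ =>
      (hXi i).neg.lintegral_lt_top.ne
    rw [← ENNReal.toReal_sum e2, ← ENNReal.toReal_sum e3,
      hd (fun x => ENNReal.ofReal (h x)) hhm.ennreal_ofReal,
      hd (fun x => ENNReal.ofReal (-h x)) hhm.neg.ennreal_ofReal]
    congr 1
    · rw [lintegral_congr hpos]
    · rw [lintegral_congr hneg]
  have hint : ∫ ω, ((∑ i, h (X i ω)) - ∫ y, ρ y * pot ρ y) ∂P
      = (∫ x, F x) - ∫ y, ρ y * pot ρ y := by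
    rw [integral_sub (integrable_finsetSum _ fun i _ => hXi i) (integrable_const _),
      integral_finsetSum _ fun i _ => hXi i, hkey]
    simp
  rw [← hint]
  refine le_trans (ofReal_int_le ((integrable_finsetSum _ fun i _ => hXi i).sub
    (integrable_const _))) ?_
  refine lintegral_mono fun ω => ?_
  exact pointwise hρ hβ (fun i => X i ω) E

end Pool.Agent.H36.LN
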