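import Pool.Agent.H36.LN.D1

/-!
# LN-O3: approximation of bounded densities by nice ones

`ρ_k = f * φ_k` with normed bump functions `φ_k` (`ContDiffBump`, radii `→ 0`, `< 1`): smooth, values in `[0,B]`, support in the ball of radius `R+1`. `ρ_k → f` a.e.
(`ContDiffBump.ae_convolution_tendsto_right_of_locallyIntegrable`), dominated by `B 1_{ball(R+1)}`: both limits follow by dominated convergence.
-/

open MeasureTheory Set Filter Topology Convolution

namespace Pool.Agent.H36.LN

/-- the bump functions -/
private noncomputable def bmp (k : ℕ) : ContDiffBump (0 : E3) where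
  rIn := 1 / (2 * ((k : ℝ) + 2))
  rOut := 1 / ((k : ℝ) + 2)
  rIn_pos := by positivity
  rIn_lt_rOut := by
    apply one_div_lt_one_div_of_lt
    · positivity
    · have : (0 : ℝ) ≤ k := Nat.cast_nonneg k
      linarith

/-- the convolutions -/
private noncomputable def cv (f : E3 → ℝ) (k : ℕ) : E3 → ℝ :=
  (bmp k).normed volume ⋆[ContinuousLinearMap.lsmul ℝ ℝ, volume] f

private theorem cv_eq (f : E3 → ℝ) (k : ℕ) (x : E3) :
    cv f k x = ∫ t, (bmp k).normed volume t * f (x - t) := by
  simp [cv, convolution_def]

private theorem bmp_out (k : ℕ) : (bmp k).rOut < 1 := by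
  change 1 / ((k : ℝ) + 2) < 1
  rw [div_lt_one (by positivity)]
  have : (0 : ℝ) ≤ k := Nat.cast_nonneg k
  linarith

private theorem int_of_bdd {f : E3 → ℝ} {B R : ℝ} (hm : AEStronglyMeasurable f volume)
    (hB : ∀ x, |f x| ≤ B) (hR : ∀ x, R < ‖x‖ → f x = 0) : Integrable f := by
  have h1 : Integrable ((Metric.closedBall (0 : E3) R).indicator (fun _ => B)) :=
    (integrable_indicator_iff measurableSet_closedBall).2
      (integrableOn_const (isCompact_closedBall (0 : E3) R).measure_lt_top.ne)
  refine h1.mono' hm (Eventually.of_forall fun x => ?_)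
  by_cases hx : x ∈ Metric.closedBall (0 : E3) R
  · rw [indicator_of_mem hx]
    exact hB x
  · rw [indicator_of_notMem hx, hR x (by simpa using hx), norm_zero]

private theorem cv_int (f : E3 → ℝ) {B : ℝ} (hm : Measurable f) (h0 : ∀ x, 0 ≤ f x)
    (hB : ∀ x, f x ≤ B) (k : ℕ) (x : E3) :
    Integrable (fun t => (bmp k).normed volume t * f (x - t)) := by
  refine ((bmp k).integrable_normed (μ := volume)).mul_bdd (c := B)
    (hm.comp (measurable_const.sub measurable_id)).aestronglyMeasurable
    (Eventually.of_forall fun t => ?_)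
  rw [Real.norm_of_nonneg (h0 _)]
  exact hB _

theorem approx {f : E3 → ℝ} {B R : ℝ} (hm : Measurable f) (h0 : ∀ x, 0 ≤ f x) (hB : ∀ x, f x ≤ B)
    (hR : ∀ x, R < ‖x‖ → f x = 0) :
    ∃ ρ : ℕ → E3 → ℝ, (∀ k, Nice (ρ k) ∧ (∀ x, ρ k x ≤ B) ∧ (∀ x, R + 1 < ‖x‖ → ρ k x = 0)) ∧
      Tendsto (fun k => ∫ x, |ρ k x - f x|) atTop (𝓝 0) ∧
      Tendsto (fun k => ∫ x, ρ k x ^ (4 / 3 : ℝ)) atTop (𝓝 (∫ x, f x ^ (4 / 3 : ℝ))) := by
  have hB0 : 0 ≤ B := (h0 0).trans (hB 0)
  have hfi : Integrable f := int_of_bdd hm.aestronglyMeasurable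
    (fun x => by rw [abs_of_nonneg (h0 x)]; exact hB x) hR
  have hfs : HasCompactSupport f :=
    HasCompactSupport.intro (isCompact_closedBall (0 : E3) R) fun x hx => hR x (by simpa using hx)
  have hnn : ∀ k x, 0 ≤ cv f k x := by
    intro k x
    rw [cv_eq]
    exact integral_nonneg fun t => mul_nonneg ((bmp k).nonneg_normed t) (h0 _)
  have hle : ∀ k x, cv f k x ≤ B := by
    intro k x
    rw [cv_eq]
    calc ∫ t, (bmp k).normed volume t * f (x - t)
        ≤ ∫ t, (bmp k).normed volume t * B := by
          refine integral_mono (cv_int f hm h0 hB k x)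
            ((bmp k).integrable_normed.mul_const B) fun t => ?_
          exact mul_le_mul_of_nonneg_left (hB _) ((bmp k).nonneg_normed t)
      _ = B := by
          rw [integral_mul_const, (bmp k).integral_normed, one_mul]
  have hz : ∀ k x, R + 1 < ‖x‖ → cv f k x = 0 := by
    intro k x hx
    rw [cv_eq]
    refine integral_eq_zero_of_ae (Eventually.of_forall fun t => ?_)
    by_cases ht : (bmp k).normed volume t = 0
    · simp [ht]
    · have h1 : t ∈ Metric.ball (0 : E3) (bmp k).rOut := by
        rw [← (bmp k).support_normed_eq (μ := volume)]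
        exact ht
      have h2 : ‖t‖ < 1 := by
        rw [mem_ball_zero_iff] at h1
        exact h1.trans (bmp_out k)
      have h3 : f (x - t) = 0 := by
        apply hR
        have := norm_sub_norm_le x t
        linarith
      simp [h3]
  have hnice : ∀ k, Nice (cv f k) := by
    intro k
    refine ⟨?_, ?_, hnn k⟩
    · exact (bmp k).hasCompactSupport_normed.contDiff_convolution_left _
        ((bmp k).contDiff_normed (n := 2)) hfi.locallyIntegrable
    · exact (bmp k).hasCompactSupport_normed.convolution _ hfs
  have hlim : ∀ᵐ x, Tendsto (fun k => cv f k x) atTop (𝓝 (f x)) := by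
    refine ContDiffBump.ae_convolution_tendsto_right_of_locallyIntegrable (K := 2) ?_ ?_
      hfi.locallyIntegrable
    · change Tendsto (fun k : ℕ => 1 / ((k : ℝ) + 2)) atTop (𝓝 0)
      have h1 : Tendsto (fun k : ℕ => (k : ℝ) + 2) atTop atTop :=
        tendsto_atTop_add_const_right _ _ tendsto_natCast_atTop_atTop
      exact tendsto_const_nhds.div_atTop h1
    · refine Eventually.of_forall fun k => ?_
      change 1 / ((k : ℝ) + 2) ≤ 2 * (1 / (2 * ((k : ℝ) + 2)))
      apply le_of_eq
      have : (0 : ℝ) < (k : ℝ) + 2 := by positivity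
      field_simp
  have hmeas : ∀ k, AEStronglyMeasurable (cv f k) volume := fun k =>
    (hnice k).c2.continuous.aestronglyMeasurable
  have hbd : ∀ C : ℝ, Integrable ((Metric.closedBall (0 : E3) (R + 1)).indicator (fun _ => C)) :=
    fun C => (integrable_indicator_iff measurableSet_closedBall).2
      (integrableOn_const (isCompact_closedBall (0 : E3) (R + 1)).measure_lt_top.ne)
  refine ⟨cv f, fun k => ⟨hnice k, hle k, hz k⟩, ?_, ?_⟩
  · have h1 : Tendsto (fun k => ∫ x, |cv f k x - f x|) atTop (𝓝 (∫ _ : E3, (0 : ℝ))) := by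
      refine tendsto_integral_of_dominated_convergence
        ((Metric.closedBall (0 : E3) (R + 1)).indicator (fun _ => B)) ?_ (hbd B) ?_ ?_
      · intro k
        exact ((hmeas k).sub hm.aestronglyMeasurable).norm
      · intro k
        refine Eventually.of_forall fun x => ?_
        by_cases hx : x ∈ Metric.closedBall (0 : E3) (R + 1)
        · rw [indicator_of_mem hx, norm_abs_eq_norm, Real.norm_eq_abs, abs_le]
          constructor
          · linarith [hnn k x, hB x]
          · linarith [hle k x, h0 x]
        · have hx' : R + 1 < ‖x‖ := by simpa using hx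
          rw [indicator_of_notMem hx, hz k x hx', hR x (by linarith)]
          simp
      · filter_upwards [hlim] with x hx
        have h2 := (hx.sub_const (f x)).abs
        simpa using h2
    simpa using h1
  · refine tendsto_integral_of_dominated_convergence
      ((Metric.closedBall (0 : E3) (R + 1)).indicator (fun _ => B ^ (4 / 3 : ℝ))) ?_
      (hbd _) ?_ ?_
    · intro k
      exact ((hnice k).c2.continuous.rpow_const fun x => Or.inr (by norm_num)).aestronglyMeasurable
    · intro k
      refine Eventually.of_forall fun x => ?_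
      rw [Real.norm_of_nonneg (Real.rpow_nonneg (hnn k x) _)]
      by_cases hx : x ∈ Metric.closedBall (0 : E3) (R + 1)
      · rw [indicator_of_mem hx]
        exact Real.rpow_le_rpow (hnn k x) (hle k x) (by norm_num)
      · have hx' : R + 1 < ‖x‖ := by simpa using hx
        rw [indicator_of_notMem hx, hz k x hx', Real.zero_rpow (by norm_num)]
    · filter_upwards [hlim] with x hx
      exact hx.rpow_const (Or.inr (by norm_num))

end Pool.Agent.H36.LN
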