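import Pool.Agent.H36.LN.O3
import Pool.Agent.H36.LN.L4

/-!
# LN-O4: the limit of the lower bound

Take `ρ_k` from `approx`, `ε_k = 1/(k+1)`, `β_k` from `beta_exists`. With `g = f - ρ_k`:
`∫ f 2(pot ρ_k - cost_k) - ∫ρ_k pot ρ_k = W(f,f) - W(g,g) - 2∫ρ_k cost_k - 2∫ g cost_k` (`bcs_sub`, `bcs_symm`). Here `|W(g,g)| ≤ sup|pot g| ∫|g| ≤ C B ∫|g|` (`pot_bound` with radius `R+1`; `|g| ≤ B`),
`|∫g cost_k| ≤ (sup cost_k) ∫|g|`, `0 ≤ cost_k ≤ C B + ε_k ∫ρ_k ≤ C'` uniformly (`cost_bdd`, `pot_bound`), and `∫ρ_k cost_k ≤ (9/10)kk∫ρ_k^{4/3} + ε_k(∫ρ_k)²` (`int_cost`); `∫ρ_k ≤ B vol(ball(R+1))`.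
Everything tends to `W(f,f) - (9/5) kk ∫f^{4/3}`.
-/

open MeasureTheory Set Filter Topology

namespace Pool.Agent.H36.LN

/-- the inequality for one nice density -/
theorem O4_step {f : E3 → ℝ} (hf : BCS f) (h0 : ∀ x, 0 ≤ f x) {ρ : E3 → ℝ} (hρ : Nice ρ)
    {ε : ℝ} {β : ℝ → ℝ} (hβ : Beta ε β) (hε : ε ≤ 1) {S : ℝ} (hS : ∀ y, pot ρ y ≤ S)
    (hg : ∀ y, |pot (fun z => f z - ρ z) y| ≤ S) {δ : ℝ} (hδ : (∫ x, |ρ x - f x|) = δ) :
    (∫ x, f x * pot f x) - S * δ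
      - 2 * (9 / 10 * kk * (∫ x, ρ x ^ (4 / 3 : ℝ)) + ε * ((∫ x, f x) + δ) ^ 2)
      - 2 * (S + ((∫ x, f x) + δ)) * δ
      ≤ (∫ x, f x * (2 * (pot ρ x - cost ρ β x))) - ∫ y, ρ y * pot ρ y := by
  have hw := hρ.wt
  have hb := hw.bcs
  have hgb : BCS (fun z => f z - ρ z) := hf.sub hb
  have hS0 : 0 ≤ S := (abs_nonneg _).trans (hg 0)
  have hε0 := hβ.eps
  have hδ0 : 0 ≤ δ := by
    rw [← hδ]
    exact integral_nonneg fun x => abs_nonneg _
  have hgi : Integrable (fun x => |f x - ρ x|) := hgb.int.abs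
  have hδ' : (∫ x, |f x - ρ x|) = δ := by
    rw [← hδ]
    exact integral_congr_ae (Filter.Eventually.of_forall fun x => abs_sub_comm _ _)
  -- the total mass
  have hρ0 : 0 ≤ ∫ x, ρ x := integral_nonneg hw.nonneg
  have hmass : (∫ x, ρ x) ≤ (∫ x, f x) + δ := by
    rw [← hδ', ← integral_add hf.int hgi]
    refine integral_mono hb.int (hf.int.add hgi) fun x => ?_
    have h1 := neg_abs_le (f x - ρ x)
    show ρ x ≤ f x + |f x - ρ x|
    linarith
  -- the cost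
  set c : E3 → ℝ := cost ρ β with hc
  have hc0 : ∀ x, 0 ≤ c x := fun x => cost_nonneg hw hβ x
  have hc1 : ∀ x, c x ≤ S + ((∫ x, f x) + δ) := by
    intro x
    have h1 := cost_bdd hw hβ hS x
    have h2 : ε * (∫ y, ρ y) ≤ 1 * (∫ y, ρ y) := mul_le_mul_of_nonneg_right hε hρ0
    linarith
  have hcm : AEStronglyMeasurable c volume := (cost_cont hw hβ).aestronglyMeasurable
  have hcb : ∀ᵐ x : E3, ‖c x‖ ≤ S + ((∫ x, f x) + δ) := Filter.Eventually.of_forall fun x => by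
    rw [Real.norm_eq_abs, abs_of_nonneg (hc0 x)]
    exact hc1 x
  have i1 : Integrable (fun x => f x * c x) := hf.int.mul_bdd hcm hcb
  have i2 : Integrable (fun x => ρ x * c x) := hb.int.mul_bdd hcm hcb
  have i3 : Integrable (fun x => (f x - ρ x) * c x) := hgb.int.mul_bdd hcm hcb
  have j1 := bcs_int hf hb
  have j2 := bcs_int hf hf
  have j3 := bcs_int hb hf
  have j4 := bcs_int hb hb
  have e1 : (∫ x, f x * (2 * (pot ρ x - c x))) =
      2 * (∫ x, f x * pot ρ x) - 2 * (∫ x, f x * c x) := by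
    rw [← integral_const_mul, ← integral_const_mul, ← integral_sub (j1.const_mul 2)
      (i1.const_mul 2)]
    refine integral_congr_ae (Filter.Eventually.of_forall fun x => ?_)
    show f x * (2 * (pot ρ x - c x)) = 2 * (f x * pot ρ x) - 2 * (f x * c x)
    ring
  have e2 : (∫ x, (f x - ρ x) * pot (fun z => f z - ρ z) x) =
      (∫ x, f x * pot f x) - 2 * (∫ x, f x * pot ρ x) + ∫ x, ρ x * pot ρ x := by
    have h1 : (∫ x, (f x - ρ x) * pot (fun z => f z - ρ z) x) =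
        ∫ x, ((f x * pot f x - f x * pot ρ x) - (ρ x * pot f x - ρ x * pot ρ x)) := by
      refine integral_congr_ae (Filter.Eventually.of_forall fun x => ?_)
      show (f x - ρ x) * pot (fun z => f z - ρ z) x =
        (f x * pot f x - f x * pot ρ x) - (ρ x * pot f x - ρ x * pot ρ x)
      rw [bcs_sub hf hb]
      ring
    have k1 : Integrable (fun x => f x * pot f x - f x * pot ρ x) := j2.sub j1
    have k2 : Integrable (fun x => ρ x * pot f x - ρ x * pot ρ x) := j3.sub j4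
    rw [h1, integral_sub k1 k2, integral_sub j2 j1, integral_sub j3 j4, bcs_symm hb hf]
    ring
  have e3 : (∫ x, f x * c x) = (∫ x, ρ x * c x) + ∫ x, (f x - ρ x) * c x := by
    rw [← integral_add i2 i3]
    refine integral_congr_ae (Filter.Eventually.of_forall fun x => ?_)
    show f x * c x = ρ x * c x + (f x - ρ x) * c x
    ring
  have b1 : (∫ x, (f x - ρ x) * pot (fun z => f z - ρ z) x) ≤ S * δ := by
    rw [← hδ', ← integral_const_mul]
    refine integral_mono (bcs_int hgb hgb) (hgi.const_mul S) fun x => ?_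
    show (f x - ρ x) * pot (fun z => f z - ρ z) x ≤ S * |f x - ρ x|
    calc (f x - ρ x) * pot (fun z => f z - ρ z) x
        ≤ |(f x - ρ x) * pot (fun z => f z - ρ z) x| := le_abs_self _
      _ = |pot (fun z => f z - ρ z) x| * |f x - ρ x| := by rw [abs_mul, mul_comm]
      _ ≤ S * |f x - ρ x| := mul_le_mul_of_nonneg_right (hg x) (abs_nonneg _)
  have b2 : (∫ x, (f x - ρ x) * c x) ≤ (S + ((∫ x, f x) + δ)) * δ := by
    have h2 : (S + ((∫ x, f x) + δ)) * δ = ∫ x, (S + ((∫ x, f x) + δ)) * |f x - ρ x| := by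
      rw [integral_const_mul, hδ']
    rw [h2]
    refine integral_mono i3 (hgi.const_mul _) fun x => ?_
    show (f x - ρ x) * c x ≤ (S + ((∫ x, f x) + δ)) * |f x - ρ x|
    calc (f x - ρ x) * c x ≤ |f x - ρ x| * c x :=
          mul_le_mul_of_nonneg_right (le_abs_self _) (hc0 x)
      _ ≤ |f x - ρ x| * (S + ((∫ x, f x) + δ)) :=
          mul_le_mul_of_nonneg_left (hc1 x) (abs_nonneg _)
      _ = _ := mul_comm _ _
  have b3 := int_cost hρ hβ
  have b4 : ε * (∫ x, ρ x) ^ 2 ≤ ε * ((∫ x, f x) + δ) ^ 2 :=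
    mul_le_mul_of_nonneg_left (pow_le_pow_left₀ hρ0 hmass 2) hε0.le
  rw [e1, e3]
  linarith

theorem limit_ineq {f : E3 → ℝ} {B R : ℝ} (hm : Measurable f) (h0 : ∀ x, 0 ≤ f x)
    (hB : ∀ x, f x ≤ B) (hR : ∀ x, R < ‖x‖ → f x = 0) {η : ℝ} (hη : 0 < η) :
    ∃ (ρ : E3 → ℝ) (ε : ℝ) (β : ℝ → ℝ), Nice ρ ∧ Beta ε β ∧
      (∫ x, f x * pot f x) - 2 * (9 / 10 * kk) * (∫ x, f x ^ (4 / 3 : ℝ)) - η
        ≤ (∫ x, f x * (2 * (pot ρ x - cost ρ β x))) - ∫ y, ρ y * pot ρ y := by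
  have hB0 : 0 ≤ B := (h0 0).trans (hB 0)
  have hfb : ∀ x, |f x| ≤ B := fun x => by
    rw [abs_of_nonneg (h0 x)]
    exact hB x
  have hf : BCS f := ⟨hm, ⟨B, hfb⟩, ⟨R, hR⟩⟩
  obtain ⟨C, hC, hb⟩ := pot_bound (R + 1)
  obtain ⟨ρ, hρ, hd, ha⟩ := approx hm h0 hB hR
  have hpb : ∀ g : E3 → ℝ, Measurable g → (∀ x, |g x| ≤ B) → (∀ x, R + 1 < ‖x‖ → g x = 0) →
      ∀ y, |pot g y| ≤ C * B := by
    intro g hgm hgB hgR y
    refine (hb g B hgm hgB hgR y).1.trans ?_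
    have h1 : (1 + ‖y‖)⁻¹ ≤ 1 := inv_le_one_of_one_le₀ (by linarith [norm_nonneg y])
    calc C * B * (1 + ‖y‖)⁻¹ ≤ C * B * 1 := mul_le_mul_of_nonneg_left h1 (by positivity)
      _ = C * B := mul_one _
  have hS : ∀ k y, pot (ρ k) y ≤ C * B := fun k y =>
    (le_abs_self _).trans (hpb (ρ k) (hρ k).1.c2.continuous.measurable (fun x => by
      rw [abs_of_nonneg ((hρ k).1.nonneg x)]
      exact (hρ k).2.1 x) (hρ k).2.2 y)
  have hg : ∀ k y, |pot (fun z => f z - ρ k z) y| ≤ C * B := fun k y =>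
    hpb (fun z => f z - ρ k z) (hm.sub (hρ k).1.c2.continuous.measurable) (fun x => by
      show |f x - ρ k x| ≤ B
      rw [abs_le]
      have h1 := (hρ k).1.nonneg x
      have h2 := (hρ k).2.1 x
      have h3 := h0 x
      have h4 := hB x
      constructor <;> linarith) (fun x hx => by
      show f x - ρ k x = 0
      rw [hR x (by linarith), (hρ k).2.2 x hx, sub_zero]) y
  set δ : ℕ → ℝ := fun k => ∫ x, |ρ k x - f x| with hδ
  set a : ℕ → ℝ := fun k => ∫ x, ρ k x ^ (4 / 3 : ℝ) with hadef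
  set I : ℝ := ∫ x, f x with hI
  set W : ℝ := ∫ x, f x * pot f x with hW
  have he : Tendsto (fun k : ℕ => 1 / ((k : ℝ) + 1)) atTop (𝓝 0) :=
    tendsto_one_div_add_atTop_nhds_zero_nat
  have hlim : Tendsto (fun k => W - C * B * δ k
      - 2 * (9 / 10 * kk * a k + 1 / ((k : ℝ) + 1) * (I + δ k) ^ 2)
      - 2 * (C * B + (I + δ k)) * δ k) atTop
      (𝓝 (W - C * B * 0 - 2 * (9 / 10 * kk * (∫ x, f x ^ (4 / 3 : ℝ)) + 0 * (I + 0) ^ 2)
        - 2 * (C * B + (I + 0)) * 0)) := by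
    refine Tendsto.sub (Tendsto.sub (Tendsto.sub tendsto_const_nhds (hd.const_mul _)) ?_) ?_
    · exact ((ha.const_mul _).add (he.mul ((hd.const_add I).pow 2))).const_mul 2
    · exact (((hd.const_add I).const_add (C * B)).const_mul 2).mul hd
  have hlt : W - 2 * (9 / 10 * kk) * (∫ x, f x ^ (4 / 3 : ℝ)) - η <
      W - C * B * 0 - 2 * (9 / 10 * kk * (∫ x, f x ^ (4 / 3 : ℝ)) + 0 * (I + 0) ^ 2)
        - 2 * (C * B + (I + 0)) * 0 := by
    nlinarith
  obtain ⟨k, hk⟩ := (hlim.eventually (lt_mem_nhds hlt)).exists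
  have hek : (0 : ℝ) < 1 / ((k : ℝ) + 1) := by positivity
  have hek1 : 1 / ((k : ℝ) + 1) ≤ 1 := by
    rw [div_le_one (by positivity)]
    have : (0 : ℝ) ≤ k := Nat.cast_nonneg k
    linarith
  obtain ⟨β, hβ⟩ := beta_exists hek
  exact ⟨ρ k, 1 / ((k : ℝ) + 1), β, (hρ k).1, hβ, hk.le.trans
    (O4_step hf h0 (hρ k).1 hβ hek1 (hS k) (hg k) rfl)⟩

end Pool.Agent.H36.LN
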