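import Pool.Agent.H36.LN.O2
import Pool.Agent.H36.LN.O4
import Pool.Agent.H75.LO.FinG

/-!
# LN-O5: the inequality for point processes on bounded sets with bounded density, in `[0,∞]`; conclusion

* `bounded_ball`: `E` bounded. `f = fun x => (E.indicator ρ' x).toReal`, `0 ≤ f ≤ B` (`B` may be replaced by `max B 0`), `f = 0` outside the ball. `expect` and `limit_ineq` (all `η > 0`) give
  `ofReal (W(f,f) - 2K∫f^{4/3}) ≤ RHS`, `K = (9/10)kk`; and `∫⁻_E∫⁻_E ρ'ρ'(ofReal‖x-y‖)⁻¹ = ofReal W(f,f)`, `ofReal (∫ f^{4/3}) = ∫⁻_E ρ'^{4/3}` (`ofReal_integral_eq_lintegral_ofReal`; the diagonal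
  `x = y` is a null set; `ENNReal.ofReal_inv_of_pos`), then `ofReal a ≤ ofReal (a-b) + ofReal b`.
* `bounded_lo`: for general `E` apply this to `E ∩ closedBall 0 n` and let `n → ∞` (monotone convergence, exactly as in `process_gen` in `Pool/Agent/H75/LO/FinG.lean`).
-/

open MeasureTheory Set
open scoped ENNReal

namespace Pool.Agent.H36.LN

private theorem O5_ae_ne (x : E3) : ∀ᵐ y : E3, y ≠ x := by
  have h : {y : E3 | y ≠ x} = {x}ᶜ := rfl
  have h1 : ({x}ᶜ : Set E3) ∈ ae (volume : Measure E3) :=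
    compl_mem_ae_iff.2 (measure_singleton x)
  exact h1

private theorem O5_kk : 0 ≤ 2 * (9 / 10 * kk) := by
  unfold kk
  positivity

theorem bounded_ball {Ω : Type} [MeasurableSpace Ω] (P : Measure Ω) [IsProbabilityMeasure P] {N : ℕ}
    (X : Fin N → Ω → E3) (hX : ∀ i, Measurable (X i)) {ρ' : E3 → ℝ≥0∞} (hρ' : Measurable ρ')
    (hd : ∀ f : E3 → ℝ≥0∞, Measurable f → ∑ i, ∫⁻ ω, f (X i ω) ∂P = ∫⁻ x, f x * ρ' x)
    {E : Set E3} (hE : MeasurableSet E) {B R : ℝ} (hB : ∀ x ∈ E, ρ' x ≤ ENNReal.ofReal B)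
    (hR : ∀ x ∈ E, ‖x‖ ≤ R) :
    ∫⁻ x in E, ∫⁻ y in E, ρ' x * ρ' y * (ENNReal.ofReal ‖x - y‖)⁻¹
      ≤ ∫⁻ ω, ∑ i, ∑ j ∈ Finset.univ.erase i, (ENNReal.ofReal ‖X i ω - X j ω‖)⁻¹ ∂P
        + ENNReal.ofReal (2 * (9 / 10 * kk)) * ∫⁻ x in E, ρ' x ^ (4 / 3 : ℝ) := by
  obtain ⟨f, hf⟩ : ∃ f : E3 → ℝ, f = fun x => (E.indicator ρ' x).toReal := ⟨_, rfl⟩
  have hfx : ∀ x, f x = (E.indicator ρ' x).toReal := fun x => by rw [hf]
  have hfm : Measurable f := by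
    rw [hf]
    exact (hρ'.indicator hE).ennreal_toReal
  have hf0 : ∀ x, 0 ≤ f x := fun x => by
    rw [hfx]
    exact ENNReal.toReal_nonneg
  have hfin : ∀ x ∈ E, f x = (ρ' x).toReal := fun x hx => by
    rw [hfx, indicator_of_mem hx]
  have hfn : ∀ x, x ∉ E → f x = 0 := fun x hx => by
    rw [hfx, indicator_of_notMem hx, ENNReal.toReal_zero]
  have hfB : ∀ x, f x ≤ max B 0 := by
    intro x
    by_cases hx : x ∈ E
    · rw [hfin x hx]
      refine (ENNReal.toReal_mono ENNReal.ofReal_ne_top (hB x hx)).trans ?_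
      rw [ENNReal.toReal_ofReal']
    · rw [hfn x hx]
      exact le_max_right _ _
  have hfR : ∀ x, R < ‖x‖ → f x = 0 := fun x hx =>
    hfn x fun h => absurd (hR x h) (not_le.2 hx)
  have hfE : ∀ x ∈ E, ENNReal.ofReal (f x) = ρ' x := by
    intro x hx
    rw [hfin x hx, ENNReal.ofReal_toReal (ne_top_of_le_ne_top ENNReal.ofReal_ne_top (hB x hx))]
  have hbcs : BCS f :=
    ⟨hfm, ⟨max B 0, fun x => by rw [abs_of_nonneg (hf0 x)]; exact hfB x⟩, ⟨R, hfR⟩⟩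
  obtain ⟨I, hI⟩ : ∃ I : ℝ≥0∞, I =
      ∫⁻ ω, ∑ i, ∑ j ∈ Finset.univ.erase i, (ENNReal.ofReal ‖X i ω - X j ω‖)⁻¹ ∂P := ⟨_, rfl⟩
  rw [← hI]
  have key : ∀ η : ℝ, 0 < η → ENNReal.ofReal ((∫ x, f x * pot f x)
      - 2 * (9 / 10 * kk) * (∫ x, f x ^ (4 / 3 : ℝ)) - η) ≤ I := by
    intro η hη
    obtain ⟨ρ, ε, β, hρ, hβ, h⟩ := limit_ineq hfm hf0 hfB hfR hη
    have h2 := expect hρ.wt hβ P X hX hρ' hd hE hB hR
    rw [← hI] at h2
    refine (ENNReal.ofReal_le_ofReal h).trans ?_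
    have h3 : (fun x => f x * (2 * (pot ρ x - cost ρ β x))) =
        fun x => (E.indicator ρ' x).toReal * (2 * (pot ρ x - cost ρ β x)) := by
      funext x
      rw [hfx]
    rw [h3]
    exact h2
  have key2 : ENNReal.ofReal ((∫ x, f x * pot f x)
      - 2 * (9 / 10 * kk) * (∫ x, f x ^ (4 / 3 : ℝ))) ≤ I := by
    refine ENNReal.le_of_forall_pos_le_add fun η hη _ => ?_
    have h1 := key η (by exact_mod_cast hη)
    calc ENNReal.ofReal ((∫ x, f x * pot f x) - 2 * (9 / 10 * kk) * (∫ x, f x ^ (4 / 3 : ℝ)))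
        = ENNReal.ofReal (((∫ x, f x * pot f x)
            - 2 * (9 / 10 * kk) * (∫ x, f x ^ (4 / 3 : ℝ)) - η) + η) := by
          rw [sub_add_cancel]
      _ ≤ ENNReal.ofReal ((∫ x, f x * pot f x)
            - 2 * (9 / 10 * kk) * (∫ x, f x ^ (4 / 3 : ℝ)) - η) + ENNReal.ofReal η :=
          ENNReal.ofReal_add_le
      _ ≤ I + η := add_le_add h1 (by rw [ENNReal.ofReal_coe_nnreal])
  have hLHS : ∫⁻ x in E, ∫⁻ y in E, ρ' x * ρ' y * (ENNReal.ofReal ‖x - y‖)⁻¹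
      ≤ ENNReal.ofReal (∫ x, f x * pot f x) := by
    rw [ofReal_integral_eq_lintegral_ofReal (bcs_int hbcs hbcs)
      (ae_of_all _ fun x => mul_nonneg (hf0 x) (pot_nonneg hf0 x))]
    refine le_trans (setLIntegral_mono' hE (g := fun x => ENNReal.ofReal (f x * pot f x)) ?_)
      (setLIntegral_le_lintegral _ _)
    intro x hx
    rw [ENNReal.ofReal_mul (hf0 x), hfE x hx]
    have hm : Measurable fun y : E3 => ρ' y * (ENNReal.ofReal ‖x - y‖)⁻¹ :=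
      hρ'.mul ((measurable_const.sub measurable_id).norm.ennreal_ofReal.inv)
    have h1 : ∫⁻ y in E, ρ' x * ρ' y * (ENNReal.ofReal ‖x - y‖)⁻¹
        = ρ' x * ∫⁻ y in E, ρ' y * (ENNReal.ofReal ‖x - y‖)⁻¹ := by
      rw [← lintegral_const_mul _ hm]
      exact lintegral_congr fun y => mul_assoc _ _ _
    rw [h1]
    refine mul_le_mul' le_rfl ?_
    unfold pot
    rw [ofReal_integral_eq_lintegral_ofReal (P2b_k1 hbcs x)
      (ae_of_all _ fun z => mul_nonneg (inv_nonneg.2 (norm_nonneg _)) (hf0 z))]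
    refine le_trans (lintegral_mono_ae ?_) (setLIntegral_le_lintegral E _)
    filter_upwards [ae_restrict_mem hE, ae_restrict_of_ae (O5_ae_ne x)] with y hy hyx
    have h2 : 0 < ‖x - y‖ := norm_pos_iff.2 (sub_ne_zero.2 (Ne.symm hyx))
    rw [ENNReal.ofReal_mul (inv_nonneg.2 h2.le), hfE y hy, ENNReal.ofReal_inv_of_pos h2, mul_comm]
  have h43 : ENNReal.ofReal (∫ x, f x ^ (4 / 3 : ℝ)) ≤ ∫⁻ x in E, ρ' x ^ (4 / 3 : ℝ) := by
    have hint : Integrable (fun x => f x ^ (4 / 3 : ℝ)) := by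
      refine BCS.int ⟨hfm.pow_const _, ⟨(max B 0) ^ (4 / 3 : ℝ), fun x => ?_⟩, ⟨R, fun x hx => ?_⟩⟩
      · rw [abs_of_nonneg (Real.rpow_nonneg (hf0 x) _)]
        exact Real.rpow_le_rpow (hf0 x) (hfB x) (by norm_num)
      · rw [hfR x hx, Real.zero_rpow (by norm_num)]
    rw [ofReal_integral_eq_lintegral_ofReal hint
      (ae_of_all _ fun x => Real.rpow_nonneg (hf0 x) _), ← lintegral_indicator hE]
    refine lintegral_mono fun x => ?_
    by_cases hx : x ∈ E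
    · rw [indicator_of_mem hx, ← hfE x hx, ENNReal.ofReal_rpow_of_nonneg (hf0 x) (by norm_num)]
    · rw [indicator_of_notMem hx, hfn x hx, Real.zero_rpow (by norm_num), ENNReal.ofReal_zero]
  calc ∫⁻ x in E, ∫⁻ y in E, ρ' x * ρ' y * (ENNReal.ofReal ‖x - y‖)⁻¹
      ≤ ENNReal.ofReal (∫ x, f x * pot f x) := hLHS
    _ = ENNReal.ofReal (((∫ x, f x * pot f x) - 2 * (9 / 10 * kk) * (∫ x, f x ^ (4 / 3 : ℝ)))
          + 2 * (9 / 10 * kk) * (∫ x, f x ^ (4 / 3 : ℝ))) := by rw [sub_add_cancel]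
    _ ≤ ENNReal.ofReal ((∫ x, f x * pot f x) - 2 * (9 / 10 * kk) * (∫ x, f x ^ (4 / 3 : ℝ)))
          + ENNReal.ofReal (2 * (9 / 10 * kk) * (∫ x, f x ^ (4 / 3 : ℝ))) :=
        ENNReal.ofReal_add_le
    _ ≤ I + ENNReal.ofReal (2 * (9 / 10 * kk)) * ∫⁻ x in E, ρ' x ^ (4 / 3 : ℝ) := by
        refine add_le_add key2 ?_
        rw [ENNReal.ofReal_mul O5_kk]
        exact mul_le_mul' le_rfl h43

theorem bounded_lo : Pool.Agent.H75.LO.BoundedLO (2 * (9 / 10 * kk)) := by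
  intro Ω _ P _ N X hX ρ hρ hd E hE B hB _
  let F : ℕ → Set E3 := fun n => E ∩ Metric.closedBall 0 n
  have hF : ∀ n, MeasurableSet (F n) := fun n => hE.inter Metric.isClosed_closedBall.measurableSet
  have hmono : Monotone F := fun m n hmn =>
    inter_subset_inter_right _ (Metric.closedBall_subset_closedBall (by exact_mod_cast hmn))
  have hdir : Directed (· ⊆ ·) F := hmono.directed_le
  have hU : ⋃ n, F n = E := by
    ext x
    rw [mem_iUnion]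
    constructor
    · rintro ⟨n, hn⟩
      exact hn.1
    · intro hx
      obtain ⟨n, hn⟩ := exists_nat_ge ‖x‖
      exact ⟨n, hx, by rw [mem_closedBall_zero_iff]; exact hn⟩
  have hG : Measurable fun p : E3 × E3 => ρ p.1 * ρ p.2 * (ENNReal.ofReal ‖p.1 - p.2‖)⁻¹ :=
    ((hρ.comp measurable_fst).mul (hρ.comp measurable_snd)).mul
      ((measurable_fst.sub measurable_snd).norm.ennreal_ofReal.inv)
  have key : ∀ n m : ℕ, ∫⁻ x in F m, ∫⁻ y in F n, ρ x * ρ y * (ENNReal.ofReal ‖x - y‖)⁻¹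
      ≤ ∫⁻ ω, ∑ i, ∑ j ∈ Finset.univ.erase i, (ENNReal.ofReal ‖X i ω - X j ω‖)⁻¹ ∂P
        + ENNReal.ofReal (2 * (9 / 10 * kk)) * ∫⁻ x in E, ρ x ^ (4 / 3 : ℝ) := by
    intro n m
    have h1 : ∫⁻ x in F m, ∫⁻ y in F n, ρ x * ρ y * (ENNReal.ofReal ‖x - y‖)⁻¹
        ≤ ∫⁻ x in F (max n m), ∫⁻ y in F (max n m), ρ x * ρ y * (ENNReal.ofReal ‖x - y‖)⁻¹ :=
      lintegral_mono' (Measure.restrict_mono (hmono (le_max_right n m)) le_rfl)
        fun x => lintegral_mono' (Measure.restrict_mono (hmono (le_max_left n m)) le_rfl)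
          fun y => le_rfl
    have hle : ∫⁻ x in F (max n m), ρ x ^ (4 / 3 : ℝ) ≤ ∫⁻ x in E, ρ x ^ (4 / 3 : ℝ) :=
      lintegral_mono_set inter_subset_left
    have h2 := bounded_ball P X hX hρ hd (hF (max n m)) (B := B) (R := ((max n m : ℕ) : ℝ))
      (fun x hx => hB x hx.1) (fun x hx => mem_closedBall_zero_iff.1 hx.2)
    exact h1.trans (h2.trans (add_le_add le_rfl (mul_le_mul' le_rfl hle)))
  have h0 : ∫⁻ x in E, ∫⁻ y in E, ρ x * ρ y * (ENNReal.ofReal ‖x - y‖)⁻¹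
      = ∫⁻ x in ⋃ m, F m, ∫⁻ y in ⋃ n, F n, ρ x * ρ y * (ENNReal.ofReal ‖x - y‖)⁻¹ := by
    rw [hU]
  rw [h0]
  have h1 : ∀ x, ∫⁻ y in ⋃ n, F n, ρ x * ρ y * (ENNReal.ofReal ‖x - y‖)⁻¹
      = ⨆ n, ∫⁻ y in F n, ρ x * ρ y * (ENNReal.ofReal ‖x - y‖)⁻¹ := fun x =>
    setLIntegral_iUnion_of_directed _ hdir
  simp only [h1]
  rw [lintegral_iSup]
  · refine iSup_le fun n => ?_
    rw [setLIntegral_iUnion_of_directed _ hdir]
    exact iSup_le fun m => key n m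
  · intro n
    exact hG.lintegral_prod_right'
  · intro m n hmn x
    exact lintegral_mono' (Measure.restrict_mono (hmono hmn) le_rfl) fun y => le_rfl

end Pool.Agent.H36.LN
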