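import Pool.Agent.H36.LN.Defs

/-!
# LN-P1: integrability and bounds for the kernels `1`, `1/|y-z|`, `1/|y-z|²` on balls

Plan. For `k ≤ 2` the function `z ↦ ‖z‖⁻¹ ^ k` is integrable on every ball of `ℝ³` (polar coordinates:
`MeasureTheory.integrableOn_fun_norm_addHaar` / `integrable_fun_norm_addHaar`, `Module.finrank ℝ E3 = 3`; or
dyadic shells). Translate by `y`.
For `‖y‖ ≤ 2R+1`: `closedBall 0 R ⊆ closedBall y (3R+1)`, so the integral is at most the integral of `‖z‖⁻¹^k` over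
`closedBall 0 (3R+1)`, a constant, and `(1+‖y‖)⁻¹^k ≥ (2R+2)^{-2}`.
For `‖y‖ > 2R+1` and `‖z‖ ≤ R`: `‖y-z‖ ≥ ‖y‖-R ≥ (1+‖y‖)/4` (as `‖y‖ - R ≥ ‖y‖/2` and `1+‖y‖ ≤ 2‖y‖`), so the integrand is at most
`16 (1+‖y‖)⁻¹^k`. (`R` may be negative: then the ball is empty.)
`int_decay`: `integrable_one_add_norm` (exponent `4 > 3`), and `(1+‖x‖)⁻¹^k ≤ (1+‖x‖)⁻¹^4`.
-/

open MeasureTheory Set Metric

namespace Pool.Agent.H36.LN

theorem P1_fin : Module.finrank ℝ E3 = 3 := by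
  simp [E3]

theorem P1_ball (r : ℝ) (k : ℕ) (hk : k ≤ 2) :
    IntegrableOn (fun z : E3 => ‖z‖⁻¹ ^ k) (ball 0 r) := by
  have h := (integrableOn_fun_norm_addHaar (volume : Measure E3) (f := fun t : ℝ => t⁻¹ ^ k)
    (r := r)).2
  apply h
  rw [P1_fin]
  have h2 : IntegrableOn (fun y : ℝ => y ^ (2 - k)) (Ioo 0 r) :=
    ((continuous_pow (2 - k)).integrableOn_Icc (a := 0) (b := r)).mono_set Ioo_subset_Icc_self
  refine h2.congr_fun (fun y hy => ?_) measurableSet_Ioo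
  have hy0 : y ≠ 0 := hy.1.ne'
  show y ^ (2 - k) = y ^ (3 - 1) • y⁻¹ ^ k
  rw [smul_eq_mul, pow_sub₀ y hy0 hk, inv_pow]

/-- the kernel cut off to a ball -/
theorem P1_ind (r : ℝ) (k : ℕ) (hk : k ≤ 2) :
    Integrable ((ball (0 : E3) r).indicator (fun z : E3 => ‖z‖⁻¹ ^ k)) :=
  (integrable_indicator_iff measurableSet_ball).2 (P1_ball r k hk)

theorem kern_int (R : ℝ) (k : ℕ) (hk : k ≤ 2) (y : E3) :
    IntegrableOn (fun z : E3 => ‖y - z‖⁻¹ ^ k) (closedBall 0 R) := by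
  have h := ((P1_ind (‖y‖ + R + 1) k hk).comp_sub_left y).integrableOn (s := closedBall (0 : E3) R)
  refine h.congr_fun (fun z hz => ?_) measurableSet_closedBall
  have hz' : ‖z‖ ≤ R := by simpa using hz
  have : y - z ∈ ball (0 : E3) (‖y‖ + R + 1) := by
    rw [mem_ball_zero_iff]
    have := norm_sub_le y z
    linarith
  simp only [indicator_of_mem this]

theorem kern_bound (R : ℝ) : ∃ C : ℝ, 0 < C ∧ ∀ k : ℕ, k ≤ 2 → ∀ y : E3,
    ∫ z in closedBall (0 : E3) R, ‖y - z‖⁻¹ ^ k ≤ C * (1 + ‖y‖)⁻¹ ^ k := by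
  set g : ℕ → E3 → ℝ := fun k => (ball (0 : E3) (3 * |R| + 2)).indicator (fun z => ‖z‖⁻¹ ^ k)
    with hg
  set M : ℝ := ∑ k ∈ Finset.range 3, ∫ z, g k z with hM
  have hg0 : ∀ k z, 0 ≤ g k z := by
    intro k z
    simp only [hg]
    exact indicator_nonneg (fun z _ => by positivity) z
  have hI0 : ∀ k, 0 ≤ ∫ z, g k z := fun k => integral_nonneg (hg0 k)
  have hM0 : 0 ≤ M := Finset.sum_nonneg fun k _ => hI0 k
  have hMk : ∀ k, k ≤ 2 → ∫ z, g k z ≤ M := fun k hk =>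
    Finset.single_le_sum (f := fun k => ∫ z, g k z) (fun k _ => hI0 k)
      (Finset.mem_range.2 (by omega))
  set v : ℝ := (volume : Measure E3).real (closedBall (0 : E3) R) with hv
  have hv0 : 0 ≤ v := measureReal_nonneg
  have hRa : 0 ≤ |R| := abs_nonneg R
  refine ⟨M * (2 * |R| + 2) ^ 2 + 4 * v + 1, by positivity, fun k hk y => ?_⟩
  have hpos : 0 < (1 + ‖y‖)⁻¹ ^ k := by positivity
  have hRle : R ≤ |R| := le_abs_self R
  rcases le_or_gt ‖y‖ (2 * |R| + 1) with hy | hy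
  · have h1 : ∫ z in closedBall (0 : E3) R, ‖y - z‖⁻¹ ^ k ≤ ∫ z, g k z := by
      calc ∫ z in closedBall (0 : E3) R, ‖y - z‖⁻¹ ^ k
          = ∫ z in closedBall (0 : E3) R, g k (y - z) := by
            refine setIntegral_congr_fun measurableSet_closedBall fun z hz => ?_
            have hz' : ‖z‖ ≤ R := by simpa using hz
            have : y - z ∈ ball (0 : E3) (3 * |R| + 2) := by
              rw [mem_ball_zero_iff]
              have := norm_sub_le y z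
              linarith
            simp only [hg, indicator_of_mem this]
        _ ≤ ∫ z, g k (y - z) :=
            setIntegral_le_integral ((P1_ind _ k hk).comp_sub_left y)
              (Filter.Eventually.of_forall fun z => hg0 k _)
        _ = ∫ z, g k z := integral_sub_left_eq_self (g k) volume y
    have h2 : 1 ≤ (2 * |R| + 2) ^ 2 * (1 + ‖y‖)⁻¹ ^ k := by
      rw [inv_pow, ← div_eq_mul_inv, le_div_iff₀ (by positivity), one_mul]
      have h3 : (1 + ‖y‖) ^ k ≤ (2 * |R| + 2) ^ k :=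
        pow_le_pow_left₀ (by positivity) (by linarith) k
      have h4 : (2 * |R| + 2) ^ k ≤ (2 * |R| + 2) ^ 2 :=
        pow_le_pow_right₀ (by linarith) hk
      linarith
    calc ∫ z in closedBall (0 : E3) R, ‖y - z‖⁻¹ ^ k ≤ M := h1.trans (hMk k hk)
      _ = M * 1 := by ring
      _ ≤ M * ((2 * |R| + 2) ^ 2 * (1 + ‖y‖)⁻¹ ^ k) := mul_le_mul_of_nonneg_left h2 hM0
      _ ≤ (M * (2 * |R| + 2) ^ 2 + 4 * v + 1) * (1 + ‖y‖)⁻¹ ^ k := by
          have : 0 ≤ (4 * v + 1) * (1 + ‖y‖)⁻¹ ^ k := by positivity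
          linarith
  · have h1 : ∀ z ∈ closedBall (0 : E3) R, ‖y - z‖⁻¹ ^ k ≤ 4 * (1 + ‖y‖)⁻¹ ^ k := by
      intro z hz
      have hz' : ‖z‖ ≤ R := by simpa using hz
      have h2 : (1 + ‖y‖) / 2 ≤ ‖y - z‖ := by
        have := norm_sub_norm_le y z
        linarith
      have h3 : ‖y - z‖⁻¹ ≤ 2 * (1 + ‖y‖)⁻¹ := by
        rw [← div_eq_mul_inv, ← inv_div]
        exact inv_anti₀ (by positivity) h2
      calc ‖y - z‖⁻¹ ^ k ≤ (2 * (1 + ‖y‖)⁻¹) ^ k := pow_le_pow_left₀ (by positivity) h3 k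
        _ = 2 ^ k * (1 + ‖y‖)⁻¹ ^ k := mul_pow _ _ _
        _ ≤ 4 * (1 + ‖y‖)⁻¹ ^ k := by
            refine mul_le_mul_of_nonneg_right ?_ hpos.le
            calc (2 : ℝ) ^ k ≤ 2 ^ 2 := pow_le_pow_right₀ (by norm_num) hk
              _ = 4 := by norm_num
    have hfin : volume (closedBall (0 : E3) R) ≠ ⊤ := measure_closedBall_lt_top.ne
    have h4 : ∫ z in closedBall (0 : E3) R, ‖y - z‖⁻¹ ^ k ≤
        ∫ _ in closedBall (0 : E3) R, 4 * (1 + ‖y‖)⁻¹ ^ k :=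
      setIntegral_mono_on (kern_int R k hk y) (integrableOn_const hfin) measurableSet_closedBall h1
    rw [setIntegral_const, smul_eq_mul] at h4
    refine h4.trans ?_
    have h5 : 0 ≤ (M * (2 * |R| + 2) ^ 2 + 1) * (1 + ‖y‖)⁻¹ ^ k := by positivity
    calc v * (4 * (1 + ‖y‖)⁻¹ ^ k) ≤ v * (4 * (1 + ‖y‖)⁻¹ ^ k) +
          (M * (2 * |R| + 2) ^ 2 + 1) * (1 + ‖y‖)⁻¹ ^ k := by linarith
      _ = _ := by ring

/-- decay of powers -/
theorem int_decay (k : ℕ) (hk : 4 ≤ k) : Integrable (fun x : E3 => (1 + ‖x‖)⁻¹ ^ k) := by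
  have h := integrable_one_add_norm (E := E3) (μ := volume) (r := (k : ℝ)) (by
    rw [P1_fin]
    have : (4 : ℝ) ≤ k := by exact_mod_cast hk
    push_cast
    linarith)
  refine h.congr (Filter.Eventually.of_forall fun x => ?_)
  show (1 + ‖x‖) ^ (-(k : ℝ)) = (1 + ‖x‖)⁻¹ ^ k
  rw [Real.rpow_neg (by positivity), Real.rpow_natCast, inv_pow]

end Pool.Agent.H36.LN
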