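import Pool.Agent.H36.LN.P1

/-!
# LN-P1b: bounds for potentials

* `BCS.int_kern`, `BCS.int`, `BCS.int_kv`: domination by `B ‖y-z‖⁻¹^k` on a ball (`kern_int`), `‖kv y‖ = ‖y‖⁻¹^2`.
* `pot_bound`: `kern_bound`; `|pot f y| ≤ B ∫_{ball} ‖y-z‖⁻¹`, `‖gpot f y‖ ≤ B ∫_{ball} ‖y-z‖⁻¹^2` (note `0 ≤ B`).
* `gpot_apply`: `(f z • kv (x-z)) i = f z * s1 x i z`, and evaluation at `i` is a continuous linear map which commutes with the
  Bochner integral (`ContinuousLinearMap.integral_comp_comm`, `EuclideanSpace.proj i`).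
* `l2_pot`: `‖y-z‖⁻¹ |v q| ≤ ½ (v ‖y-z‖⁻¹^2 + v q²)` for integrability, and Cauchy-Schwarz (or the weighted version of this inequality) for the
  bound, the constant being `sqrt (sup_y ∫ v(z) ‖y-z‖⁻¹^2 dz)`, finite by `kern_bound` with `k = 2`.
-/

open MeasureTheory Set Metric

namespace Pool.Agent.H36.LN

/-- a weighted product of two square integrable functions is integrable -/
theorem wint {v a q : E3 → ℝ} (hv0 : ∀ z, 0 ≤ v z) (hv : Measurable v) (ham : Measurable a)
    (hqm : Measurable q) (ha : Integrable (fun z => v z * a z ^ 2))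
    (hq : Integrable (fun z => v z * q z ^ 2)) : Integrable (fun z => v z * (a z * q z)) := by
  refine Integrable.mono' (ha.add hq) (by fun_prop) (Filter.Eventually.of_forall fun z => ?_)
  rw [Real.norm_eq_abs, abs_mul, abs_of_nonneg (hv0 z), abs_mul, Pi.add_apply, ← mul_add]
  refine mul_le_mul_of_nonneg_left ?_ (hv0 z)
  nlinarith [sq_nonneg (|a z| - |q z|), sq_abs (a z), sq_abs (q z), sq_nonneg (|a z| + |q z|)]

/-- weighted Cauchy-Schwarz inequality -/
theorem wcs {v a q : E3 → ℝ} (hv0 : ∀ z, 0 ≤ v z) (ha : Integrable (fun z => v z * a z ^ 2))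
    (hq : Integrable (fun z => v z * q z ^ 2)) (haq : Integrable (fun z => v z * (a z * q z))) :
    |∫ z, v z * (a z * q z)| ≤
      Real.sqrt (∫ z, v z * a z ^ 2) * Real.sqrt (∫ z, v z * q z ^ 2) := by
  have key : ∀ t : ℝ, 0 ≤ (∫ z, v z * a z ^ 2) * (t * t) + (2 * ∫ z, v z * (a z * q z)) * t +
      ∫ z, v z * q z ^ 2 := by
    intro t
    have h1 : (∫ z, v z * a z ^ 2) * (t * t) + (2 * ∫ z, v z * (a z * q z)) * t +
        ∫ z, v z * q z ^ 2 = ∫ z, v z * (t * a z + q z) ^ 2 := by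
      have e : (fun z => v z * (t * a z + q z) ^ 2) = fun z =>
          ((t * t) * (v z * a z ^ 2) + (2 * t) * (v z * (a z * q z))) + v z * q z ^ 2 := by
        funext z
        ring
      have hA : Integrable (fun z => (t * t) * (v z * a z ^ 2) +
          (2 * t) * (v z * (a z * q z))) := (ha.const_mul _).add (haq.const_mul _)
      rw [e, integral_add hA hq, integral_add (ha.const_mul _) (haq.const_mul _),
        integral_const_mul, integral_const_mul]
      ring
    rw [h1]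
    exact integral_nonneg fun z => mul_nonneg (hv0 z) (sq_nonneg _)
  have h2 := discrim_le_zero key
  have h3 : 0 ≤ ∫ z, v z * a z ^ 2 := integral_nonneg fun z => mul_nonneg (hv0 z) (sq_nonneg _)
  rw [← Real.sqrt_mul h3]
  apply Real.abs_le_sqrt
  unfold discrim at h2
  nlinarith

/-- integrability of `‖y-z‖⁻¹^k f(z)` for bounded measurable `f` with bounded support -/
theorem BCS.int_kern {f : E3 → ℝ} (hf : BCS f) (k : ℕ) (hk : k ≤ 2) (y : E3) :
    Integrable (fun z => ‖y - z‖⁻¹ ^ k * f z) := by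
  obtain ⟨R, hR⟩ := hf.supp
  obtain ⟨C, hC⟩ := hf.bdd
  have hm := hf.meas
  have h0 : 0 ≤ C := (abs_nonneg _).trans (hC 0)
  have h1 := (kern_int R k hk y).integrable_indicator measurableSet_closedBall
  refine Integrable.mono' (h1.mul_const C) (by fun_prop) (Filter.Eventually.of_forall fun z => ?_)
  by_cases hz : ‖z‖ ≤ R
  · rw [Set.indicator_of_mem (by simpa using hz)]
    rw [Real.norm_eq_abs, abs_mul, abs_of_nonneg (by positivity)]
    exact mul_le_mul_of_nonneg_left (hC z) (by positivity)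
  · rw [hR z (not_le.1 hz), mul_zero, norm_zero]
    exact mul_nonneg (Set.indicator_nonneg (fun z _ => by positivity) z) h0

theorem BCS.int {f : E3 → ℝ} (hf : BCS f) : Integrable f := by
  simpa using hf.int_kern 0 (by norm_num) 0

theorem norm_kv (y : E3) : ‖kv y‖ = ‖y‖⁻¹ ^ 2 := by
  unfold kv
  rw [norm_smul, norm_neg, Real.norm_eq_abs, abs_of_nonneg (by positivity)]
  by_cases hy : ‖y‖ = 0
  · simp [hy]
  · field_simp

theorem measurable_kv : Measurable kv := by
  unfold kv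
  fun_prop

theorem BCS.int_kv {f : E3 → ℝ} (hf : BCS f) (y : E3) :
    Integrable (fun z => f z • kv (y - z)) := by
  have hm := hf.meas
  have hk := measurable_kv
  refine Integrable.mono (hf.int_kern 2 le_rfl y) (by fun_prop)
    (Filter.Eventually.of_forall fun z => ?_)
  rw [norm_smul, norm_kv, norm_mul, mul_comm, norm_pow, norm_inv, norm_norm]

/-- a norm bound for integrals of functions dominated by the kernel on a ball -/
theorem norm_int_le {G : Type*} [NormedAddCommGroup G] [NormedSpace ℝ G] {F : E3 → G} {R B : ℝ}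
    {k : ℕ} (hk : k ≤ 2) (y : E3) (hB : 0 ≤ B) (h1 : ∀ z, ‖F z‖ ≤ B * ‖y - z‖⁻¹ ^ k)
    (h2 : ∀ z, R < ‖z‖ → F z = 0) :
    ‖∫ z, F z‖ ≤ B * ∫ z in closedBall (0 : E3) R, ‖y - z‖⁻¹ ^ k := by
  have h3 := (kern_int R k hk y).integrable_indicator measurableSet_closedBall
  have h4 := norm_integral_le_of_norm_le (f := F) (h3.const_mul B)
    (Filter.Eventually.of_forall fun z => by
      by_cases hz : ‖z‖ ≤ R
      · rw [Set.indicator_of_mem (by simpa using hz)]
        exact h1 z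
      · rw [h2 z (not_le.1 hz), norm_zero]
        exact mul_nonneg hB (Set.indicator_nonneg (fun z _ => by positivity) z))
  rwa [integral_const_mul, integral_indicator measurableSet_closedBall] at h4

/-- uniform bounds: the constant depends only on the radius of the support -/
theorem pot_bound (R : ℝ) : ∃ C : ℝ, 0 < C ∧ ∀ (f : E3 → ℝ) (B : ℝ), Measurable f →
    (∀ x, |f x| ≤ B) → (∀ x, R < ‖x‖ → f x = 0) →
    ∀ y, |pot f y| ≤ C * B * (1 + ‖y‖)⁻¹ ∧ ‖gpot f y‖ ≤ C * B * (1 + ‖y‖)⁻¹ ^ 2 := by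
  obtain ⟨C, hC, hk⟩ := kern_bound R
  refine ⟨C, hC, fun f B _ hB hs y => ?_⟩
  have h0 : 0 ≤ B := (abs_nonneg _).trans (hB 0)
  constructor
  · have h1 := norm_int_le (F := fun z => ‖y - z‖⁻¹ * f z) (R := R) (B := B) (k := 1)
      (by norm_num) y h0 (fun z => by
        rw [norm_mul, mul_comm, pow_one, norm_inv, norm_norm]
        exact mul_le_mul_of_nonneg_right (hB z) (by positivity))
      (fun z hz => by simp only [hs z hz, mul_zero])
    have h2 := hk 1 (by norm_num) y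
    calc |pot f y| ≤ B * ∫ z in closedBall (0 : E3) R, ‖y - z‖⁻¹ ^ 1 := h1
      _ ≤ B * (C * (1 + ‖y‖)⁻¹ ^ 1) := mul_le_mul_of_nonneg_left h2 h0
      _ = _ := by ring
  · have h1 := norm_int_le (F := fun z => f z • kv (y - z)) (R := R) (B := B) (k := 2)
      le_rfl y h0 (fun z => by
        rw [norm_smul, norm_kv]
        exact mul_le_mul_of_nonneg_right (hB z) (by positivity))
      (fun z hz => by simp only [hs z hz, zero_smul])
    have h2 := hk 2 le_rfl y
    calc ‖gpot f y‖ ≤ B * ∫ z in closedBall (0 : E3) R, ‖y - z‖⁻¹ ^ 2 := h1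
      _ ≤ B * (C * (1 + ‖y‖)⁻¹ ^ 2) := mul_le_mul_of_nonneg_left h2 h0
      _ = _ := by ring

/-- `i`-th component of `gpot` -/
theorem gpot_apply {f : E3 → ℝ} (hf : BCS f) (x : E3) (i : Fin 3) :
    gpot f x i = ∫ z, f z * s1 x i z := by
  have h := ContinuousLinearMap.integral_comp_comm (EuclideanSpace.proj i : E3 →L[ℝ] ℝ)
    (hf.int_kv x)
  have h2 : gpot f x i = (EuclideanSpace.proj i : E3 →L[ℝ] ℝ) (∫ z, f z • kv (x - z)) := rfl
  rw [h2, ← h]
  refine integral_congr_ae (Filter.Eventually.of_forall fun z => ?_)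
  have h3 : (EuclideanSpace.proj i : E3 →L[ℝ] ℝ) (f z • kv (x - z)) =
      f z * (-(‖x - z‖⁻¹ ^ 3) * (x i - z i)) := rfl
  show (EuclideanSpace.proj i : E3 →L[ℝ] ℝ) (f z • kv (x - z)) = _
  rw [h3]
  show _ = f z * s1 x i z
  have h4 : s1 x i z = ‖z - x‖⁻¹ ^ 3 * (z i - x i) := rfl
  rw [h4, norm_sub_rev z x]
  ring

/-- the potential of a charge density `v q` with `q ∈ L²(v)` -/
theorem l2_pot {v : E3 → ℝ} (hv : Wt v) : ∃ C : ℝ, 0 < C ∧
    ∀ q : E3 → ℝ, L2 v q → ∀ y,
      Integrable (fun z => ‖y - z‖⁻¹ * (v z * q z)) ∧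
      |pot (fun z => v z * q z) y| ≤ C * Real.sqrt (∫ z, v z * q z ^ 2) := by
  obtain ⟨R, hR⟩ := hv.bcs.supp
  obtain ⟨B, hB⟩ := hv.bcs.bdd
  obtain ⟨C, hC, hk⟩ := kern_bound R
  have hm := hv.bcs.meas
  have h0 : 0 ≤ B := (abs_nonneg _).trans (hB 0)
  refine ⟨Real.sqrt (B * C) + 1, by positivity, fun q hq y => ?_⟩
  have hqm := hq.meas
  have ha : Integrable (fun z => v z * (‖y - z‖⁻¹) ^ 2) := by
    simpa only [mul_comm] using hv.bcs.int_kern 2 le_rfl y
  have haq : Integrable (fun z => v z * (‖y - z‖⁻¹ * q z)) :=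
    wint hv.nonneg hm (by fun_prop) hqm ha hq.int
  have e : (fun z => ‖y - z‖⁻¹ * (v z * q z)) = fun z => v z * (‖y - z‖⁻¹ * q z) := by
    funext z
    ring
  refine ⟨by rw [e]; exact haq, ?_⟩
  have h1 := wcs hv.nonneg ha hq.int haq
  have h2 : ∫ z, v z * (‖y - z‖⁻¹) ^ 2 ≤ B * C := by
    have h3 := norm_int_le (F := fun z => v z * (‖y - z‖⁻¹) ^ 2) (R := R) (B := B) (k := 2)
      le_rfl y h0 (fun z => by
        rw [norm_mul, norm_pow, norm_inv, norm_norm]
        exact mul_le_mul_of_nonneg_right (hB z) (by positivity))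
      (fun z hz => by simp only [hR z hz, zero_mul])
    have h4 := hk 2 le_rfl y
    have h5 : (1 + ‖y‖)⁻¹ ^ 2 ≤ 1 := by
      apply pow_le_one₀ (by positivity)
      exact inv_le_one_of_one_le₀ (by linarith [norm_nonneg y])
    calc _ ≤ ‖∫ z, v z * (‖y - z‖⁻¹) ^ 2‖ := le_abs_self _
      _ ≤ _ := h3
      _ ≤ B * (C * (1 + ‖y‖)⁻¹ ^ 2) := mul_le_mul_of_nonneg_left h4 h0
      _ ≤ B * (C * 1) := by gcongr
      _ = B * C := by ring
  have h3 : pot (fun z => v z * q z) y = ∫ z, v z * (‖y - z‖⁻¹ * q z) := by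
    unfold pot
    rw [e]
  rw [h3]
  refine h1.trans (mul_le_mul_of_nonneg_right ?_ (Real.sqrt_nonneg _))
  exact (Real.sqrt_le_sqrt h2).trans (by linarith)

end Pool.Agent.H36.LN
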