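import Pool.Agent.H36.LN.P1b

/-!
# LN-P2: `L²(ρ)` and linearity of the potential

`ρ ≥ 0` bounded measurable with bounded support, `p, q ∈ L²(ρ)`.

* algebra of `L²(ρ)`: `(p ± q)² ≤ 2p² + 2q²`, `|pq| ≤ ½(p²+q²)`; Cauchy-Schwarz by the quadratic polynomial
  `∫ ρ (p + t q)² ≥ 0` (`discrim_le_zero`), or by `MeasureTheory.integral_mul_le_Lp_mul_Lq_of_nonneg`.
* linearity: from the integrability in `l2_pot`.
* `l2_meas`: `MeasureTheory.StronglyMeasurable.integral_prod_right` (the integrand `(y,z) ↦ ‖y-z‖⁻¹ ρ(z) q(z)` is jointly measurable).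
* `l2_pot_l2`: it is bounded by `l2_pot`, so `L2.of_bdd`.
-/

open MeasureTheory Set Metric

namespace Pool.Agent.H36.LN

theorem L2.add {ρ p q : E3 → ℝ} (hρ : Wt ρ) (hp : L2 ρ p) (hq : L2 ρ q) :
    L2 ρ (fun z => p z + q z) := by
  have hm := hρ.bcs.meas
  have hpm := hp.meas
  have hqm := hq.meas
  refine ⟨by fun_prop, ?_⟩
  refine Integrable.mono' ((hp.int.const_mul 2).add (hq.int.const_mul 2)) (by fun_prop)
    (Filter.Eventually.of_forall fun z => ?_)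
  have h0 := hρ.nonneg z
  rw [Real.norm_eq_abs, abs_of_nonneg (mul_nonneg h0 (sq_nonneg _)), Pi.add_apply]
  nlinarith [mul_nonneg h0 (sq_nonneg (p z - q z))]

theorem L2.smul {ρ p : E3 → ℝ} (hp : L2 ρ p) (c : ℝ) : L2 ρ (fun z => c * p z) := by
  have hpm := hp.meas
  refine ⟨by fun_prop, ?_⟩
  have e : (fun z => ρ z * (c * p z) ^ 2) = fun z => c ^ 2 * (ρ z * p z ^ 2) := by
    funext z
    ring
  rw [e]
  exact hp.int.const_mul _

theorem L2.sub {ρ p q : E3 → ℝ} (hρ : Wt ρ) (hp : L2 ρ p) (hq : L2 ρ q) :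
    L2 ρ (fun z => p z - q z) := by
  have h := L2.add hρ hp (hq.smul (-1))
  have e : (fun z => p z + -1 * q z) = fun z => p z - q z := by
    funext z
    ring
  rwa [e] at h

/-- functions bounded on the support of `ρ` -/
theorem L2.of_bdd {ρ q : E3 → ℝ} (hρ : Wt ρ) (hq : Measurable q) {C : ℝ}
    (hC : ∀ z, ρ z ≠ 0 → |q z| ≤ C) : L2 ρ q := by
  have hm := hρ.bcs.meas
  refine ⟨hq, Integrable.mono' (hρ.bcs.int.mul_const (C ^ 2)) (by fun_prop)
    (Filter.Eventually.of_forall fun z => ?_)⟩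
  have h0 := hρ.nonneg z
  rw [Real.norm_eq_abs, abs_of_nonneg (mul_nonneg h0 (sq_nonneg _))]
  by_cases hz : ρ z = 0
  · simp [hz]
  · refine mul_le_mul_of_nonneg_left ?_ h0
    rw [← sq_abs]
    exact pow_le_pow_left₀ (abs_nonneg _) (hC z hz) 2

theorem L2.int_mul {ρ p q : E3 → ℝ} (hρ : Wt ρ) (hp : L2 ρ p) (hq : L2 ρ q) :
    Integrable (fun z => ρ z * (p z * q z)) :=
  wint hρ.nonneg hρ.bcs.meas hp.meas hq.meas hp.int hq.int

/-- Cauchy-Schwarz in `L²(ρ)` -/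
theorem L2.cs {ρ p q : E3 → ℝ} (hρ : Wt ρ) (hp : L2 ρ p) (hq : L2 ρ q) :
    |∫ z, ρ z * (p z * q z)| ≤
      Real.sqrt (∫ z, ρ z * p z ^ 2) * Real.sqrt (∫ z, ρ z * q z ^ 2) :=
  wcs hρ.nonneg hp.int hq.int (L2.int_mul hρ hp hq)

/-- the pairing with an integrable function: `∫ ρ |q| ≤ √(∫ρ) √(∫ρq²)` -/
theorem L2.int_one {ρ q : E3 → ℝ} (hρ : Wt ρ) (hq : L2 ρ q) :
    Integrable (fun z => ρ z * q z) ∧
    ∫ z, ρ z * |q z| ≤ Real.sqrt (∫ z, ρ z) * Real.sqrt (∫ z, ρ z * q z ^ 2) := by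
  have h1 : L2 ρ (fun _ => (1 : ℝ)) := L2.of_bdd hρ measurable_const (C := 1) (by simp)
  have h2 : L2 ρ (fun z => |q z|) := ⟨hq.meas.abs, by simpa only [sq_abs] using hq.int⟩
  constructor
  · simpa only [one_mul] using L2.int_mul hρ h1 hq
  · have h3 := L2.cs hρ h1 h2
    simp only [one_mul, one_pow, mul_one, sq_abs] at h3
    exact (le_abs_self _).trans h3

theorem pot_add {ρ p q : E3 → ℝ} (hρ : Wt ρ) (hp : L2 ρ p) (hq : L2 ρ q) (y : E3) :
    pot (fun z => ρ z * (p z + q z)) y = pot (fun z => ρ z * p z) y + pot (fun z => ρ z * q z) y := by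
  obtain ⟨C, _, hC⟩ := l2_pot hρ
  unfold pot
  rw [← integral_add (hC p hp y).1 (hC q hq y).1]
  refine integral_congr_ae (Filter.Eventually.of_forall fun z => ?_)
  show ‖y - z‖⁻¹ * (ρ z * (p z + q z)) = ‖y - z‖⁻¹ * (ρ z * p z) + ‖y - z‖⁻¹ * (ρ z * q z)
  ring

theorem pot_sub {ρ p q : E3 → ℝ} (hρ : Wt ρ) (hp : L2 ρ p) (hq : L2 ρ q) (y : E3) :
    pot (fun z => ρ z * (p z - q z)) y = pot (fun z => ρ z * p z) y - pot (fun z => ρ z * q z) y := by
  obtain ⟨C, _, hC⟩ := l2_pot hρ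
  unfold pot
  rw [← integral_sub (hC p hp y).1 (hC q hq y).1]
  refine integral_congr_ae (Filter.Eventually.of_forall fun z => ?_)
  show ‖y - z‖⁻¹ * (ρ z * (p z - q z)) = ‖y - z‖⁻¹ * (ρ z * p z) - ‖y - z‖⁻¹ * (ρ z * q z)
  ring

theorem pot_smul (f : E3 → ℝ) (c : ℝ) (y : E3) : pot (fun z => c * f z) y = c * pot f y := by
  unfold pot
  rw [← integral_const_mul]
  refine integral_congr_ae (Filter.Eventually.of_forall fun z => ?_)
  show ‖y - z‖⁻¹ * (c * f z) = c * (‖y - z‖⁻¹ * f z)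
  ring

theorem l2_meas {ρ q : E3 → ℝ} (hρ : Wt ρ) (hq : L2 ρ q) :
    Measurable (pot (fun z => ρ z * q z)) := by
  have hm := hρ.bcs.meas
  have hqm := hq.meas
  have h : StronglyMeasurable (fun w : E3 × E3 => ‖w.1 - w.2‖⁻¹ * (ρ w.2 * q w.2)) :=
    Measurable.stronglyMeasurable (by fun_prop)
  exact h.integral_prod_right.measurable

/-- the potential is again in `L²(ρ)` (it is bounded) -/
theorem l2_pot_l2 {ρ q : E3 → ℝ} (hρ : Wt ρ) (hq : L2 ρ q) : L2 ρ (pot (fun z => ρ z * q z)) := by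
  obtain ⟨C, _, hC⟩ := l2_pot hρ
  exact L2.of_bdd hρ (l2_meas hρ hq) (fun z _ => (hC q hq z).2)

end Pool.Agent.H36.LN
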