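import Pool.Agent.H36.LN.P2c
import Pool.Agent.H75.LO.Psd2

/-!
# LN-P2b: positive definiteness of the Coulomb kernel

`en_nonneg`: the heat kernel representation `G0 x y = ∫ h_p(x) h_p(y) dp` of `psd2_G0`, and `2αβ ≤ α² + β²` in `[0,∞]` for the
positive and negative parts of `f = ρ q`; Fubini applies as `|f(x)||f(y)|/|x-y|` is integrable (`en_prod`; the diagonal has measure
zero).
`en_cs` (Cauchy-Schwarz): from `0 ≤ W(p + t q, p + t q)` for all real `t` (`discrim_le_zero`) with `pot_add`, `pot_smul`, `en_symm`.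
`bcs_*`: apply the previous results with the weight `1_{closedBall 0 R}` and `q = f`.
-/

open MeasureTheory Set Metric
open scoped ENNReal

namespace Pool.Agent.H36.LN

open Pool.Agent.H75.LO (G0 G0_eq psd2_G0 psd2_h psd2_mu psd2_h_meas psd2_h_meas1)

/-- the bilinear form of `G0` on nonnegative functions -/
theorem P2b_J {u v : E3 → ℝ≥0∞} (hu : Measurable u) (hv : Measurable v) :
    ∫⁻ w : E3 × E3, G0 w.1 w.2 * (u w.1 * v w.2) =
      ∫⁻ p, (∫⁻ x, psd2_h p x * u x) * (∫⁻ y, psd2_h p y * v y) ∂psd2_mu := by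
  haveI : SFinite psd2_mu := by
    unfold psd2_mu
    infer_instance
  have hp2 : ∀ p : ℝ × E3, Measurable (fun x : E3 => psd2_h p x) := fun p =>
    Measurable.of_uncurry_left (f := psd2_h) psd2_h_meas
  have h1 : ∀ w : E3 × E3, G0 w.1 w.2 * (u w.1 * v w.2) =
      ∫⁻ p, (psd2_h p w.1 * u w.1) * (psd2_h p w.2 * v w.2) ∂psd2_mu := by
    intro w
    have hm : Measurable (fun p : ℝ × E3 => psd2_h p w.1 * psd2_h p w.2) :=
      (psd2_h_meas1 _).mul (psd2_h_meas1 _)
    rw [psd2_G0, ← lintegral_mul_const _ hm]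
    refine lintegral_congr fun p => ?_
    ring
  simp only [h1]
  rw [lintegral_lintegral_swap]
  · refine lintegral_congr fun p => ?_
    have hm1 : AEMeasurable (fun x : E3 => psd2_h p x * u x) := ((hp2 p).mul hu).aemeasurable
    have hm2 : AEMeasurable (fun x : E3 => psd2_h p x * v x) := ((hp2 p).mul hv).aemeasurable
    exact lintegral_prod_mul hm1 hm2
  · have m1 : Measurable (fun s : (E3 × E3) × (ℝ × E3) => psd2_h s.2 s.1.1) :=
      psd2_h_meas.comp (measurable_snd.prodMk (measurable_fst.comp measurable_fst))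
    have m2 : Measurable (fun s : (E3 × E3) × (ℝ × E3) => psd2_h s.2 s.1.2) :=
      psd2_h_meas.comp (measurable_snd.prodMk (measurable_snd.comp measurable_fst))
    have m3 : Measurable (fun s : (E3 × E3) × (ℝ × E3) => u s.1.1) :=
      hu.comp (measurable_fst.comp measurable_fst)
    have m4 : Measurable (fun s : (E3 × E3) × (ℝ × E3) => v s.1.2) :=
      hv.comp (measurable_snd.comp measurable_fst)
    exact ((m1.mul m3).mul (m2.mul m4)).aemeasurable

theorem P2b_am (A B : ℝ≥0∞) : A * B + B * A ≤ A * A + B * B := by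
  rcases le_total A B with h | h
  · obtain ⟨C, rfl⟩ := exists_add_of_le h
    calc A * (A + C) + (A + C) * A = A * A + (A * A + A * C + C * A) := by ring
      _ ≤ A * A + (A * A + A * C + C * A + C * C) := add_le_add le_rfl le_self_add
      _ = A * A + (A + C) * (A + C) := by ring
  · obtain ⟨C, rfl⟩ := exists_add_of_le h
    calc (B + C) * B + B * (B + C) = (B * B + B * C + C * B) + B * B := by ring
      _ ≤ (B * B + B * C + C * B + C * C) + B * B := add_le_add le_self_add le_rfl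
      _ = (B + C) * (B + C) + B * B := by ring

theorem P2b_G0_meas : Measurable (fun w : E3 × E3 => G0 w.1 w.2) := by
  simp only [G0_eq]
  exact ((measurable_const.mul (measurable_fst.sub measurable_snd).norm).ennreal_ofReal).inv

theorem P2b_J_le {a b : E3 → ℝ≥0∞} (ha : Measurable a) (hb : Measurable b) :
    ∫⁻ w : E3 × E3, G0 w.1 w.2 * (a w.1 * b w.2 + b w.1 * a w.2) ≤
      ∫⁻ w : E3 × E3, G0 w.1 w.2 * (a w.1 * a w.2 + b w.1 * b w.2) := by
  haveI : SFinite psd2_mu := by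
    unfold psd2_mu
    infer_instance
  have hm : ∀ {u v : E3 → ℝ≥0∞}, Measurable u → Measurable v →
      Measurable (fun w : E3 × E3 => G0 w.1 w.2 * (u w.1 * v w.2)) := fun hu hv =>
    P2b_G0_meas.mul ((hu.comp measurable_fst).mul (hv.comp measurable_snd))
  have hA : ∀ {u : E3 → ℝ≥0∞}, Measurable u →
      Measurable (fun p : ℝ × E3 => ∫⁻ x, psd2_h p x * u x) := by
    intro u hu
    have : Measurable (fun s : (ℝ × E3) × E3 => psd2_h s.1 s.2 * u s.2) :=
      psd2_h_meas.mul (hu.comp measurable_snd)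
    exact this.lintegral_prod_right'
  have m1 : Measurable (fun p : ℝ × E3 => (∫⁻ x, psd2_h p x * a x) * (∫⁻ x, psd2_h p x * b x)) :=
    (hA ha).mul (hA hb)
  have m2 : Measurable (fun p : ℝ × E3 => (∫⁻ x, psd2_h p x * a x) * (∫⁻ x, psd2_h p x * a x)) :=
    (hA ha).mul (hA ha)
  simp only [mul_add]
  rw [lintegral_add_left (hm ha hb), lintegral_add_left (hm ha ha), P2b_J ha hb, P2b_J hb ha,
    P2b_J ha ha, P2b_J hb hb, ← lintegral_add_left m1, ← lintegral_add_left m2]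
  exact lintegral_mono fun p => P2b_am _ _

/-- positive definiteness on the product space -/
theorem P2b_prod {f : E3 → ℝ} (hf : Measurable f)
    (hi : Integrable (fun w : E3 × E3 => ‖w.1 - w.2‖⁻¹ * (f w.1 * f w.2))) :
    0 ≤ ∫ w : E3 × E3, ‖w.1 - w.2‖⁻¹ * (f w.1 * f w.2) := by
  set a : E3 → ℝ≥0∞ := fun z => ENNReal.ofReal (f z) with ha
  set b : E3 → ℝ≥0∞ := fun z => ENNReal.ofReal (-f z) with hb
  have ham : Measurable a := hf.ennreal_ofReal
  have hbm : Measurable b := hf.neg.ennreal_ofReal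
  have h0 : (0 : ℝ) < 2 * Real.pi := by positivity
  have hpi : ENNReal.ofReal (2 * Real.pi) ≠ 0 := by
    rw [Ne, ENNReal.ofReal_eq_zero, not_le]
    exact h0
  have hK : ∀ x y : E3, x ≠ y →
      ENNReal.ofReal ‖x - y‖⁻¹ = ENNReal.ofReal (2 * Real.pi) * G0 x y := by
    intro x y hxy
    have hn : 0 < ‖x - y‖ := norm_pos_iff.2 (sub_ne_zero.2 hxy)
    rw [G0_eq, ENNReal.ofReal_mul h0.le, ENNReal.mul_inv (Or.inl hpi) (Or.inl ENNReal.ofReal_ne_top),
      ← mul_assoc, ENNReal.mul_inv_cancel hpi ENNReal.ofReal_ne_top, one_mul,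
      ENNReal.ofReal_inv_of_pos hn]
  have hpos : ∀ s t : ℝ, ENNReal.ofReal (s * t) =
      ENNReal.ofReal s * ENNReal.ofReal t + ENNReal.ofReal (-s) * ENNReal.ofReal (-t) := by
    intro s t
    rcases le_total 0 s with hs | hs <;> rcases le_total 0 t with ht | ht
    · rw [ENNReal.ofReal_mul hs, ENNReal.ofReal_of_nonpos (neg_nonpos.2 hs), zero_mul, add_zero]
    · rw [ENNReal.ofReal_of_nonpos (mul_nonpos_of_nonneg_of_nonpos hs ht),
        ENNReal.ofReal_of_nonpos ht, ENNReal.ofReal_of_nonpos (neg_nonpos.2 hs)]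
      simp
    · rw [ENNReal.ofReal_of_nonpos (mul_nonpos_of_nonpos_of_nonneg hs ht),
        ENNReal.ofReal_of_nonpos hs, ENNReal.ofReal_of_nonpos (neg_nonpos.2 ht)]
      simp
    · rw [← neg_mul_neg, ENNReal.ofReal_mul (neg_nonneg.2 hs), ENNReal.ofReal_of_nonpos hs, zero_mul,
        zero_add]
  have hdiag : ∀ᵐ w : E3 × E3, w.1 ≠ w.2 := by
    have hms : MeasurableSet {w : E3 × E3 | w.1 = w.2} :=
      measurableSet_eq_fun measurable_fst measurable_snd
    have h2 : (volume : Measure (E3 × E3)) {w : E3 × E3 | w.1 = w.2} = 0 := by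
      rw [Measure.volume_eq_prod, Measure.measure_prod_null hms]
      refine Filter.Eventually.of_forall fun x => ?_
      have h3 : Prod.mk x ⁻¹' {w : E3 × E3 | w.1 = w.2} = {x} := by
        ext y
        simp [eq_comm]
      show volume (Prod.mk x ⁻¹' {w : E3 × E3 | w.1 = w.2}) = 0
      rw [h3]
      exact measure_singleton x
    rw [ae_iff]
    simpa using h2
  have e1 : ∫⁻ w : E3 × E3, ENNReal.ofReal (‖w.1 - w.2‖⁻¹ * (f w.1 * f w.2)) =
      ENNReal.ofReal (2 * Real.pi) *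
        ∫⁻ w : E3 × E3, G0 w.1 w.2 * (a w.1 * a w.2 + b w.1 * b w.2) := by
    have hmm : Measurable (fun w : E3 × E3 => G0 w.1 w.2 * (a w.1 * a w.2 + b w.1 * b w.2)) :=
      P2b_G0_meas.mul (((ham.comp measurable_fst).mul (ham.comp measurable_snd)).add
        ((hbm.comp measurable_fst).mul (hbm.comp measurable_snd)))
    rw [← lintegral_const_mul _ hmm]
    refine lintegral_congr_ae ?_
    filter_upwards [hdiag] with w hw
    rw [ENNReal.ofReal_mul (by positivity), hK _ _ hw, hpos (f w.1) (f w.2), mul_assoc]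
  have e2 : ∫⁻ w : E3 × E3, ENNReal.ofReal (-(‖w.1 - w.2‖⁻¹ * (f w.1 * f w.2))) =
      ENNReal.ofReal (2 * Real.pi) *
        ∫⁻ w : E3 × E3, G0 w.1 w.2 * (a w.1 * b w.2 + b w.1 * a w.2) := by
    have hmm : Measurable (fun w : E3 × E3 => G0 w.1 w.2 * (a w.1 * b w.2 + b w.1 * a w.2)) :=
      P2b_G0_meas.mul (((ham.comp measurable_fst).mul (hbm.comp measurable_snd)).add
        ((hbm.comp measurable_fst).mul (ham.comp measurable_snd)))
    rw [← lintegral_const_mul _ hmm]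
    refine lintegral_congr_ae ?_
    filter_upwards [hdiag] with w hw
    have h5 : -(‖w.1 - w.2‖⁻¹ * (f w.1 * f w.2)) = ‖w.1 - w.2‖⁻¹ * (f w.1 * (-f w.2)) := by ring
    rw [h5, ENNReal.ofReal_mul (by positivity), hK _ _ hw, hpos (f w.1) (-f w.2), mul_assoc,
      neg_neg]
  have hle : ∫⁻ w : E3 × E3, ENNReal.ofReal (-(‖w.1 - w.2‖⁻¹ * (f w.1 * f w.2))) ≤
      ∫⁻ w : E3 × E3, ENNReal.ofReal (‖w.1 - w.2‖⁻¹ * (f w.1 * f w.2)) := by
    rw [e1, e2]
    exact mul_le_mul_right (P2b_J_le ham hbm) _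
  have hfin : ∫⁻ w : E3 × E3, ENNReal.ofReal (‖w.1 - w.2‖⁻¹ * (f w.1 * f w.2)) ≠ ∞ := by
    refine ne_top_of_le_ne_top hi.2.ne ?_
    refine lintegral_mono fun w => ?_
    rw [← ofReal_norm_eq_enorm]
    exact ENNReal.ofReal_le_ofReal (Real.le_norm_self _)
  rw [integral_eq_lintegral_pos_part_sub_lintegral_neg_part hi, sub_nonneg]
  exact ENNReal.toReal_mono hfin hle

theorem en_nonneg {ρ q : E3 → ℝ} (hρ : Wt ρ) (hq : L2 ρ q) :
    0 ≤ ∫ z, ρ z * (q z * pot (fun w => ρ w * q w) z) := by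
  have hm : Measurable (fun z => ρ z * q z) := hρ.bcs.meas.mul hq.meas
  have hi := en_prod hρ hq hq
  have h := P2b_prod hm hi
  have h2 : ∫ w : E3 × E3, ‖w.1 - w.2‖⁻¹ * ((ρ w.1 * q w.1) * (ρ w.2 * q w.2)) =
      ∫ z, ρ z * (q z * pot (fun w => ρ w * q w) z) := by
    rw [Measure.volume_eq_prod] at hi ⊢
    rw [integral_prod _ hi]
    refine integral_congr_ae (Filter.Eventually.of_forall fun x => ?_)
    show ∫ y, ‖x - y‖⁻¹ * ((ρ x * q x) * (ρ y * q y)) = ρ x * (q x * ∫ y, ‖x - y‖⁻¹ * (ρ y * q y))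
    rw [← mul_assoc, ← integral_const_mul]
    refine integral_congr_ae (Filter.Eventually.of_forall fun y => ?_)
    show ‖x - y‖⁻¹ * ((ρ x * q x) * (ρ y * q y)) = ρ x * q x * (‖x - y‖⁻¹ * (ρ y * q y))
    ring
  rw [← h2]
  exact h

theorem en_cs {ρ p q : E3 → ℝ} (hρ : Wt ρ) (hp : L2 ρ p) (hq : L2 ρ q) :
    (∫ z, ρ z * (p z * pot (fun w => ρ w * q w) z)) ^ 2 ≤
      (∫ z, ρ z * (p z * pot (fun w => ρ w * p w) z)) *
      (∫ z, ρ z * (q z * pot (fun w => ρ w * q w) z)) := by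
  set A := ∫ z, ρ z * (p z * pot (fun w => ρ w * p w) z) with hA
  set B := ∫ z, ρ z * (p z * pot (fun w => ρ w * q w) z) with hB
  set C := ∫ z, ρ z * (q z * pot (fun w => ρ w * q w) z) with hC
  have hB' : ∫ z, ρ z * (q z * pot (fun w => ρ w * p w) z) = B := (en_symm hρ hp hq).symm
  have key : ∀ t : ℝ, 0 ≤ C * (t * t) + (2 * B) * t + A := by
    intro t
    have hqt : L2 ρ (fun z => t * q z) := hq.smul t
    have h1 := en_nonneg hρ (hp.add hρ hqt)
    have h2 : ∀ z, ρ z * ((p z + t * q z) * pot (fun w => ρ w * (p w + t * q w)) z) =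
        (ρ z * (p z * pot (fun w => ρ w * p w) z) + t * (ρ z * (p z * pot (fun w => ρ w * q w) z)))
        + (t * (ρ z * (q z * pot (fun w => ρ w * p w) z)) +
          (t * t) * (ρ z * (q z * pot (fun w => ρ w * q w) z))) := by
      intro z
      rw [pot_add hρ hp hqt]
      have h3 : (fun w => ρ w * (t * q w)) = fun w => t * (ρ w * q w) := by
        funext w
        ring
      rw [h3, pot_smul]
      ring
    simp only [h2] at h1
    have i1 := en_int hρ hp hp
    have i2 := en_int hρ hp hq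
    have i3 := en_int hρ hq hp
    have i4 := en_int hρ hq hq
    have j1 : Integrable (fun z => ρ z * (p z * pot (fun w => ρ w * p w) z) +
        t * (ρ z * (p z * pot (fun w => ρ w * q w) z))) := i1.add (i2.const_mul t)
    have j2 : Integrable (fun z => t * (ρ z * (q z * pot (fun w => ρ w * p w) z)) +
        (t * t) * (ρ z * (q z * pot (fun w => ρ w * q w) z))) :=
      (i3.const_mul t).add (i4.const_mul (t * t))
    rw [integral_add j1 j2, integral_add i1 (i2.const_mul t),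
      integral_add (i3.const_mul t) (i4.const_mul (t * t)),
      integral_const_mul, integral_const_mul, integral_const_mul, hB'] at h1
    linarith
  have h := discrim_le_zero key
  unfold discrim at h
  nlinarith

theorem BCS.sub {f g : E3 → ℝ} (hf : BCS f) (hg : BCS g) : BCS (fun z => f z - g z) := by
  obtain ⟨C, hC⟩ := hf.bdd
  obtain ⟨D, hD⟩ := hg.bdd
  obtain ⟨R, hR⟩ := hf.supp
  obtain ⟨S, hS⟩ := hg.supp
  refine ⟨hf.meas.sub hg.meas, ⟨C + D, fun x => ?_⟩, ⟨max R S, fun x hx => ?_⟩⟩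
  · exact (abs_sub _ _).trans (add_le_add (hC x) (hD x))
  · rw [hR x ((le_max_left _ _).trans_lt hx), hS x ((le_max_right _ _).trans_lt hx), sub_zero]

theorem BCS.add {f g : E3 → ℝ} (hf : BCS f) (hg : BCS g) : BCS (fun z => f z + g z) := by
  obtain ⟨C, hC⟩ := hf.bdd
  obtain ⟨D, hD⟩ := hg.bdd
  obtain ⟨R, hR⟩ := hf.supp
  obtain ⟨S, hS⟩ := hg.supp
  refine ⟨hf.meas.add hg.meas, ⟨C + D, fun x => ?_⟩, ⟨max R S, fun x hx => ?_⟩⟩
  · exact (abs_add_le _ _).trans (add_le_add (hC x) (hD x))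
  · rw [hR x ((le_max_left _ _).trans_lt hx), hS x ((le_max_right _ _).trans_lt hx), add_zero]

theorem BCS.smul {f : E3 → ℝ} (hf : BCS f) (c : ℝ) : BCS (fun z => c * f z) := by
  obtain ⟨C, hC⟩ := hf.bdd
  obtain ⟨R, hR⟩ := hf.supp
  refine ⟨hf.meas.const_mul c, ⟨|c| * C, fun x => ?_⟩, ⟨R, fun x hx => ?_⟩⟩
  · rw [abs_mul]
    exact mul_le_mul_of_nonneg_left (hC x) (abs_nonneg c)
  · rw [hR x hx, mul_zero]

theorem P2b_k1 {f : E3 → ℝ} (hf : BCS f) (y : E3) : Integrable (fun z => ‖y - z‖⁻¹ * f z) := by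
  simpa using hf.int_kern 1 (by norm_num) y

theorem bcs_sub {f g : E3 → ℝ} (hf : BCS f) (hg : BCS g) (y : E3) :
    pot (fun z => f z - g z) y = pot f y - pot g y := by
  unfold pot
  simp only [mul_sub]
  exact integral_sub (P2b_k1 hf y) (P2b_k1 hg y)

theorem bcs_gsub {f g : E3 → ℝ} (hf : BCS f) (hg : BCS g) (y : E3) :
    gpot (fun z => f z - g z) y = gpot f y - gpot g y := by
  unfold gpot
  simp only [sub_smul]
  exact integral_sub (hf.int_kv y) (hg.int_kv y)

theorem bcs_add {f g : E3 → ℝ} (hf : BCS f) (hg : BCS g) (y : E3) :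
    pot (fun z => f z + g z) y = pot f y + pot g y := by
  unfold pot
  simp only [mul_add]
  exact integral_add (P2b_k1 hf y) (P2b_k1 hg y)

theorem bcs_gsmul (f : E3 → ℝ) (c : ℝ) (y : E3) : gpot (fun z => c * f z) y = c • gpot f y := by
  unfold gpot
  simp only [mul_smul]
  exact integral_smul c _

/-- the indicator of a ball as a weight -/
noncomputable def P2b_w (R : ℝ) : E3 → ℝ := (closedBall (0 : E3) R).indicator (fun _ => 1)

theorem P2b_w_wt (R : ℝ) : Wt (P2b_w R) := by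
  refine ⟨⟨measurable_const.indicator measurableSet_closedBall, ⟨1, fun x => ?_⟩,
    ⟨R, fun x hx => ?_⟩⟩, fun x => ?_⟩
  · unfold P2b_w indicator
    split_ifs <;> simp
  · unfold P2b_w
    rw [indicator_of_notMem]
    simpa using hx
  · unfold P2b_w indicator
    split_ifs <;> simp

theorem P2b_w_mul {f : E3 → ℝ} {R S : ℝ} (hRS : S ≤ R) (h : ∀ x, S < ‖x‖ → f x = 0) (z : E3) :
    P2b_w R z * f z = f z := by
  unfold P2b_w
  by_cases hz : z ∈ closedBall (0 : E3) R
  · rw [indicator_of_mem hz, one_mul]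
  · rw [indicator_of_notMem hz, zero_mul, h z]
    have : R < ‖z‖ := by simpa using hz
    exact hRS.trans_lt this

theorem P2b_w_l2 {f : E3 → ℝ} (hf : BCS f) (R : ℝ) : L2 (P2b_w R) f := by
  obtain ⟨C, hC⟩ := hf.bdd
  exact L2.of_bdd (P2b_w_wt R) hf.meas fun z _ => hC z

theorem P2b_pair {f g : E3 → ℝ} (hf : BCS f) (hg : BCS g) : ∃ R : ℝ,
    (∀ z, P2b_w R z * f z = f z) ∧ (∀ z, P2b_w R z * g z = g z) := by
  obtain ⟨R, hR⟩ := hf.supp
  obtain ⟨S, hS⟩ := hg.supp
  exact ⟨max R S, P2b_w_mul (le_max_left _ _) hR, P2b_w_mul (le_max_right _ _) hS⟩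

theorem bcs_int {f g : E3 → ℝ} (hf : BCS f) (hg : BCS g) : Integrable (fun z => f z * pot g z) := by
  obtain ⟨R, h1, h2⟩ := P2b_pair hf hg
  have h := en_int (P2b_w_wt R) (P2b_w_l2 hf R) (P2b_w_l2 hg R)
  simp only [h2, ← mul_assoc, h1] at h
  exact h

theorem bcs_symm {f g : E3 → ℝ} (hf : BCS f) (hg : BCS g) :
    ∫ z, f z * pot g z = ∫ z, g z * pot f z := by
  obtain ⟨R, h1, h2⟩ := P2b_pair hf hg
  have h := en_symm (P2b_w_wt R) (P2b_w_l2 hf R) (P2b_w_l2 hg R)
  simp only [h2, ← mul_assoc, h1] at h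
  exact h

theorem bcs_nonneg {f : E3 → ℝ} (hf : BCS f) : 0 ≤ ∫ z, f z * pot f z := by
  obtain ⟨R, h1, -⟩ := P2b_pair hf hf
  have h := en_nonneg (P2b_w_wt R) (P2b_w_l2 hf R)
  simp only [← mul_assoc, h1] at h
  exact h

theorem pot_nonneg {f : E3 → ℝ} (h : ∀ z, 0 ≤ f z) (y : E3) : 0 ≤ pot f y :=
  integral_nonneg fun z => mul_nonneg (inv_nonneg.2 (norm_nonneg _)) (h z)

theorem pot_mono {f g : E3 → ℝ} (hf : BCS f) (hg : BCS g) (h : ∀ z, f z ≤ g z) (y : E3) :
    pot f y ≤ pot g y :=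
  integral_mono (P2b_k1 hf y) (P2b_k1 hg y) fun z =>
    mul_le_mul_of_nonneg_left (h z) (inv_nonneg.2 (norm_nonneg _))

end Pool.Agent.H36.LN
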