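import Pool.Agent.H36.LN.P2

/-!
# LN-P2c: the Coulomb energy on `L²(ρ)`: integrability and symmetry

* `en_prod`: `(x,y) ↦ ‖x-y‖⁻¹ ρ(x) p(x) ρ(y) q(y)` is integrable on the product: it is dominated by
  `½ ‖x-y‖⁻¹ ρ(x) ρ(y) (p(x)² + q(y)²)`, and `∫ ‖x-y‖⁻¹ ρ(y) dy ≤ C` by `kern_bound` (`k = 1`); joint measurability is clear.
* `en_int`, `en_symm`: Fubini (`Integrable.integral_prod_left`, `integral_prod`, `integral_prod_symm`).
-/

open MeasureTheory Set Metric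

namespace Pool.Agent.H36.LN

/-- one half of the domination -/
theorem en_half {ρ p : E3 → ℝ} (hρ : Wt ρ) (hp : L2 ρ p) :
    Integrable (fun w : E3 × E3 => ‖w.1 - w.2‖⁻¹ * ((ρ w.1 * p w.1 ^ 2) * ρ w.2)) := by
  have hm := hρ.bcs.meas
  have hpm := hp.meas
  obtain ⟨R, hR⟩ := hρ.bcs.supp
  obtain ⟨B, hB⟩ := hρ.bcs.bdd
  obtain ⟨C, hC, hk⟩ := kern_bound R
  have h0 : 0 ≤ B := (abs_nonneg _).trans (hB 0)
  have hmeas : Measurable (fun w : E3 × E3 => ‖w.1 - w.2‖⁻¹ * ((ρ w.1 * p w.1 ^ 2) * ρ w.2)) := by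
    fun_prop
  have hI : ∀ x : E3, Integrable (fun y : E3 => ‖x - y‖⁻¹ * ρ y) := fun x => by
    simpa only [pow_one] using hρ.bcs.int_kern 1 (by norm_num) x
  have hb : ∀ x : E3, ∫ y, ‖x - y‖⁻¹ * ρ y ≤ B * C := by
    intro x
    have h3 := norm_int_le (F := fun z => ‖x - z‖⁻¹ * ρ z) (R := R) (B := B) (k := 1)
      (by norm_num) x h0 (fun z => by
        rw [norm_mul, mul_comm, pow_one, norm_inv, norm_norm]
        exact mul_le_mul_of_nonneg_right (hB z) (by positivity))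
      (fun z hz => by simp only [hR z hz, mul_zero])
    have h4 := hk 1 (by norm_num) x
    have h5 : (1 + ‖x‖)⁻¹ ^ 1 ≤ 1 := by
      rw [pow_one]
      exact inv_le_one_of_one_le₀ (by linarith [norm_nonneg x])
    calc _ ≤ ‖∫ z, ‖x - z‖⁻¹ * ρ z‖ := le_abs_self _
      _ ≤ _ := h3
      _ ≤ B * (C * (1 + ‖x‖)⁻¹ ^ 1) := mul_le_mul_of_nonneg_left h4 h0
      _ ≤ B * (C * 1) := by gcongr
      _ = B * C := by ring
  have e : ∀ x y : E3, ‖x - y‖⁻¹ * ((ρ x * p x ^ 2) * ρ y) =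
      (ρ x * p x ^ 2) * (‖x - y‖⁻¹ * ρ y) := fun x y => by ring
  rw [MeasureTheory.Measure.volume_eq_prod,
    MeasureTheory.integrable_prod_iff hmeas.aestronglyMeasurable]
  refine ⟨Filter.Eventually.of_forall fun x => ?_, ?_⟩
  · show Integrable (fun y => ‖x - y‖⁻¹ * ((ρ x * p x ^ 2) * ρ y))
    simp only [e]
    exact (hI x).const_mul _
  · have e2 : (fun x => ∫ y, ‖‖x - y‖⁻¹ * ((ρ x * p x ^ 2) * ρ y)‖) = fun x =>
        (ρ x * p x ^ 2) * ∫ y, ‖x - y‖⁻¹ * ρ y := by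
      funext x
      rw [← integral_const_mul]
      refine integral_congr_ae (Filter.Eventually.of_forall fun y => ?_)
      show ‖‖x - y‖⁻¹ * ((ρ x * p x ^ 2) * ρ y)‖ = (ρ x * p x ^ 2) * (‖x - y‖⁻¹ * ρ y)
      rw [e, Real.norm_eq_abs, abs_of_nonneg]
      have h1 := hρ.nonneg x
      have h2 := hρ.nonneg y
      positivity
    show Integrable (fun x => ∫ y, ‖‖x - y‖⁻¹ * ((ρ x * p x ^ 2) * ρ y)‖)
    rw [e2]
    have hmI : Measurable (fun x : E3 => ∫ y, ‖x - y‖⁻¹ * ρ y) := by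
      have h : StronglyMeasurable (fun w : E3 × E3 => ‖w.1 - w.2‖⁻¹ * ρ w.2) :=
        Measurable.stronglyMeasurable (by fun_prop)
      exact h.integral_prod_right.measurable
    refine Integrable.mono' (hp.int.mul_const (B * C)) (by fun_prop)
      (Filter.Eventually.of_forall fun x => ?_)
    have h1 := hρ.nonneg x
    have h2 : 0 ≤ ∫ y, ‖x - y‖⁻¹ * ρ y := integral_nonneg fun y =>
      mul_nonneg (by positivity) (hρ.nonneg y)
    rw [Real.norm_eq_abs, abs_of_nonneg (by positivity)]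
    exact mul_le_mul_of_nonneg_left (hb x) (by positivity)

theorem en_prod {ρ p q : E3 → ℝ} (hρ : Wt ρ) (hp : L2 ρ p) (hq : L2 ρ q) :
    Integrable (fun w : E3 × E3 => ‖w.1 - w.2‖⁻¹ * ((ρ w.1 * p w.1) * (ρ w.2 * q w.2))) := by
  have hm := hρ.bcs.meas
  have hpm := hp.meas
  have hqm := hq.meas
  have h1 := en_half hρ hp
  have h2 : Integrable (fun w : E3 × E3 => ‖w.1 - w.2‖⁻¹ * ((ρ w.2 * q w.2 ^ 2) * ρ w.1)) := by
    have h3 := en_half hρ hq
    rw [MeasureTheory.Measure.volume_eq_prod] at h3 ⊢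
    have h4 := h3.swap
    refine h4.congr (Filter.Eventually.of_forall fun w => ?_)
    show ‖w.2 - w.1‖⁻¹ * ((ρ w.2 * q w.2 ^ 2) * ρ w.1) = _
    rw [norm_sub_rev]
  refine Integrable.mono' (h1.add h2) (Measurable.aestronglyMeasurable (by fun_prop))
    (Filter.Eventually.of_forall fun w => ?_)
  have k1 := hρ.nonneg w.1
  have k2 := hρ.nonneg w.2
  have k3 : 0 ≤ ‖w.1 - w.2‖⁻¹ * (ρ w.1 * ρ w.2) := by positivity
  have e : ‖w.1 - w.2‖⁻¹ * ((ρ w.1 * p w.1) * (ρ w.2 * q w.2)) =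
      ‖w.1 - w.2‖⁻¹ * (ρ w.1 * ρ w.2) * (p w.1 * q w.2) := by ring
  rw [Real.norm_eq_abs, e, abs_mul, abs_of_nonneg k3, abs_mul, Pi.add_apply]
  have k4 : |p w.1| * |q w.2| ≤ p w.1 ^ 2 + q w.2 ^ 2 := by
    nlinarith [sq_nonneg (|p w.1| - |q w.2|), sq_abs (p w.1), sq_abs (q w.2),
      sq_nonneg (|p w.1| + |q w.2|)]
  refine (mul_le_mul_of_nonneg_left k4 k3).trans (le_of_eq ?_)
  ring

theorem en_eq {ρ p q : E3 → ℝ} (z : E3) :
    ρ z * (p z * pot (fun w => ρ w * q w) z) =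
      ∫ y, ‖z - y‖⁻¹ * ((ρ z * p z) * (ρ y * q y)) := by
  unfold pot
  rw [← mul_assoc, ← integral_const_mul]
  refine integral_congr_ae (Filter.Eventually.of_forall fun y => ?_)
  show (ρ z * p z) * (‖z - y‖⁻¹ * (ρ y * q y)) = ‖z - y‖⁻¹ * ((ρ z * p z) * (ρ y * q y))
  ring

theorem en_int {ρ p q : E3 → ℝ} (hρ : Wt ρ) (hp : L2 ρ p) (hq : L2 ρ q) :
    Integrable (fun z => ρ z * (p z * pot (fun w => ρ w * q w) z)) := by
  have h := en_prod hρ hp hq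
  rw [MeasureTheory.Measure.volume_eq_prod] at h
  simp only [en_eq]
  exact h.integral_prod_left

theorem en_symm {ρ p q : E3 → ℝ} (hρ : Wt ρ) (hp : L2 ρ p) (hq : L2 ρ q) :
    ∫ z, ρ z * (p z * pot (fun w => ρ w * q w) z) = ∫ z, ρ z * (q z * pot (fun w => ρ w * p w) z) := by
  have h := en_prod hρ hp hq
  rw [MeasureTheory.Measure.volume_eq_prod] at h
  simp only [en_eq]
  rw [MeasureTheory.integral_integral_swap h]
  refine integral_congr_ae (Filter.Eventually.of_forall fun y => ?_)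
  show ∫ x, ‖x - y‖⁻¹ * ((ρ x * p x) * (ρ y * q y)) = ∫ x, ‖y - x‖⁻¹ * ((ρ y * q y) * (ρ x * p x))
  refine integral_congr_ae (Filter.Eventually.of_forall fun x => ?_)
  show ‖x - y‖⁻¹ * ((ρ x * p x) * (ρ y * q y)) = ‖y - x‖⁻¹ * ((ρ y * q y) * (ρ x * p x))
  rw [norm_sub_rev]
  ring

end Pool.Agent.H36.LN
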