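import Pool.Agent.H36.LN.P2b

/-!
# LN-P3: the Coulomb potential of a bounded density with bounded support is `C¹`

Regularised kernel `(‖y‖²+η²)^{-1/2}` with gradient `-(‖y‖²+η²)^{-3/2} y`; the regularised potentials are differentiable, and
their gradients converge to `gpot f` uniformly on every ball (dominated convergence for
`∫_{ball} ‖kv u - kvr η u‖ du`).
-/

open MeasureTheory Set Metric Filter Topology

namespace Pool.Agent.H36.LN

/-- regularised radius -/
noncomputable def P3rr (η : ℝ) (y : E3) : ℝ := Real.sqrt (‖y‖ ^ 2 + η ^ 2)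

/-- gradient of the regularised kernel -/
noncomputable def kvr (η : ℝ) (y : E3) : E3 := (-((P3rr η y)⁻¹ ^ 3)) • y

theorem P3rr_ge (η : ℝ) (y : E3) : ‖y‖ ≤ P3rr η y :=
  Real.le_sqrt_of_sq_le (by nlinarith [sq_nonneg η])

theorem P3rr_geb (η : ℝ) (y : E3) : η ≤ P3rr η y :=
  Real.le_sqrt_of_sq_le (by nlinarith [sq_nonneg ‖y‖])

theorem P3rr_pos {η : ℝ} (hη : 0 < η) (y : E3) : 0 < P3rr η y := lt_of_lt_of_le hη (P3rr_geb η y)

theorem continuous_rr (η : ℝ) : Continuous (P3rr η) := by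
  unfold P3rr; fun_prop

theorem continuous_kvr {η : ℝ} (hη : 0 < η) : Continuous (kvr η) := by
  unfold kvr
  exact (((continuous_rr η).inv₀ fun y => (P3rr_pos hη y).ne').pow 3).neg.smul continuous_id

theorem norm_kvr_eq {η : ℝ} (hη : 0 < η) (y : E3) : ‖kvr η y‖ = (P3rr η y)⁻¹ ^ 3 * ‖y‖ := by
  unfold kvr
  rw [norm_smul, norm_neg, Real.norm_of_nonneg (pow_nonneg (inv_nonneg.2 (P3rr_pos hη y).le) 3)]

theorem norm_kvr_le {η : ℝ} (hη : 0 < η) (y : E3) : ‖kvr η y‖ ≤ ‖y‖⁻¹ ^ 2 := by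
  rw [norm_kvr_eq hη]
  rcases eq_or_ne y 0 with rfl | hy
  · simp
  · have h0 : 0 < ‖y‖ := norm_pos_iff.2 hy
    have h1 : (P3rr η y)⁻¹ ≤ ‖y‖⁻¹ := inv_anti₀ h0 (P3rr_ge η y)
    have h2 : 0 ≤ (P3rr η y)⁻¹ := inv_nonneg.2 (P3rr_pos hη y).le
    calc (P3rr η y)⁻¹ ^ 3 * ‖y‖ ≤ ‖y‖⁻¹ ^ 3 * ‖y‖ :=
          mul_le_mul_of_nonneg_right (pow_le_pow_left₀ h2 h1 3) h0.le
      _ = ‖y‖⁻¹ ^ 2 := by field_simp

theorem norm_kvr_le' {η : ℝ} (hη : 0 < η) (y : E3) : ‖kvr η y‖ ≤ η⁻¹ ^ 2 := by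
  rw [norm_kvr_eq hη]
  have h0 : 0 < P3rr η y := P3rr_pos hη y
  have h1 : (P3rr η y)⁻¹ ≤ η⁻¹ := inv_anti₀ hη (P3rr_geb η y)
  have h2 : 0 ≤ (P3rr η y)⁻¹ := inv_nonneg.2 h0.le
  calc (P3rr η y)⁻¹ ^ 3 * ‖y‖ ≤ (P3rr η y)⁻¹ ^ 3 * P3rr η y :=
        mul_le_mul_of_nonneg_left (P3rr_ge η y) (pow_nonneg h2 3)
    _ = (P3rr η y)⁻¹ ^ 2 := by field_simp
    _ ≤ η⁻¹ ^ 2 := pow_le_pow_left₀ h2 h1 2

theorem hasFDerivAt_rr {η : ℝ} (hη : 0 < η) (y : E3) :
    HasFDerivAt (fun x => (P3rr η x)⁻¹) (innerSL ℝ (kvr η y)) y := by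
  have h1 : HasFDerivAt (fun x : E3 => ‖x‖ ^ 2 + η ^ 2) (2 • innerSL ℝ y) y :=
    (hasStrictFDerivAt_norm_sq y).hasFDerivAt.add_const _
  have hne : ‖y‖ ^ 2 + η ^ 2 ≠ 0 := by positivity
  have h2 := h1.sqrt hne
  have h3 := (hasDerivAt_inv (P3rr_pos hη y).ne').comp_hasFDerivAt y h2
  have h0 := (P3rr_pos hη y).ne'
  refine h3.congr_fderiv ?_
  ext v
  have h4 : Real.sqrt (‖y‖ ^ 2 + η ^ 2) = P3rr η y := rfl
  rw [h4]
  simp only [kvr, innerSL_apply_apply, _root_.smul_apply, smul_eq_mul, inner_smul_left, RCLike.conj_to_real,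
    nsmul_eq_mul, Nat.cast_ofNat]
  field_simp

/-- regularised potential -/
noncomputable def pn (η : ℝ) (f : E3 → ℝ) (y : E3) : ℝ := ∫ z, (P3rr η (y - z))⁻¹ * f z

/-- its gradient -/
noncomputable def gn (η : ℝ) (f : E3 → ℝ) (y : E3) : E3 := ∫ z, f z • kvr η (y - z)

theorem int_kvr {f : E3 → ℝ} (hf : BCS f) {η : ℝ} (hη : 0 < η) (y : E3) :
    Integrable (fun z => f z • kvr η (y - z)) := by
  refine (hf.int.norm.mul_const (η⁻¹ ^ 2)).mono' ?_ ?_
  · exact (hf.meas.aestronglyMeasurable).smul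
      ((continuous_kvr hη).comp (continuous_const.sub continuous_id)).aestronglyMeasurable
  · refine Filter.Eventually.of_forall fun z => ?_
    rw [norm_smul]
    exact mul_le_mul_of_nonneg_left (norm_kvr_le' hη _) (norm_nonneg _)

theorem hasFDerivAt_pn {f : E3 → ℝ} (hf : BCS f) {η : ℝ} (hη : 0 < η) (y : E3) :
    HasFDerivAt (pn η f) (innerSL ℝ (gn η f y)) y := by
  have hcm : ∀ x : E3, Continuous fun z : E3 => (P3rr η (x - z))⁻¹ := fun x =>
    ((continuous_rr η).comp (continuous_const.sub continuous_id)).inv₀ fun z => (P3rr_pos hη _).ne'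
  have key := hasFDerivAt_integral_of_dominated_of_fderiv_le (𝕜 := ℝ) (μ := (volume : Measure E3))
    (F := fun (x : E3) (z : E3) => (P3rr η (x - z))⁻¹ * f z)
    (F' := fun (x : E3) (z : E3) => innerSL ℝ (f z • kvr η (x - z)))
    (x₀ := y) (s := univ) (bound := fun z => ‖f z‖ * (η⁻¹ ^ 2)) univ_mem
    (Filter.Eventually.of_forall fun x => (hcm x).aestronglyMeasurable.mul hf.meas.aestronglyMeasurable)
    ?_ ?_ ?_ (hf.int.norm.mul_const _) ?_
  · have h2 : (∫ z, innerSL ℝ (f z • kvr η (y - z))) = innerSL ℝ (gn η f y) :=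
      ContinuousLinearMap.integral_comp_comm (innerSL ℝ : E3 →L[ℝ] (E3 →L[ℝ] ℝ)) (int_kvr hf hη y)
    rw [h2] at key
    exact key
  · refine (hf.int.norm.mul_const η⁻¹).mono' ((hcm y).aestronglyMeasurable.mul
      hf.meas.aestronglyMeasurable) (Filter.Eventually.of_forall fun z => ?_)
    rw [norm_mul, mul_comm, norm_inv, Real.norm_of_nonneg (P3rr_pos hη _).le]
    exact mul_le_mul_of_nonneg_left (inv_anti₀ hη (P3rr_geb η _)) (norm_nonneg _)
  · exact (innerSL ℝ : E3 →L[ℝ] (E3 →L[ℝ] ℝ)).continuous.comp_aestronglyMeasurable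
      (int_kvr hf hη y).aestronglyMeasurable
  · refine Filter.Eventually.of_forall fun z x _ => ?_
    rw [innerSL_apply_norm, norm_smul]
    exact mul_le_mul_of_nonneg_left (norm_kvr_le' hη _) (norm_nonneg _)
  · refine Filter.Eventually.of_forall fun z x _ => ?_
    have h1 : HasFDerivAt (fun x : E3 => x - z) (ContinuousLinearMap.id ℝ E3) x :=
      (hasFDerivAt_id x).sub_const z
    have h2 := (hasFDerivAt_rr hη (x - z)).comp x h1
    have h3 := h2.mul_const (f z)
    refine h3.congr_fderiv ?_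
    ext v
    simp

theorem continuous_gn {f : E3 → ℝ} (hf : BCS f) {η : ℝ} (hη : 0 < η) : Continuous (gn η f) := by
  unfold gn
  refine continuous_of_dominated (bound := fun z => ‖f z‖ * (η⁻¹ ^ 2))
    (fun x => (int_kvr hf hη x).aestronglyMeasurable) (fun x => ?_) (hf.int.norm.mul_const _) ?_
  · refine Filter.Eventually.of_forall fun z => ?_
    rw [norm_smul]
    exact mul_le_mul_of_nonneg_left (norm_kvr_le' hη _) (norm_nonneg _)
  · refine Filter.Eventually.of_forall fun z => ?_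
    exact ((continuous_kvr hη).comp (continuous_id.sub continuous_const)).const_smul (f z)

/-- the sequence of regularisation parameters -/
noncomputable def et (n : ℕ) : ℝ := 1 / ((n : ℝ) + 1)

theorem et_pos (n : ℕ) : 0 < et n := by unfold et; positivity

theorem et_lim : Tendsto et atTop (𝓝 0) := tendsto_one_div_add_atTop_nhds_zero_nat

theorem P3rr_lim (u : E3) : Tendsto (fun n => P3rr (et n) u) atTop (𝓝 ‖u‖) := by
  have h : Continuous fun η : ℝ => P3rr η u := by unfold P3rr; fun_prop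
  have h2 := (h.tendsto 0).comp et_lim
  have h3 : P3rr 0 u = ‖u‖ := by
    unfold P3rr
    rw [zero_pow two_ne_zero, add_zero, Real.sqrt_sq (norm_nonneg _)]
  rw [h3] at h2
  exact h2

theorem measurable_kv_P3 : Measurable kv := by
  unfold kv
  exact ((measurable_norm.inv.pow_const 3).neg).smul measurable_id

theorem kv_lim (M : ℝ) : Tendsto (fun n => ∫ u in closedBall (0 : E3) M, ‖kv u - kvr (et n) u‖)
    atTop (𝓝 0) := by
  have h0 : (0 : ℝ) = ∫ u in closedBall (0 : E3) M, (0 : ℝ) := by simp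
  rw [h0]
  refine tendsto_integral_of_dominated_convergence (fun u : E3 => 2 * ‖u‖⁻¹ ^ 2) (fun n => ?_) ?_
    (fun n => ?_) ?_
  · exact (measurable_kv_P3.aestronglyMeasurable.sub
      (continuous_kvr (et_pos n)).aestronglyMeasurable).norm
  · have := (kern_int M 2 le_rfl 0).const_mul 2
    simpa using this
  · refine Filter.Eventually.of_forall fun u => ?_
    rw [norm_norm]
    calc ‖kv u - kvr (et n) u‖ ≤ ‖kv u‖ + ‖kvr (et n) u‖ := norm_sub_le _ _
      _ ≤ ‖u‖⁻¹ ^ 2 + ‖u‖⁻¹ ^ 2 := add_le_add (norm_kv u).le (norm_kvr_le (et_pos n) u)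
      _ = 2 * ‖u‖⁻¹ ^ 2 := by ring
  · refine Filter.Eventually.of_forall fun u => ?_
    rcases eq_or_ne u 0 with rfl | hu
    · simp [kv, kvr]
    · have h1 : Tendsto (fun n => (P3rr (et n) u)⁻¹) atTop (𝓝 ‖u‖⁻¹) :=
        (P3rr_lim u).inv₀ (norm_ne_zero_iff.2 hu)
      have h2 : Tendsto (fun n => kvr (et n) u) atTop (𝓝 (kv u)) := by
        unfold kvr kv
        exact ((h1.pow 3).neg).smul_const u
      have h3 := (tendsto_const_nhds (x := kv u)).sub h2
      rw [sub_self] at h3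
      simpa using h3.norm

theorem gn_dist {f : E3 → ℝ} (hf : BCS f) {B R : ℝ} (hB : ∀ x, |f x| ≤ B)
    (hR : ∀ x, R < ‖x‖ → f x = 0) (M : ℝ) (n : ℕ) (y : E3) (hy : ‖y‖ ≤ M) :
    dist (gpot f y) (gn (et n) f y) ≤ B * ∫ u in closedBall (0 : E3) (M + R), ‖kv u - kvr (et n) u‖ := by
  have hB0 : 0 ≤ B := le_trans (abs_nonneg _) (hB 0)
  have hint : IntegrableOn (fun u => ‖kv u - kvr (et n) u‖) (closedBall (0 : E3) (M + R)) := by
    have h2 := (kern_int (M + R) 2 le_rfl 0).const_mul 2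
    refine h2.mono' ?_ ?_
    · exact (measurable_kv_P3.aestronglyMeasurable.sub
        (continuous_kvr (et_pos n)).aestronglyMeasurable).norm
    · refine Filter.Eventually.of_forall fun u => ?_
      rw [norm_norm, zero_sub, norm_neg]
      calc ‖kv u - kvr (et n) u‖ ≤ ‖kv u‖ + ‖kvr (et n) u‖ := norm_sub_le _ _
        _ ≤ ‖u‖⁻¹ ^ 2 + ‖u‖⁻¹ ^ 2 := add_le_add (norm_kv u).le (norm_kvr_le (et_pos n) u)
        _ = 2 * ‖u‖⁻¹ ^ 2 := by ring
  set G : E3 → ℝ := (closedBall (0 : E3) (M + R)).indicator (fun u => ‖kv u - kvr (et n) u‖) with hG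
  have hGi : Integrable G := hint.integrable_indicator measurableSet_closedBall
  have hGy : Integrable (fun z => B * G (y - z)) := (hGi.comp_sub_left y).const_mul B
  rw [dist_eq_norm]
  unfold gpot gn
  rw [← integral_sub (hf.int_kv y) (int_kvr hf (et_pos n) y)]
  calc ‖∫ z, (f z • kv (y - z) - f z • kvr (et n) (y - z))‖
      ≤ ∫ z, B * G (y - z) := by
        refine norm_integral_le_of_norm_le hGy (Filter.Eventually.of_forall fun z => ?_)
        rw [← smul_sub, norm_smul]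
        by_cases hz : R < ‖z‖
        · rw [hR z hz, norm_zero, zero_mul]
          refine mul_nonneg hB0 ?_
          rw [hG]
          exact Set.indicator_nonneg (fun _ _ => norm_nonneg _) _
        · have hm : y - z ∈ closedBall (0 : E3) (M + R) := by
            rw [mem_closedBall_zero_iff]
            exact (norm_sub_le _ _).trans (add_le_add hy (not_lt.1 hz))
          rw [hG, Set.indicator_of_mem hm]
          exact mul_le_mul_of_nonneg_right (hB z) (norm_nonneg _)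
    _ = B * ∫ u, G u := by
        rw [integral_const_mul, integral_sub_left_eq_self (fun u => G u) volume y]
    _ = _ := by
        rw [hG, integral_indicator measurableSet_closedBall]

theorem gn_unif {f : E3 → ℝ} (hf : BCS f) (M : ℝ) :
    TendstoUniformlyOn (fun n => gn (et n) f) (gpot f) atTop (ball (0 : E3) M) := by
  obtain ⟨B, hB⟩ := hf.bdd
  obtain ⟨R, hR⟩ := hf.supp
  rw [Metric.tendstoUniformlyOn_iff]
  intro ε hε
  have h1 := (kv_lim (M + R)).const_mul B
  rw [mul_zero] at h1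
  filter_upwards [h1.eventually (gt_mem_nhds hε)] with n hn x hx
  exact (gn_dist hf hB hR M n x (mem_ball_zero_iff.1 hx).le).trans_lt hn

theorem pn_lim {f : E3 → ℝ} (hf : BCS f) (y : E3) :
    Tendsto (fun n => pn (et n) f y) atTop (𝓝 (pot f y)) := by
  unfold pn pot
  refine tendsto_integral_of_dominated_convergence (fun z : E3 => ‖‖y - z‖⁻¹ ^ 1 * f z‖) (fun n => ?_)
    (hf.int_kern 1 one_le_two y).norm (fun n => ?_) ?_
  · have hcm : Continuous fun z : E3 => (P3rr (et n) (y - z))⁻¹ :=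
      ((continuous_rr (et n)).comp (continuous_const.sub continuous_id)).inv₀
        fun z => (P3rr_pos (et_pos n) _).ne'
    exact hcm.aestronglyMeasurable.mul hf.meas.aestronglyMeasurable
  · have hne : ∀ᵐ z : E3, z ≠ y := by
      rw [ae_iff]; simp
    filter_upwards [hne] with z hz
    have h0 : 0 < ‖y - z‖ := norm_pos_iff.2 (sub_ne_zero.2 hz.symm)
    rw [norm_mul, norm_mul, pow_one, norm_inv, norm_inv, norm_norm,
      Real.norm_of_nonneg (P3rr_pos (et_pos n) _).le]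
    exact mul_le_mul_of_nonneg_right (inv_anti₀ h0 (P3rr_ge _ _)) (norm_nonneg _)
  · have hne : ∀ᵐ z : E3, z ≠ y := by
      rw [ae_iff]; simp
    filter_upwards [hne] with z hz
    exact ((P3rr_lim (y - z)).inv₀ (norm_ne_zero_iff.2 (sub_ne_zero.2 hz.symm))).mul_const _

theorem hasFDerivAt_pot {f : E3 → ℝ} (hf : BCS f) (y : E3) :
    HasFDerivAt (pot f) (innerSL ℝ (gpot f y)) y := by
  have hu : TendstoUniformlyOn (fun n x => innerSL ℝ (gn (et n) f x))
      (fun x => innerSL ℝ (gpot f x)) atTop (ball (0 : E3) (‖y‖ + 1)) := by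
    have h1 := gn_unif hf (‖y‖ + 1)
    rw [Metric.tendstoUniformlyOn_iff] at h1 ⊢
    intro ε hε
    filter_upwards [h1 ε hε] with n hn x hx
    have h2 := hn x hx
    rw [dist_eq_norm] at h2 ⊢
    rw [← map_sub, innerSL_apply_norm]
    exact h2
  exact hasFDerivAt_of_tendstoUniformlyOn isOpen_ball hu
    (fun n x _ => hasFDerivAt_pn hf (et_pos n) x) (fun x _ => pn_lim hf x)
    (mem_ball_zero_iff.2 (lt_add_one _))

theorem continuous_gpot {f : E3 → ℝ} (hf : BCS f) : Continuous (gpot f) := by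
  rw [continuous_iff_continuousAt]
  intro y
  have h1 := (gn_unif hf (‖y‖ + 1)).continuousOn
    (Filter.Eventually.of_forall fun n => (continuous_gn hf (et_pos n)).continuousOn).frequently
  exact h1.continuousAt (isOpen_ball.mem_nhds (mem_ball_zero_iff.2 (lt_add_one _)))

end Pool.Agent.H36.LN
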