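import Pool.Agent.H36.LN.P3

/-!
# LN-P3b: corollaries of P3

* `pd i (pot f) y = gpot f y i`: apply the derivative `innerSL ℝ (gpot f y)` to `ee i`.
* `contDiff_pot`: `contDiff_one_iff_fderiv`, `fderiv (pot f) = fun y => innerSL ℝ (gpot f y)`, continuous by `continuous_gpot`.
* `pot_lip`: mean value inequality with `pot_bound`.
* `dec_pot`: `‖innerSL ℝ v‖ = ‖v‖` and `pot_bound`.
-/

open MeasureTheory Set Metric

namespace Pool.Agent.H36.LN

theorem continuous_pot {f : E3 → ℝ} (hf : BCS f) : Continuous (pot f) := by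
  exact continuous_iff_continuousAt.2 fun y => (hasFDerivAt_pot hf y).continuousAt

theorem contDiff_pot {f : E3 → ℝ} (hf : BCS f) : ContDiff ℝ 1 (pot f) := by
  rw [contDiff_one_iff_fderiv]
  refine ⟨fun y => (hasFDerivAt_pot hf y).differentiableAt, ?_⟩
  have h : fderiv ℝ (pot f) = fun y => innerSL ℝ (gpot f y) := by
    ext1 y
    exact (hasFDerivAt_pot hf y).fderiv
  rw [h]
  exact (innerSL ℝ).continuous.comp (continuous_gpot hf)

theorem pd_pot {f : E3 → ℝ} (hf : BCS f) (i : Fin 3) (y : E3) : pd i (pot f) y = gpot f y i := by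
  unfold pd
  rw [(hasFDerivAt_pot hf y).fderiv, innerSL_apply_apply, ee, EuclideanSpace.inner_single_right]
  simp

theorem line_pot {f : E3 → ℝ} (hf : BCS f) (i : Fin 3) (y : E3) :
    HasLineDerivAt ℝ (pot f) (gpot f y i) y (ee i) := by
  have h := (hasFDerivAt_pot hf y).hasLineDerivAt (ee i)
  have h2 : (innerSL ℝ (gpot f y)) (ee i) = gpot f y i := by
    rw [innerSL_apply_apply, ee, EuclideanSpace.inner_single_right]
    simp
  rw [h2] at h
  exact h

/-- Lipschitz bound, uniform for densities bounded by `B` with support in a ball -/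
theorem pot_lip (R : ℝ) : ∃ C : ℝ, 0 < C ∧ ∀ (f : E3 → ℝ) (B : ℝ), Measurable f →
    (∀ x, |f x| ≤ B) → (∀ x, R < ‖x‖ → f x = 0) →
    ∀ y y', |pot f y - pot f y'| ≤ C * B * ‖y - y'‖ := by
  obtain ⟨C, hC, hb⟩ := pot_bound R
  refine ⟨C, hC, ?_⟩
  intro f B hm hB hs y y'
  have hf : BCS f := ⟨hm, ⟨B, hB⟩, ⟨R, hs⟩⟩
  have hB0 : 0 ≤ B := (abs_nonneg _).trans (hB 0)
  have h := Convex.norm_image_sub_le_of_norm_fderiv_le (𝕜 := ℝ) (f := pot f) (C := C * B)
    (s := univ) (x := y') (y := y) (fun x _ => (hasFDerivAt_pot hf x).differentiableAt)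
    (fun x _ => ?_) convex_univ (mem_univ _) (mem_univ _)
  · simpa [Real.norm_eq_abs] using h
  · rw [(hasFDerivAt_pot hf x).fderiv, innerSL_apply_norm]
    refine (hb f B hm hB hs x).2.trans ?_
    have h1 : (1 + ‖x‖)⁻¹ ≤ 1 := inv_le_one_of_one_le₀ (by linarith [norm_nonneg x])
    have h0 : 0 ≤ (1 + ‖x‖)⁻¹ := by positivity
    have h2 : (1 + ‖x‖)⁻¹ ^ 2 ≤ 1 := pow_le_one₀ h0 h1
    have h3 : 0 ≤ C * B := mul_nonneg hC.le hB0
    calc C * B * (1 + ‖x‖)⁻¹ ^ 2 ≤ C * B * 1 := mul_le_mul_of_nonneg_left h2 h3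
      _ = C * B := mul_one _

theorem dec_pot {f : E3 → ℝ} (hf : BCS f) : Dec (pot f) := by
  obtain ⟨B, hB⟩ := hf.bdd
  obtain ⟨R, hR⟩ := hf.supp
  obtain ⟨C, hC, hb⟩ := pot_bound R
  refine ⟨contDiff_pot hf, ⟨C * B, fun x => ?_⟩⟩
  rw [(hasFDerivAt_pot hf x).fderiv, innerSL_apply_norm]
  exact hb f B hf.meas hB hR x

end Pool.Agent.H36.LN
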