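import Pool.Agent.H36.LN.P4

/-!
# LN-P5: `Δ (1/|y-x|) = -4π δ_x` in weak form

Plan (`newton`). Translate to `x = 0`. Either spherical coordinates (`MeasureTheory.Measure.measurePreserving_homeomorphUnitSphereProd`,
`volumeIoiPow`; total mass of the sphere measure is `3 · vol(B_1) = 4π`), or the following trick without sphere measure. Let `η ≥ 0` be a
radial function, `η(y) = h(‖y‖)`, continuous, supported in `1 ≤ ‖y‖ ≤ 2`, `∫ η > 0`. For every `y`, `∫_0^∞ (d/ds) w(s y) ds = -w(0)` if `y ≠ 0`,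
so `∫_0^∞ ∫ (Dw(s y) y) η(y) dy ds = -w(0) ∫ η`. Substitute `y → y/s` in the inner integral (`integral_comp_smul`, factor `s^{-3}`) and use Fubini:
`∫ Dw(y) y (∫_0^∞ s^{-4} η(y/s) ds) dy`; the bracket equals `‖y‖^{-3} ∫_0^∞ t² h(t) dt = ‖y‖^{-3} (∫ η)/(4π)`
(substitution `s = ‖y‖/t`; `integral_fun_norm_addHaar`, volume of the unit ball `4π/3`: `EuclideanSpace.volume_ball_fin_three` or similar).
`int_pd_zero`: integral of a partial derivative of a `C_c¹` function vanishes (integration by parts against a cutoff, or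
`integral_bilinear_hasLineDerivAt_right_eq_neg_left_of_integrable`-type results, or Fubini).
-/

open MeasureTheory Set Metric

namespace Pool.Agent.H36.LN

theorem pd_cont {f : E3 → ℝ} (hf : CC1 f) (i : Fin 3) : Continuous (pd i f) := by
  unfold pd
  exact (hf.c1.continuous_fderiv one_ne_zero).clm_apply continuous_const

theorem pd_cs {f : E3 → ℝ} (hf : CC1 f) (i : Fin 3) : HasCompactSupport (pd i f) := by
  unfold pd
  exact hf.cs.fderiv_apply ℝ (ee i)

theorem int_pd_zero {f : E3 → ℝ} (hf : CC1 f) (i : Fin 3) : ∫ x, pd i f x = 0 := by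
  have h := integral_mul_fderiv_eq_neg_fderiv_mul_of_integrable (μ := (volume : Measure E3))
    (f := fun _ : E3 => (1 : ℝ)) (g := f) (v := ee i)
    (by simp) (by
      simp only [one_mul]
      exact (pd_cont hf i).integrable_of_hasCompactSupport (pd_cs hf i))
    (by
      simp only [one_mul]
      exact hf.c1.continuous.integrable_of_hasCompactSupport hf.cs)
    (fun x _ => differentiableAt_const _)
    (fun x _ => (hf.c1.differentiable one_ne_zero) x)
  simpa [pd] using h

/-- polar coordinates -/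
theorem polar {g : E3 → ℝ} (hg : Integrable g) :
    ∫ y, g y = ∫ ω : sphere (0 : E3) 1, (∫ r in Ioi (0 : ℝ), r ^ 2 * g (r • (ω : E3)))
      ∂(volume : Measure E3).toSphere := by
  have hdim : Module.finrank ℝ E3 = 3 := by simp
  have hmp := (volume : Measure E3).measurePreserving_homeomorphUnitSphereProd
  rw [hdim] at hmp
  have hsymm := hmp.symm (homeomorphUnitSphereProd E3).toMeasurableEquiv
  have h1 : ∫ y, g y = ∫ x : ({(0 : E3)}ᶜ : Set E3), g x ∂((volume : Measure E3).comap (↑)) := by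
    rw [integral_subtype_comap (measurableSet_singleton _).compl, restrict_compl_singleton]
  have hemb : MeasurableEmbedding (homeomorphUnitSphereProd E3).symm :=
    Homeomorph.measurableEmbedding _
  have h2 : ∫ x : ({(0 : E3)}ᶜ : Set E3), g x ∂((volume : Measure E3).comap (↑)) =
      ∫ p, g (((homeomorphUnitSphereProd E3).symm p : ({(0 : E3)}ᶜ : Set E3)) : E3)
        ∂((volume : Measure E3).toSphere.prod (Measure.volumeIoiPow (3 - 1))) :=
    (hsymm.integral_comp hemb (fun x : ({(0 : E3)}ᶜ : Set E3) => g x)).symm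
  have h3 : Integrable (fun p => g (((homeomorphUnitSphereProd E3).symm p :
      ({(0 : E3)}ᶜ : Set E3)) : E3))
      ((volume : Measure E3).toSphere.prod (Measure.volumeIoiPow (3 - 1))) := by
    refine (hsymm.integrable_comp_emb hemb (g := fun x : ({(0 : E3)}ᶜ : Set E3) => g x)).mpr ?_
    exact (integrableOn_iff_comap_subtypeVal (measurableSet_singleton _).compl).mp hg.integrableOn
  rw [h1, h2, integral_prod _ h3]
  refine integral_congr_ae (Filter.Eventually.of_forall fun ω => ?_)
  simp only [homeomorphUnitSphereProd_symm_apply_coe]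
  have h4 := integral_withDensity_eq_integral_smul
    (μ := (volume : Measure ℝ).comap (Subtype.val : Ioi (0 : ℝ) → ℝ))
    (f := fun r : Ioi (0 : ℝ) => Real.toNNReal (r.1 ^ 2))
    ((measurable_subtype_coe.pow_const _).real_toNNReal)
    (fun r : Ioi (0 : ℝ) => g ((r : ℝ) • (ω : E3)))
  have h5 : Measure.volumeIoiPow (3 - 1) =
      ((volume : Measure ℝ).comap (Subtype.val : Ioi (0 : ℝ) → ℝ)).withDensity
        (fun r : Ioi (0 : ℝ) => (Real.toNNReal (r.1 ^ 2) : ENNReal)) := rfl
  rw [h5, h4, integral_subtype_comap measurableSet_Ioi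
    (fun a : ℝ => Real.toNNReal (a ^ 2) • g (a • (ω : E3)))]
  refine setIntegral_congr_fun measurableSet_Ioi fun r hr => ?_
  simp only [NNReal.smul_def, Real.coe_toNNReal _ (sq_nonneg r), smul_eq_mul]

theorem newton_int {w : E3 → ℝ} (hw : CC1 w) (x : E3) :
    Integrable (fun y => fderiv ℝ w y (((‖y - x‖⁻¹) ^ 3) • (y - x))) := by
  obtain ⟨C, hC⟩ := (hw.cs.fderiv (𝕜 := ℝ)).exists_bound_of_continuous
    (hw.c1.continuous_fderiv one_ne_zero)
  obtain ⟨R, hR⟩ := (hw.cs.fderiv (𝕜 := ℝ)).isBounded.subset_closedBall (0 : E3)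
  have h1 := (kern_int R 2 le_rfl x).const_mul C
  have h2 : Integrable ((closedBall (0 : E3) R).indicator (fun z => C * ‖x - z‖⁻¹ ^ 2)) :=
    (integrable_indicator_iff measurableSet_closedBall).mpr h1
  have hC0 : 0 ≤ C := (norm_nonneg _).trans (hC 0)
  refine h2.mono ?_ ?_
  · have hm : Measurable (fun y : E3 => ((‖y - x‖⁻¹) ^ 3) • (y - x)) := by fun_prop
    have hm2 : Measurable (fun y : E3 => fderiv ℝ w y) :=
      (hw.c1.continuous_fderiv one_ne_zero).measurable
    exact (isBoundedBilinearMap_apply.continuous.measurable.comp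
      (hm2.prodMk hm)).aestronglyMeasurable
  · refine Filter.Eventually.of_forall fun y => ?_
    by_cases hy : y ∈ closedBall (0 : E3) R
    · rw [indicator_of_mem hy]
      have h3 : ‖((‖y - x‖⁻¹) ^ 3) • (y - x)‖ ≤ ‖x - y‖⁻¹ ^ 2 := by
        rw [norm_smul, norm_pow, norm_inv, norm_norm, norm_sub_rev x y]
        by_cases h0 : ‖y - x‖ = 0
        · simp [h0]
        · apply le_of_eq
          field_simp
      calc ‖fderiv ℝ w y (((‖y - x‖⁻¹) ^ 3) • (y - x))‖
          ≤ ‖fderiv ℝ w y‖ * ‖((‖y - x‖⁻¹) ^ 3) • (y - x)‖ := ContinuousLinearMap.le_opNorm _ _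
        _ ≤ C * ‖x - y‖⁻¹ ^ 2 := mul_le_mul (hC y) h3 (norm_nonneg _) hC0
        _ = ‖C * ‖x - y‖⁻¹ ^ 2‖ := (Real.norm_of_nonneg (by positivity)).symm
    · rw [indicator_of_notMem hy]
      have h3 : fderiv ℝ w y = 0 := by
        by_contra hne
        exact hy (hR (subset_tsupport _ hne))
      simp [h3]

theorem newton {w : E3 → ℝ} (hw : CC1 w) (x : E3) :
    Integrable (fun y => fderiv ℝ w y (((‖y - x‖⁻¹) ^ 3) • (y - x))) ∧
    ∫ y, fderiv ℝ w y (((‖y - x‖⁻¹) ^ 3) • (y - x)) = -(4 * Real.pi * w x) := by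
  refine ⟨newton_int hw x, ?_⟩
  have h1 : ∫ y, fderiv ℝ w y (((‖y - x‖⁻¹) ^ 3) • (y - x)) =
      ∫ y, fderiv ℝ w (y + x) (((‖y‖⁻¹) ^ 3) • y) := by
    rw [← integral_add_right_eq_self (fun y => fderiv ℝ w y (((‖y - x‖⁻¹) ^ 3) • (y - x))) x]
    simp only [add_sub_cancel_right]
  have h2 : Integrable (fun y => fderiv ℝ w (y + x) (((‖y‖⁻¹) ^ 3) • y)) := by
    have h3 := (newton_int hw x).comp_add_right x
    simpa only [add_sub_cancel_right] using h3
  rw [h1, polar h2]
  have h4 : ∀ ω : sphere (0 : E3) 1, (∫ r in Ioi (0 : ℝ), r ^ 2 *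
      fderiv ℝ w (r • (ω : E3) + x) (((‖r • (ω : E3)‖⁻¹) ^ 3) • (r • (ω : E3)))) = -w x := by
    intro ω
    have hω : ‖(ω : E3)‖ = 1 := mem_sphere_zero_iff_norm.mp ω.2
    let u : ℝ → ℝ := fun r => w (r • (ω : E3) + x)
    have hu : ContDiff ℝ 1 u := by
      apply hw.c1.comp
      fun_prop
    have hucs : HasCompactSupport u := by
      obtain ⟨R, hR⟩ := hw.cs.isBounded.subset_closedBall (0 : E3)
      refine HasCompactSupport.of_support_subset_isCompact (K := Icc (-(R + ‖x‖)) (R + ‖x‖))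
        isCompact_Icc ?_
      intro r hr
      have h5 : r • (ω : E3) + x ∈ closedBall (0 : E3) R := hR (subset_tsupport _ hr)
      rw [mem_closedBall, dist_zero_right] at h5
      have h6 : |r| ≤ R + ‖x‖ := by
        have h7 : ‖r • (ω : E3)‖ = |r| := by rw [norm_smul, hω, mul_one, Real.norm_eq_abs]
        calc |r| = ‖(r • (ω : E3) + x) - x‖ := by rw [add_sub_cancel_right, h7]
          _ ≤ ‖r • (ω : E3) + x‖ + ‖x‖ := norm_sub_le _ _
          _ ≤ R + ‖x‖ := by linarith
      exact abs_le.mp h6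
    have h8 := hucs.integral_Ioi_deriv_eq hu 0
    have h9 : u 0 = w x := by simp [u]
    rw [← h9, ← h8]
    refine setIntegral_congr_fun measurableSet_Ioi fun r hr => ?_
    have hr0 : (0 : ℝ) < r := hr
    have h10 : HasDerivAt u (fderiv ℝ w (r • (ω : E3) + x) (ω : E3)) r := by
      have h11 : HasDerivAt (fun r : ℝ => r • (ω : E3) + x) (ω : E3) r := by
        simpa using ((hasDerivAt_id r).smul_const (ω : E3)).add_const x
      exact ((hw.c1.differentiable one_ne_zero) _).hasFDerivAt.comp_hasDerivAt r h11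
    rw [h10.deriv, norm_smul, hω, mul_one, Real.norm_eq_abs, abs_of_pos hr0, map_smul, map_smul,
      smul_eq_mul, smul_eq_mul]
    field_simp
  simp only [h4]
  rw [integral_const, Measure.toSphere_real_apply_univ]
  have h12 : (volume : Measure E3).real (ball 0 1) = Real.pi * 4 / 3 := by
    rw [Measure.real, EuclideanSpace.volume_ball_fin_three]
    rw [ENNReal.ofReal_one, one_pow, one_mul, ENNReal.toReal_ofReal (by positivity)]
  rw [h12]
  have h13 : (Module.finrank ℝ E3 : ℝ) = 3 := by simp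
  rw [h13, smul_eq_mul]
  ring

end Pool.Agent.H36.LN
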