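import Pool.Agent.H36.LN.P2b

/-!
# LN-S1: existence for `m = β(s - pot(ρ m))`, `β` nondecreasing and Lipschitz

Work in `H = L²(ν)`, `ν = ρ dx` (`Lp ℝ 2 (volume.withDensity fun x => ENNReal.ofReal (ρ x))`; `L2 ρ q` is `Measurable q` plus `MemLp q 2 ν`).
The operator `𝒢 m = pot(ρ m)` is linear on `H` (`l2_pot_l2`, `pot_add`, `pot_smul`; the integral only depends on the class of `m`), symmetric and positive for the inner
product `⟨p, q⟩ = ∫ ρ p q` (`en_symm`, `en_nonneg`), and bounded: `‖𝒢m‖ ≤ C₀‖m‖` (`l2_pot`). Moreover `‖𝒢m‖² ≤ C₁ ⟨m, 𝒢m⟩`: by `en_cs`,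
`(∫ρ (𝒢m)(𝒢m))² = W(𝒢m, m)² ≤ W(𝒢m,𝒢m) W(m,m)`, and `W(p,p) = ⟨p,𝒢p⟩ ≤ C₀‖p‖²`.
Choose `τ > 0` with `τ C₁ ≤ 1`: then `‖m - τ𝒢m‖² = ‖m‖² - 2τ⟨m,𝒢m⟩ + τ²‖𝒢m‖² ≤ ‖m‖²`.
Let `g(w) = β(w) + τ w`, a strictly increasing bijection of `ℝ` (continuous, `g(w) - τ w` nondecreasing, so `g → ±∞`), and
`r = β ∘ g⁻¹`. For `w ≥ w'`: `0 ≤ β(w)-β(w') ≤ (L/(L+τ)) (g(w)-g(w'))`, since `β(w)-β(w') ≤ L(w-w')`. So `r` is Lipschitz with constant `k = L/(L+τ) < 1`.
The map `Φ(m) = r(m - τ(𝒢m - s))` is a contraction of `H` with constant `k` (`LipschitzWith.compLp`-type; `r` Lipschitz, `ν` finite so constants are in `H`;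
`ContractingWith.exists_fixedPoint`). A fixed point: `m = β(w)` with `β(w) + τw = m - τ(𝒢m - s)`, so `w = s - 𝒢m` (`ν`-a.e.).
Finally put `m̃(y) = β(s(y) - pot(ρ m)(y))` for all `y`: it equals `m` `ν`-a.e., so `pot(ρ m̃) = pot(ρ m)`; measurable (`β` monotone, hence measurable), and in `L²(ρ)`.
(Alternative to `Lp`: any complete space representing `L²(ρ)`; or Picard iteration done by hand with the estimates above.)
-/

open MeasureTheory Set
open scoped NNReal

namespace Pool.Agent.H36.LN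

private theorem S1_r {β : ℝ → ℝ} (hm : Monotone β) {L : ℝ≥0} (hL : LipschitzWith L β) {τ : ℝ}
    (hτ : 0 < τ) : ∃ r : ℝ → ℝ, (∀ u u', |r u - r u'| ≤ ((L : ℝ) / (L + τ)) * |u - u'|) ∧
      ∀ u, ∃ w, β w + τ * w = u ∧ β w = r u := by
  have hc : Continuous (fun w => β w + τ * w) := hL.continuous.add (continuous_const.mul continuous_id)
  have hex : ∀ u, ∃ w, β w + τ * w = u := by
    intro u
    have h := mem_range_of_exists_le_of_exists_ge hc (c := u)
      ⟨min 0 ((u - β 0) / τ), by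
        have h1 := hm (min_le_left 0 ((u - β 0) / τ))
        have h2 : τ * min 0 ((u - β 0) / τ) ≤ τ * ((u - β 0) / τ) :=
          mul_le_mul_of_nonneg_left (min_le_right _ _) hτ.le
        rw [mul_div_cancel₀ _ hτ.ne'] at h2
        linarith⟩
      ⟨max 0 ((u - β 0) / τ), by
        have h1 := hm (le_max_left 0 ((u - β 0) / τ))
        have h2 : τ * ((u - β 0) / τ) ≤ τ * max 0 ((u - β 0) / τ) :=
          mul_le_mul_of_nonneg_left (le_max_right _ _) hτ.le
        rw [mul_div_cancel₀ _ hτ.ne'] at h2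
        linarith⟩
    exact h
  choose w hw using hex
  have hLn : (0 : ℝ) ≤ L := L.2
  have key : ∀ a b, b ≤ a → β a - β b ≤ ((L : ℝ) / (L + τ)) * ((β a + τ * a) - (β b + τ * b)) := by
    intro a b hab
    have h1 := hL.dist_le_mul a b
    rw [Real.dist_eq, Real.dist_eq, abs_of_nonneg (sub_nonneg.2 hab),
      abs_of_nonneg (sub_nonneg.2 (hm hab))] at h1
    rw [div_mul_eq_mul_div, le_div_iff₀ (by positivity)]
    nlinarith
  refine ⟨fun u => β (w u), fun u u' => ?_, fun u => ⟨w u, hw u, rfl⟩⟩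
  rcases le_total (w u') (w u) with h | h
  · have h1 := key _ _ h
    rw [hw, hw] at h1
    rw [abs_of_nonneg (sub_nonneg.2 (hm h))]
    exact h1.trans (mul_le_mul_of_nonneg_left (le_abs_self _) (by positivity))
  · have h1 := key _ _ h
    rw [hw, hw] at h1
    rw [abs_sub_comm, abs_of_nonneg (sub_nonneg.2 (hm h)), abs_sub_comm u]
    exact h1.trans (mul_le_mul_of_nonneg_left (le_abs_self _) (by positivity))

private theorem S1_G {ρ : E3 → ℝ} (hρ : Wt ρ) : ∃ C : ℝ, 0 < C ∧ ∀ p : E3 → ℝ, L2 ρ p →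
    ∫ z, ρ z * (pot (fun w => ρ w * p w) z) ^ 2 ≤
      C * ∫ z, ρ z * (p z * pot (fun w => ρ w * p w) z) := by
  obtain ⟨C, hC0, hC⟩ := l2_pot hρ
  have hρ0 := hρ.nonneg
  have hb : ∀ q : E3 → ℝ, L2 ρ q → ∫ z, ρ z * (q z * pot (fun w => ρ w * q w) z) ≤
      (C * Real.sqrt (∫ z, ρ z)) * ∫ z, ρ z * q z ^ 2 := by
    intro q hq
    have hq0 : 0 ≤ ∫ z, ρ z * q z ^ 2 := integral_nonneg fun z => mul_nonneg (hρ0 z) (sq_nonneg _)
    have h1 : ∫ z, ρ z * (q z * pot (fun w => ρ w * q w) z) ≤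
        ∫ z, (C * Real.sqrt (∫ z, ρ z * q z ^ 2)) * (ρ z * |q z|) := by
      refine integral_mono (L2.int_mul hρ hq (l2_pot_l2 hρ hq)) ?_ fun z => ?_
      · refine Integrable.const_mul ?_ _
        have h2 : L2 ρ (fun z => |q z|) := ⟨hq.meas.abs, by simpa only [sq_abs] using hq.int⟩
        exact (L2.int_one hρ h2).1
      · have h3 := (hC q hq z).2
        have h4 : q z * pot (fun w => ρ w * q w) z ≤ |q z| * (C * Real.sqrt (∫ z, ρ z * q z ^ 2)) := by
          refine (le_abs_self _).trans ?_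
          rw [abs_mul]
          exact mul_le_mul_of_nonneg_left h3 (abs_nonneg _)
        have h5 := mul_le_mul_of_nonneg_left h4 (hρ0 z)
        simp only
        linarith
    rw [integral_const_mul] at h1
    have h2 := (L2.int_one hρ hq).2
    have h3 := mul_le_mul_of_nonneg_left h2 (by positivity : 0 ≤ C * Real.sqrt (∫ z, ρ z * q z ^ 2))
    have h4 := Real.mul_self_sqrt hq0
    calc _ ≤ _ := h1
      _ ≤ _ := h3
      _ = (C * Real.sqrt (∫ z, ρ z)) * (Real.sqrt (∫ z, ρ z * q z ^ 2) * Real.sqrt (∫ z, ρ z * q z ^ 2)) := by ring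
      _ = _ := by rw [h4]
  refine ⟨C * Real.sqrt (∫ z, ρ z) + 1, by positivity, fun p hp => ?_⟩
  have hG := l2_pot_l2 hρ hp
  have h1 := en_cs hρ hG hp
  have h2 := hb _ hG
  have h3 := en_nonneg hρ hp
  have h4 := en_nonneg hρ hG
  have e : ∀ z, ρ z * (pot (fun w => ρ w * p w) z) ^ 2 =
      ρ z * (pot (fun w => ρ w * p w) z * pot (fun w => ρ w * p w) z) := fun z => by ring
  have h5 : 0 ≤ ∫ z, ρ z * (pot (fun w => ρ w * p w) z) ^ 2 :=
    integral_nonneg fun z => mul_nonneg (hρ0 z) (sq_nonneg _)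
  simp only [← e] at h1
  set X := ∫ z, ρ z * (pot (fun w => ρ w * p w) z) ^ 2
  set Y := ∫ z, ρ z * (p z * pot (fun w => ρ w * p w) z)
  have h6 : X ^ 2 ≤ (C * Real.sqrt (∫ z, ρ z)) * X * Y := h1.trans (mul_le_mul_of_nonneg_right h2 h3)
  rcases h5.eq_or_lt with h | h
  · rw [← h]; positivity
  · have h7 : X * X ≤ X * ((C * Real.sqrt (∫ z, ρ z)) * Y) := by nlinarith
    have h8 := le_of_mul_le_mul_left h7 h
    linarith

private theorem S1_lip {ρ q : E3 → ℝ} (hρ : Wt ρ) (hq : L2 ρ q) {r : ℝ → ℝ} {k : ℝ} (hk : 0 ≤ k)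
    (hr : ∀ u u', |r u - r u'| ≤ k * |u - u'|) : L2 ρ (fun z => r (q z)) := by
  have hrm : Measurable r := by
    have : LipschitzWith ⟨k, hk⟩ r := LipschitzWith.of_dist_le_mul fun u u' => by
      rw [Real.dist_eq, Real.dist_eq]; exact hr u u'
    exact this.continuous.measurable
  have hm := hρ.bcs.meas
  have hqm := hq.meas
  refine ⟨hrm.comp hqm, ?_⟩
  refine Integrable.mono' ((hρ.bcs.int.const_mul (2 * r 0 ^ 2)).add (hq.int.const_mul (2 * k ^ 2)))
    (by fun_prop) (Filter.Eventually.of_forall fun z => ?_)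
  rw [Real.norm_eq_abs, abs_of_nonneg (mul_nonneg (hρ.nonneg z) (sq_nonneg _)), Pi.add_apply]
  have h1 := hr (q z) 0
  rw [sub_zero] at h1
  have h2 : r (q z) ^ 2 ≤ 2 * r 0 ^ 2 + 2 * k ^ 2 * q z ^ 2 := by
    have h3 : (r (q z) - r 0) ^ 2 ≤ k ^ 2 * q z ^ 2 := by
      have := pow_le_pow_left₀ (abs_nonneg _) h1 2
      rwa [sq_abs, mul_pow, sq_abs] at this
    nlinarith [sq_nonneg (r (q z) - 2 * r 0)]
  have h4 := mul_le_mul_of_nonneg_left h2 (hρ.nonneg z)
  linarith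

theorem fix_exists {ρ : E3 → ℝ} (hρ : Wt ρ) {β : ℝ → ℝ} (hm : Monotone β) {L : ℝ≥0}
    (hL : LipschitzWith L β) {s : E3 → ℝ} (hs : L2 ρ s) :
    ∃ m : E3 → ℝ, L2 ρ m ∧ ∀ y, m y = β (s y - pot (fun z => ρ z * m z) y) := by
  classical
  obtain ⟨C₁, hC₁, hG⟩ := S1_G hρ
  set τ : ℝ := C₁⁻¹ with hτd
  have hτ : 0 < τ := inv_pos.2 hC₁
  have hLn : (0 : ℝ) ≤ L := L.2
  obtain ⟨r, hr, hw⟩ := S1_r hm hL hτ
  set k : ℝ := (L : ℝ) / (L + τ) with hk
  have hk0 : 0 ≤ k := by positivity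
  have hk1 : k < 1 := by
    rw [hk, div_lt_one (by positivity)]
    linarith
  have hρm := hρ.bcs.meas
  have hρ0 := hρ.nonneg
  -- the contraction estimate
  have hcon : ∀ p p' : E3 → ℝ, L2 ρ p → L2 ρ p' →
      ∫ z, ρ z * (r (p z - τ * (pot (fun w => ρ w * p w) z - s z)) -
        r (p' z - τ * (pot (fun w => ρ w * p' w) z - s z))) ^ 2 ≤
      k ^ 2 * ∫ z, ρ z * (p z - p' z) ^ 2 := by
    intro p p' hp hp'
    have hd := L2.sub hρ hp hp'
    have hGd := l2_pot_l2 hρ hd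
    have hGe : ∀ z, pot (fun w => ρ w * (p w - p' w)) z =
        pot (fun w => ρ w * p w) z - pot (fun w => ρ w * p' w) z := fun z => pot_sub hρ hp hp' z
    have h1 : ∫ z, ρ z * (r (p z - τ * (pot (fun w => ρ w * p w) z - s z)) -
        r (p' z - τ * (pot (fun w => ρ w * p' w) z - s z))) ^ 2 ≤
        ∫ z, k ^ 2 * (ρ z * ((p z - p' z) - τ * pot (fun w => ρ w * (p w - p' w)) z) ^ 2) := by
      refine integral_mono_of_nonneg (Filter.Eventually.of_forall fun z =>
        mul_nonneg (hρ0 z) (sq_nonneg _)) ?_ (Filter.Eventually.of_forall fun z => ?_)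
      · exact (L2.sub hρ hd (hGd.smul τ)).int.const_mul _
      · have h2 := hr (p z - τ * (pot (fun w => ρ w * p w) z - s z))
          (p' z - τ * (pot (fun w => ρ w * p' w) z - s z))
        have h3 := pow_le_pow_left₀ (abs_nonneg _) h2 2
        rw [sq_abs, mul_pow, sq_abs] at h3
        have h4 := mul_le_mul_of_nonneg_left h3 (hρ0 z)
        have e : (p z - τ * (pot (fun w => ρ w * p w) z - s z)) -
            (p' z - τ * (pot (fun w => ρ w * p' w) z - s z)) =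
            (p z - p' z) - τ * pot (fun w => ρ w * (p w - p' w)) z := by
          rw [hGe z]; ring
        rw [e] at h4
        simp only
        linarith
    refine h1.trans ?_
    rw [integral_const_mul]
    refine mul_le_mul_of_nonneg_left ?_ (sq_nonneg _)
    have e : ∀ z, ρ z * ((p z - p' z) - τ * pot (fun w => ρ w * (p w - p' w)) z) ^ 2 =
        ρ z * (p z - p' z) ^ 2 - (2 * τ) * (ρ z * ((p z - p' z) * pot (fun w => ρ w * (p w - p' w)) z))
          + τ ^ 2 * (ρ z * (pot (fun w => ρ w * (p w - p' w)) z) ^ 2) := fun z => by ring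
    simp only [e]
    have i1 := hd.int
    have i2 := (L2.int_mul hρ hd hGd).const_mul (2 * τ)
    have i3 := hGd.int.const_mul (τ ^ 2)
    have i12 : Integrable (fun z => ρ z * (p z - p' z) ^ 2 - (2 * τ) *
        (ρ z * ((p z - p' z) * pot (fun w => ρ w * (p w - p' w)) z))) := i1.sub i2
    rw [integral_add i12 i3, integral_sub i1 i2, integral_const_mul, integral_const_mul]
    have h5 := hG _ hd
    have h6 := en_nonneg hρ hd
    have h7 : τ ^ 2 * ∫ z, ρ z * (pot (fun w => ρ w * (p w - p' w)) z) ^ 2 ≤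
        τ * ∫ z, ρ z * ((p z - p' z) * pot (fun w => ρ w * (p w - p' w)) z) := by
      calc _ ≤ τ ^ 2 * (C₁ * ∫ z, ρ z * ((p z - p' z) * pot (fun w => ρ w * (p w - p' w)) z)) :=
            mul_le_mul_of_nonneg_left h5 (sq_nonneg _)
        _ = (τ * C₁) * (τ * ∫ z, ρ z * ((p z - p' z) * pot (fun w => ρ w * (p w - p' w)) z)) := by ring
        _ = _ := by rw [hτd, inv_mul_cancel₀ hC₁.ne', one_mul]
    have h8 := mul_nonneg hτ.le h6
    linarith
  -- the space
  set ν : Measure E3 := volume.withDensity (fun z => ENNReal.ofReal (ρ z)) with hν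
  have hom : Measurable (fun z => ENNReal.ofReal (ρ z)) := hρm.ennreal_ofReal
  have hofin : ∀ᵐ z ∂(volume : Measure E3), ENNReal.ofReal (ρ z) < ⊤ :=
    Filter.Eventually.of_forall fun z => ENNReal.ofReal_lt_top
  have hI : ∀ g : E3 → ℝ, ∫ z, g z ∂ν = ∫ z, ρ z * g z := by
    intro g
    rw [hν, integral_withDensity_eq_integral_toReal_smul hom hofin]
    refine integral_congr_ae (Filter.Eventually.of_forall fun z => ?_)
    simp only [ENNReal.toReal_ofReal (hρ0 z), smul_eq_mul]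
  have hL2 : ∀ q : E3 → ℝ, Measurable q → (MemLp q 2 ν ↔ L2 ρ q) := by
    intro q hq
    rw [memLp_two_iff_integrable_sq hq.aestronglyMeasurable, hν,
      integrable_withDensity_iff_integrable_smul' hom hofin]
    simp only [ENNReal.toReal_ofReal (hρ0 _), smul_eq_mul]
    exact ⟨fun h => ⟨hq, h⟩, fun h => h.int⟩
  have hae : ∀ f g : E3 → ℝ, f =ᵐ[ν] g → (fun z => ρ z * f z) =ᵐ[volume] fun z => ρ z * g z := by
    intro f g h
    rw [Filter.EventuallyEq, hν, ae_withDensity_iff hom] at h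
    filter_upwards [h] with z hz
    by_cases h0 : ρ z = 0
    · rw [h0, zero_mul, zero_mul]
    · rw [hz (by
        simp only [ne_eq, ENNReal.ofReal_eq_zero, not_le]
        exact lt_of_le_of_ne (hρ0 z) (Ne.symm h0))]
  have hcL : ∀ m : Lp ℝ 2 ν, L2 ρ m := fun m =>
    (hL2 _ (Lp.stronglyMeasurable m).measurable).1 (Lp.memLp m)
  have hRL : ∀ p : E3 → ℝ, L2 ρ p →
      L2 ρ (fun z => r (p z - τ * (pot (fun w => ρ w * p w) z - s z))) := fun p hp =>
    S1_lip hρ (L2.sub hρ hp ((L2.sub hρ (l2_pot_l2 hρ hp) hs).smul τ)) hk0 hr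
  have hnorm : ∀ f : Lp ℝ 2 ν, ‖f‖ ^ 2 = ∫ z, ρ z * (f z) ^ 2 := by
    intro f
    rw [← real_inner_self_eq_norm_sq, L2.inner_def, ← hI]
    refine integral_congr_ae (Filter.Eventually.of_forall fun z => ?_)
    simp only [real_inner_self_eq_norm_sq, Real.norm_eq_abs, sq_abs]
  have hRm : ∀ m : Lp ℝ 2 ν, MemLp (fun z => r (m z - τ * (pot (fun w => ρ w * m w) z - s z))) 2 ν :=
    fun m => (hL2 _ (hRL m (hcL m)).meas).2 (hRL m (hcL m))
  set Φ : Lp ℝ 2 ν → Lp ℝ 2 ν := fun m => (hRm m).toLp _ with hΦ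
  have hctr : ContractingWith ⟨k, hk0⟩ Φ := by
    refine ⟨by rw [← NNReal.coe_lt_coe]; exact hk1, LipschitzWith.of_dist_le_mul fun m m' => ?_⟩
    have e1 : ‖Φ m - Φ m'‖ ^ 2 ≤ k ^ 2 * ‖m - m'‖ ^ 2 := by
      rw [hnorm, hnorm]
      have a1 : ∫ z, ρ z * ((Φ m - Φ m' : Lp ℝ 2 ν) z) ^ 2 =
          ∫ z, ρ z * (r (m z - τ * (pot (fun w => ρ w * m w) z - s z)) -
            r (m' z - τ * (pot (fun w => ρ w * m' w) z - s z))) ^ 2 := by
        rw [← hI, ← hI]
        refine integral_congr_ae ?_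
        filter_upwards [Lp.coeFn_sub (Φ m) (Φ m'), MemLp.coeFn_toLp (hRm m),
          MemLp.coeFn_toLp (hRm m')] with z h1 h2 h3
        simp only at h2 h3
        rw [h1, Pi.sub_apply]
        simp only [hΦ]
        rw [h2, h3]
      have a2 : ∫ z, ρ z * ((m - m' : Lp ℝ 2 ν) z) ^ 2 = ∫ z, ρ z * (m z - m' z) ^ 2 := by
        rw [← hI, ← hI]
        refine integral_congr_ae ?_
        filter_upwards [Lp.coeFn_sub m m'] with z h1
        rw [h1, Pi.sub_apply]
      rw [a1, a2]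
      exact hcon _ _ (hcL m) (hcL m')
    rw [dist_eq_norm, dist_eq_norm]
    have h0 : 0 ≤ k * ‖m - m'‖ := by positivity
    rw [← mul_pow] at e1
    exact (sq_le_sq₀ (norm_nonneg _) h0).1 e1
  have : Nonempty (Lp ℝ 2 ν) := ⟨0⟩
  set m := ContractingWith.fixedPoint Φ hctr with hmd
  have hfix : Φ m = m := hctr.fixedPoint_isFixedPt
  have hmL := hcL m
  have hmae : (m : E3 → ℝ) =ᵐ[ν] fun z => β (s z - pot (fun w => ρ w * m w) z) := by
    have h1 := MemLp.coeFn_toLp (hRm m)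
    have h2 : (hRm m).toLp _ = m := hfix
    rw [h2] at h1
    filter_upwards [h1] with z hz
    obtain ⟨w, hw1, hw2⟩ := hw (m z - τ * (pot (fun w => ρ w * m w) z - s z))
    have h3 : β w = m z := by rw [hw2]; exact hz.symm
    have h4 : w = s z - pot (fun w => ρ w * m w) z := by
      rw [h3] at hw1
      have h5 : τ * w = τ * (s z - pot (fun w => ρ w * m w) z) := by linarith
      exact mul_left_cancel₀ hτ.ne' h5
    rw [← h4]
    exact h3.symm
  have hβL : ∀ u u', |β u - β u'| ≤ (L : ℝ) * |u - u'| := fun u u' => by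
    have := hL.dist_le_mul u u'
    rwa [Real.dist_eq, Real.dist_eq] at this
  have hmt : L2 ρ (fun z => β (s z - pot (fun w => ρ w * m w) z)) :=
    S1_lip hρ (L2.sub hρ hs (l2_pot_l2 hρ hmL)) hLn hβL
  refine ⟨_, hmt, fun y => ?_⟩
  have hp : pot (fun z => ρ z * β (s z - pot (fun w => ρ w * m w) z)) y =
      pot (fun z => ρ z * m z) y := by
    unfold pot
    refine integral_congr_ae ?_
    filter_upwards [hae _ _ hmae] with z hz
    unfold pot at hz
    rw [hz]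
  rw [hp]

end Pool.Agent.H36.LN
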