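import Pool.Agent.H36.LN.S0

/-!
# LN-S4: the truncated source `NN r z`, a `C²` function on `ℝ³` with `NN r z = 1/|z|` for `|z| ≥ r`

`HH r u = u^{-1/2}` for `u ≥ r²`, and the second order Taylor polynomial at `u = r²` of `u^{-1/2}` for `u < r²`; `NN r z = HH r (‖z‖²)`.
`HH r` is `C²` (value, first and second derivatives match at `r²`: `r⁻¹`, `-½ r⁻³`, `¾ r⁻⁵`), `HH r u ≥ r⁻¹` for `u ≤ r²` (the Taylor polynomial is decreasing there).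
`NN_bounds`: first and second derivatives of `NN r` are bounded on `ℝ³` (compactness for `|z| ≤ 2r`, explicit for `|z| ≥ r`: `D(1/|z|)` and `D²(1/|z|)` are bounded by
`C|z|⁻²`, `C|z|⁻³`); then mean value / Taylor. (For the second order estimate one may use that `fderiv (NN r)` is Lipschitz:
`Convex.norm_image_sub_le_of_norm_fderiv_le` twice, or `‖f(z+h)-f(z)-Df(z)h‖ ≤ C‖h‖²` for `Df` Lipschitz.)
-/

open MeasureTheory Set

namespace Pool.Agent.H36.LN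

noncomputable def HH (r u : ℝ) : ℝ :=
  if r ^ 2 ≤ u then (Real.sqrt u)⁻¹
  else r⁻¹ - 1 / 2 * r⁻¹ ^ 3 * (u - r ^ 2) + 3 / 8 * r⁻¹ ^ 5 * (u - r ^ 2) ^ 2

noncomputable def NN (r : ℝ) (z : E3) : ℝ := HH r (‖z‖ ^ 2)

/-- gluing two functions with matching value and derivative -/
theorem S4_glue {a : ℝ} {p q p' q' : ℝ → ℝ} (hp : ∀ u, a ≤ u → HasDerivAt p (p' u) u)
    (hq : ∀ u, HasDerivAt q (q' u) u) (h0 : p a = q a) (h1 : p' a = q' a) (u : ℝ) :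
    HasDerivAt (fun x => if a ≤ x then p x else q x) (if a ≤ u then p' u else q' u) u := by
  rcases lt_trichotomy u a with h | h | h
  · rw [if_neg (not_le.2 h)]
    refine (hq u).congr_of_eventuallyEq ?_
    filter_upwards [Iio_mem_nhds h] with x hx
    rw [if_neg (not_le.2 hx)]
  · subst h
    rw [if_pos le_rfl]
    have e1 : HasDerivWithinAt (fun x => if u ≤ x then p x else q x) (p' u) (Ici u) u := by
      refine (hp u le_rfl).hasDerivWithinAt.congr (fun x hx => ?_) ?_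
      · rw [if_pos (mem_Ici.1 hx)]
      · rw [if_pos le_rfl]
    have e2 : HasDerivWithinAt (fun x => if u ≤ x then p x else q x) (p' u) (Iic u) u := by
      rw [h1]
      refine (hq u).hasDerivWithinAt.congr (fun x hx => ?_) ?_
      · rcases (mem_Iic.1 hx).lt_or_eq with h | h
        · rw [if_neg (not_le.2 h)]
        · subst h
          rw [if_pos le_rfl, h0]
      · rw [if_pos le_rfl, h0]
    have e3 := e2.union e1
    rw [Iic_union_Ici] at e3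
    exact hasDerivWithinAt_univ.1 e3
  · rw [if_pos h.le]
    refine (hp u h.le).congr_of_eventuallyEq ?_
    filter_upwards [Ioi_mem_nhds h] with x hx
    rw [if_pos (le_of_lt hx)]

/-- first derivative of `HH` -/
noncomputable def S4_H1 (r u : ℝ) : ℝ :=
  if r ^ 2 ≤ u then -(1 / 2) * (Real.sqrt u)⁻¹ ^ 3
  else -(1 / 2) * r⁻¹ ^ 3 + 3 / 4 * r⁻¹ ^ 5 * (u - r ^ 2)

/-- second derivative of `HH` -/
noncomputable def S4_H2 (r u : ℝ) : ℝ :=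
  if r ^ 2 ≤ u then 3 / 4 * (Real.sqrt u)⁻¹ ^ 5 else 3 / 4 * r⁻¹ ^ 5

theorem S4_dinvsqrt {u : ℝ} (hu : 0 < u) :
    HasDerivAt (fun x : ℝ => (Real.sqrt x)⁻¹) (-(1 / 2) * (Real.sqrt u)⁻¹ ^ 3) u := by
  have h := (Real.hasDerivAt_sqrt hu.ne').inv (Real.sqrt_pos.2 hu).ne'
  have hs := (Real.sqrt_pos.2 hu).ne'
  refine h.congr_deriv ?_
  field_simp

theorem S4_d1 {r : ℝ} (hr : 0 < r) (u : ℝ) : HasDerivAt (HH r) (S4_H1 r u) u := by
  have h := S4_glue (a := r ^ 2) (p := fun x => (Real.sqrt x)⁻¹)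
    (q := fun x => r⁻¹ - 1 / 2 * r⁻¹ ^ 3 * (x - r ^ 2) + 3 / 8 * r⁻¹ ^ 5 * (x - r ^ 2) ^ 2)
    (p' := fun x => -(1 / 2) * (Real.sqrt x)⁻¹ ^ 3)
    (q' := fun x => -(1 / 2) * r⁻¹ ^ 3 + 3 / 4 * r⁻¹ ^ 5 * (x - r ^ 2))
    (fun x hx => S4_dinvsqrt (lt_of_lt_of_le (by positivity) hx))
    (fun x => by
      have h1 : HasDerivAt (fun x : ℝ => x - r ^ 2) 1 x := (hasDerivAt_id x).sub_const _
      have h2 := (((h1.const_mul (1 / 2 * r⁻¹ ^ 3)).const_sub (r⁻¹))).add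
        ((h1.pow 2).const_mul (3 / 8 * r⁻¹ ^ 5))
      refine h2.congr_deriv ?_
      push_cast
      ring)
    (by simp [Real.sqrt_sq hr.le])
    (by simp [Real.sqrt_sq hr.le]) u
  exact h

theorem S4_d2 {r : ℝ} (hr : 0 < r) (u : ℝ) : HasDerivAt (S4_H1 r) (S4_H2 r u) u := by
  have h := S4_glue (a := r ^ 2) (p := fun x => -(1 / 2) * (Real.sqrt x)⁻¹ ^ 3)
    (q := fun x => -(1 / 2) * r⁻¹ ^ 3 + 3 / 4 * r⁻¹ ^ 5 * (x - r ^ 2))
    (p' := fun x => 3 / 4 * (Real.sqrt x)⁻¹ ^ 5)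
    (q' := fun _ => 3 / 4 * r⁻¹ ^ 5)
    (fun x hx => by
      have h1 := ((S4_dinvsqrt (lt_of_lt_of_le (by positivity) hx)).pow 3).const_mul (-(1 / 2))
      refine h1.congr_deriv ?_
      push_cast
      ring)
    (fun x => by
      have h1 : HasDerivAt (fun x : ℝ => x - r ^ 2) 1 x := (hasDerivAt_id x).sub_const _
      have h2 := (h1.const_mul (3 / 4 * r⁻¹ ^ 5)).const_add (-(1 / 2) * r⁻¹ ^ 3)
      refine h2.congr_deriv ?_
      ring)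
    (by simp [Real.sqrt_sq hr.le])
    (by simp [Real.sqrt_sq hr.le]) u
  exact h

theorem S4_H2eq {r : ℝ} (hr : 0 < r) (u : ℝ) :
    S4_H2 r u = 3 / 4 * (Real.sqrt (max u (r ^ 2)))⁻¹ ^ 5 := by
  unfold S4_H2
  split_ifs with h
  · rw [max_eq_left h]
  · rw [max_eq_right (not_le.1 h).le, Real.sqrt_sq hr.le]

theorem S4_H2cont {r : ℝ} (hr : 0 < r) : Continuous (S4_H2 r) := by
  have e : S4_H2 r = fun u => 3 / 4 * (Real.sqrt (max u (r ^ 2)))⁻¹ ^ 5 := by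
    funext u
    exact S4_H2eq hr u
  rw [e]
  have h1 : Continuous fun u : ℝ => Real.sqrt (max u (r ^ 2)) :=
    Real.continuous_sqrt.comp (continuous_id.max continuous_const)
  have h2 : ∀ u : ℝ, Real.sqrt (max u (r ^ 2)) ≠ 0 := fun u =>
    (Real.sqrt_pos.2 (lt_of_lt_of_le (by positivity) (le_max_right _ _))).ne'
  exact continuous_const.mul ((h1.inv₀ h2).pow 5)

theorem S4_HHc2 {r : ℝ} (hr : 0 < r) : ContDiff ℝ 2 (HH r) := by
  have e1 : deriv (HH r) = S4_H1 r := by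
    funext u
    exact (S4_d1 hr u).deriv
  have e2 : deriv (S4_H1 r) = S4_H2 r := by
    funext u
    exact (S4_d2 hr u).deriv
  have h2 : (2 : WithTop ℕ∞) = 1 + 1 := by norm_num
  rw [h2, contDiff_succ_iff_deriv]
  refine ⟨fun u => (S4_d1 hr u).differentiableAt, by simp, ?_⟩
  rw [e1, contDiff_one_iff_deriv]
  refine ⟨fun u => (S4_d2 hr u).differentiableAt, ?_⟩
  rw [e2]
  exact S4_H2cont hr

theorem S4_sqle {r : ℝ} (hr : 0 < r) {z : E3} (hz : r ≤ ‖z‖) : r ^ 2 ≤ ‖z‖ ^ 2 :=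
  pow_le_pow_left₀ hr.le hz 2

theorem NN_eq {r : ℝ} (hr : 0 < r) {z : E3} (hz : r ≤ ‖z‖) : NN r z = ‖z‖⁻¹ := by
  unfold NN HH
  rw [if_pos (S4_sqle hr hz), Real.sqrt_sq (norm_nonneg z)]

theorem NN_ge {r : ℝ} (hr : 0 < r) {z : E3} (hz : ‖z‖ ≤ r) : r⁻¹ ≤ NN r z := by
  have hri : 0 < r⁻¹ := inv_pos.2 hr
  rcases hz.lt_or_eq with h | h
  · have hlt : ‖z‖ ^ 2 < r ^ 2 := pow_lt_pow_left₀ h (norm_nonneg z) (by norm_num)
    unfold NN HH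
    rw [if_neg (not_le.2 hlt)]
    have h1 : 0 ≤ 1 / 2 * r⁻¹ ^ 3 * (r ^ 2 - ‖z‖ ^ 2) :=
      mul_nonneg (by positivity) (sub_nonneg.2 hlt.le)
    have h2 : 0 ≤ 3 / 8 * r⁻¹ ^ 5 * (‖z‖ ^ 2 - r ^ 2) ^ 2 := by positivity
    nlinarith [h1, h2]
  · rw [NN_eq hr h.ge, h]

theorem NN_c2 {r : ℝ} (hr : 0 < r) : ContDiff ℝ 2 (NN r) := by
  have h : NN r = HH r ∘ fun z : E3 => ‖z‖ ^ 2 := rfl
  rw [h]
  exact (S4_HHc2 hr).comp (contDiff_norm_sq ℝ)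

theorem S4_hasFD {r : ℝ} (hr : 0 < r) (z : E3) :
    HasFDerivAt (NN r) (S4_H1 r (‖z‖ ^ 2) • (2 • (innerSL ℝ z))) z := by
  have h1 : HasFDerivAt (fun z : E3 => ‖z‖ ^ 2) (2 • (innerSL ℝ z)) z :=
    (hasStrictFDerivAt_norm_sq z).hasFDerivAt
  exact (S4_d1 hr (‖z‖ ^ 2)).comp_hasFDerivAt z h1

theorem S4_inner_ee (z : E3) (i : Fin 3) : inner ℝ z (ee i) = z i := by
  unfold ee
  rw [EuclideanSpace.inner_single_right]
  simp

theorem S4_norm_ee (i : Fin 3) : ‖ee i‖ = 1 := by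
  unfold ee
  simp

theorem S4_pd {r : ℝ} (hr : 0 < r) (z : E3) (i : Fin 3) :
    pd i (NN r) z = 2 * S4_H1 r (‖z‖ ^ 2) * z i := by
  unfold pd
  rw [(S4_hasFD hr z).fderiv]
  simp only [_root_.smul_apply, innerSL_apply_apply, S4_inner_ee, smul_eq_mul,
    nsmul_eq_mul]
  push_cast
  ring

theorem NN_pd {r : ℝ} (hr : 0 < r) {z : E3} (hz : r ≤ ‖z‖) (i : Fin 3) :
    pd i (NN r) z = -(‖z‖⁻¹ ^ 3 * z i) := by
  rw [S4_pd hr, S4_H1, if_pos (S4_sqle hr hz), Real.sqrt_sq (norm_nonneg z)]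
  ring

theorem S4_abs_coord (z : E3) (i : Fin 3) : |z i| ≤ ‖z‖ := by
  rw [← S4_inner_ee z i]
  refine (abs_real_inner_le_norm z (ee i)).trans ?_
  rw [S4_norm_ee, mul_one]

/-- bound for the first derivative -/
theorem S4_H1bd {r : ℝ} (hr : 0 < r) {s : ℝ} (hs : 0 ≤ s) :
    |S4_H1 r (s ^ 2)| * s ≤ 5 / 4 * r⁻¹ ^ 2 ∧ |S4_H1 r (s ^ 2)| ≤ 5 / 4 * r⁻¹ ^ 3 := by
  have hri : 0 < r⁻¹ := inv_pos.2 hr
  by_cases h : r ≤ s
  · have h2 : r ^ 2 ≤ s ^ 2 := pow_le_pow_left₀ hr.le h 2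
    have hs0 : 0 < s := hr.trans_le h
    have hsi : s⁻¹ ≤ r⁻¹ := inv_anti₀ hr h
    have hsi0 : 0 < s⁻¹ := inv_pos.2 hs0
    rw [S4_H1, if_pos h2, Real.sqrt_sq hs]
    have e : |-(1 / 2) * s⁻¹ ^ 3| = 1 / 2 * s⁻¹ ^ 3 := by
      rw [abs_of_nonpos (by nlinarith [pow_pos hsi0 3])]
      ring
    rw [e]
    constructor
    · have e2 : 1 / 2 * s⁻¹ ^ 3 * s = 1 / 2 * s⁻¹ ^ 2 := by
        field_simp
      rw [e2]
      have := pow_le_pow_left₀ hsi0.le hsi 2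
      nlinarith [pow_pos hri 2]
    · have := pow_le_pow_left₀ hsi0.le hsi 3
      nlinarith [pow_pos hri 3]
  · have hlt : s < r := not_le.1 h
    have h2 : s ^ 2 < r ^ 2 := pow_lt_pow_left₀ hlt hs (by norm_num)
    have hb : |S4_H1 r (s ^ 2)| ≤ 5 / 4 * r⁻¹ ^ 3 := by
      rw [S4_H1, if_neg (not_le.2 h2)]
      have e5 : r⁻¹ ^ 5 * r ^ 2 = r⁻¹ ^ 3 := by
        field_simp
      have h3 : 0 ≤ r⁻¹ ^ 5 * s ^ 2 := by positivity
      have h4 : r⁻¹ ^ 5 * s ^ 2 ≤ r⁻¹ ^ 5 * r ^ 2 :=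
        mul_le_mul_of_nonneg_left h2.le (by positivity)
      rw [abs_le]
      constructor
      · nlinarith [pow_pos hri 3]
      · nlinarith [pow_pos hri 3]
    refine ⟨?_, hb⟩
    calc |S4_H1 r (s ^ 2)| * s ≤ 5 / 4 * r⁻¹ ^ 3 * r :=
          mul_le_mul hb hlt.le hs (by positivity)
      _ = 5 / 4 * r⁻¹ ^ 2 := by field_simp

/-- bound for the second derivative -/
theorem S4_H2bd {r : ℝ} (hr : 0 < r) {s : ℝ} (hs : 0 ≤ s) :
    0 ≤ S4_H2 r (s ^ 2) ∧ S4_H2 r (s ^ 2) * s ^ 2 ≤ 3 / 4 * r⁻¹ ^ 3 := by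
  have hri : 0 < r⁻¹ := inv_pos.2 hr
  by_cases h : r ≤ s
  · have h2 : r ^ 2 ≤ s ^ 2 := pow_le_pow_left₀ hr.le h 2
    have hs0 : 0 < s := hr.trans_le h
    have hsi : s⁻¹ ≤ r⁻¹ := inv_anti₀ hr h
    have hsi0 : 0 < s⁻¹ := inv_pos.2 hs0
    rw [S4_H2, if_pos h2, Real.sqrt_sq hs]
    refine ⟨by positivity, ?_⟩
    have e2 : 3 / 4 * s⁻¹ ^ 5 * s ^ 2 = 3 / 4 * s⁻¹ ^ 3 := by
      field_simp
    rw [e2]
    have := pow_le_pow_left₀ hsi0.le hsi 3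
    nlinarith [pow_pos hri 3]
  · have hlt : s < r := not_le.1 h
    have h2 : s ^ 2 < r ^ 2 := pow_lt_pow_left₀ hlt hs (by norm_num)
    rw [S4_H2, if_neg (not_le.2 h2)]
    refine ⟨by positivity, ?_⟩
    have e5 : 3 / 4 * r⁻¹ ^ 5 * r ^ 2 = 3 / 4 * r⁻¹ ^ 3 := by
      field_simp
    rw [← e5]
    exact mul_le_mul_of_nonneg_left h2.le (by positivity)

theorem S4_bd {r : ℝ} (hr : 0 < r) (z : E3) : |NN r z| ≤ 2 * r⁻¹ := by
  have hri : 0 < r⁻¹ := inv_pos.2 hr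
  by_cases h : r ≤ ‖z‖
  · rw [NN_eq hr h]
    have hsi : ‖z‖⁻¹ ≤ r⁻¹ := inv_anti₀ hr h
    rw [abs_of_nonneg (inv_nonneg.2 (norm_nonneg z))]
    linarith
  · have hlt := not_le.1 h
    have h2 : ‖z‖ ^ 2 < r ^ 2 := pow_lt_pow_left₀ hlt (norm_nonneg z) (by norm_num)
    have hge := NN_ge hr hlt.le
    rw [abs_of_nonneg (hri.le.trans hge)]
    unfold NN HH
    rw [if_neg (not_le.2 h2)]
    have e3 : r⁻¹ ^ 3 * r ^ 2 = r⁻¹ := by field_simp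
    have e5 : r⁻¹ ^ 5 * (r ^ 2) ^ 2 = r⁻¹ := by field_simp
    have hz0 : 0 ≤ ‖z‖ ^ 2 := by positivity
    have h3 : r⁻¹ ^ 3 * (r ^ 2 - ‖z‖ ^ 2) ≤ r⁻¹ ^ 3 * r ^ 2 :=
      mul_le_mul_of_nonneg_left (by linarith) (by positivity)
    have h5 : r⁻¹ ^ 5 * (r ^ 2 - ‖z‖ ^ 2) ^ 2 ≤ r⁻¹ ^ 5 * (r ^ 2) ^ 2 :=
      mul_le_mul_of_nonneg_left
        (pow_le_pow_left₀ (by linarith) (by linarith) 2) (by positivity)
    have e6 : (‖z‖ ^ 2 - r ^ 2) ^ 2 = (r ^ 2 - ‖z‖ ^ 2) ^ 2 := by ring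
    rw [e6]
    nlinarith [h3, h5, e3, e5]

theorem S4_lip {r : ℝ} (hr : 0 < r) (z h : E3) :
    |NN r (z + h) - NN r z| ≤ 5 / 2 * r⁻¹ ^ 2 * ‖h‖ := by
  have hb : ∀ x ∈ (univ : Set E3), ‖S4_H1 r (‖x‖ ^ 2) • (2 • (innerSL ℝ x))‖ ≤
      5 / 2 * r⁻¹ ^ 2 := by
    intro x _
    rw [norm_smul, Real.norm_eq_abs]
    have h2 : ‖(2 : ℕ) • (innerSL ℝ x)‖ ≤ 2 * ‖x‖ := by
      rw [← Nat.cast_smul_eq_nsmul ℝ, norm_smul, innerSL_apply_norm]
      simp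
    calc |S4_H1 r (‖x‖ ^ 2)| * ‖(2 : ℕ) • (innerSL ℝ x)‖
        ≤ |S4_H1 r (‖x‖ ^ 2)| * (2 * ‖x‖) := mul_le_mul_of_nonneg_left h2 (abs_nonneg _)
      _ = 2 * (|S4_H1 r (‖x‖ ^ 2)| * ‖x‖) := by ring
      _ ≤ 2 * (5 / 4 * r⁻¹ ^ 2) :=
          mul_le_mul_of_nonneg_left (S4_H1bd hr (norm_nonneg x)).1 (by norm_num)
      _ = 5 / 2 * r⁻¹ ^ 2 := by ring
  have key := convex_univ.norm_image_sub_le_of_norm_hasFDerivWithin_le
    (fun x _ => (S4_hasFD hr x).hasFDerivWithinAt) hb (mem_univ z) (mem_univ (z + h))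
  rw [Real.norm_eq_abs] at key
  simpa using key

theorem S4_line {r : ℝ} (hr : 0 < r) (z : E3) (i : Fin 3) (t : ℝ) :
    HasDerivAt (fun s : ℝ => NN r (z + s • ee i)) (pd i (NN r) (z + t • ee i)) t := by
  have h1 : HasDerivAt (fun s : ℝ => z + s • ee i) (ee i) t := by
    have := ((hasDerivAt_id t).smul_const (ee i)).const_add z
    simpa using this
  have h2 := (S4_hasFD hr (z + t • ee i)).comp_hasDerivAt t h1
  unfold pd
  rw [(S4_hasFD hr (z + t • ee i)).fderiv]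
  exact h2

/-- the function `u ↦ 2 H₁(|w|²) w_i` along the line is Lipschitz -/
theorem S4_pdlip {r : ℝ} (hr : 0 < r) (z : E3) (i : Fin 3) (t : ℝ) :
    |pd i (NN r) (z + t • ee i) - pd i (NN r) z| ≤ 11 / 2 * r⁻¹ ^ 3 * |t| := by
  have hri : 0 < r⁻¹ := inv_pos.2 hr
  have hd : ∀ s : ℝ, HasDerivAt (fun s : ℝ => pd i (NN r) (z + s • ee i))
      (2 * (S4_H2 r (‖z + s • ee i‖ ^ 2) * (2 * (z + s • ee i) i)) * (z + s • ee i) i +
        2 * S4_H1 r (‖z + s • ee i‖ ^ 2) * 1) s := by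
    intro s
    have e : (fun s : ℝ => pd i (NN r) (z + s • ee i)) =
        fun s : ℝ => 2 * S4_H1 r (‖z + s • ee i‖ ^ 2) * (z + s • ee i) i := by
      funext s
      exact S4_pd hr _ i
    rw [e]
    have h1 : HasDerivAt (fun s : ℝ => z + s • ee i) (ee i) s := by
      have := ((hasDerivAt_id s).smul_const (ee i)).const_add z
      simpa using this
    have h2 : HasDerivAt (fun s : ℝ => ‖z + s • ee i‖ ^ 2) (2 * (z + s • ee i) i) s := by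
      have h3 := (hasStrictFDerivAt_norm_sq (z + s • ee i)).hasFDerivAt.comp_hasDerivAt s h1
      refine h3.congr_deriv ?_
      simp only [_root_.smul_apply, innerSL_apply_apply, S4_inner_ee,
        nsmul_eq_mul]
      push_cast
      ring
    have h4 : HasDerivAt (S4_H1 r ∘ fun s : ℝ => ‖z + s • ee i‖ ^ 2)
        (S4_H2 r (‖z + s • ee i‖ ^ 2) * (2 * (z + s • ee i) i)) s :=
      HasDerivAt.comp s (S4_d2 hr (‖z + s • ee i‖ ^ 2)) h2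
    have h5 : HasDerivAt (fun s : ℝ => (z + s • ee i) i) 1 s := by
      have e5 : (fun s : ℝ => (z + s • ee i) i) = fun s : ℝ => z i + s := by
        funext s
        simp [ee]
      rw [e5]
      exact (hasDerivAt_id s).const_add (z i)
    exact (h4.const_mul 2).mul h5
  have hb : ∀ s ∈ (univ : Set ℝ),
      ‖2 * (S4_H2 r (‖z + s • ee i‖ ^ 2) * (2 * (z + s • ee i) i)) * (z + s • ee i) i +
        2 * S4_H1 r (‖z + s • ee i‖ ^ 2) * 1‖ ≤ 11 / 2 * r⁻¹ ^ 3 := by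
    intro s _
    set w := z + s • ee i with hw
    have h1 := S4_H1bd hr (norm_nonneg w)
    have h2 := S4_H2bd hr (norm_nonneg w)
    have h3 : (w i) ^ 2 ≤ ‖w‖ ^ 2 := by
      rw [← sq_abs (w i)]
      exact pow_le_pow_left₀ (abs_nonneg _) (S4_abs_coord w i) 2
    have h4 : S4_H2 r (‖w‖ ^ 2) * (w i) ^ 2 ≤ 3 / 4 * r⁻¹ ^ 3 :=
      (mul_le_mul_of_nonneg_left h3 h2.1).trans h2.2
    have h5 : 0 ≤ S4_H2 r (‖w‖ ^ 2) * (w i) ^ 2 := mul_nonneg h2.1 (sq_nonneg _)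
    have h6 := abs_le.1 h1.2
    rw [Real.norm_eq_abs, abs_le]
    have e : 2 * (S4_H2 r (‖w‖ ^ 2) * (2 * w i)) * w i + 2 * S4_H1 r (‖w‖ ^ 2) * 1 =
        4 * (S4_H2 r (‖w‖ ^ 2) * (w i) ^ 2) + 2 * S4_H1 r (‖w‖ ^ 2) := by ring
    rw [e]
    have hr3 := pow_pos hri 3
    constructor
    · linarith [h6.1]
    · linarith [h6.2]
  have key := convex_univ.norm_image_sub_le_of_norm_hasDerivWithin_le
    (fun s _ => (hd s).hasDerivWithinAt) hb (mem_univ 0) (mem_univ t)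
  simp only [zero_smul, add_zero, sub_zero, Real.norm_eq_abs] at key
  exact key

theorem S4_taylor {r : ℝ} (hr : 0 < r) (z : E3) (i : Fin 3) (t : ℝ) :
    |NN r (z + t • ee i) - NN r z - t * pd i (NN r) z| ≤ 11 / 2 * r⁻¹ ^ 3 * t ^ 2 := by
  have hri : 0 < r⁻¹ := inv_pos.2 hr
  have hd : ∀ s ∈ Icc (-|t|) |t|, HasDerivWithinAt
      (fun s : ℝ => NN r (z + s • ee i) - s * pd i (NN r) z)
      (pd i (NN r) (z + s • ee i) - pd i (NN r) z) (Icc (-|t|) |t|) s := by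
    intro s _
    have h1 := (S4_line hr z i s).sub ((hasDerivAt_id s).mul_const (pd i (NN r) z))
    refine HasDerivAt.hasDerivWithinAt ?_
    refine h1.congr_deriv ?_
    rw [one_mul]
  have hb : ∀ s ∈ Icc (-|t|) |t|, ‖pd i (NN r) (z + s • ee i) - pd i (NN r) z‖ ≤
      11 / 2 * r⁻¹ ^ 3 * |t| := by
    intro s hs
    rw [Real.norm_eq_abs]
    exact (S4_pdlip hr z i s).trans
      (mul_le_mul_of_nonneg_left (abs_le.2 hs) (by positivity))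
  have h0 : (0 : ℝ) ∈ Icc (-|t|) |t| := ⟨by simp, abs_nonneg t⟩
  have ht : t ∈ Icc (-|t|) |t| := ⟨neg_abs_le t, le_abs_self t⟩
  have key := (convex_Icc (-|t|) |t|).norm_image_sub_le_of_norm_hasDerivWithin_le hd hb h0 ht
  simp only [zero_smul, add_zero, sub_zero, zero_mul, Real.norm_eq_abs] at key
  have e1 : NN r (z + t • ee i) - NN r z - t * pd i (NN r) z =
      NN r (z + t • ee i) - t * pd i (NN r) z - NN r z := by ring
  rw [e1]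
  refine key.trans (le_of_eq ?_)
  rw [mul_assoc, ← sq, sq_abs]

theorem NN_bounds {r : ℝ} (hr : 0 < r) : ∃ C : ℝ, 0 < C ∧ (∀ z, |NN r z| ≤ C) ∧
    (∀ z i, |pd i (NN r) z| ≤ C) ∧
    (∀ z h, |NN r (z + h) - NN r z| ≤ C * ‖h‖) ∧
    (∀ z i (t : ℝ), |NN r (z + t • ee i) - NN r z - t * pd i (NN r) z| ≤ C * t ^ 2) := by
  have hri : 0 < r⁻¹ := inv_pos.2 hr
  have hr2 := pow_pos hri 2
  have hr3 := pow_pos hri 3
  refine ⟨2 * r⁻¹ + 5 / 2 * r⁻¹ ^ 2 + 11 / 2 * r⁻¹ ^ 3, by positivity, fun z => ?_,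
    fun z i => ?_, fun z h => ?_, fun z i t => ?_⟩
  · refine (S4_bd hr z).trans ?_
    nlinarith
  · rw [S4_pd hr, abs_mul, abs_mul]
    have h1 := S4_H1bd hr (norm_nonneg z)
    have h2 := S4_abs_coord z i
    have h3 : |S4_H1 r (‖z‖ ^ 2)| * |z i| ≤ 5 / 4 * r⁻¹ ^ 2 :=
      (mul_le_mul_of_nonneg_left h2 (abs_nonneg _)).trans h1.1
    have e : |(2 : ℝ)| * |S4_H1 r (‖z‖ ^ 2)| * |z i| = 2 * (|S4_H1 r (‖z‖ ^ 2)| * |z i|) := by
      rw [abs_of_pos (by norm_num : (0 : ℝ) < 2)]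
      ring
    rw [e]
    nlinarith
  · refine (S4_lip hr z h).trans (mul_le_mul_of_nonneg_right ?_ (norm_nonneg h))
    nlinarith
  · refine (S4_taylor hr z i t).trans (mul_le_mul_of_nonneg_right ?_ (sq_nonneg t))
    nlinarith

end Pool.Agent.H36.LN
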