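import Pool.Agent.H36.LN.S1
import Pool.Agent.H36.LN.S2
import Pool.Agent.H36.LN.S4
import Pool.Agent.H36.LN.P3b

/-!
# LN-S5: existence, uniqueness and first properties of the solution `mm ρ β x M`

* `pot_sup`: `pot ρ` is bounded (`pot_bound`).
* `IsSol.trunc`: let `U = pot(ρ m) ≤ pot ρ ≤ S`. For `‖y-x‖ ≥ r₀`, `NN r₀ (y-x) = ‖y-x‖⁻¹` (so `y ≠ x`). For `‖y-x‖ < r₀` both sides are `1`: `M NN r₀(y-x) - U ≥ M/r₀ - S ≥ ε`,
  and, if `y ≠ x`, `M‖y-x‖⁻¹ - U ≥ M/r₀ - S ≥ ε`; `m x = 1`.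
* `IsSol.of_trunc`: converse.
* `sol_exists`: `fix_exists` with `s y = M * NN r₀ (y-x)`, `r₀ = M/(ε+S)`; `s` is bounded on the support of `ρ` (`L2.of_bdd`); the solution is measurable.
* `sol_unique`: `lip_lemma` with `K = 0` for the truncated equations: equal on `{ρ ≠ 0}`, so equal potentials, so equal everywhere.
-/

open MeasureTheory Set
open scoped NNReal

namespace Pool.Agent.H36.LN

variable {ρ : E3 → ℝ} {ε : ℝ} {β : ℝ → ℝ}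

theorem pot_sup (hρ : Wt ρ) : ∃ S : ℝ, 0 < S ∧ ∀ y, pot ρ y ≤ S := by
  obtain ⟨R, hR⟩ := hρ.bcs.supp
  obtain ⟨B, hB⟩ := hρ.bcs.bdd
  obtain ⟨C, hC, hb⟩ := pot_bound R
  have hB0 : 0 ≤ B := (abs_nonneg _).trans (hB 0)
  refine ⟨C * B + 1, by positivity, fun y => ?_⟩
  have h1 := (hb ρ B hρ.bcs.meas hB hR y).1
  have h2 : (1 + ‖y‖)⁻¹ ≤ 1 := inv_le_one_of_one_le₀ (by linarith [norm_nonneg y])
  have h3 : C * B * (1 + ‖y‖)⁻¹ ≤ C * B * 1 := mul_le_mul_of_nonneg_left h2 (by positivity)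
  have h4 := le_abs_self (pot ρ y)
  linarith

theorem IsSol.mem (hβ : Beta ε β) {x : E3} {M : ℝ} {m : E3 → ℝ} (h : IsSol ρ β x M m) (y : E3) :
    0 ≤ m y ∧ m y ≤ 1 := by
  by_cases hy : y = x
  · rw [hy, h.atx]
    exact ⟨zero_le_one, le_rfl⟩
  · rw [h.eq y hy]
    exact hβ.mem _

/-- the weight times a function with values in `[0,1]` -/
theorem bcs_mul (hρ : Wt ρ) {m : E3 → ℝ} (hm : Measurable m) (h : ∀ y, 0 ≤ m y ∧ m y ≤ 1) :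
    BCS (fun z => ρ z * m z) := by
  obtain ⟨R, hR⟩ := hρ.bcs.supp
  obtain ⟨B, hB⟩ := hρ.bcs.bdd
  refine ⟨hρ.bcs.meas.mul hm, ⟨B, fun z => ?_⟩, ⟨R, fun z hz => ?_⟩⟩
  · rw [abs_mul, abs_of_nonneg (h z).1]
    calc |ρ z| * m z ≤ |ρ z| * 1 := mul_le_mul_of_nonneg_left (h z).2 (abs_nonneg _)
      _ ≤ B := by rw [mul_one]; exact hB z
  · simp only [hR z hz, zero_mul]

theorem pot_mul_le (hρ : Wt ρ) {m : E3 → ℝ} (hm : Measurable m) (h : ∀ y, 0 ≤ m y ∧ m y ≤ 1)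
    (y : E3) : pot (fun z => ρ z * m z) y ≤ pot ρ y := by
  refine pot_mono (bcs_mul hρ hm h) hρ.bcs (fun z => ?_) y
  calc ρ z * m z ≤ ρ z * 1 := mul_le_mul_of_nonneg_left (h z).2 (hρ.nonneg z)
    _ = ρ z := mul_one _

theorem S5_inv {S M r₀ : ℝ} (h0 : 0 < r₀) (hr : r₀ * (ε + S) ≤ M) (hM : 0 ≤ M) {t : ℝ}
    (ht : r₀⁻¹ ≤ t) : ε + S ≤ M * t := by
  have h1 : ε + S ≤ M * r₀⁻¹ := by
    rw [← div_eq_mul_inv, le_div_iff₀ h0]
    linarith [mul_comm r₀ (ε + S)]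
  exact h1.trans (mul_le_mul_of_nonneg_left ht hM)

theorem S5_one (hρ : Wt ρ) (hβ : Beta ε β) {S : ℝ} (hS : ∀ y, pot ρ y ≤ S) {M r₀ : ℝ}
    (h0 : 0 < r₀) (hr : r₀ * (ε + S) ≤ M) (hM : 0 ≤ M) {m : E3 → ℝ} (hm : Measurable m)
    (h : ∀ y, 0 ≤ m y ∧ m y ≤ 1) (y : E3) {t : ℝ} (ht : r₀⁻¹ ≤ t) :
    β (M * t - pot (fun z => ρ z * m z) y) = 1 := by
  refine hβ.one _ ?_
  have h1 := S5_inv h0 hr hM ht
  have h2 := pot_mul_le hρ hm h y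
  have h3 := hS y
  linarith

theorem S5_M (hρ : Wt ρ) (hβ : Beta ε β) {S : ℝ} (hS : ∀ y, pot ρ y ≤ S) {M r₀ : ℝ}
    (h0 : 0 < r₀) (hr : r₀ * (ε + S) ≤ M) : 0 ≤ M := by
  have h1 : 0 ≤ S := (pot_nonneg hρ.nonneg 0).trans (hS 0)
  have h2 := hβ.eps
  exact le_trans (by positivity) hr

theorem IsSol.trunc (hρ : Wt ρ) (hβ : Beta ε β) {S : ℝ} (hS : ∀ y, pot ρ y ≤ S) {x : E3} {M : ℝ}
    {m : E3 → ℝ} (h : IsSol ρ β x M m) {r₀ : ℝ} (h0 : 0 < r₀) (hr : r₀ * (ε + S) ≤ M) (y : E3) :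
    m y = β (M * NN r₀ (y - x) - pot (fun z => ρ z * m z) y) := by
  have hM := S5_M hρ hβ hS h0 hr
  have hmem := fun z => h.mem hβ z
  by_cases hy : r₀ ≤ ‖y - x‖
  · have hne : y ≠ x := by
      rintro rfl
      rw [sub_self, norm_zero] at hy
      linarith
    rw [NN_eq h0 hy]
    exact h.eq y hne
  · have hy' : ‖y - x‖ ≤ r₀ := (not_le.1 hy).le
    rw [S5_one hρ hβ hS h0 hr hM h.meas hmem y (NN_ge h0 hy')]
    by_cases hne : y = x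
    · rw [hne, h.atx]
    · rw [h.eq y hne]
      refine S5_one hρ hβ hS h0 hr hM h.meas hmem y (inv_anti₀ ?_ hy')
      exact norm_pos_iff.2 (sub_ne_zero.2 hne)

theorem sol_exists (hρ : Wt ρ) (hβ : Beta ε β) (x : E3) {M : ℝ} (hM : 0 < M) :
    ∃ m, IsSol ρ β x M m := by
  obtain ⟨S, hS0, hS⟩ := pot_sup hρ
  have hε := hβ.eps
  have hd : 0 < ε + S := by positivity
  set r₀ : ℝ := M / (ε + S) with hr₀
  have h0 : 0 < r₀ := div_pos hM hd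
  have hr : r₀ * (ε + S) ≤ M := by rw [hr₀, div_mul_cancel₀ _ hd.ne']
  obtain ⟨L, hL, hlip, -, -, -⟩ := hβ.bounds
  obtain ⟨C, hC, hb, -, -, -⟩ := NN_bounds h0
  have hLip : LipschitzWith (⟨L, hL.le⟩ : ℝ≥0) β := by
    refine LipschitzWith.of_dist_le_mul fun s t => ?_
    rw [Real.dist_eq, Real.dist_eq]
    exact hlip s t
  have hNN : Measurable (NN r₀) := (NN_c2 h0).continuous.measurable
  have hs : L2 ρ (fun y => M * NN r₀ (y - x)) := by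
    refine L2.of_bdd hρ ((hNN.comp (measurable_id.sub_const x)).const_mul M) (C := M * C)
      (fun z _ => ?_)
    rw [abs_mul, abs_of_pos hM]
    exact mul_le_mul_of_nonneg_left (hb _) hM.le
  obtain ⟨m, hm2, hm⟩ := fix_exists hρ hβ.mono hLip hs
  have hmem : ∀ y, 0 ≤ m y ∧ m y ≤ 1 := fun y => by
    rw [hm y]
    exact hβ.mem _
  refine ⟨m, hm2.meas, ?_, fun y hy => ?_⟩
  · rw [hm x]
    refine S5_one hρ hβ hS h0 hr hM.le hm2.meas hmem x (NN_ge h0 ?_)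
    rw [sub_self, norm_zero]
    exact h0.le
  · by_cases hyr : r₀ ≤ ‖y - x‖
    · rw [← NN_eq h0 hyr]
      exact hm y
    · have hy' : ‖y - x‖ ≤ r₀ := (not_le.1 hyr).le
      have h1 : m y = 1 := by
        rw [hm y]
        exact S5_one hρ hβ hS h0 hr hM.le hm2.meas hmem y (NN_ge h0 hy')
      rw [h1, S5_one hρ hβ hS h0 hr hM.le hm2.meas hmem y (inv_anti₀ ?_ hy')]
      exact norm_pos_iff.2 (sub_ne_zero.2 hy)

theorem sol_unique (hρ : Wt ρ) (hβ : Beta ε β) {x : E3} {M : ℝ} (hM : 0 < M) {m m' : E3 → ℝ}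
    (h : IsSol ρ β x M m) (h' : IsSol ρ β x M m') : m = m' := by
  obtain ⟨S, hS0, hS⟩ := pot_sup hρ
  have hε := hβ.eps
  have hd : 0 < ε + S := by positivity
  set r₀ : ℝ := M / (ε + S) with hr₀
  have h0 : 0 < r₀ := div_pos hM hd
  have hr : r₀ * (ε + S) ≤ M := by rw [hr₀, div_mul_cancel₀ _ hd.ne']
  obtain ⟨L, hL, hlip, -, -, -⟩ := hβ.bounds
  obtain ⟨C, hC, hl⟩ := lip_lemma hρ hβ.mono hL hlip
  have hm := fun y => h.trunc hρ hβ hS h0 hr y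
  have hm' := fun y => h'.trunc hρ hβ hS h0 hr y
  have hbd : ∀ {f : E3 → ℝ}, IsSol ρ β x M f → L2 ρ f := fun hf =>
    L2.of_bdd hρ hf.meas (C := 1) (fun z _ => by
      rw [abs_of_nonneg (hf.mem hβ z).1]
      exact (hf.mem hβ z).2)
  have key := hl 0 (fun y => M * NN r₀ (y - x)) (fun y => M * NN r₀ (y - x)) m m' le_rfl
    (hbd h) (hbd h') (fun y _ => hm y) (fun y _ => hm' y) (fun y _ => by simp)
  funext y
  have h2 := key.2 y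
  rw [mul_zero] at h2
  have h3 := abs_nonpos_iff.1 h2
  rw [hm y, hm' y, sub_eq_zero.1 h3]

theorem mm_sol (hρ : Wt ρ) (hβ : Beta ε β) (x : E3) {M : ℝ} (hM : 0 < M) :
    IsSol ρ β x M (mm ρ β x M) := by
  have h := sol_exists hρ hβ x hM
  unfold mm
  rw [dif_pos h]
  exact h.choose_spec

end Pool.Agent.H36.LN
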