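import Pool.Agent.H36.LN.S5

/-!
# LN-S5b: first properties of the solution `mm ρ β x M`

From `mm_sol`: `0 ≤ β ≤ 1`, `β(ψ) ≤ L ψ₊ ≤ L M‖y-x‖⁻¹`, `pot_mono`, `pot_nonneg`; near `x`: `M‖y-x‖⁻¹ - U ≥ (ε+S) - S = ε` when `‖y-x‖(ε+S) ≤ M`, `y ≠ x` (`U ≤ pot ρ ≤ S`).
-/

open MeasureTheory Set

namespace Pool.Agent.H36.LN

variable {ρ : E3 → ℝ} {ε : ℝ} {β : ℝ → ℝ}

theorem mm_mem (hρ : Wt ρ) (hβ : Beta ε β) (x : E3) {M : ℝ} (hM : 0 < M) (y : E3) :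
    0 ≤ mm ρ β x M y ∧ mm ρ β x M y ≤ 1 :=
  (mm_sol hρ hβ x hM).mem hβ y

/-- `m = β(ψ)` away from `x` -/
theorem mm_eq (hρ : Wt ρ) (hβ : Beta ε β) (x : E3) {M : ℝ} (hM : 0 < M) {y : E3} (hy : y ≠ x) :
    mm ρ β x M y = β (psi ρ β x M y) :=
  (mm_sol hρ hβ x hM).eq y hy

theorem S5b_mu_mem (hρ : Wt ρ) (hβ : Beta ε β) (x : E3) {M : ℝ} (hM : 0 < M) (y : E3) :
    0 ≤ mu ρ β x M y ∧ mu ρ β x M y ≤ ρ y := by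
  have h := mm_mem hρ hβ x hM y
  exact ⟨mul_nonneg (hρ.nonneg y) h.1, mul_le_of_le_one_right (hρ.nonneg y) h.2⟩

theorem S5b_mu_bcs (hρ : Wt ρ) (hβ : Beta ε β) (x : E3) {M : ℝ} (hM : 0 < M) :
    BCS (mu ρ β x M) := by
  obtain ⟨C, hC⟩ := hρ.bcs.bdd
  obtain ⟨R, hR⟩ := hρ.bcs.supp
  refine ⟨hρ.bcs.meas.mul (mm_sol hρ hβ x hM).meas, ⟨C, fun y => ?_⟩, ⟨R, fun y hy => ?_⟩⟩
  · have h := S5b_mu_mem hρ hβ x hM y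
    rw [abs_of_nonneg h.1]
    exact h.2.trans ((le_abs_self _).trans (hC y))
  · simp only [mu, hR y hy, zero_mul]

theorem S5b_pot_mu_mem (hρ : Wt ρ) (hβ : Beta ε β) (x : E3) {M : ℝ} (hM : 0 < M) (y : E3) :
    0 ≤ pot (mu ρ β x M) y ∧ pot (mu ρ β x M) y ≤ pot ρ y :=
  ⟨pot_nonneg (fun z => (S5b_mu_mem hρ hβ x hM z).1) y,
    pot_mono (S5b_mu_bcs hρ hβ x hM) hρ.bcs (fun z => (S5b_mu_mem hρ hβ x hM z).2) y⟩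

/-- near `x`: `ψ ≥ ε` and `m = 1` -/
theorem psi_near (hρ : Wt ρ) (hβ : Beta ε β) {S : ℝ} (hS : ∀ y, pot ρ y ≤ S) (x : E3) {M : ℝ}
    (hM : 0 < M) {y : E3} (hy : y ≠ x) (h : ‖y - x‖ * (ε + S) ≤ M) :
    ε ≤ psi ρ β x M y := by
  have h0 : 0 < ‖y - x‖ := norm_pos_iff.2 (sub_ne_zero.2 hy)
  have h1 : ε + S ≤ M * ‖y - x‖⁻¹ := by
    rw [le_mul_inv_iff₀ h0, mul_comm]
    exact h
  have h2 := (S5b_pot_mu_mem hρ hβ x hM y).2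
  have h3 := hS y
  unfold psi
  linarith

theorem mm_near (hρ : Wt ρ) (hβ : Beta ε β) {S : ℝ} (hS : ∀ y, pot ρ y ≤ S) (x : E3) {M : ℝ}
    (hM : 0 < M) {y : E3} (h : ‖y - x‖ * (ε + S) ≤ M) : mm ρ β x M y = 1 := by
  by_cases hy : y = x
  · rw [hy]
    exact (mm_sol hρ hβ x hM).atx
  · rw [mm_eq hρ hβ x hM hy]
    exact hβ.one _ (psi_near hρ hβ hS x hM hy h)

theorem mu_bcs (hρ : Wt ρ) (hβ : Beta ε β) (x : E3) {M : ℝ} (hM : 0 < M) : BCS (mu ρ β x M) :=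
  S5b_mu_bcs hρ hβ x hM

theorem mu_mem (hρ : Wt ρ) (hβ : Beta ε β) (x : E3) {M : ℝ} (hM : 0 < M) (y : E3) :
    0 ≤ mu ρ β x M y ∧ mu ρ β x M y ≤ ρ y :=
  S5b_mu_mem hρ hβ x hM y

theorem pot_mu_mem (hρ : Wt ρ) (hβ : Beta ε β) (x : E3) {M : ℝ} (hM : 0 < M) (y : E3) :
    0 ≤ pot (mu ρ β x M) y ∧ pot (mu ρ β x M) y ≤ pot ρ y :=
  S5b_pot_mu_mem hρ hβ x hM y

/-- decay in `M/|y-x|`, with the constant `L` of `Beta.bounds` -/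
theorem mm_le {L : ℝ} (hL : ∀ s, 0 ≤ s → β s ≤ L * s) (hL0 : 0 ≤ L) (hρ : Wt ρ) (hβ : Beta ε β)
    (x : E3) {M : ℝ} (hM : 0 < M) {y : E3} (hy : y ≠ x) : mm ρ β x M y ≤ L * (M * ‖y - x‖⁻¹) := by
  rw [mm_eq hρ hβ x hM hy]
  have h1 := (pot_mu_mem hρ hβ x hM y).1
  have h2 : psi ρ β x M y ≤ M * ‖y - x‖⁻¹ := by
    unfold psi
    linarith
  rcases le_total 0 (psi ρ β x M y) with h | h
  · exact (hL _ h).trans (mul_le_mul_of_nonneg_left h2 hL0)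
  · rw [hβ.zero _ h]
    positivity

end Pool.Agent.H36.LN
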